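import Pool.Agent.PRR.Targets

/-!
The base statement in one variable.
-/

set_option autoImplicit false

namespace Pool.Agent.PRR

open Filter Topology

namespace BB

/-- the slope homomorphism -/
def phi (c : ℤ) : ℤ × ℤ →+ ℤ where
  toFun γ := γ.1 + c * γ.2
  map_zero' := by simp
  map_add' a b := by simp only [Prod.fst_add, Prod.snd_add]; ring

theorem map_phi (c : ℤ) (w : Bt (ℤ × ℤ)) : Bt.map (phi c) w = Bt.map (fun γ => γ.1 + c * γ.2) w :=
  rfl

/-- the diagonal embedding -/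
def dl : ℤ →+ ℤ × ℤ := AddMonoidHom.inl ℤ ℤ

theorem map_dl (q : Bt ℤ) : Bt.map dl q = Bt.map (fun a : ℤ => (a, (0 : ℤ))) q := rfl

theorem phi_dl (c : ℤ) (q : Bt ℤ) : Bt.map (phi c) (Bt.map dl q) = q := by
  rw [Bt.map_map]
  have h : (fun a => phi c (dl a)) = fun a => a := by
    funext a
    show a + c * 0 = a
    ring
  rw [h]
  exact Bt.map_id' q

theorem dl_idem : Bt.map dl u0 * Bt.map dl u0 = Bt.map dl u0 := by
  rw [← Bt.map_mul, hu0.1]

theorem ev_snd_left (q : Bt ℤ) (w : Bt (ℤ × ℤ)) (p : ℤ → Prop) :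
    (Bt.map dl q * w).Ev (fun γ => p γ.2) ↔ w.Ev (fun γ => p γ.2) := by
  rw [Bt.ev_mul, Bt.ev_map]
  have h : (fun a : ℤ => w.Ev (fun b => p (dl a + b).2)) = fun _ => w.Ev (fun γ => p γ.2) := by
    funext a
    have : (fun b : ℤ × ℤ => p (dl a + b).2) = fun γ => p γ.2 := by
      funext b
      show p (0 + b.2) = p b.2
      rw [zero_add]
    rw [this]
  rw [h, Bt.ev_const]

theorem ev_snd_right (q : Bt ℤ) (w : Bt (ℤ × ℤ)) (p : ℤ → Prop) :
    (w * Bt.map dl q).Ev (fun γ => p γ.2) ↔ w.Ev (fun γ => p γ.2) := by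
  rw [Bt.ev_mul]
  have h : (fun a : ℤ × ℤ => (Bt.map dl q).Ev (fun b => p (a + b).2)) = fun γ => p γ.2 := by
    funext a
    rw [Bt.ev_map]
    have : (fun b : ℤ => p (a + dl b).2) = fun _ => p a.2 := by
      funext b
      show p (a.2 + 0) = p a.2
      rw [add_zero]
    rw [this, Bt.ev_const]
  rw [h]

theorem ev_idem {e : Bt (ℤ × ℤ)} (he : e * e = e) (k : ℕ) (hk : 0 < k) :
    e.Ev (fun γ => (k : ℤ) ∣ γ.2) := by
  have : NeZero k := ⟨hk.ne'⟩
  have h := Bt.res_idem (A := ZMod k) (fun γ : ℤ × ℤ => ((γ.2 : ℤ) : ZMod k)) (by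
    intro a b; simp) he
  rw [Bt.res_eq_iff] at h
  exact h.mono fun γ hγ => (ZMod.intCast_zmod_eq_zero_iff_dvd _ _).mp hγ

end BB

open BB in
/-- The base statement in one variable. -/
theorem p_B (h1 : T_CLO) (h2 : T_INF) (h3 : T_NILJ) (h4 : T_LS) (h5 : T_PLUS) (h6 : T_DIST) :
    T_B := by
  intro X _ _ _ T k hk hT hTp x hx j
  have hc : ∀ s, Clo T s := h1 X T hT
  obtain ⟨w1, hw1, hw1r⟩ := h3 X T k hk hT hTp x hx j
  have hdS : ∀ s, Bt.map dl u0 ∈ Stab T s x := h6 X T hT x hx _ dl_idem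
  -- normalisation
  set w0 := Bt.map dl u0 * w1 * Bt.map dl u0 with hw0
  have hw0S : ∀ s, w0 ∈ Stab T s x := fun s =>
    Stab_mul (hc s) (Stab_mul (hc s) (hdS s) (hw1 s)) (hdS s)
  have hw0r : w0.Ev (fun γ => (k : ℤ) ∣ γ.2 - j) :=
    (ev_snd_right u0 _ (fun n => (k : ℤ) ∣ n - j)).mpr
      ((ev_snd_left u0 w1 (fun n => (k : ℤ) ∣ n - j)).mpr hw1r)
  let g : ℤ → G := fun c => gz (Bt.map (phi c) w1)
  have hg : ∀ c, Bt.map (phi c) w0 = (g c).val := by
    intro c
    rw [hw0, Bt.map_mul, Bt.map_mul, phi_dl]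
    rfl
  have hinf : ∀ c, ∃ κ ∈ Kinf, act T (g c).val x = act T κ.val x := by
    intro c
    have hE : EqvInf T x (act T (g c).val x) := by
      intro s
      have h := hw0S s (Polynomial.C c * Polynomial.X)
      have e1 : ev T w0 (Polynomial.C c * Polynomial.X) x = act T (g c).val x := by
        rw [← hg c, act_map]
        unfold ev
        congr 1
        funext γ
        simp [phi]
      rw [e1] at h
      simp only [Polynomial.eval_mul, Polynomial.eval_C, Polynomial.eval_X, mul_zero,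
        zpow_zero] at h
      exact h.symm
    obtain ⟨κ, hκ, h⟩ := h2 X T hT x hx _ hE
    exact ⟨κ, hκ, by rw [← h, act_u0_val]⟩
  choose κ0 hκ0 hκ0' using hinf
  refine ⟨(κ0 0)⁻¹ * g 0, ?_, ?_⟩
  · rw [act_val_mul, hκ0', act_inv_val, hx]
  · intro W κ h0W hκ
    classical
    let κ' : ℤ → G := fun c => if c = 0 then (κ0 0)⁻¹ else κ c * (κ0 c)⁻¹
    obtain ⟨e, heS, hed, hev⟩ := h4 X T hT x hx (insert 0 W) κ' (by
      intro c hc'
      show (if c = 0 then (κ0 0)⁻¹ else κ c * (κ0 c)⁻¹) ∈ Kinf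
      split_ifs with h
      · exact Kinf.inv_mem (hκ0 0)
      · exact Kinf.mul_mem (hκ c (by
          rcases Finset.mem_insert.mp hc' with h' | h'
          · exact absurd h' h
          · exact h')) (Kinf.inv_mem (hκ0 c)))
    obtain ⟨ep, hep, hepN, hepl, hepr, hepc⟩ := h5
    have hepS : ∀ s, ep ∈ Stab T s x := h6 X T hT x hx ep hep
    have hepk := ev_idem hep k hk
    refine ⟨Bt.map dl u0 * (e * (w0 * ep)), ?_, ?_, ?_, ?_, ?_, ?_, ?_⟩
    · intro s
      exact Stab_mul (hc s) (hdS s) (Stab_mul (hc s) (heS s) (Stab_mul (hc s) (hw0S s) (hepS s)))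
    · rw [← map_dl, ← mul_assoc, dl_idem]
    · rw [mul_assoc, mul_assoc, mul_assoc, hepr]
    · have e1 : (fun γ : ℤ × ℤ => γ.1) = fun γ => γ.1 + 0 * γ.2 := by
        funext γ; ring
      rw [e1, ← map_phi, Bt.map_mul, Bt.map_mul, Bt.map_mul, phi_dl, hg]
      have h7 : Bt.map (phi 0) e = ((κ0 0)⁻¹).val := by
        have := hev 0 (Finset.mem_insert_self _ _)
        simp only [κ', if_true] at this
        exact this
      have h8 : Bt.map (phi 0) ep = u0 := hepc 0
      rw [h7, h8, (g 0).mul_u, ← mul_assoc, Bt.Gp.u_mul, Bt.Gp.val_mul]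
    · intro c hcW
      have hc0 : c ≠ 0 := fun h => h0W (h ▸ hcW)
      rw [← map_phi, Bt.map_mul, Bt.map_mul, Bt.map_mul, phi_dl, hg]
      have h7 : Bt.map (phi c) e = (κ c * (κ0 c)⁻¹).val := by
        have := hev c (Finset.mem_insert_of_mem hcW)
        simp only [κ', if_neg hc0] at this
        exact this
      have h8 : Bt.map (phi c) ep = u0 := hepc c
      rw [h7, h8, (g c).mul_u, ← mul_assoc, Bt.Gp.u_mul, act_mul, act_val_mul, hκ0',
        act_inv_val, act_val_u0]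
    · refine (ev_snd_left u0 _ (fun n => (k : ℤ) ∣ n - j)).mpr ?_
      rw [Bt.ev_mul]
      refine (hed k (by exact_mod_cast hk.ne')).mono fun a ha => ?_
      rw [Bt.ev_mul]
      refine hw0r.mono fun b hb => ?_
      refine hepk.mono fun c hc' => ?_
      have e2 : (a + (b + c)).2 - j = a.2 + (b.2 - j) + c.2 := by
        simp only [Prod.snd_add]; ring
      rw [e2]
      exact dvd_add (dvd_add ha hb) hc'
    · intro N
      rw [← mul_assoc, ← mul_assoc, Bt.ev_mul]
      refine Bt.Ev.of_all fun a => ?_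
      refine (hepN (N - a.2)).mono fun b hb => ?_
      simp only [Prod.snd_add]
      omega

end Pool.Agent.PRR
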