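import Pool.Agent.PRR.Targets

/-!
The relations `Eqv T s` are closed.
-/

set_option autoImplicit false

namespace Pool.Agent.PRR

open Filter Topology

theorem CLO.isClosed_rel {X : Type} [TopologicalSpace X] [CompactSpace X] [T2Space X]
    (T : X ≃ₜ X) (x : X) (s : ℕ) : IsClosed {p : X × X | Rel T x s p.1 p.2} := by
  have hQ : IsClosed (Set.range (fun w : Bt (ℤ × (Fin s → ℤ)) =>
      fun S : Finset (Fin s) => act T (Bt.map (arr (ind S)) w) x)) := by
    apply (isCompact_range _).isClosed
    apply continuous_pi
    intro S
    exact (continuous_act T x).comp (Bt.continuous_map _)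
  have hf : Continuous (fun p : X × X => fun S : Finset (Fin s) =>
      if S = Finset.univ then p.2 else p.1) := by
    apply continuous_pi
    intro S
    by_cases h : S = Finset.univ
    · simp only [h, if_true]
      exact continuous_snd
    · simp only [h, if_false]
      exact continuous_fst
  convert hQ.preimage hf using 1
  ext p
  simp only [Rel, Set.mem_preimage, Set.mem_range]
  constructor
  · rintro ⟨w, h1, h2⟩
    refine ⟨w, ?_⟩
    funext S
    by_cases h : S = Finset.univ
    · subst h
      rw [if_pos rfl, ind_univ, h2]
    · rw [if_neg h, h1 S h]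
  · rintro ⟨w, hw⟩
    refine ⟨w, fun S hS => ?_, ?_⟩
    · have := congrFun hw S
      rwa [if_neg hS] at this
    · have := congrFun hw Finset.univ
      rwa [if_pos rfl, ind_univ] at this

theorem p_CLO (h : T_REL) : T_CLO := by
  intro X _ _ _ T hT s
  by_cases hX : Nonempty X
  · obtain ⟨x0⟩ := hX
    have hx : act T u0 (act T u0 x0) = act T u0 x0 := by rw [← act_mul, hu0.1]
    have h1 := CLO.isClosed_rel T (act T u0 x0) (s + 1)
    unfold Clo
    convert h1 using 1
    ext p
    exact (h X T hT _ hx (s + 1) p.1 p.2).symm
  · have : IsEmpty X := not_nonempty_iff.1 hX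
    unfold Clo
    convert isClosed_empty
    ext p
    exact isEmptyElim p.1

end Pool.Agent.PRR
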