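import Pool.Agent.PRR.NilDefs

/-!
Difference calculus: affine substitutions and dilations.
-/

set_option autoImplicit false

namespace Pool.Agent.PRR

open Filter Topology Polynomial

namespace DIFB

variable {R : Type} [CommRing R] {V : Type} [AddCommGroup V]

lemma difs_nil (v : R[X] → V) : difs [] v = v := rfl

lemma difs_cons (P : R[X]) (L : List R[X]) (v : R[X] → V) (Q : R[X]) :
    difs (P :: L) v Q = difs L v (Q + P) - difs L v Q := rfl

lemma difs_map (σ : R[X] →+ R[X]) (b : R[X]) (L : List R[X]) (v : R[X] → V) :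
    ∀ Q, difs L (fun P => v (σ P + b)) Q = difs (L.map σ) v (σ Q + b) := by
  induction L with
  | nil => intro Q; rfl
  | cons P L ih =>
    intro Q
    rw [List.map_cons, difs_cons, difs_cons, ih, ih, map_add]
    congr 2
    abel

lemma difs_perm {L L' : List R[X]} (h : L.Perm L') (v : R[X] → V) : difs L v = difs L' v := by
  induction h with
  | nil => rfl
  | cons P _ ih => funext Q; rw [difs_cons, difs_cons, ih]
  | swap P P' L =>
    funext Q
    simp only [difs_cons]
    rw [add_right_comm Q P P']
    abel
  | trans _ _ ih1 ih2 => rw [ih1, ih2]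

lemma difs_zero (L : List R[X]) (v : R[X] → V) (Q : R[X]) : difs (0 :: L) v Q = 0 := by
  rw [difs_cons, add_zero, sub_self]

lemma indep {d e : ℕ} {v : R[X] → V} (h : Cd d e v) {L : List R[X]} (hL : L.length = d)
    (Q : R[X]) : difs L v Q = difs L v 0 := by
  have h1 := h.1 (Q :: L) (by rw [List.length_cons, hL]) 0
  rw [difs_cons, zero_add] at h1
  exact sub_eq_zero.1 h1

lemma difs_add {d e : ℕ} {v : R[X] → V} (h : Cd d e v) {L : List R[X]} (hL : L.length + 1 = d)
    (P P' : R[X]) : difs ((P + P') :: L) v 0 = difs (P :: L) v 0 + difs (P' :: L) v 0 := by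
  have h1 : difs ((P + P') :: L) v 0 = difs (P :: L) v P' + difs (P' :: L) v 0 := by
    simp only [difs_cons, zero_add]
    rw [add_comm P P']
    abel
  rw [h1, indep h (by rw [List.length_cons, hL]) P']

lemma difs_nsmul {d e : ℕ} {v : R[X] → V} (h : Cd d e v) {L : List R[X]} (hL : L.length + 1 = d)
    (P : R[X]) (n : ℕ) : difs ((n • P) :: L) v 0 = n • difs (P :: L) v 0 := by
  induction n with
  | zero => rw [zero_smul, zero_smul, difs_zero]
  | succ n ih => rw [succ_nsmul, succ_nsmul, difs_add h hL, ih]

lemma sum_map_le {σ : R[X] → R[X]} (hσ : ∀ P, (σ P).natDegree ≤ P.natDegree) (L : List R[X]) :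
    ((L.map σ).map natDegree).sum ≤ (L.map natDegree).sum := by
  induction L with
  | nil => exact le_rfl
  | cons P L ih =>
    simp only [List.map_cons, List.sum_cons]
    exact add_le_add (hσ P) ih

/-- Replacing the entries by entries with the same leading part. -/
lemma replace {d e : ℕ} {v : R[X] → V} (h : Cd d e v) (σ ρ : R[X] → R[X])
    (hσ : ∀ P, (σ P).natDegree ≤ P.natDegree) (hρ : ∀ P, (ρ P).natDegree ≤ P.natDegree)
    (hd : ∀ P, σ P = ρ P ∨ (σ P - ρ P).natDegree < P.natDegree) :
    ∀ (L A : List R[X]), A.length + L.length = d →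
      (A.map natDegree).sum + (L.map natDegree).sum ≤ e →
      difs (A ++ L.map σ) v 0 = difs (A ++ L.map ρ) v 0 := by
  intro L
  induction L with
  | nil => intro A _ _; rfl
  | cons P L ih =>
    intro A hlen hw
    simp only [List.map_cons, List.sum_cons, List.length_cons] at hlen hw ⊢
    have h1 : difs (A ++ σ P :: L.map σ) v 0 = difs (σ P :: (A ++ L.map σ)) v 0 := by
      rw [difs_perm List.perm_middle]
    have h2 : difs (σ P :: (A ++ L.map σ)) v 0 = difs (ρ P :: (A ++ L.map σ)) v 0 := by
      have h3 : σ P = ρ P + (σ P - ρ P) := by ring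
      rw [h3, difs_add h (by simp; omega)]
      have h4 : difs ((σ P - ρ P) :: (A ++ L.map σ)) v 0 = 0 := by
        rcases hd P with h5 | h5
        · rw [h5, sub_self, difs_zero]
        · refine h.2 _ (by simp; omega) ?_ 0
          simp only [List.map_cons, List.map_append, List.sum_cons, List.sum_append]
          have := sum_map_le hσ L
          omega
      rw [h4, add_zero]
    have h6 : difs (ρ P :: (A ++ L.map σ)) v 0 = difs ((A ++ [ρ P]) ++ L.map σ) v 0 := by
      rw [List.append_assoc, List.singleton_append, difs_perm List.perm_middle.symm]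
    have h7 : difs ((A ++ [ρ P]) ++ L.map σ) v 0 = difs ((A ++ [ρ P]) ++ L.map ρ) v 0 := by
      refine ih (A ++ [ρ P]) (by simp; omega) ?_
      simp only [List.map_append, List.map_cons, List.map_nil, List.sum_append, List.sum_cons,
        List.sum_nil]
      have := hρ P
      omega
    rw [h1, h2, h6, h7, List.append_assoc, List.singleton_append]

lemma natDegree_lt_of {D : R[X]} {k : ℕ} (hk : 0 < k) (h : ∀ j, k ≤ j → D.coeff j = 0) :
    D.natDegree < k := by
  have : D.natDegree ≤ k - 1 := natDegree_le_iff_coeff_eq_zero.2 fun N hN => h N (by omega)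
  omega

/-- The translation `P ↦ P(X + c)`. -/
noncomputable def tr (c : R) : R[X] →+ R[X] where
  toFun P := P.comp (X + C c)
  map_zero' := zero_comp
  map_add' _ _ := add_comp

lemma natDegree_tr (c : R) (P : R[X]) : (tr c P).natDegree ≤ P.natDegree := by
  have : tr c P = taylor c P := rfl
  rw [this, natDegree_taylor]

lemma tr_sub (c : R) (P : R[X]) : tr c P = P ∨ (tr c P - P).natDegree < P.natDegree := by
  rcases Nat.eq_zero_or_pos P.natDegree with h | h
  · left
    rw [natDegree_eq_zero] at h
    obtain ⟨a, rfl⟩ := h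
    exact C_comp
  · right
    refine natDegree_lt_of h fun j hj => ?_
    have h1 : tr c P = taylor c P := rfl
    rw [coeff_sub, h1]
    rcases eq_or_lt_of_le hj with h2 | h2
    · rw [← h2, coeff_taylor_natDegree]
      exact sub_self _
    · rw [coeff_eq_zero_of_natDegree_lt (p := taylor c P) (by rw [natDegree_taylor]; exact h2),
        coeff_eq_zero_of_natDegree_lt h2, sub_zero]

/-- The dilation `P ↦ P(c X)`. -/
noncomputable def di (c : R) : R[X] →+ R[X] where
  toFun P := P.comp (C c * X)
  map_zero' := zero_comp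
  map_add' _ _ := add_comp

lemma coeff_di (c : R) (P : R[X]) (n : ℕ) : (di c P).coeff n = P.coeff n * c ^ n :=
  comp_C_mul_X_coeff

lemma natDegree_di (c : R) (P : R[X]) : (di c P).natDegree ≤ P.natDegree := by
  refine natDegree_le_iff_coeff_eq_zero.2 fun N hN => ?_
  rw [coeff_di, coeff_eq_zero_of_natDegree_lt hN, zero_mul]

lemma di_sub (p : ℕ) (P : R[X]) : di (p : R) P = (p ^ P.natDegree) • P ∨
    (di (p : R) P - (p ^ P.natDegree) • P).natDegree < P.natDegree := by
  rcases Nat.eq_zero_or_pos P.natDegree with h | h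
  · left
    rw [h, pow_zero, one_smul]
    rw [natDegree_eq_zero] at h
    obtain ⟨a, rfl⟩ := h
    exact C_comp
  · right
    refine natDegree_lt_of h fun j hj => ?_
    rw [coeff_sub, coeff_di, coeff_smul]
    rcases eq_or_lt_of_le hj with h2 | h2
    · rw [← h2, nsmul_eq_mul]
      push_cast
      ring
    · rw [coeff_eq_zero_of_natDegree_lt h2, zero_mul, smul_zero, sub_zero]

lemma difs_pow {d e : ℕ} {v : R[X] → V} (h : Cd d e v) (p : ℕ) :
    ∀ (L A : List R[X]), A.length + L.length = d →
      difs (A ++ L.map (fun P => (p ^ P.natDegree) • P)) v 0 =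
        (p ^ (L.map natDegree).sum) • difs (A ++ L) v 0 := by
  intro L
  induction L with
  | nil => intro A _; simp
  | cons P L ih =>
    intro A hlen
    simp only [List.map_cons, List.sum_cons, List.length_cons] at hlen ⊢
    have h1 : ∀ (B : R[X]) (M : List R[X]),
        difs (A ++ B :: M) v 0 = difs (B :: (A ++ M)) v 0 := by
      intro B M
      rw [difs_perm List.perm_middle]
    rw [h1, difs_nsmul h (by simp; omega), ← h1]
    have h2 : A ++ P :: L.map (fun P => (p ^ P.natDegree) • P)
        = (A ++ [P]) ++ L.map (fun P => (p ^ P.natDegree) • P) := by simp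
    rw [h2, ih (A ++ [P]) (by simp; omega), smul_smul, pow_add]
    congr 2
    simp

lemma Cd_comp {d e : ℕ} {v : R[X] → V} (h : Cd d e v) (σ : R[X] →+ R[X])
    (hσ : ∀ P, (σ P).natDegree ≤ P.natDegree) (b : R[X]) : Cd d e (fun P => v (σ P + b)) := by
  constructor
  · intro L hL Q
    rw [difs_map]
    exact h.1 _ (by rw [List.length_map, hL]) _
  · intro L hL hw Q
    rw [difs_map]
    exact h.2 _ (by rw [List.length_map, hL]) (lt_of_le_of_lt (sum_map_le hσ L) hw) _

end DIFB

open DIFB

theorem p_D2 : T_D2 := by
  intro R _ V _ d e v h c a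
  refine ⟨Cd_comp h (tr c) (natDegree_tr c) (C a), fun L hL hw Q => ?_⟩
  have h1 := difs_map (tr c) (C a) L v Q
  have h2 : difs L (fun P => v (P.comp (X + C c) + C a)) Q
      = difs (L.map (tr c)) v (tr c Q + C a) := h1
  rw [h2, indep h (by rw [List.length_map, hL])]
  have h3 := replace h (tr c) id (natDegree_tr c) (fun P => le_rfl) (tr_sub c) L []
    (by simpa using hL) (by simp [hw])
  simpa using h3

theorem p_D3 : T_D3 := by
  intro R _ V _ d e v h
  constructor
  · intro c
    have h1 := Cd_comp h (di c) (natDegree_di c) 0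
    simpa [di] using h1
  · intro p L hL hw Q
    have h1 := difs_map (di (p : R)) 0 L v Q
    have h2 : difs L (fun P => v (P.comp (C (p : R) * X))) Q
        = difs (L.map (di (p : R))) v (di (p : R) Q + 0) := by
      rw [← h1]
      simp [di]
    rw [h2, indep h (by rw [List.length_map, hL])]
    have h3 := replace h (di (p : R)) (fun P => (p ^ P.natDegree) • P) (natDegree_di _)
      (fun P => natDegree_smul_le _ _) (di_sub p) L [] (by simpa using hL) (by simp [hw])
    have h4 := difs_pow h p L [] (by simpa using hL)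
    simp only [List.nil_append] at h3 h4
    rw [h3, h4, hw]

end Pool.Agent.PRR
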