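import Pool.Agent.PRR.DIFB

/-!
Difference calculus: torsion and one step of the filtration.
-/

set_option autoImplicit false

namespace Pool.Agent.PRR

open Filter Topology Polynomial

namespace DIFC

variable {R : Type} [CommRing R] {V : Type} [AddCommGroup V]

lemma low {v : R[X] → V} (hv : ∀ P : R[X], P.natDegree ≤ 1 → v P = 0) :
    ∀ L : List R[X], (∀ P ∈ L, P.natDegree ≤ 1) → ∀ Q : R[X], Q.natDegree ≤ 1 →
      difs L v Q = 0 := by
  intro L
  induction L with
  | nil => intro _ Q hQ; exact hv Q hQ
  | cons P L ih =>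
    intro hL Q hQ
    have h1 : P.natDegree ≤ 1 := hL P (List.mem_cons_self)
    have h2 : ∀ P' ∈ L, P'.natDegree ≤ 1 := fun P' h => hL P' (List.mem_cons_of_mem _ h)
    rw [DIFB.difs_cons, ih h2 _ ((natDegree_add_le _ _).trans (max_le hQ h1)), ih h2 Q hQ,
      sub_self]

end DIFC

theorem p_D4 : T_D4 := by
  intro R _ V _ d e v h he p hp htor L hL hw
  cases L with
  | nil =>
    simp only [List.map_nil, List.sum_nil] at hw
    omega
  | cons P L =>
    obtain ⟨u, hu⟩ := hp
    set P' : R[X] := C ((u⁻¹ : Rˣ) : R) * P with hP'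
    have h1 : P = p • P' := by
      rw [hP', nsmul_eq_mul, ← mul_assoc, ← C_eq_natCast, ← C_mul, ← hu, Units.mul_inv, C_1,
        one_mul]
    have h2 : P'.natDegree = P.natDegree := by
      refine le_antisymm (natDegree_C_mul_le _ _) ?_
      conv_lhs => rw [h1, nsmul_eq_mul, ← C_eq_natCast]
      exact natDegree_C_mul_le _ _
    simp only [List.map_cons, List.sum_cons, List.length_cons] at hL hw
    have h3 : difs (P :: L) v 0 = p • difs (P' :: L) v 0 := by
      conv_lhs => rw [h1]
      exact DIFB.difs_nsmul h hL P' p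
    rw [h3]
    refine htor (P' :: L) (by rw [List.length_cons, hL]) ?_
    simp only [List.map_cons, List.sum_cons]
    rw [h2]
    exact hw

theorem p_D5 : T_D5 := by
  intro R _ V _ d e v h
  constructor
  · intro h0
    refine ⟨h.1, fun L hL hw Q => ?_⟩
    rw [DIFB.indep h hL]
    rcases Nat.lt_succ_iff_lt_or_eq.1 hw with h1 | h1
    · exact h.2 L hL h1 0
    · exact h0 L hL h1
  · intro hv he
    refine ⟨h.1, fun L hL hw Q => ?_⟩
    rw [DIFB.indep h hL]
    refine DIFC.low hv L (fun P hP => ?_) 0 (by simp)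
    have h1 : P.natDegree ≤ (L.map natDegree).sum :=
      List.single_le_sum (fun _ _ => Nat.zero_le _) _ (List.mem_map_of_mem hP)
    omega

end Pool.Agent.PRR
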