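import Pool.Agent.PRR.Targets

/-!
# Polynomial recurrence along residue classes: idempotents act trivially (PRR-DIST)
-/

set_option autoImplicit false

namespace Pool.Agent.PRR

open Filter Topology Polynomial

theorem p_DIST (_h1 : T_CLO) (h2 : T_T2) (h3 : T_VD) (h4 : T_DISTSTEP) : T_DIST := by
  intro X _ _ _ T hmin x hx e he s
  have hT2 : ∀ j, T2Space (Xs T j) := h2 X T hmin
  have key : ∀ j : ℕ, Gd (fun c : ℤ => mk T j ((T ^ c) x)) e := by
    intro j
    induction j with
    | zero =>
      have hsub : ∀ z z' : Xs T 0, z = z' := by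
        intro z z'
        obtain ⟨y, rfl⟩ := mk_surj T 0 z
        obtain ⟨y', rfl⟩ := mk_surj T 0 z'
        rw [mk_eq_iff]
        have ha : act T u0 (act T u0 y) = act T u0 y := by rw [← act_mul, hu0.1]
        have hb : act T u0 (act T u0 y') = act T u0 y' := by rw [← act_mul, hu0.1]
        obtain ⟨g, hg⟩ := hmin.exists_G ha hb
        exact ⟨g, by rw [K_eq_top_of_le_one le_rfl]; trivial, hg.symm⟩
      intro P
      exact hsub _ _
    | succ j ih =>
      obtain ⟨V, _, _, _, _, _, _, hst⟩ := h3 X T hmin x hx j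
      refine h4 ℤ (Xs T (j + 1)) (Xs T j) V (pr T (Nat.le_succ j)) (j + 1)
        (Qs T x (j + 1) (j + 1 + 1)) hst (fun c => mk T (j + 1) ((T ^ c) x)) ?_ e he ?_
      · intro c0 c
        refine ⟨Bt.pt (c0, c), fun S => ?_⟩
        rw [Bt.map_pt, act_pt, arr_apply]
        have e1 : ∑ l, ind S l * c l = ∑ l ∈ S, c l := by
          simp [ind, Finset.sum_ite_mem]
        rw [e1]
      · simp only [pr_mk]
        exact ih
  intro P
  rw [← mk_eq_iff]
  unfold ev
  rw [← Bt.lim_comp (continuous_mk T s)]
  have h := key s P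
  unfold pv at h
  exact h

end Pool.Agent.PRR
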