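import Pool.Agent.PRR.NilDefs

/-!
Idempotents act trivially: one step of the tower (PRR-DISTSTEP).
-/

set_option autoImplicit false

namespace Pool.Agent.PRR

open Filter Topology Polynomial

theorem p_DISTSTEP (h1 : T_D1) (h2 : T_D2) (h5 : T_D5) (h6 : T_D6) (hE : T_ERR) :
    T_DISTSTEP := by
  intro R _ Y Z V _ _ _ _ _ _ _ _ _ _ _ _ π m Q hS ξ hξ w hw hG
  obtain ⟨hex, huniq, hcomp, hcube, -, -⟩ := hE R Y Z V π m Q hS ξ hξ
  obtain ⟨v, hv⟩ := (hex w).1 hG
  -- the limit of the shifted error functions vanishes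
  have hlim : ∀ P : R[X], Bt.lim w (fun γ => v (P.comp (X + C (γ.2 : R)) + C γ.1)) = 0 := by
    have hc := hcomp w w v v hv hv
    rw [hw] at hc
    have hu := huniq w _ _ hc hv
    intro P
    have := congrFun hu P
    simpa using this
  obtain ⟨-, -, hadd, -, -, -⟩ := h6 R V 0 0
  have hcont : ∀ (L : List R[X]) (Q : R[X]), Continuous (fun v : R[X] → V => difs L v Q) :=
    (h6 R V 0 0).2.2.2.2.1
  have hzero : ∀ (L : List R[X]) (Q : R[X]), difs L (fun _ => (0 : V)) Q = 0 := by
    intro L Q
    have := hadd L (fun _ => 0) (fun _ => 0) Q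
    simpa using this
  have hstep : ∀ d e, Cd d e v → Cd d (e + 1) v := by
    intro d e hde
    refine (h5 R V d e v hde).1 fun L hL hLe => ?_
    have ha := fun γ : R × ℤ => (h2 R V d e v hde (γ.2 : R) γ.1).2 L hL hLe 0
    have hb : Bt.lim w (fun γ : R × ℤ =>
        (fun v : R[X] → V => difs L v 0) (fun P => v (P.comp (X + C (γ.2 : R)) + C γ.1))) =
        (fun v : R[X] → V => difs L v 0)
          (Bt.lim w (fun γ : R × ℤ => (fun P => v (P.comp (X + C (γ.2 : R)) + C γ.1)))) :=
      Bt.lim_comp (hcont L 0) w _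
    simp only [ha, Bt.lim_const] at hb
    rw [hb, Bt.lim_pi]
    simp only [hlim]
    exact hzero L 0
  have hall : ∀ d, Cd d 0 v → ∀ e, Cd d e v := by
    intro d hd e
    induction e with
    | zero => exact hd
    | succ e ih => exact hstep d e ih
  have hdown : ∀ k, k ≤ m → Cd (m - k) 0 v := by
    intro k
    induction k with
    | zero =>
      intro _
      refine ⟨h1 R V (m + 1) v (hcube w v hv), ?_⟩
      intro L _ hL
      exact absurd hL (Nat.not_lt_zero _)
    | succ k ih =>
      intro hk
      have h := hall _ (ih (by omega))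
      refine ⟨?_, ?_⟩
      · intro L hL Q
        exact (h ((L.map natDegree).sum + 1)).2 L (by omega) (Nat.lt_succ_self _) Q
      · intro L _ hL
        exact absurd hL (Nat.not_lt_zero _)
  have h0 := hall _ (hdown m le_rfl) 1
  rw [Nat.sub_self] at h0
  have hv0 : ∀ P, v P = 0 := by
    intro P
    have := h0.2 [] rfl (by simp) P
    simpa [difs] using this
  intro P
  have := hv P
  rw [hv0 P, zero_vadd] at this
  exact this

end Pool.Agent.PRR
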