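import Pool.Agent.PRR.Targets

/-!
Divisibility of `K s / K (s+1)`.
-/

set_option autoImplicit false

namespace Pool.Agent.PRR

open Filter Topology

namespace DIV

variable {ι : Type} [Fintype ι] [DecidableEq ι]

/-- The vector `(1, .., i, .., 1)` with `i` at the place `l`. -/
def vec (l : ι) (i : ℤ) : ι → ℤ := Function.update (fun _ => 1) l i

theorem mem_KK_vec {F : (ι → ℤ) → G} (hF : HV F) (l : ι) (i : ℤ) : F (vec l i) ∈ KK ι := by
  refine ⟨fun j => F (fun l' => (if l' = l then i else 1) * j l'), ⟨?_, ?_⟩, ?_⟩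
  · refine AG_comp hF.1 (fun j l' => (if l' = l then i else 1) * j l') (fun _ => 0)
      (fun a b => if b = a then (if a = l then i else 1) else 0) ?_
    intro j a
    simp
  · rintro j ⟨l', hl'⟩
    exact hF.2 _ ⟨l', by simp [hl']⟩
  · change F (fun l' => (if l' = l then i else 1) * 1) = F (vec l i)
    congr 1
    funext l'
    by_cases h : l' = l
    · subst h; simp [vec]
    · simp [vec, h]

theorem step {F : (ι → ℤ) → G} (hF : HV F) (l : ι) (i : ℤ) :
    F (vec l (i + 1)) * (F (vec l i))⁻¹ * (F (vec l 1))⁻¹ ∈ KK (Option ι) := by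
  let f1 : (Option ι → ℤ) → (ι → ℤ) := fun j l' =>
    if l' = l then j (some l) + i * j none else j (some l')
  let f2 : (Option ι → ℤ) → (ι → ℤ) := fun j l' =>
    if l' = l then i * j none else j (some l')
  let f3 : (Option ι → ℤ) → (ι → ℤ) := fun j l' => j (some l')
  have h1 : (fun j => F (f1 j)) ∈ AG (Option ι) := by
    refine AG_comp hF.1 f1 (fun _ => 0)
      (fun a b => Option.elim b (if a = l then i else 0) (fun b' => if b' = a then 1 else 0)) ?_
    intro j a
    rw [Fintype.sum_option]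
    by_cases ha : a = l
    · subst ha
      simp [f1]
      ring
    · simp [f1, ha]
  have h2 : (fun j => F (f2 j)) ∈ AG (Option ι) := by
    refine AG_comp hF.1 f2 (fun _ => 0)
      (fun a b => Option.elim b (if a = l then i else 0)
        (fun b' => if b' = a then (if a = l then 0 else 1) else 0)) ?_
    intro j a
    rw [Fintype.sum_option]
    by_cases ha : a = l
    · subst ha
      simp [f2]
    · simp [f2, ha]
  have h3 : (fun j => F (f3 j)) ∈ AG (Option ι) := by
    refine AG_comp hF.1 f3 (fun _ => 0)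
      (fun a b => Option.elim b 0 (fun b' => if b' = a then 1 else 0)) ?_
    intro j a
    rw [Fintype.sum_option]
    simp [f3]
  refine ⟨(fun j => F (f1 j)) * (fun j => F (f2 j))⁻¹ * (fun j => F (f3 j))⁻¹, ⟨?_, ?_⟩, ?_⟩
  · exact (AG _).mul_mem ((AG _).mul_mem h1 ((AG _).inv_mem h2)) ((AG _).inv_mem h3)
  · rintro j ⟨l', hl'⟩
    simp only [Pi.mul_apply, Pi.inv_apply]
    rcases l' with _ | l'
    · -- `j none = 0`
      have e1 : f1 j = f3 j := by
        funext a
        by_cases ha : a = l
        · subst ha; simp [f1, f3, hl']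
        · simp [f1, f3, ha]
      have e2 : F (f2 j) = 1 := hF.2 _ ⟨l, by simp [f2, hl']⟩
      rw [e1, e2]
      group
    · by_cases hll : l' = l
      · subst hll
        have e1 : f1 j = f2 j := by
          funext a
          by_cases ha : a = l'
          · subst ha; simp [f1, f2, hl']
          · simp [f1, f2, ha]
        have e3 : F (f3 j) = 1 := hF.2 _ ⟨l', by simp [f3, hl']⟩
        rw [e1, e3]
        group
      · have e1 : F (f1 j) = 1 := hF.2 _ ⟨l', by simp [f1, hll, hl']⟩
        have e2 : F (f2 j) = 1 := hF.2 _ ⟨l', by simp [f2, hll, hl']⟩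
        have e3 : F (f3 j) = 1 := hF.2 _ ⟨l', by simp [f3, hl']⟩
        rw [e1, e2, e3]
        group
  · have e1 : f1 (fun _ => 1) = vec l (i + 1) := by
      funext a
      by_cases ha : a = l
      · subst ha; simp [f1, vec]; ring
      · simp [f1, vec, ha]
    have e2 : f2 (fun _ => 1) = vec l i := by
      funext a
      by_cases ha : a = l
      · subst ha; simp [f2, vec]
      · simp [f2, vec, ha]
    have e3 : f3 (fun _ => 1) = vec l 1 := by
      funext a
      by_cases ha : a = l
      · subst ha; simp [f3, vec]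
      · simp [f3, vec, ha]
    simp only [Pi.mul_apply, Pi.inv_apply, e1, e2, e3]

/-- Powers modulo the next group. -/
theorem pow_mod {F : (ι → ℤ) → G} (hF : HV F) (l : ι) (m : ℕ) :
    F (vec l m) * ((F (vec l 1)) ^ m)⁻¹ ∈ KK (Option ι) := by
  have hN : (KK (Option ι)).Normal := KK_normal
  induction m with
  | zero =>
    have : F (vec l ((0 : ℕ) : ℤ)) = 1 := hF.2 _ ⟨l, by simp [vec]⟩
    rw [this]
    simp [(KK (Option ι)).one_mem]
  | succ m ih =>
    have h1 := step hF l m
    set a := F (vec l ((m : ℤ) + 1)) with ha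
    set b := F (vec l (m : ℤ)) with hb
    set c := F (vec l 1) with hc
    have h2 : c * (b * (c ^ m)⁻¹) * c⁻¹ ∈ KK (Option ι) := hN.conj_mem _ ih c
    have h3 : F (vec l ((m + 1 : ℕ) : ℤ)) = a := by
      rw [ha]
      push_cast
      rfl
    rw [h3]
    -- `a b⁻¹ c⁻¹ ∈ K` and `b c⁻ᵐ ∈ K`
    have h4 : a * (c ^ (m + 1))⁻¹ = (a * b⁻¹ * c⁻¹) * (c * (b * (c ^ m)⁻¹) * c⁻¹) := by
      rw [pow_succ']
      group
    rw [h4]
    exact (KK (Option ι)).mul_mem h1 h2

end DIV

theorem p_DIV (h : T_DIVARR) : T_DIV := by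
  rintro s hs _ ⟨F, hF, rfl⟩ m hm
  let l : Fin s := ⟨0, by omega⟩
  obtain ⟨F', hF', hFF'⟩ := h (Fin s) F hF (by simpa using hs)
    (fun l' => if l' = l then (m : ℤ) else 1) (fun l' => by
      by_cases hl : l' = l
      · simp only [hl, if_true]; exact_mod_cast hm
      · simp only [hl, if_false]; norm_num)
  have h1 : F (fun _ => 1) = F' (DIV.vec l (m : ℤ)) := by
    rw [hFF']
    congr 1
    funext l'
    by_cases hl : l' = l
    · subst hl; simp [DIV.vec]
    · simp [DIV.vec, hl]
  refine ⟨F' (DIV.vec l 1), DIV.mem_KK_vec hF' l 1, ?_⟩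
  have h2 := DIV.pow_mod hF' l m
  rw [KK_eq_K, Fintype.card_option, Fintype.card_fin, ← h1] at h2
  have h3 := (K (s + 1)).inv_mem h2
  rwa [mul_inv_rev, inv_inv] at h3

theorem p_DIV1 : T_DIV1 := by
  intro q m
  let F : (Fin 1 → ℤ) → G := fun i => gz (Bt.map (fun n => i 0 * n) q)
  have hF : HV F := by
    refine ⟨AG_pow q 0, ?_⟩
    rintro i ⟨l, hl⟩
    have : l = 0 := Subsingleton.elim _ _
    subst this
    simp only [F, hl, zero_mul, Bt.map_const]
    exact Bt.gr_one hu0
  have h2 := DIV.pow_mod hF 0 m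
  rw [KK_eq_K, Fintype.card_option, Fintype.card_fin] at h2
  have e1 : F (DIV.vec 0 (m : ℤ)) = gz (Bt.map (fun n => (m : ℤ) * n) q) := by
    simp [F, DIV.vec]
  have e2 : F (DIV.vec 0 1) = gz q := by
    simp only [F, DIV.vec, Function.update_self, one_mul, Bt.map_id']
  rwa [e1, e2] at h2

end Pool.Agent.PRR
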