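import Pool.Agent.PRR.Targets

/-!
Residues of the filtration and division of hyperplane-vanishing arrays.
-/

set_option autoImplicit false

namespace Pool.Agent.PRR

open Filter Topology

namespace DIVARR

variable {ι : Type} [Fintype ι]

/-- Residue of an element of the group. -/
noncomputable def rg (N : ℕ) [NeZero N] (q : Bt ℤ) : ZMod N :=
  Bt.res (fun n : ℤ => (n : ZMod N)) q

theorem rg_mul (N : ℕ) [NeZero N] (q r : Bt ℤ) : rg N (q * r) = rg N q + rg N r :=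
  Bt.res_mul _ (fun a b => by push_cast; rfl) q r

theorem rg_u0 (N : ℕ) [NeZero N] : rg N u0 = 0 :=
  Bt.res_idem _ (fun a b => by push_cast; rfl) hu0.1

theorem rg_gz (N : ℕ) [NeZero N] (q : Bt ℤ) : rg N (gz q).val = rg N q := by
  rw [Bt.gr_val, rg_mul, rg_mul, rg_u0, zero_add, add_zero]

theorem rg_eq_zero_iff (N : ℕ) [NeZero N] (q : Bt ℤ) :
    rg N q = 0 ↔ q.Ev (fun n => (N : ℤ) ∣ n) := by
  unfold rg
  rw [Bt.res_eq_iff]
  simp only [ZMod.intCast_zmod_eq_zero_iff_dvd]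

/-- Residue of an array. -/
theorem rg_arr (N : ℕ) [NeZero N] (w : Bt (ℤ × (ι → ℤ))) (i : ι → ℤ) :
    rg N (gz (Bt.map (arr i) w)).val =
      Bt.res (fun p : ℤ × (ι → ℤ) => (p.1 : ZMod N)) w +
        ∑ l, (i l : ZMod N) * Bt.res (fun p : ℤ × (ι → ℤ) => (p.2 l : ZMod N)) w := by
  rw [rg_gz]
  unfold rg
  rw [Bt.res_map, Bt.res_eq_iff]
  have h1 := Bt.ev_res (fun p : ℤ × (ι → ℤ) => (p.1 : ZMod N)) w
  have h2 : w.Ev (fun p => ∀ l, (p.2 l : ZMod N) =
      Bt.res (fun p : ℤ × (ι → ℤ) => (p.2 l : ZMod N)) w) :=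
    Bt.Ev.finite_all (fun l => Bt.ev_res (fun p : ℤ × (ι → ℤ) => (p.2 l : ZMod N)) w)
  refine (h1.and h2).mono ?_
  rintro ⟨a, b⟩ ⟨ha, hb⟩
  simp only [arr_apply] at *
  push_cast
  rw [ha]
  congr 1
  apply Finset.sum_congr rfl
  intro l _
  rw [hb l]

/-- Hyperplane-vanishing arrays in at least two directions have trivial residues. -/
theorem key [DecidableEq ι] {F : (ι → ℤ) → G} (hF : HV F) (hcard : 2 ≤ Fintype.card ι)
    {w : Bt (ℤ × (ι → ℤ))} (hw : ∀ i, F i = gz (Bt.map (arr i) w)) (N : ℕ) [NeZero N] :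
    Bt.res (fun p : ℤ × (ι → ℤ) => (p.1 : ZMod N)) w = 0 ∧
      ∀ l, Bt.res (fun p : ℤ × (ι → ℤ) => (p.2 l : ZMod N)) w = 0 := by
  have hr : ∀ i : ι → ℤ, (∃ l, i l = 0) →
      Bt.res (fun p : ℤ × (ι → ℤ) => (p.1 : ZMod N)) w +
        ∑ l, (i l : ZMod N) * Bt.res (fun p : ℤ × (ι → ℤ) => (p.2 l : ZMod N)) w = 0 := by
    intro i hi
    rw [← rg_arr, ← hw, hF.2 i hi, Bt.Gp.val_one, rg_u0]
  have hne : Nonempty ι := Fintype.card_pos_iff.1 (by omega)
  obtain ⟨l0⟩ := hne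
  have ha : Bt.res (fun p : ℤ × (ι → ℤ) => (p.1 : ZMod N)) w = 0 := by
    have := hr (fun _ => 0) ⟨l0, rfl⟩
    simpa using this
  refine ⟨ha, fun l => ?_⟩
  obtain ⟨l', hl'⟩ : ∃ l', l' ≠ l := by
    have : Nontrivial ι := Fintype.one_lt_card_iff_nontrivial.1 (by omega)
    exact exists_ne l
  have := hr (fun l'' => if l'' = l then 1 else 0) ⟨l', by simp [hl']⟩
  rw [ha, zero_add] at this
  simpa using this

end DIVARR

theorem p_KRES : T_KRES := by
  rintro _ ⟨F, hF, rfl⟩ m hm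
  obtain ⟨w, hw⟩ := mem_AG.1 hF.1
  have : NeZero m.natAbs := ⟨Int.natAbs_ne_zero.2 hm⟩
  obtain ⟨ha, hb⟩ := DIVARR.key hF (by simp) hw m.natAbs
  have h := DIVARR.rg_arr m.natAbs w (fun _ => 1)
  rw [← hw, ha] at h
  simp only [hb, mul_zero, Finset.sum_const_zero, add_zero] at h
  rw [DIVARR.rg_eq_zero_iff] at h
  exact h.mono fun n hn => Int.natAbs_dvd.1 hn

theorem p_DIVARR : T_DIVARR := by
  intro ι _ _ F hF hcard m hm
  obtain ⟨w, hw⟩ := mem_AG.1 hF.1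
  have hev : w.Ev (fun p => ∀ l, m l ∣ p.2 l) := by
    apply Bt.Ev.finite_all
    intro l
    have : NeZero (m l).natAbs := ⟨Int.natAbs_ne_zero.2 (hm l).ne'⟩
    have h := (DIVARR.key hF hcard hw (m l).natAbs).2 l
    rw [Bt.res_eq_iff] at h
    refine h.mono fun p hp => ?_
    rw [ZMod.intCast_zmod_eq_zero_iff_dvd] at hp
    exact Int.natAbs_dvd.1 hp
  let w' : Bt (ℤ × (ι → ℤ)) := Bt.map (fun p : ℤ × (ι → ℤ) => (p.1, fun l => p.2 l / m l)) w
  let F'' : (ι → ℤ) → G := fun i => gz (Bt.map (arr i) w')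
  have hF'' : F'' ∈ AG ι := ⟨w', fun i => rfl⟩
  have hFF : (fun i : ι → ℤ => F'' (fun l => m l * i l)) = F := by
    funext i
    rw [hw i]
    change gz (Bt.map (arr (fun l => m l * i l)) (Bt.map _ w)) = _
    rw [Bt.map_map]
    congr 1
    apply Bt.map_congr
    refine hev.mono ?_
    rintro ⟨a, b⟩ hab
    rw [arr_apply, arr_apply]
    congr 1
    apply Finset.sum_congr rfl
    intro l _
    obtain ⟨c, hc⟩ := hab l
    change b l = m l * c at hc
    change m l * i l * (b l / m l) = i l * b l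
    rw [hc, Int.mul_ediv_cancel_left _ (hm l).ne']
    ring
  refine ⟨DL (Finset.univ : Finset ι).toList F'', ⟨AG_DL hF'' _, ?_⟩, ?_⟩
  · rintro i ⟨l, hl⟩
    exact DL_vanish _ _ _ l (by simp) hl
  · intro i
    have h1 := DL_scale m (Finset.univ : Finset ι).toList F''
    rw [hFF, DL_of_vanish _ F (fun i l _ hl => hF.2 i ⟨l, hl⟩)] at h1
    exact congrFun h1 i

end Pool.Agent.PRR
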