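import Pool.Agent.PRR.NilDefs

/-!
PRR-ERR: the error function of an element of `Bt (R × ℤ)`.
-/

set_option autoImplicit false

namespace Pool.Agent.PRR

open Filter Topology Polynomial

theorem p_ERR : T_ERR := by
  intro R _ Y Z V _ _ _ _ _ _ _ _ _ _ _ _ π m Q hD ξ hξ
  have hact : ∀ (v : V) , Continuous (fun y : Y => v +ᵥ y) := fun v =>
    hD.cont_act.comp (Continuous.prodMk continuous_const continuous_id)
  have hact' : ∀ (y : Y) , Continuous (fun v : V => v +ᵥ y) := fun y =>
    hD.cont_act.comp (Continuous.prodMk continuous_id continuous_const)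
  refine ⟨?_, ?_, ?_, ?_, ?_, ?_⟩
  · -- existence
    intro w
    have h1 : ∀ P : R[X], pv (fun c => π (ξ c)) w P = π (pv ξ w P) := fun P =>
      Bt.lim_comp hD.cont_pi w _
    constructor
    · intro h
      have h2 : ∀ P : R[X], ∃ v : V, pv ξ w P = v +ᵥ ξ (P.eval 0) := by
        intro P
        rw [← hD.fib]
        have h3 := h P
        rw [h1] at h3
        exact h3.symm
      choose v hv using h2
      exact ⟨v, hv⟩
    · rintro ⟨v, hv⟩ P
      rw [h1]
      exact ((hD.fib _ _).2 ⟨v P, hv P⟩).symm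
  · -- uniqueness
    intro w v v' hv hv'
    funext P
    have h1 : v P +ᵥ ξ (P.eval 0) = v' P +ᵥ ξ (P.eval 0) := by rw [← hv P, hv' P]
    have h2 : (-v' P + v P) +ᵥ ξ (P.eval 0) = ξ (P.eval 0) := by
      rw [add_vadd, h1, ← add_vadd, neg_add_cancel, zero_vadd]
    have h3 := hD.free _ _ h2
    exact (neg_add_eq_zero.mp h3).symm
  · -- composition
    intro w w' v v' hv hv' P
    have h1 : pv ξ (w * w') P = Bt.lim w (fun γ =>
        v' (P.comp (X + C (γ.2 : R)) + C γ.1) +ᵥ ξ (γ.1 + P.eval (γ.2 : R))) := by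
      unfold pv
      rw [Bt.lim_mul]
      apply Bt.lim_congr_all
      intro γ
      have h2 := hv' (P.comp (X + C (γ.2 : R)) + C γ.1)
      unfold pv at h2
      have h3 : (fun b : R × ℤ => ξ ((γ + b).1 + P.eval (((γ + b).2 : ℤ) : R))) =
          fun b : R × ℤ => ξ (b.1 + (P.comp (X + C (γ.2 : R)) + C γ.1).eval (b.2 : R)) := by
        funext b
        congr 1
        simp only [Prod.fst_add, Prod.snd_add, eval_add, eval_comp, eval_X, eval_C, Int.cast_add]
        rw [add_comm (γ.2 : R) (b.2 : R)]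
        ring
      rw [h3, h2]
      congr 2
      simp only [eval_add, eval_comp, eval_X, eval_C, zero_add]
      ring
    rw [h1, Bt.lim_comp₂ hD.cont_act w (fun γ => v' (P.comp (X + C (γ.2 : R)) + C γ.1))
      (fun γ => ξ (γ.1 + P.eval (γ.2 : R)))]
    have h4 := hv P
    unfold pv at h4
    simp only [h4]
    rw [← add_vadd, add_comm]
  · -- cubes
    intro w v hv P0 P
    apply hD.cube _ (hξ (P0.eval 0) (fun l => (P l).eval 0))
    have h1 : (fun S : Finset (Fin (m + 1)) => v (P0 + ∑ l ∈ S, P l) +ᵥ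
        ξ (P0.eval 0 + ∑ l ∈ S, (P l).eval 0)) = Bt.lim w (fun γ =>
          fun S : Finset (Fin (m + 1)) => ξ (γ.1 + (P0 + ∑ l ∈ S, P l).eval (γ.2 : R))) := by
      rw [Bt.lim_pi]
      funext S
      have h2 := hv (P0 + ∑ l ∈ S, P l)
      unfold pv at h2
      rw [h2]
      congr 2
      rw [eval_add, eval_finsetSum]
    rw [h1]
    apply Bt.lim_mem hD.closedQ
    intro γ
    have h3 := hξ (γ.1 + P0.eval (γ.2 : R)) (fun l => (P l).eval (γ.2 : R))
    convert h3 using 2 with S
    rw [eval_add, eval_finsetSum, add_assoc]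
  · -- dilation
    intro c w v hv P
    have h1 := hv (P.comp (C (c : R) * X))
    unfold pv at h1 ⊢
    rw [Bt.lim_map]
    have h2 : (fun a : R × ℤ => ξ (a.1 + P.eval ((c * a.2 : ℤ) : R))) =
        fun γ : R × ℤ => ξ (γ.1 + (P.comp (C (c : R) * X)).eval (γ.2 : R)) := by
      funext a
      simp only [eval_comp, eval_mul, eval_C, eval_X, Int.cast_mul]
    rw [h2, h1]
    simp only [eval_comp, eval_mul, eval_C, eval_X, mul_zero]
  · -- closedness
    intro F hF
    have h1 : IsClosed {q : Bt (R × ℤ) × (R[X] → V) | IsErr ξ q.1 q.2} := by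
      have h2 : {q : Bt (R × ℤ) × (R[X] → V) | IsErr ξ q.1 q.2} =
          ⋂ P : R[X], {q : Bt (R × ℤ) × (R[X] → V) | pv ξ q.1 P = q.2 P +ᵥ ξ (P.eval 0)} := by
        ext q
        simp only [Set.mem_ofPred_eq, Set.mem_iInter]
        rfl
      rw [h2]
      apply isClosed_iInter
      intro P
      apply isClosed_eq
      · exact (Bt.continuous_lim _).comp continuous_fst
      · exact (hact' _).comp ((continuous_apply P).comp continuous_snd)
    have h3 : IsClosed {q : Bt (R × ℤ) × (R[X] → V) | IsErr ξ q.1 q.2 ∧ q.2 ∈ F} :=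
      h1.inter (hF.preimage continuous_snd)
    have h4 := isClosedMap_fst_of_compactSpace (X := Bt (R × ℤ)) (Y := R[X] → V) _ h3
    convert h4 using 1
    ext w
    constructor
    · rintro ⟨v, h5, h6⟩
      exact ⟨(w, v), ⟨h5, h6⟩, rfl⟩
    · rintro ⟨⟨w', v⟩, ⟨h5, h6⟩, rfl⟩
      exact ⟨v, h5, h6⟩

end Pool.Agent.PRR
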