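import Pool.Agent.PRR.Targets2

/-!
Genericity of shifts of polynomials.
-/

set_option autoImplicit false

namespace Pool.Agent.PRR

open Filter Topology

namespace GEN

open Polynomial

lemma eval_sh (p : ℤ[X]) (ν t : ℤ) : (sh p ν).eval t = p.eval (t + ν) - p.eval ν := by
  unfold sh
  simp

lemma coeff_sh (p : ℤ[X]) (hp : 2 ≤ p.natDegree) (ν : ℤ) :
    (sh p ν).coeff (p.natDegree - 1) =
      (hasseDeriv (p.natDegree - 1) p).coeff 0 +
        (p.natDegree : ℤ) * p.leadingCoeff * ν := by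
  have h1 : (sh p ν).coeff (p.natDegree - 1) = (taylor ν p).coeff (p.natDegree - 1) := by
    have h0 : sh p ν = taylor ν p - C (p.eval ν) := rfl
    rw [h0, coeff_sub, coeff_C_of_ne_zero (by omega), sub_zero]
  rw [h1, taylor_coeff]
  have h2 : (hasseDeriv (p.natDegree - 1) p).natDegree ≤ 1 :=
    (natDegree_hasseDeriv_le p (p.natDegree - 1)).trans (by omega)
  have h3 : (hasseDeriv (p.natDegree - 1) p).coeff 1 = (p.natDegree : ℤ) * p.leadingCoeff := by
    rw [hasseDeriv_coeff]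
    have h4 : 1 + (p.natDegree - 1) = p.natDegree := by omega
    rw [h4, coeff_natDegree]
    have h5 : p.natDegree.choose (p.natDegree - 1) = p.natDegree := by
      have h6 := Nat.choose_symm (n := p.natDegree) (k := 1) (by omega)
      rw [h6, Nat.choose_one_right]
    rw [h5]
  conv_lhs => rw [eq_X_add_C_of_natDegree_le_one h2]
  rw [h3]
  simp only [eval_add, eval_mul, eval_C, eval_X]
  ring

lemma uniq (p : ℤ[X]) (hp : 2 ≤ p.natDegree) {ν ν' : ℤ} (h : sh p ν = sh p ν') : ν = ν' := by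
  have h1 := congrArg (fun q : ℤ[X] => q.coeff (p.natDegree - 1)) h
  simp only [coeff_sh p hp] at h1
  have h2 : (p.natDegree : ℤ) * p.leadingCoeff ≠ 0 := by
    refine mul_ne_zero (by exact_mod_cast (by omega : p.natDegree ≠ 0)) ?_
    rw [Ne, leadingCoeff_eq_zero]
    rintro rfl
    simp at hp
  exact mul_left_cancel₀ h2 (by linarith)

lemma fin (P : Finset ℤ[X]) (q : ℤ[X]) :
    {ν : ℤ | ∃ p ∈ P, 2 ≤ p.natDegree ∧ sh p ν = q}.Finite := by
  have h1 : {ν : ℤ | ∃ p ∈ P, 2 ≤ p.natDegree ∧ sh p ν = q} =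
      ⋃ p ∈ P, {ν : ℤ | 2 ≤ p.natDegree ∧ sh p ν = q} := by
    ext ν
    simp only [Set.mem_iUnion, Set.mem_ofPred_eq, exists_prop]
  rw [h1]
  refine Set.Finite.biUnion P.finite_toSet fun p _ => ?_
  refine Set.Subsingleton.finite ?_
  rintro a ⟨h2, h3⟩ b ⟨_, h4⟩
  exact uniq p h2 (h3.trans h4.symm)

end GEN

theorem p_GEN : T_GEN := by
  intro P P1 hP _
  obtain ⟨N0, hN0⟩ := (GEN.fin P P1).bddAbove
  have hF : ∀ ν : ℤ, ∃ B : ℤ, ∀ p ∈ P, ∀ p' ∈ P, 2 ≤ p'.natDegree → ∀ ν', B < ν' →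
      sh p ν ≠ sh p' ν' := by
    intro ν
    have h1 : (⋃ p ∈ P, {ν' : ℤ | ∃ p' ∈ P, 2 ≤ p'.natDegree ∧ sh p' ν' = sh p ν}).Finite :=
      Set.Finite.biUnion P.finite_toSet fun p _ => GEN.fin P (sh p ν)
    obtain ⟨B, hB⟩ := h1.bddAbove
    refine ⟨B, fun p hp p' hp' hd ν' hν' he => ?_⟩
    have h2 := hB (Set.mem_biUnion (x := p) hp ⟨p', hp', hd, he.symm⟩)
    exact absurd h2 (not_le.2 hν')
  choose F hF using hF
  refine ⟨N0, F, ?_, ?_, ?_, ?_⟩
  · intro p hp hd ν hν he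
    exact absurd (hN0 ⟨p, hp, hd, he⟩) (not_le.2 hν)
  · intro p hp p' hp' _ hd' ν ν' hν'
    exact hF ν p hp p' hp' hd' ν' hν'
  · intro p hp p' hp' ν he
    have h1 : ∀ t, p.eval (t + ν) - p.eval ν = p'.eval (t + ν) - p'.eval ν := by
      intro t
      rw [← GEN.eval_sh, ← GEN.eval_sh, he]
    have h2 := h1 (-ν)
    rw [neg_add_cancel, (hP p hp).2, (hP p' hp').2] at h2
    refine Polynomial.funext fun x => ?_
    have h3 := h1 (x - ν)
    rw [sub_add_cancel] at h3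
    linarith
  · intro p hp hd ν
    refine Polynomial.funext fun x => ?_
    rw [GEN.eval_sh]
    have h1 := Polynomial.eq_X_add_C_of_natDegree_le_one hd
    have h2 : p.coeff 0 = 0 := by rw [Polynomial.coeff_zero_eq_eval_zero]; exact (hP p hp).2
    rw [h2, Polynomial.C_0, add_zero] at h1
    rw [h1]
    simp only [Polynomial.eval_mul, Polynomial.eval_C, Polynomial.eval_X]
    ring

end Pool.Agent.PRR
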