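import Pool.Agent.PRR.Targets

/-!
Roots in the group `G` modulo `K (s + 1)` (PRR-GROOT).
-/

set_option autoImplicit false

namespace Pool.Agent.PRR

open Filter Topology

namespace GROOT

theorem ev_mul_dvd {w w' : Bt ℤ} {m : ℤ} (h : w.Ev (fun n => m ∣ n)) (h' : w'.Ev (fun n => m ∣ n)) :
    (w * w').Ev (fun n => m ∣ n) := by
  rw [Bt.ev_mul]
  exact h.mono fun a ha => h'.mono fun b hb => dvd_add ha hb

theorem ev_u0 (h3 : T_KRES) {m : ℤ} (hm : m ≠ 0) : u0.Ev (fun n => m ∣ n) :=
  h3 1 (K 2).one_mem m hm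

end GROOT

open GROOT

theorem p_GROOT (h1 : T_DIV) (h2 : T_DIV1) (h3 : T_KRES) : T_GROOT := by
  intro p hp s g hg
  have hp0 : (p : ℤ) ≠ 0 := by exact_mod_cast hp.out.ne_zero
  have hpi : ∀ i : ℕ, (p : ℤ) ^ i ≠ 0 := fun i => pow_ne_zero i hp0
  induction s with
  | zero =>
    refine ⟨1, fun i => ev_u0 h3 (hpi i), ?_⟩
    rw [K_eq_top_of_le_one le_rfl]
    exact Subgroup.mem_top _
  | succ s ih =>
    rcases Nat.eq_zero_or_pos s with rfl | hs
    · -- dividing by `p`
      set q : Bt ℤ := Bt.map (fun n => n / (p : ℤ)) g.val with hq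
      have hqp : Bt.map (fun n => (p : ℤ) * n) q = g.val := by
        rw [hq, Bt.map_map]
        have h4 : Bt.map (fun a : ℤ => (p : ℤ) * (a / (p : ℤ))) g.val =
            Bt.map (fun a => a) g.val := by
          apply Bt.map_congr
          refine (hg 1).mono fun a ha => ?_
          rw [pow_one] at ha
          exact Int.mul_ediv_cancel' ha
        rw [h4, Bt.map_id']
      refine ⟨gz q, fun i => ?_, ?_⟩
      · have h5 : q.Ev (fun n => (p : ℤ) ^ i ∣ n) := by
          rw [hq, Bt.ev_map]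
          refine (hg (i + 1)).mono fun a ha => ?_
          obtain ⟨b, rfl⟩ := ha
          rw [pow_succ, mul_assoc, mul_left_comm, Int.mul_ediv_cancel_left _ hp0]
          exact dvd_mul_right _ _
        exact ev_mul_dvd (ev_mul_dvd (ev_u0 h3 (hpi i)) h5) (ev_u0 h3 (hpi i))
      · have h4 := h2 q p
        have h6 : gz g.val = g := Bt.gr_val_self hu0 g
        rw [hqp, h6] at h4
        have h5 := (K 2).inv_mem h4
        rwa [mul_inv_rev, inv_inv] at h5
    · obtain ⟨k, hk1, hk2⟩ := ih
      obtain ⟨κ', hκ', hκ⟩ := h1 (s + 1) (by omega) _ ((K (s + 1)).inv_mem hk2) p hp.out.pos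
      rw [inv_inv] at hκ
      refine ⟨k * κ', fun i => ?_, ?_⟩
      · have h4 : κ' ∈ K 2 := K_antitone (by omega) hκ'
        exact ev_mul_dvd (hk1 i) (h3 κ' h4 _ (hpi i))
      · have : (K (s + 1 + 1)).Normal := K_normal _
        have hc : ∀ a : G, Commute (QuotientGroup.mk' (K (s + 1 + 1)) a)
            (QuotientGroup.mk' (K (s + 1 + 1)) κ') := by
          intro a
          have h4 := commutator_mem (s + 1) a hκ'
          have h5 := (QuotientGroup.eq_one_iff (N := K (s + 1 + 1)) _).2 h4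
          have h6 : (QuotientGroup.mk' (K (s + 1 + 1)) a) * (QuotientGroup.mk' (K (s + 1 + 1)) κ') *
              (QuotientGroup.mk' (K (s + 1 + 1)) a)⁻¹ * (QuotientGroup.mk' (K (s + 1 + 1)) κ')⁻¹ = 1 := by
            rw [← map_inv, ← map_inv, ← map_mul, ← map_mul, ← map_mul]
            exact h5
          change _ * _ = _ * _
          rw [mul_inv_eq_one] at h6
          exact mul_inv_eq_iff_eq_mul.1 h6
        apply (QuotientGroup.eq_one_iff (N := K (s + 1 + 1)) _).1
        have h7 := (QuotientGroup.eq_one_iff (N := K (s + 1 + 1)) _).2 hκ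
        change QuotientGroup.mk' (K (s + 1 + 1)) _ = 1 at h7
        change QuotientGroup.mk' (K (s + 1 + 1)) _ = 1
        rw [map_mul, map_mul, map_inv, map_pow, map_pow] at h7
        rw [map_mul, map_inv, map_pow, map_mul, (hc k).mul_pow, ((hc k).pow_pow p p).eq, mul_assoc]
        exact h7

end Pool.Agent.PRR
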