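import Pool.Agent.PRR.Targets

/-!
The class of `x` for the intersection of all the relations.
-/

set_option autoImplicit false

namespace Pool.Agent.PRR

open Filter Topology

namespace INF

/-- The minimal left ideal of `u0`. -/
def M : Type := {q : Bt ℤ // q * u0 = q}

instance : TopologicalSpace M := inferInstanceAs (TopologicalSpace {q : Bt ℤ // q * u0 = q})

instance : T2Space M := inferInstanceAs (T2Space {q : Bt ℤ // q * u0 = q})

theorem isClosed_M : IsClosed {q : Bt ℤ | q * u0 = q} :=
  isClosed_eq (Bt.continuous_mul_right u0) continuous_id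

instance : CompactSpace M :=
  isCompact_iff_compactSpace.1 isClosed_M.isCompact

/-- The inclusion. -/
def inc (m : M) : Bt ℤ := m.1

theorem continuous_inc : Continuous inc := continuous_subtype_val

theorem inc_injective : Function.Injective inc := Subtype.val_injective

theorem inc_mul (m : M) : inc m * u0 = inc m := m.2

/-- Translation by one. -/
noncomputable def TM : M ≃ₜ M where
  toFun m := ⟨Bt.pt 1 * inc m, by rw [mul_assoc, inc_mul]⟩
  invFun m := ⟨Bt.pt (-1) * inc m, by rw [mul_assoc, inc_mul]⟩
  left_inv m := by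
    apply inc_injective
    change Bt.pt (-1) * (Bt.pt 1 * inc m) = inc m
    rw [← mul_assoc, Bt.pt_mul_pt, neg_add_cancel, ← Bt.one_def, one_mul]
  right_inv m := by
    apply inc_injective
    change Bt.pt 1 * (Bt.pt (-1) * inc m) = inc m
    rw [← mul_assoc, Bt.pt_mul_pt, add_neg_cancel, ← Bt.one_def, one_mul]
  continuous_toFun := ((Bt.continuous_pt_mul 1).comp continuous_inc).subtype_mk
    (fun m => by
      change Bt.pt 1 * inc m * u0 = Bt.pt 1 * inc m
      rw [mul_assoc, inc_mul])
  continuous_invFun := ((Bt.continuous_pt_mul (-1)).comp continuous_inc).subtype_mk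
    (fun m => by
      change Bt.pt (-1) * inc m * u0 = Bt.pt (-1) * inc m
      rw [mul_assoc, inc_mul])

theorem inc_TM (m : M) : inc (TM m) = Bt.pt 1 * inc m := rfl

theorem inc_zpow (n : ℤ) (m : M) : inc ((TM ^ n) m) = Bt.pt n * inc m := by
  induction n using Int.induction_on generalizing m with
  | zero =>
    rw [zpow_zero, ← Bt.one_def, one_mul]
    rfl
  | succ n ih =>
    rw [zpow_add_one]
    change inc ((TM ^ (n : ℤ)) (TM m)) = _
    rw [ih, inc_TM, ← mul_assoc, Bt.pt_mul_pt]
  | pred n ih =>
    rw [zpow_sub_one]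
    change inc ((TM ^ (-(n : ℤ))) ((TM⁻¹) m)) = _
    rw [ih]
    change Bt.pt (-(n : ℤ)) * (Bt.pt (-1) * inc m) = _
    rw [← mul_assoc, Bt.pt_mul_pt]
    rfl

theorem inc_act (r : Bt ℤ) (m : M) : inc (act TM r m) = r * inc m := by
  unfold act
  rw [← Bt.lim_comp continuous_inc]
  simp only [inc_zpow, Bt.pt_mul]
  rfl

/-- The base point. -/
noncomputable def um : M := ⟨u0, hu0.1⟩

theorem act_um : act TM u0 um = um := by
  apply inc_injective
  rw [inc_act]
  exact hu0.1

theorem isMin_TM : IsMin TM := by
  intro a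
  -- the left ideal of `a` contains `u0`
  obtain ⟨q, -, hq⟩ := Bt.exists_idem_mul (Set.univ : Set (Bt ℤ)) isClosed_univ
    (fun _ _ _ _ => trivial) (w := inc a) trivial
  have h1 : q * inc a * u0 = q * inc a := by rw [mul_assoc, inc_mul]
  have h2 := hu0.2 _ hq h1
  have hr := Bt.range_lim (fun n : ℤ => (TM ^ n) a)
  intro b
  rw [← hr]
  refine ⟨inc b * (u0 * q), ?_⟩
  apply inc_injective
  change inc (act TM (inc b * (u0 * q)) a) = inc b
  rw [inc_act, mul_assoc, mul_assoc, h2, inc_mul]

/-- Closedness of the fibres of the filtration in the minimal ideal. -/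
theorem isClosed_K (h : T_REL) (s : ℕ) : IsClosed {q : Bt ℤ | q * u0 = q ∧ gz q ∈ K s} := by
  -- the cube relation
  let Q : Set (Finset (Fin s) → Bt ℤ) := Set.range (fun w : Bt (ℤ × (Fin s → ℤ)) =>
      fun S : Finset (Fin s) => Bt.map (arr (ind S)) w * u0)
  have hQ : IsClosed Q := by
    apply (isCompact_range _).isClosed
    apply continuous_pi
    intro S
    exact (Bt.continuous_mul_right u0).comp (Bt.continuous_map _)
  have hf : Continuous (fun q : Bt ℤ => fun S : Finset (Fin s) =>
      if S = Finset.univ then q else u0) := by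
    apply continuous_pi
    intro S
    by_cases h : S = Finset.univ
    · simp only [h, if_true]
      exact continuous_id
    · simp only [h, if_false]
      exact continuous_const
  have key : {q : Bt ℤ | q * u0 = q ∧ gz q ∈ K s} = {q : Bt ℤ | q * u0 = q} ∩
      (fun q : Bt ℤ => fun S : Finset (Fin s) => if S = Finset.univ then q else u0) ⁻¹' Q := by
    ext q
    constructor
    · rintro ⟨hq, hK⟩
      refine ⟨hq, ?_⟩
      let m : M := ⟨q, hq⟩
      obtain ⟨w, hw1, hw2⟩ := (h M TM isMin_TM um act_um s um m).2 ⟨gz q, hK, by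
        apply inc_injective
        rw [inc_act, inc_act, inc_act]
        change u0 * q = (u0 * q * u0) * (u0 * u0)
        rw [hu0.1, mul_assoc, hu0.1, mul_assoc, hq]⟩
      refine ⟨w, ?_⟩
      funext S
      change Bt.map (arr (ind S)) w * u0 = if S = Finset.univ then q else u0
      by_cases hS : S = Finset.univ
      · subst hS
        rw [if_pos rfl, ind_univ]
        have := congrArg inc hw2
        rwa [inc_act] at this
      · rw [if_neg hS]
        have := congrArg inc (hw1 S hS)
        rwa [inc_act] at this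
    · rintro ⟨hq, w, hw⟩
      refine ⟨hq, ?_⟩
      let m : M := ⟨q, hq⟩
      obtain ⟨κ, hκ, hκ2⟩ := (h M TM isMin_TM um act_um s um m).1 ⟨w, fun S hS => by
        apply inc_injective
        rw [inc_act]
        have := congrFun hw S
        simp only [if_neg hS] at this
        exact this, by
        apply inc_injective
        rw [inc_act]
        have := congrFun hw Finset.univ
        simp only [if_true, ind_univ] at this
        exact this⟩
      have h3 := congrArg inc hκ2
      rw [inc_act, inc_act, inc_act] at h3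
      have h4 : gz q = κ := by
        apply Bt.Gp.ext
        rw [Bt.gr_val, mul_assoc, hq]
        change u0 * q = κ.val
        have h5 : u0 * q = κ.val * (u0 * u0) := h3
        rw [h5, hu0.1, κ.mul_u]
      rw [h4]
      exact hκ
  rw [key]
  exact isClosed_M.inter (hQ.preimage hf)

end INF

theorem p_INF (h : T_REL) : T_INF := by
  intro X _ _ _ T hT x hx y hy
  let C : ℕ → Set (Bt ℤ) := fun s =>
    {q | (q * u0 = q ∧ gz q ∈ K (s + 1)) ∧ act T q x = act T u0 y}
  have hC : ∀ s, IsClosed (C s) := fun s =>
    (INF.isClosed_K h (s + 1)).inter (isClosed_eq (continuous_act T x) continuous_const)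
  have hne : ∀ s, (C s).Nonempty := by
    intro s
    obtain ⟨κ, hκ, hκ2⟩ := hy s
    refine ⟨κ.val, ⟨κ.mul_u, ?_⟩, ?_⟩
    · change Bt.gr hu0 κ.val ∈ _
      rw [Bt.gr_val_self]
      exact hκ
    · rw [hκ2, hx]
  have hanti : ∀ s, C (s + 1) ⊆ C s := by
    rintro s q ⟨⟨h1, h2⟩, h3⟩
    exact ⟨⟨h1, K_succ_le _ h2⟩, h3⟩
  obtain ⟨q, hq⟩ := IsCompact.nonempty_iInter_of_sequence_nonempty_isCompact_isClosed C hanti hne
    (hC 0).isCompact hC
  rw [Set.mem_iInter] at hq
  refine ⟨gz q, ?_, ?_⟩
  · rw [mem_Kinf]
    intro s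
    exact K_succ_le s (hq s).1.2
  · rw [act_gz, hx, (hq 0).2, ← act_mul, hu0.1]

end Pool.Agent.PRR
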