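import Pool.Agent.PRR.Targets

/-!
Part JOINT: the base statement in several variables.
-/

set_option autoImplicit false

namespace Pool.Agent.PRR

open Filter Topology

namespace JOINT

variable {r : ℕ}

/-- The embedding of `ℤ × ℤ` in coordinate `i`. -/
def JJ (i : Fin r) : ℤ × ℤ →+ ℤ × (Fin r → ℤ) where
  toFun γ := (γ.1, Pi.single i γ.2)
  map_zero' := by simp
  map_add' a b := by simp [Pi.single_add]

theorem JJ_apply (i : Fin r) (γ : ℤ × ℤ) : JJ i γ = (γ.1, Pi.single i γ.2) := rfl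

/-- evaluation map -/
def fi (f : ℤ → ℤ) (i : Fin r) (γ : ℤ × (Fin r → ℤ)) : ℤ := γ.1 + f (γ.2 i)

theorem map_fi_left {A B : Bt (ℤ × (Fin r → ℤ))} {f : ℤ → ℤ} {i : Fin r}
    (hA : A.Ev (fun γ => γ.2 i = 0)) :
    Bt.map (fi f i) (A * B) = Bt.map (fun γ => γ.1) A * Bt.map (fi f i) B := by
  apply Bt.ext
  intro p hp
  rw [Bt.ev_map, Bt.ev_mul] at hp
  rw [Bt.ev_mul, Bt.ev_map]
  refine (hp.and hA).mono fun a ha => ?_
  rw [Bt.ev_map]
  refine ha.1.mono fun b hb => ?_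
  have : fi f i (a + b) = a.1 + fi f i b := by
    simp only [fi, Prod.fst_add, Prod.snd_add, Pi.add_apply, ha.2, zero_add]
    ring
  rwa [this] at hb

theorem map_fi_right {A B : Bt (ℤ × (Fin r → ℤ))} {f : ℤ → ℤ} {i : Fin r}
    (hB : B.Ev (fun γ => γ.2 i = 0)) :
    Bt.map (fi f i) (A * B) = Bt.map (fi f i) A * Bt.map (fun γ => γ.1) B := by
  apply Bt.ext
  intro p hp
  rw [Bt.ev_map, Bt.ev_mul] at hp
  rw [Bt.ev_mul, Bt.ev_map]
  refine hp.mono fun a ha => ?_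
  rw [Bt.ev_map]
  refine (ha.and hB).mono fun b hb => ?_
  have : fi f i (a + b) = fi f i a + b.1 := by
    simp only [fi, Prod.fst_add, Prod.snd_add, Pi.add_apply, hb.2, add_zero]
    ring
  rw [this] at hb
  exact hb.1

theorem map_fst (A B : Bt (ℤ × (Fin r → ℤ))) :
    Bt.map (fun γ => γ.1) (A * B) = Bt.map (fun γ => γ.1) A * Bt.map (fun γ => γ.1) B :=
  Bt.map_mul (AddMonoidHom.fst ℤ (Fin r → ℤ)) A B

/-- the partial products -/
noncomputable def WW (w : Fin r → Bt (ℤ × ℤ)) : ℕ → Bt (ℤ × (Fin r → ℤ))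
  | 0 => 1
  | m + 1 => WW w m * (if h : m < r then Bt.map (JJ ⟨m, h⟩) (w ⟨m, h⟩) else 1)

theorem WW_succ (w : Fin r → Bt (ℤ × ℤ)) {m : ℕ} (h : m < r) :
    WW w (m + 1) = WW w m * Bt.map (JJ ⟨m, h⟩) (w ⟨m, h⟩) := by
  change WW w m * (if h : m < r then Bt.map (JJ ⟨m, h⟩) (w ⟨m, h⟩) else 1) = _
  rw [dif_pos h]

theorem ev_one {Γ : Type} [AddMonoid Γ] {p : Γ → Prop} : (1 : Bt Γ).Ev p ↔ p 0 := by
  rw [Bt.one_def, Bt.ev_pt]

theorem WW_zero (w : Fin r → Bt (ℤ × ℤ)) : ∀ m : ℕ, m ≤ r → ∀ l : Fin r, m ≤ l →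
    (WW w m).Ev (fun γ => γ.2 l = 0) := by
  intro m
  induction m with
  | zero => intro _ l _; exact ev_one.2 rfl
  | succ m ih =>
    intro hm l hl
    rw [WW_succ w (by omega), Bt.ev_mul]
    refine (ih (by omega) l (by omega)).mono fun a ha => ?_
    rw [Bt.ev_map]
    refine Bt.Ev.of_all fun b => ?_
    rw [JJ_apply, Prod.snd_add, Pi.add_apply, ha, zero_add]
    apply Pi.single_eq_of_ne
    intro h
    rw [h] at hl
    simp at hl

theorem WW_fst (w : Fin r → Bt (ℤ × ℤ)) (a : Bt ℤ)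
    (hw : ∀ i, Bt.map (fun γ => γ.1) (w i) = a) : ∀ m : ℕ, m ≤ r →
    Bt.map (fun γ => γ.1) (WW w m) = a ^ m := by
  intro m
  induction m with
  | zero =>
    intro _
    rw [pow_zero]
    exact Bt.map_one (AddMonoidHom.fst ℤ (Fin r → ℤ))
  | succ m ih =>
    intro hm
    rw [WW_succ w (by omega), map_fst, ih (by omega), pow_succ, Bt.map_map]
    congr 1
    exact hw _

theorem map_fi_JJ (f : ℤ → ℤ) (i : Fin r) (w : Bt (ℤ × ℤ)) :
    Bt.map (fi f i) (Bt.map (JJ i) w) = Bt.map (fun γ => γ.1 + f γ.2) w := by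
  rw [Bt.map_map]
  congr 1
  funext γ
  simp [fi, JJ_apply]

theorem JJ_zero {i l : Fin r} (h : l ≠ i) (w : Bt (ℤ × ℤ)) :
    (Bt.map (JJ i) w).Ev (fun γ => γ.2 l = 0) := by
  rw [Bt.ev_map]
  refine Bt.Ev.of_all fun b => ?_
  rw [JJ_apply]
  exact Pi.single_eq_of_ne h _

theorem WW_fi (w : Fin r → Bt (ℤ × ℤ)) (a : Bt ℤ)
    (hw : ∀ i, Bt.map (fun γ => γ.1) (w i) = a) (f : ℤ → ℤ) (i : Fin r) : ∀ m : ℕ,
    (i : ℕ) < m → m ≤ r →
    Bt.map (fi f i) (WW w m) = a ^ (i : ℕ) * Bt.map (fun γ => γ.1 + f γ.2) (w i) *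
      a ^ (m - 1 - i) := by
  intro m
  induction m with
  | zero => intro h; omega
  | succ m ih =>
    intro hm hmr
    rw [WW_succ w (by omega)]
    by_cases him : (i : ℕ) = m
    · rw [map_fi_left (WW_zero w m (by omega) i (by omega)), WW_fst w a hw m (by omega)]
      have hi : (⟨m, by omega⟩ : Fin r) = i := Fin.ext him.symm
      rw [hi, map_fi_JJ, him]
      simp
    · have hi : i ≠ (⟨m, by omega⟩ : Fin r) := fun h => him (congrArg Fin.val h)
      rw [map_fi_right (JJ_zero hi _), ih (by omega) (by omega), Bt.map_map]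
      have h1 : Bt.map (fun γ => (JJ (⟨m, by omega⟩ : Fin r) γ).1) (w ⟨m, by omega⟩) = a := hw _
      rw [h1, mul_assoc (_ * _), ← pow_succ]
      congr 2
      omega

theorem WW_snd (w : Fin r → Bt (ℤ × ℤ)) (i : Fin r) : ∀ m : ℕ, (i : ℕ) < m → m ≤ r →
    ∀ p : ℤ → Prop, (w i).Ev (fun γ => p γ.2) → (WW w m).Ev (fun γ => p (γ.2 i)) := by
  intro m
  induction m with
  | zero => intro h; omega
  | succ m ih =>
    intro hm hmr p hp
    rw [WW_succ w (by omega), Bt.ev_mul]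
    by_cases him : (i : ℕ) = m
    · have hi : (⟨m, by omega⟩ : Fin r) = i := Fin.ext him.symm
      refine (WW_zero w m (by omega) i (by omega)).mono fun a ha => ?_
      rw [hi, Bt.ev_map]
      refine hp.mono fun b hb => ?_
      rw [JJ_apply, Prod.snd_add, Pi.add_apply, ha, zero_add]
      change p ((Pi.single i b.2 : Fin r → ℤ) i)
      rw [Pi.single_eq_same]
      exact hb
    · have hi : i ≠ (⟨m, by omega⟩ : Fin r) := fun h => him (congrArg Fin.val h)
      refine (ih (by omega) (by omega) p hp).mono fun a ha => ?_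
      refine (JJ_zero hi _).mono fun b hb => ?_
      rw [Prod.snd_add, Pi.add_apply, hb, add_zero]
      exact ha

theorem WW_lt (w : Fin r → Bt (ℤ × ℤ)) (hN : ∀ i, ∀ N : ℤ, (w i).Ev (fun γ => N < γ.2))
    (F : ℤ → ℤ) (i i' : Fin r) (hii : i < i') : ∀ m : ℕ, (i' : ℕ) < m → m ≤ r →
    (WW w m).Ev (fun γ => F (γ.2 i) < γ.2 i') := by
  intro m
  induction m with
  | zero => intro h; omega
  | succ m ih =>
    intro hm hmr
    rw [WW_succ w (by omega), Bt.ev_mul]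
    have hii' : (i : ℕ) < i' := hii
    by_cases him : (i' : ℕ) = m
    · have hi : (⟨m, by omega⟩ : Fin r) = i' := Fin.ext him.symm
      have hne : i ≠ i' := ne_of_lt hii
      refine (WW_zero w m (by omega) i' (by omega)).mono fun a ha => ?_
      rw [hi, Bt.ev_map]
      refine (hN i' (F (a.2 i))).mono fun b hb => ?_
      rw [JJ_apply, Prod.snd_add, Pi.add_apply, Pi.add_apply, ha, zero_add]
      change F (a.2 i + (Pi.single i' b.2 : Fin r → ℤ) i) < (Pi.single i' b.2 : Fin r → ℤ) i'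
      rw [Pi.single_eq_same, Pi.single_eq_of_ne hne, add_zero]
      exact hb
    · have hi : i ≠ (⟨m, by omega⟩ : Fin r) := fun h => by
        have := congrArg Fin.val h
        simp at this
        omega
      have hi' : i' ≠ (⟨m, by omega⟩ : Fin r) := fun h => him (congrArg Fin.val h)
      refine (ih (by omega) (by omega)).mono fun a ha => ?_
      refine ((JJ_zero hi _).and (JJ_zero hi' _)).mono fun b hb => ?_
      rw [Prod.snd_add, Pi.add_apply, Pi.add_apply, hb.1, hb.2, add_zero, add_zero]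
      exact ha

theorem val_pow_mul (α : G) (y : Bt ℤ) (hy : u0 * y = y) (m : ℕ) :
    α.val ^ m * y = (α ^ m).val * y := by
  induction m with
  | zero => rw [pow_zero, pow_zero, one_mul, Bt.Gp.val_one, hy]
  | succ m ih =>
    rw [pow_succ', pow_succ', mul_assoc, ih, Bt.Gp.val_mul, mul_assoc]

theorem mul_val_pow (α : G) (y : Bt ℤ) (hy : y * u0 = y) (m : ℕ) :
    y * α.val ^ m = y * (α ^ m).val := by
  induction m with
  | zero => rw [pow_zero, pow_zero, mul_one, Bt.Gp.val_one, hy]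
  | succ m ih =>
    rw [pow_succ, pow_succ, ← mul_assoc, ih, Bt.Gp.val_mul, mul_assoc]

end JOINT

open JOINT in
theorem p_JOINT (_h1 : T_CLO) (h2 : T_INF) (h3 : T_B) : T_JOINT := by
  intro X _ _ _ T k hk hT hTp x hx j r W κ h0 hκ
  obtain ⟨α, hα, hB⟩ := h3 X T k hk hT hTp x hx j
  have hαpow : ∀ m : ℕ, act T (α ^ m).val x = x := by
    intro m
    exact (mem_StG T (hx := hx)).1 ((StG T x hx).pow_mem ((mem_StG T (hx := hx)).2 hα) m)
  have hex : ∀ i : Fin r, ∃ w : Bt (ℤ × ℤ), (∀ s, w ∈ Stab T s x) ∧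
      Bt.map (fun a : ℤ => (a, (0 : ℤ))) u0 * w = w ∧
      w * Bt.map (fun a : ℤ => (a, (0 : ℤ))) u0 = w ∧
      Bt.map (fun γ => γ.1) w = α.val ∧
      (∀ c ∈ W, act T (Bt.map (fun γ => γ.1 + c * γ.2) w) x =
        act T ((α ^ (i : ℕ))⁻¹ * κ i c * α ^ (i : ℕ)).val x) ∧
      w.Ev (fun γ => (k : ℤ) ∣ γ.2 - j) ∧ ∀ N : ℤ, w.Ev (fun γ => N < γ.2) := by
    intro i
    refine hB W (fun c => (α ^ (i : ℕ))⁻¹ * κ i c * α ^ (i : ℕ)) h0 fun c hc => ?_
    have := Kinf_normal.conj_mem (κ i c) (hκ i c hc) (α ^ (i : ℕ))⁻¹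
    rwa [inv_inv] at this
  choose w hst hl hr hfst hc hres hN using hex
  -- normalisation
  have hnl : ∀ (i : Fin r) (f : ℤ → ℤ), f 0 = 0 →
      u0 * Bt.map (fun γ => γ.1 + f γ.2) (w i) = Bt.map (fun γ => γ.1 + f γ.2) (w i) := by
    intro i f hf
    conv_rhs => rw [← hl i]
    apply Bt.ext
    intro p hp
    rw [Bt.ev_mul] at hp
    rw [Bt.ev_map, Bt.ev_mul, Bt.ev_map]
    refine hp.mono fun a ha => ?_
    rw [Bt.ev_map] at ha
    refine ha.mono fun b hb => ?_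
    have : ((a, (0 : ℤ)) + b).1 + f (((a, (0 : ℤ)) + b).2) = a + (b.1 + f b.2) := by
      simp only [Prod.fst_add, Prod.snd_add, zero_add]; ring
    rwa [this]
  have hnr : ∀ (i : Fin r) (f : ℤ → ℤ), f 0 = 0 →
      Bt.map (fun γ => γ.1 + f γ.2) (w i) * u0 = Bt.map (fun γ => γ.1 + f γ.2) (w i) := by
    intro i f hf
    conv_rhs => rw [← hr i]
    apply Bt.ext
    intro p hp
    rw [Bt.ev_mul, Bt.ev_map] at hp
    rw [Bt.ev_map, Bt.ev_mul]
    refine hp.mono fun a ha => ?_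
    rw [Bt.ev_map]
    refine ha.mono fun b hb => ?_
    have : (a + (b, (0 : ℤ))).1 + f ((a + (b, (0 : ℤ))).2) = (a.1 + f a.2) + b := by
      simp only [Prod.fst_add, Prod.snd_add, add_zero]; ring
    rwa [this]
  -- the value of the evaluation maps
  have hval : ∀ (i : Fin r) (f : ℤ → ℤ), f 0 = 0 →
      Bt.map (fun γ : ℤ × (Fin r → ℤ) => γ.1 + f (γ.2 i)) (WW w r) =
        (α ^ (i : ℕ) * gz (Bt.map (fun γ => γ.1 + f γ.2) (w i)) * α ^ (r - 1 - i)).val := by
    intro i f hf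
    have h4 := WW_fi w α.val hfst f i r i.2 le_rfl
    have h5 : Bt.map (fi f i) (WW w r) =
      Bt.map (fun γ : ℤ × (Fin r → ℤ) => γ.1 + f (γ.2 i)) (WW w r) := rfl
    rw [← h5, h4, val_pow_mul α _ (hnl i f hf), mul_val_pow α _ (by
      rw [mul_assoc, hnr i f hf]), Bt.Gp.val_mul, Bt.Gp.val_mul, Bt.gr_val, hnl i f hf, hnr i f hf]
  refine ⟨WW w r, ?_, ?_, ?_, ?_, ?_, ?_⟩
  · rw [WW_fst w α.val hfst r le_rfl]
    rcases Nat.eq_zero_or_pos r with hr0 | hr0
    · rw [hr0, pow_zero, act_one]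
    · obtain ⟨m, hm⟩ : ∃ m, r = m + 1 := ⟨r - 1, by omega⟩
      rw [hm, pow_succ, val_pow_mul α _ α.u_mul, ← Bt.Gp.val_mul, ← pow_succ]
      exact hαpow _
  · intro i c hcW
    rw [hval i (fun n => c * n) (mul_zero c), act_val_mul, hαpow, act_val_mul]
    have h4 : (gz (Bt.map (fun γ => γ.1 + c * γ.2) (w i))).val =
        Bt.map (fun γ => γ.1 + c * γ.2) (w i) := by
      rw [Bt.gr_val, hnl i (fun n => c * n) (mul_zero c), hnr i (fun n => c * n) (mul_zero c)]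
    rw [h4, hc i c hcW, ← act_val_mul]
    have h5 : α ^ (i : ℕ) * ((α ^ (i : ℕ))⁻¹ * κ i c * α ^ (i : ℕ)) = κ i c * α ^ (i : ℕ) := by
      group
    rw [h5, act_val_mul, hαpow]
  · intro i P hP
    set g : G := gz (Bt.map (fun γ => γ.1 + P.eval γ.2) (w i)) with hg
    have hgv : g.val = Bt.map (fun γ => γ.1 + P.eval γ.2) (w i) := by
      rw [hg, Bt.gr_val, hnl i (fun n => P.eval n) hP, hnr i (fun n => P.eval n) hP]
    have hev : ev T (w i) P x = act T g.val x := by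
      rw [hgv, act_map]; rfl
    have heqv : EqvInf T x (act T g.val x) := by
      intro s
      have h4 := hst i s P
      rw [hP, hev] at h4
      have h5 : (T ^ (0 : ℤ)) x = x := by simp
      rw [h5] at h4
      exact h4.symm
    obtain ⟨κ0, hκ0, h4⟩ := h2 X T hT x hx _ heqv
    rw [act_u0_val] at h4
    have h5 : act T (κ0⁻¹ * g).val x = x := by
      rw [act_val_mul, h4, act_inv_val, hx]
    refine ⟨α ^ (i : ℕ) * κ0 * (α ^ (i : ℕ))⁻¹, Kinf_normal.conj_mem _ hκ0 _,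
      α ^ (i : ℕ) * (κ0⁻¹ * g) * α ^ (r - 1 - i), ?_, ?_⟩
    · rw [act_val_mul, hαpow, act_val_mul, h5, hαpow]
    · rw [hval i (fun n => P.eval n) hP, ← hg]
      congr 1
      group
  · intro i
    exact WW_snd w i r i.2 le_rfl (fun n => (k : ℤ) ∣ n - j) (hres i)
  · intro N
    exact Bt.Ev.finite_all fun i => WW_snd w i r i.2 le_rfl (fun n => N < n) (hN i N)
  · intro F i i' hii
    exact WW_lt w hN F i i' hii r i'.2 le_rfl

end Pool.Agent.PRR
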