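import Pool.Agent.PRR.Targets

/-!
The linear orbits: for every `g` in the Ellis group there is `w` in `Bt (ℤ × ℤ)` whose image
under `(a, b) ↦ a + m b` is `g ^ m`, for all integers `m`.
-/

set_option autoImplicit false

namespace Pool.Agent.PRR

open Filter Topology

namespace LIN

/-- The homomorphism `(a, b) ↦ a + i b`. -/
def ph (i : ℤ) : ℤ × ℤ →+ ℤ where
  toFun p := p.1 + i * p.2
  map_zero' := by simp
  map_add' p q := by
    simp only [Prod.fst_add, Prod.snd_add]
    ring

theorem ph_apply (i : ℤ) (p : ℤ × ℤ) : ph i p = p.1 + i * p.2 := rfl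

theorem ph_inl (i a : ℤ) : ph i (AddMonoidHom.inl ℤ ℤ a) = a := by simp [ph]

/-- The group of the sequences `i ↦ u φ_i(w) u`. -/
noncomputable def GG : Subgroup (ℤ → G) :=
  Bt.TG hu0 (fun i : ℤ => ph i) (AddMonoidHom.inl ℤ ℤ) (fun i a => ph_inl i a)

theorem mem_GG {h : ℤ → G} : h ∈ GG ↔ ∃ w : Bt (ℤ × ℤ), ∀ i, h i = gz (Bt.map (ph i) w) := Iff.rfl

theorem GG_aff {h : ℤ → G} (hh : h ∈ GG) (b c : ℤ) : (fun t => h (b + c * t)) ∈ GG := by
  obtain ⟨w, hw⟩ := hh
  refine ⟨Bt.map (fun p : ℤ × ℤ => (p.1 + b * p.2, c * p.2)) w, fun t => ?_⟩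
  change h (b + c * t) = _
  rw [hw, Bt.map_map]
  congr 2
  funext p
  simp only [ph_apply]
  ring

theorem GG_const (g : G) : (fun _ : ℤ => g) ∈ GG := by
  refine ⟨Bt.map (AddMonoidHom.inl ℤ ℤ) g.val, fun i => ?_⟩
  change g = _
  rw [Bt.map_map]
  have : (fun a => ph i (AddMonoidHom.inl ℤ ℤ a)) = fun a => a := by
    funext a
    exact ph_inl i a
  rw [this, Bt.map_id', Bt.gr_val_self]

theorem GG_pt (r : ℤ) : (fun i : ℤ => gz (Bt.pt (r * i))) ∈ GG := by
  refine ⟨Bt.pt ((0 : ℤ), r), fun i => ?_⟩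
  change gz (Bt.pt (r * i)) = _
  rw [Bt.map_pt, ph_apply]
  congr 2
  ring

theorem gz_pt_add (a b : ℤ) : gz (Bt.pt (a + b)) = gz (Bt.pt a) * gz (Bt.pt b) := by
  rw [← Bt.pt_mul_pt]
  exact Bt.gr_pt_mul hu0 a (Bt.pt b)

theorem gz_pt_zero : gz (Bt.pt 0) = 1 := Bt.gr_one hu0

theorem gz_pt_nat (r : ℤ) (i : ℕ) : gz (Bt.pt (r * i)) = gz (Bt.pt r) ^ i := by
  induction i with
  | zero => simp [gz_pt_zero]
  | succ i ih =>
    rw [pow_succ, ← ih, ← gz_pt_add]
    congr 2
    push_cast
    ring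

/-! ### Residues -/

section Res

variable (M : ℕ) [NeZero M]

/-- The residue modulo `M`. -/
noncomputable def rs (q : Bt ℤ) : ZMod M := Bt.res (fun n : ℤ => (n : ZMod M)) q

theorem rs_mul (q r : Bt ℤ) : rs M (q * r) = rs M q + rs M r :=
  Bt.res_mul _ (fun a b => by push_cast; rfl) q r

theorem rs_u0 : rs M u0 = 0 := Bt.res_idem _ (fun a b => by push_cast; rfl) hu0.1

theorem rs_gz (q : Bt ℤ) : rs M (gz q).val = rs M q := by
  rw [Bt.gr_val, rs_mul, rs_mul, rs_u0, zero_add, add_zero]

/-- The residue as a homomorphism. -/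
noncomputable def rh : G →* Multiplicative (ZMod M) where
  toFun g := Multiplicative.ofAdd (rs M g.val)
  map_one' := by
    change Multiplicative.ofAdd (rs M u0) = 1
    rw [rs_u0]
    rfl
  map_mul' g h := by
    rw [Bt.Gp.val_mul, rs_mul]
    rfl

theorem rs_eq_zero_iff (q : Bt ℤ) : rs M q = 0 ↔ q.Ev (fun n => (M : ℤ) ∣ n) := by
  unfold rs
  rw [Bt.res_eq_iff]
  constructor
  · intro h
    exact h.mono fun n hn => (ZMod.intCast_zmod_eq_zero_iff_dvd n M).1 hn
  · intro h
    exact h.mono fun n hn => (ZMod.intCast_zmod_eq_zero_iff_dvd n M).2 hn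

theorem rs_ph (w : Bt (ℤ × ℤ)) (i : ℤ) : rs M (Bt.map (ph i) w) =
    Bt.res (fun p : ℤ × ℤ => ((p.1 : ℤ) : ZMod M)) w +
      (i : ZMod M) * Bt.res (fun p : ℤ × ℤ => ((p.2 : ℤ) : ZMod M)) w := by
  unfold rs
  rw [Bt.res_map, Bt.res_eq_iff]
  refine ((Bt.ev_res (fun p : ℤ × ℤ => ((p.1 : ℤ) : ZMod M)) w).and
    (Bt.ev_res (fun p : ℤ × ℤ => ((p.2 : ℤ) : ZMod M)) w)).mono fun p hp => ?_
  rw [ph_apply, ← hp.1, ← hp.2]
  push_cast
  rfl

/-- If the values at `0` and `1` have residue zero, the direction has residue zero. -/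
theorem dir_zero {h : ℤ → G} {w : Bt (ℤ × ℤ)} (hw : ∀ i, h i = gz (Bt.map (ph i) w))
    (h0 : rs M (h 0).val = 0) (h1 : rs M (h 1).val = 0) :
    w.Ev (fun p => (M : ℤ) ∣ p.2) := by
  rw [hw, rs_gz, rs_ph] at h0 h1
  have h2 : Bt.res (fun p : ℤ × ℤ => ((p.2 : ℤ) : ZMod M)) w = 0 := by
    rw [Int.cast_zero, zero_mul, add_zero] at h0
    rw [h0, Int.cast_one, one_mul, zero_add] at h1
    exact h1
  rw [Bt.res_eq_iff] at h2
  exact h2.mono fun p hp => (ZMod.intCast_zmod_eq_zero_iff_dvd _ M).1 hp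

end Res

/-! ### Iterated differences -/

section DLs

variable {ι H : Type} [Fintype ι] [DecidableEq ι] [Group H]

omit [Fintype ι] in
theorem DL_mem (A : Subgroup H) (L : List ι) (h : (ι → ℤ) → H) (hA : ∀ i, h i ∈ A) (i : ι → ℤ) :
    DL L h i ∈ A := by
  induction L generalizing i with
  | nil => exact hA i
  | cons l L ih =>
    rw [DL_cons]
    exact A.mul_mem (ih i) (A.inv_mem (ih _))

theorem DL_cmp (L : List ι) (h1 h2 : (ι → ℤ) → H)
    (hS : ∀ S : Finset ι, S ≠ Finset.univ → h1 (ind S) = h2 (ind S)) :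
    (∀ S : Finset ι, S ≠ Finset.univ → DL L h1 (ind S) = DL L h2 (ind S)) ∧
      (h1 (fun _ => 1))⁻¹ * DL L h1 (fun _ => 1) = (h2 (fun _ => 1))⁻¹ * DL L h2 (fun _ => 1) := by
  induction L with
  | nil => exact ⟨hS, by simp [DL_nil]⟩
  | cons l L ih =>
    obtain ⟨ih1, ih2⟩ := ih
    have herase : ∀ S : Finset ι, S.erase l ≠ Finset.univ := by
      intro S hS
      have := Finset.notMem_erase l S
      rw [hS] at this
      exact this (Finset.mem_univ l)
    constructor
    · intro S hS'
      rw [DL_cons, DL_cons]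
      unfold D1
      rw [zc_ind, ih1 S hS', ih1 _ (herase S)]
    · rw [DL_cons, DL_cons]
      unfold D1
      rw [← ind_univ, zc_ind, ind_univ, ← mul_assoc, ← mul_assoc, ih2, ih1 _ (herase _)]

theorem sum_zc (l : ι) (i : ι → ℤ) : ∑ a, zc l i a = ∑ a, i a - i l := by
  have h : ∀ a, zc l i a = i a - if a = l then i l else 0 := by
    intro a
    unfold zc
    by_cases ha : a = l
    · subst ha; simp
    · simp [ha]
  simp only [h, Finset.sum_sub_distrib]
  simp

/-- The iterated difference of `ε ↦ g ^ (Σ ε)` in at least two directions is trivial. -/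
theorem DL_pow (g : H) (L : List ι) (hnd : L.Nodup) :
    (∀ l, L = [l] → DL L (fun i : ι → ℤ => g ^ (∑ a, i a)) = fun i => g ^ (i l)) ∧
    (2 ≤ L.length → DL L (fun i : ι → ℤ => g ^ (∑ a, i a)) = fun _ => 1) := by
  induction L with
  | nil => exact ⟨fun l h => by simp at h, fun h => by simp at h⟩
  | cons l L ih =>
    obtain ⟨ih1, ih2⟩ := ih (List.nodup_cons.1 hnd).2
    constructor
    · intro l' hl'
      obtain ⟨rfl, rfl⟩ : l = l' ∧ L = [] := by simpa using hl'
      rw [DL_cons, DL_nil]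
      funext i
      unfold D1
      beta_reduce
      rw [sum_zc, ← zpow_neg, ← zpow_add]
      congr 1
      ring
    · intro hlen
      rcases L with _ | ⟨l', L⟩
      · simp at hlen
      · rw [DL_cons]
        rcases L with _ | ⟨l'', L⟩
        · rw [ih1 l' rfl]
          have hne : l' ≠ l := by
            intro h
            subst h
            simp at hnd
          funext i
          simp only [D1, zc]
          rw [Function.update_of_ne hne, mul_inv_cancel]
        · rw [ih2 (by simp)]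
          funext i
          simp [D1]

end DLs

/-- The main step. -/
theorem claim (L : ℕ) (hL : 0 < L) (g : G) (hg : g.val.Ev (fun n => (L : ℤ) ∣ n)) :
    ∀ D : ℕ, (∀ i, 1 ≤ i → i ≤ D → i ∣ L) →
      ∃ h ∈ GG, ∀ i : ℕ, i ≤ D → h ((L : ℤ) * i) = g ^ i := by
  intro D
  have : NeZero L := ⟨hL.ne'⟩
  induction D with
  | zero =>
    intro _
    refine ⟨fun _ => 1, GG_const 1, fun i hi => ?_⟩
    obtain rfl : i = 0 := by omega
    rw [pow_zero]
  | succ D ih =>
    intro hdiv
    rcases Nat.eq_zero_or_pos D with rfl | hD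
    · refine ⟨fun j => gz (Bt.map (fun n => j * (n / (L : ℤ))) g.val), ?_, fun i hi => ?_⟩
      · refine ⟨Bt.map (fun n : ℤ => ((0 : ℤ), n / (L : ℤ))) g.val, fun i => ?_⟩
        change gz (Bt.map (fun n => i * (n / (L : ℤ))) g.val) = _
        rw [Bt.map_map]
        congr 2
        funext n
        rw [ph_apply]
        ring
      · rcases (by omega : i = 0 ∨ i = 1) with rfl | rfl
        · simp only [Nat.cast_zero, mul_zero, zero_mul, Bt.map_const, pow_zero]
          exact Bt.gr_one hu0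
        · rw [pow_one]
          change gz (Bt.map (fun n => (L : ℤ) * ((1 : ℕ) : ℤ) * (n / (L : ℤ))) g.val) = g
          have e : Bt.map (fun n => (L : ℤ) * ((1 : ℕ) : ℤ) * (n / (L : ℤ))) g.val =
              Bt.map (fun n => n) g.val := by
            refine Bt.map_congr (hg.mono fun n hn => ?_)
            rw [Nat.cast_one, mul_one, Int.mul_ediv_cancel' hn]
          rw [e, Bt.map_id']
          exact Bt.gr_val_self hu0 g
    · obtain ⟨h, hh, hval⟩ := ih (fun i h1 h2 => hdiv i h1 (by omega))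
      -- the quotients
      have hq : ∀ l : Fin (D + 1), ∃ q : ℤ, (L : ℤ) = ((l : ℕ) + 1 : ℕ) * q := by
        intro l
        obtain ⟨q, hq⟩ := hdiv ((l : ℕ) + 1) (by omega) (by omega)
        exact ⟨q, by rw [hq]; push_cast; ring⟩
      choose q hq using hq
      let H : (Fin (D + 1) → ℤ) → (ℤ → G) := fun ε t => h (∑ l, ε l * ((L : ℤ) - t * q l))
      have hHmem : ∀ ε, H ε ∈ GG := by
        intro ε
        have := GG_aff hh (∑ l, ε l * (L : ℤ)) (-∑ l, ε l * q l)
        have e : (fun t => h (∑ l, ε l * (L : ℤ) + (-∑ l, ε l * q l) * t)) = H ε := by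
          funext t
          change _ = h (∑ l, ε l * ((L : ℤ) - t * q l))
          congr 1
          simp only [mul_sub, Finset.sum_sub_distrib, neg_mul, Finset.sum_mul]
          rw [sub_eq_add_neg]
          congr 2
          exact Finset.sum_congr rfl fun l _ => by ring
        rwa [e] at this
      set F : ℤ → G := DL (List.finRange (D + 1)) H (fun _ => 1) with hF
      have hFmem : F ∈ GG := DL_mem GG _ _ hHmem _
      have hFt : ∀ t, F t = DL (List.finRange (D + 1)) (fun ε => H ε t) (fun _ => 1) := by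
        intro t
        have := DL_map (Pi.evalMonoidHom (fun _ : ℤ => G) t) (List.finRange (D + 1)) H
        exact (congrFun this (fun _ => 1)).symm
      -- the values at `1, ..., D + 1`
      have hF1 : ∀ l : Fin (D + 1), F (((l : ℕ) + 1 : ℕ) : ℤ) = 1 := by
        intro l
        rw [hFt]
        have := DL_indep (List.finRange (D + 1)) (fun ε => H ε (((l : ℕ) + 1 : ℕ) : ℤ)) l
          (List.mem_finRange l) (fun ε => by
            change h _ = h _
            congr 1
            refine Finset.sum_congr rfl fun l' _ => ?_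
            by_cases hl : l' = l
            · subst hl
              rw [← hq l', sub_self, mul_zero, mul_zero]
            · unfold zc
              rw [Function.update_of_ne hl])
        rw [this]
      -- the value at `0`
      have hF0 : F 0 = h ((L : ℤ) * ((D + 1 : ℕ) : ℤ)) * (g ^ (D + 1))⁻¹ := by
        rw [hFt]
        have hcmp := (DL_cmp (List.finRange (D + 1)) (fun ε => H ε 0)
          (fun i : Fin (D + 1) → ℤ => g ^ (∑ a, i a)) (by
            intro S hS
            have hcard : S.card ≤ D := by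
              obtain ⟨x, hx⟩ : ∃ x, x ∉ S := by
                by_contra hcon
                push Not at hcon
                exact hS (Finset.eq_univ_of_forall hcon)
              have := Finset.card_lt_univ_of_notMem hx
              rw [Fintype.card_fin] at this
              omega
            have hsum : ∑ a, ind S a = (S.card : ℤ) := by
              simp [ind]
            change h (∑ l, ind S l * ((L : ℤ) - 0 * q l)) = g ^ (∑ a, ind S a)
            have e : ∑ l, ind S l * ((L : ℤ) - 0 * q l) = (L : ℤ) * (S.card : ℤ) := by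
              rw [← hsum, Finset.mul_sum]
              exact Finset.sum_congr rfl fun l _ => by ring
            rw [e, hval _ hcard, hsum, zpow_natCast])).2
        have hp := (DL_pow g (List.finRange (D + 1)) (List.nodup_finRange _)).2 (by
          rw [List.length_finRange]; omega)
        rw [hp] at hcmp
        have e1 : H (fun _ => 1) 0 = h ((L : ℤ) * ((D + 1 : ℕ) : ℤ)) := by
          change h (∑ l : Fin (D + 1), 1 * ((L : ℤ) - 0 * q l)) = _
          congr 1
          simp
          ring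
        have e2 : g ^ (∑ _a : Fin (D + 1), (1 : ℤ)) = g ^ (D + 1) := by
          rw [Finset.sum_const, Finset.card_univ, Fintype.card_fin, nsmul_eq_mul, mul_one,
            zpow_natCast]
        rw [e1, e2, mul_one] at hcmp
        rw [← hcmp, mul_inv_cancel_left]
      -- residues
      have hres0 : rs L (h 0).val = 0 := by
        have := hval 0 (Nat.zero_le _)
        rw [Nat.cast_zero, mul_zero, pow_zero] at this
        rw [this]
        exact rs_u0 L
      obtain ⟨wh, hwh⟩ := hh
      obtain ⟨wF, hwF⟩ := hFmem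
      have hgres : rs L g.val = 0 := (rs_eq_zero_iff L _).2 hg
      have hresL : ∀ m : ℤ, rs L (h ((L : ℤ) * m)).val = 0 := by
        intro m
        rw [hwh, rs_gz, rs_ph]
        rw [hwh, rs_gz, rs_ph, Int.cast_zero, zero_mul, add_zero] at hres0
        rw [hres0]
        simp
      have hrh : ∀ a : G, rs L a.val = 0 ↔ rh L a = 1 := by
        intro a
        exact Iff.rfl
      have hdir : wF.Ev (fun p => (L : ℤ) ∣ p.2) := by
        refine dir_zero L hwF ?_ ?_
        · rw [hF0, hrh, map_mul, map_inv, map_pow, (hrh g).1 hgres, (hrh _).1 (hresL _)]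
          simp
        · have := hF1 ⟨0, by omega⟩
          have e : (((0 : ℕ) + 1 : ℕ) : ℤ) = 1 := by norm_num
          rw [e] at this
          rw [this]
          exact rs_u0 L
      -- the divided sequence
      let F' : ℤ → G := fun j => gz (Bt.map (ph j)
        (Bt.map (fun p : ℤ × ℤ => (p.1 + ((D + 1 : ℕ) : ℤ) * p.2, -(p.2 / (L : ℤ)))) wF))
      have hF'mem : F' ∈ GG := ⟨_, fun i => rfl⟩
      have hF'val : ∀ t : ℤ, F' ((L : ℤ) * t) = F (((D + 1 : ℕ) : ℤ) - t) := by
        intro t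
        rw [hwF]
        change gz (Bt.map _ (Bt.map _ wF)) = _
        rw [Bt.map_map]
        congr 1
        refine Bt.map_congr (hdir.mono fun p hp => ?_)
        obtain ⟨c, hc⟩ := hp
        rw [ph_apply, ph_apply]
        simp only
        rw [hc, Int.mul_ediv_cancel_left _ (by exact_mod_cast hL.ne')]
        ring
      refine ⟨F'⁻¹ * h, GG.mul_mem (GG.inv_mem hF'mem) ⟨wh, hwh⟩, fun i hi => ?_⟩
      rw [Pi.mul_apply, Pi.inv_apply, hF'val]
      rcases hi.lt_or_eq with hi | rfl
      · have e := hF1 ⟨D - i, by omega⟩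
        have e2 : (((D + 1 : ℕ) : ℤ) - (i : ℤ)) = (((D - i : ℕ) + 1 : ℕ) : ℤ) := by
          push_cast
          rw [Nat.cast_sub (by omega)]
          ring
        rw [e2, e, inv_one, one_mul]
        exact hval i (by omega)
      · rw [sub_self, hF0]
        group

/-- Finitely many powers. -/
theorem finite_case (g : G) (D : ℕ) : ∃ h ∈ GG, ∀ i : ℤ, -(D : ℤ) ≤ i → i ≤ D → h i = g ^ i := by
  set L := (2 * D).factorial with hLdef
  have hL : 0 < L := Nat.factorial_pos _
  have : NeZero L := ⟨hL.ne'⟩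
  obtain ⟨r, hr⟩ : ∃ r : ℤ, g.val.Ev (fun n => (L : ℤ) ∣ n - r) := by
    obtain ⟨a, ha⟩ := Bt.exists_res (fun n : ℤ => (n : ZMod L)) g.val
    obtain ⟨r, hr⟩ := ZMod.intCast_surjective a
    refine ⟨r, ha.mono fun n hn => ?_⟩
    rw [← ZMod.intCast_zmod_eq_zero_iff_dvd]
    push_cast
    rw [hn, hr, sub_self]
  set g' : G := gz (Bt.pt (-r)) * g with hg'
  have hg'res : g'.val.Ev (fun n => (L : ℤ) ∣ n) := by
    rw [hg', Bt.Gp.val_mul, Bt.gr_pt_val, mul_assoc, g.u_mul, Bt.ev_mul, Bt.ev_pt]
    exact hr.mono fun n hn => by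
      rw [neg_add_eq_sub]
      exact hn
  obtain ⟨h, hh, hval⟩ := claim L hL g' hg'res (2 * D) (fun i h1 h2 =>
    Nat.dvd_factorial h1 h2)
  have hgg : g = gz (Bt.pt r) * g' := by
    rw [hg', ← mul_assoc, ← gz_pt_add, add_neg_cancel, gz_pt_zero, one_mul]
  set h2 : ℤ → G := (fun i => gz (Bt.pt (r * i))) * fun i => h (0 + (L : ℤ) * i) with hh2
  have h2mem : h2 ∈ GG := GG.mul_mem (GG_pt r) (GG_aff hh 0 L)
  have h2val : ∀ i : ℕ, i ≤ 2 * D → h2 i = g ^ i := by
    intro i hi
    rw [hh2, Pi.mul_apply, zero_add, hval i hi, gz_pt_nat]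
    conv_rhs => rw [hgg]
    rw [(show Commute (gz (Bt.pt r)) g' from Bt.gr_pt_central hu0 r g').mul_pow]
  refine ⟨(fun i => h2 ((D : ℤ) + 1 * i)) * fun _ => (g ^ D)⁻¹,
    GG.mul_mem (GG_aff h2mem D 1) (GG_const _), fun i hi1 hi2 => ?_⟩
  obtain ⟨j, hj⟩ : ∃ j : ℕ, (j : ℤ) = D + i := ⟨(D + i).toNat, Int.toNat_of_nonneg (by linarith)⟩
  rw [Pi.mul_apply, one_mul, ← hj, h2val j (by omega)]
  have e : i = (j : ℤ) - (D : ℤ) := by rw [hj]; ring
  rw [e, zpow_sub, zpow_natCast, zpow_natCast]

end LIN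

theorem p_LIN : T_LIN := by
  intro g
  let C : ℕ → Set (Bt (ℤ × ℤ)) := fun D =>
    {w | ∀ m : ℤ, -(D : ℤ) ≤ m → m ≤ D → Bt.map (LIN.ph m) w = (g ^ m).val}
  have hclosed : ∀ D, IsClosed (C D) := by
    intro D
    have : C D = ⋂ m : ℤ, ⋂ _ : -(D : ℤ) ≤ m, ⋂ _ : m ≤ D,
        {w | Bt.map (LIN.ph m) w = (g ^ m).val} := by
      ext w
      simp [C]
    rw [this]
    refine isClosed_iInter fun m => isClosed_iInter fun _ => isClosed_iInter fun _ => ?_
    exact isClosed_eq (Bt.continuous_map _) continuous_const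
  have hne : ∀ D, (C D).Nonempty := by
    intro D
    obtain ⟨h, hh, hval⟩ := LIN.finite_case g D
    obtain ⟨w, -, -, hw⟩ := (Bt.mem_TG_iff hu0).1 hh
    exact ⟨w, fun m h1 h2 => by rw [← hval m h1 h2]; exact hw m⟩
  have hmono : ∀ D, C (D + 1) ⊆ C D := by
    intro D w hw m h1 h2
    exact hw m (by push_cast; linarith) (by push_cast; linarith)
  obtain ⟨w, hw⟩ := IsCompact.nonempty_iInter_of_sequence_nonempty_isCompact_isClosed C hmono hne
    (hclosed 0).isCompact hclosed
  refine ⟨w, fun m => ?_⟩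
  have := Set.mem_iInter.1 hw m.natAbs
  exact this m (by omega) (by omega)

end Pool.Agent.PRR
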