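import Pool.Agent.PRR.Targets2

/-!
Linear saturation: reduction to one level and one slope.
-/

set_option autoImplicit false

namespace Pool.Agent.PRR

open Filter Topology

namespace LS

/-- The homomorphism `(a, n) ↦ a + c n`. -/
def ph (c : ℤ) : ℤ × ℤ →+ ℤ where
  toFun γ := γ.1 + c * γ.2
  map_zero' := by simp
  map_add' a b := by
    simp only [Prod.fst_add, Prod.snd_add]
    ring

theorem ph_mul (c : ℤ) (w w' : Bt (ℤ × ℤ)) :
    Bt.map (fun γ : ℤ × ℤ => γ.1 + c * γ.2) (w * w') =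
      Bt.map (fun γ => γ.1 + c * γ.2) w * Bt.map (fun γ => γ.1 + c * γ.2) w' :=
  Bt.map_mul (ph c) w w'

theorem ev_dvd_mul {m : ℤ} {w w' : Bt (ℤ × ℤ)} (h : w.Ev (fun γ => m ∣ γ.2))
    (h' : w'.Ev (fun γ => m ∣ γ.2)) : (w * w').Ev (fun γ => m ∣ γ.2) := by
  rw [Bt.ev_mul]
  exact h.mono fun a ha => h'.mono fun b hb => dvd_add ha hb

section

variable {X : Type} [TopologicalSpace X] [CompactSpace X] [T2Space X] {T : X ≃ₜ X}

/-- One level, all slopes. -/
theorem level (h1 : T_CLO) (h : T_LS1) (hT : IsMin T) {x : X} (hx : act T u0 x = x) {s : ℕ}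
    (hs : 1 ≤ s) (W : Finset ℤ) (κ : ℤ → G) (hκ : ∀ c ∈ W, κ c ∈ Kinf) (A : Finset ℤ) :
    A ⊆ W → ∃ e ∈ Stab T s x, (∀ m : ℤ, m ≠ 0 → e.Ev (fun γ => m ∣ γ.2)) ∧
      ∀ c ∈ W, Bt.map (fun γ => γ.1 + c * γ.2) e = (if c ∈ A then κ c else 1).val := by
  classical
  induction A using Finset.induction_on with
  | empty =>
    intro _
    obtain ⟨c0, hc0⟩ := Infinite.exists_notMem_finset W
    obtain ⟨e, he, he1, -, he2⟩ := h X T hT x hx s hs W c0 hc0 1 Kinf.one_mem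
    refine ⟨e, he, he1, fun c hc => ?_⟩
    rw [if_neg (Finset.notMem_empty c), he2 c hc]
    rfl
  | insert a A ha ih =>
    intro hA
    have haW : a ∈ W := hA (Finset.mem_insert_self a A)
    obtain ⟨e, he, he1, he2⟩ := ih fun c hc => hA (Finset.mem_insert_of_mem hc)
    obtain ⟨f, hf, hf1, hf2, hf3⟩ := h X T hT x hx s hs (W.erase a) a
      (Finset.notMem_erase a W) (κ a) (hκ a haW)
    refine ⟨e * f, Stab_mul (h1 X T hT s) he hf, fun m hm => ev_dvd_mul (he1 m hm) (hf1 m hm),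
      fun c hc => ?_⟩
    rw [ph_mul, he2 c hc]
    by_cases hca : c = a
    · subst hca
      rw [if_neg ha, if_pos (Finset.mem_insert_self c A), hf2]
      exact (κ c).u_mul
    · rw [hf3 c (Finset.mem_erase.2 ⟨hca, hc⟩), Bt.Gp.mul_u]
      by_cases hcA : c ∈ A
      · rw [if_pos hcA, if_pos (Finset.mem_insert_of_mem hcA)]
      · rw [if_neg hcA, if_neg]
        simp [hca, hcA]

end

end LS

/-- Linear saturation from one level and one slope. -/
theorem p_LS (h1 : T_CLO) (h : T_LS1) : T_LS := by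
  intro X _ _ _ T hT x hx W κ hκ
  let C : ℕ → Set (Bt (ℤ × ℤ)) := fun s => {e | e ∈ Stab T (s + 1) x ∧
    (∀ m : ℤ, m ≠ 0 → e.Ev (fun γ => m ∣ γ.2)) ∧
    ∀ c ∈ W, Bt.map (fun γ => γ.1 + c * γ.2) e = (κ c).val}
  have hCcl : ∀ s, IsClosed (C s) := by
    intro s
    have hCs : C s = Stab T (s + 1) x ∩
        ((⋂ m : {m : ℤ // m ≠ 0}, {e : Bt (ℤ × ℤ) | e.Ev (fun γ => m.1 ∣ γ.2)}) ∩
        ⋂ c : {c : ℤ // c ∈ W}, {e : Bt (ℤ × ℤ) |
          Bt.map (fun γ => γ.1 + c.1 * γ.2) e = (κ c.1).val}) := by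
      ext e
      simp only [C, Set.mem_ofPred_eq, Set.mem_inter_iff, Set.mem_iInter, Subtype.forall]
    rw [hCs]
    refine (Stab_closed (h1 X T hT (s + 1)) x).inter ((isClosed_iInter fun m =>
      Bt.isClosed_ev _).inter (isClosed_iInter fun c => ?_))
    exact isClosed_eq (Bt.continuous_map _) continuous_const
  have hCne : ∀ s, (C s).Nonempty := by
    intro s
    obtain ⟨e, he, he1, he2⟩ := LS.level h1 h hT hx (Nat.succ_le_succ (Nat.zero_le s)) W κ hκ W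
      (fun _ h => h)
    refine ⟨e, he, he1, fun c hc => ?_⟩
    rw [he2 c hc, if_pos hc]
  have hCd : ∀ s, C (s + 1) ⊆ C s := fun s e he =>
    ⟨Stab_mono (Nat.le_succ (s + 1)) x he.1, he.2⟩
  obtain ⟨e, he⟩ := IsCompact.nonempty_iInter_of_sequence_nonempty_isCompact_isClosed C hCd hCne
    (hCcl 0).isCompact hCcl
  have he' : ∀ s, e ∈ C s := fun s => Set.mem_iInter.1 he s
  exact ⟨e, fun s => Stab_mono (Nat.le_succ s) x (he' s).1, (he' 0).2.1, (he' 0).2.2⟩

end Pool.Agent.PRR
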