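import Pool.Agent.PRR.Targets2

/-!
Linear saturation, one level and one slope.
-/

set_option autoImplicit false

namespace Pool.Agent.PRR

open Filter Topology

namespace LS1

/-- The form `(a, n) ↦ a + c n`. -/
def phi (c : ℤ) : ℤ × ℤ →+ ℤ where
  toFun γ := γ.1 + c * γ.2
  map_zero' := by simp
  map_add' p q := by
    simp only [Prod.fst_add, Prod.snd_add]
    ring

theorem map_phi (c : ℤ) (w : Bt (ℤ × ℤ)) :
    Bt.map (phi c) w = Bt.map (fun γ : ℤ × ℤ => γ.1 + c * γ.2) w := rfl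

/-- The diagonal embedding of `u0`. -/
noncomputable def dd : Bt (ℤ × ℤ) := Bt.map (AddMonoidHom.inl ℤ ℤ) u0

theorem dd_idem : dd * dd = dd := by
  unfold dd
  rw [← Bt.map_mul, hu0.1]

theorem phi_dd (c : ℤ) : Bt.map (phi c) dd = u0 := by
  unfold dd
  rw [Bt.map_map]
  have : (fun a : ℤ => phi c (AddMonoidHom.inl ℤ ℤ a)) = fun a => a := by
    funext a
    simp [phi]
  rw [this, Bt.map_id']

/-- Idempotents have residue zero for every form. -/
theorem ev_dvd_of_idem {Γ : Type} [AddCommGroup Γ] (f : Γ →+ ℤ) {e : Bt Γ} (he : e * e = e)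
    (m : ℤ) (hm : m ≠ 0) : e.Ev (fun γ => m ∣ f γ) := by
  have : NeZero m.natAbs := ⟨Int.natAbs_ne_zero.2 hm⟩
  have h := Bt.res_idem (A := ZMod m.natAbs) (fun γ => ((f γ : ℤ) : ZMod m.natAbs))
    (fun a b => by rw [map_add]; push_cast; rfl) he
  rw [Bt.res_eq_iff] at h
  refine h.mono fun γ hγ => ?_
  rw [ZMod.intCast_zmod_eq_zero_iff_dvd] at hγ
  exact Int.natAbs_dvd.1 hγ

section Omega

variable {ω : Bt (ℤ × ℤ)} (hω : Bt.IsMinIdem ω) (h1 : dd * ω = ω) (h2 : ω * dd = ω)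

include hω h1 h2

theorem phi_omega (c : ℤ) : Bt.map (phi c) ω = u0 := by
  apply Bt.eq_u_of_idem hu0
  · rw [← Bt.map_mul, hω.1]
  · conv_lhs => rw [← phi_dd c, ← Bt.map_mul, h1]
  · conv_lhs => rw [← phi_dd c, ← Bt.map_mul, h2]

theorem phi_val_u (c : ℤ) (g : Bt.Gp hω) : Bt.map (phi c) g.val * u0 = Bt.map (phi c) g.val := by
  conv_lhs => rw [← phi_omega hω h1 h2 c, ← Bt.map_mul, g.mul_u]

theorem u_phi_val (c : ℤ) (g : Bt.Gp hω) : u0 * Bt.map (phi c) g.val = Bt.map (phi c) g.val := by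
  conv_lhs => rw [← phi_omega hω h1 h2 c, ← Bt.map_mul, g.u_mul]

theorem gz_phi_val (c : ℤ) (g : Bt.Gp hω) :
    (gz (Bt.map (phi c) g.val)).val = Bt.map (phi c) g.val := by
  rw [Bt.gr_val, u_phi_val hω h1 h2, phi_val_u hω h1 h2]

/-- The homomorphism of groups induced by `phi c`. -/
noncomputable def Phi (c : ℤ) : Bt.Gp hω →* G where
  toFun g := gz (Bt.map (phi c) g.val)
  map_one' := by
    rw [Bt.Gp.val_one, phi_omega hω h1 h2]
    exact Bt.gr_u hu0
  map_mul' g g' := by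
    apply Bt.Gp.ext
    rw [gz_phi_val hω h1 h2, Bt.Gp.val_mul, Bt.map_mul, Bt.Gp.val_mul, gz_phi_val hω h1 h2,
      gz_phi_val hω h1 h2]

theorem Phi_apply (c : ℤ) (g : Bt.Gp hω) :
    Phi hω h1 h2 c g = gz (Bt.map (phi c) g.val) := rfl

end Omega

/-- Iterated differences with values in a subgroup. -/
theorem DL_mem {ι : Type} [DecidableEq ι] {H : Type} [Group H] (A : Subgroup H)
    (h : (ι → ℤ) → H) (hA : ∀ i, h i ∈ A) (L : List ι) : ∀ i, DL L h i ∈ A := by
  induction L with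
  | nil => exact hA
  | cons l L ih =>
    intro i
    rw [DL_cons]
    exact A.mul_mem (ih i) (A.inv_mem (ih _))

section Pi

variable {ι : Type} [Fintype ι]

/-- The homomorphisms `π_ε`. -/
def pie (A B : ι → ℤ) (ε : ι → ℤ) : ℤ × (ι → ℤ) →+ ℤ × ℤ where
  toFun p := (p.1 + ∑ l, ε l * A l * p.2 l, ∑ l, ε l * B l * p.2 l)
  map_zero' := by simp
  map_add' p q := by
    simp only [Prod.fst_add, Prod.snd_add, Pi.add_apply, mul_add, Finset.sum_add_distrib,
      Prod.mk_add_mk]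
    congr 1
    ring

theorem phi_pie (A B : ι → ℤ) (ε : ι → ℤ) (c : ℤ) (p : ℤ × (ι → ℤ)) :
    phi c (pie A B ε p) = arr (fun l => (A l + c * B l) * ε l) p := by
  obtain ⟨a, b⟩ := p
  simp only [phi, pie, arr, AddMonoidHom.coe_mk, ZeroHom.coe_mk, Finset.mul_sum]
  rw [add_assoc, ← Finset.sum_add_distrib]
  congr 1
  apply Finset.sum_congr rfl
  intro l _
  ring

end Pi

section Cubes

variable {r : ℕ}

/-- The homomorphisms `π'_η`. -/
def pip (η : Fin r → ℤ) : (ℤ × ℤ) × (Fin r → ℤ) →+ ℤ × ℤ where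
  toFun p := (p.1.1 + ∑ t, η t * p.2 t, p.1.2)
  map_zero' := by simp
  map_add' p q := by
    simp only [Prod.fst_add, Prod.snd_add, Pi.add_apply, mul_add, Finset.sum_add_distrib,
      Prod.mk_add_mk]
    congr 1
    ring

/-- The section. -/
def sec : ℤ × ℤ →+ (ℤ × ℤ) × (Fin r → ℤ) := AddMonoidHom.inl (ℤ × ℤ) (Fin r → ℤ)

theorem pip_sec (η : Fin r → ℤ) (γ : ℤ × ℤ) : pip η (sec γ) = γ := by
  simp [pip, sec]

variable {ω : Bt (ℤ × ℤ)} (hω : Bt.IsMinIdem ω)

/-- The group of cubes. -/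
noncomputable def TT (r : ℕ) : Subgroup ((Fin r → ℤ) → Bt.Gp hω) :=
  Bt.TG hω (fun η : Fin r → ℤ => pip η) sec (fun η γ => pip_sec η γ)

theorem TT_zc {g : (Fin r → ℤ) → Bt.Gp hω} (hg : g ∈ TT hω r) (t : Fin r) :
    (fun η => g (zc t η)) ∈ TT hω r := by
  obtain ⟨w, hw⟩ := hg
  refine ⟨Bt.map (fun p : (ℤ × ℤ) × (Fin r → ℤ) => (p.1, zc t p.2)) w, fun η => ?_⟩
  have h : (fun p : (ℤ × ℤ) × (Fin r → ℤ) => pip η (p.1, zc t p.2)) =
      fun p => pip (zc t η) p := by
    funext p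
    simp only [pip, AddMonoidHom.coe_mk, ZeroHom.coe_mk]
    congr 2
    apply Finset.sum_congr rfl
    intro l _
    unfold zc
    by_cases hl : l = t
    · subst hl; simp
    · simp [hl]
  change g (zc t η) = Bt.gr hω (Bt.map (pip η) (Bt.map _ w))
  rw [Bt.map_map, h, hw]

theorem TT_DL {g : (Fin r → ℤ) → Bt.Gp hω} (hg : g ∈ TT hω r) (L : List (Fin r)) :
    DL L g ∈ TT hω r := by
  induction L with
  | nil => exact hg
  | cons l L ih =>
    rw [DL_cons]
    exact (TT hω r).mul_mem ih ((TT hω r).inv_mem (TT_zc hω ih l))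

end Cubes

section Main

variable {X : Type} [TopologicalSpace X] [CompactSpace X] [T2Space X] (T : X ≃ₜ X)
  (hc : ∀ s, Clo T s) (x : X) (s : ℕ)
  {ω : Bt (ℤ × ℤ)} (hω : Bt.IsMinIdem ω) (hdist : ∀ s, ω ∈ Stab T s x)

/-- The elements acting trivially at level `s`, with residue zero. -/
noncomputable def Af : Subgroup (Bt.Gp hω) where
  carrier := {g | g.val ∈ Stab T s x ∧ ∀ m : ℤ, m ≠ 0 → g.val.Ev (fun γ => m ∣ γ.2)}
  one_mem' := ⟨hdist s, fun m hm => ev_dvd_of_idem (AddMonoidHom.snd ℤ ℤ) hω.1 m hm⟩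
  mul_mem' := by
    rintro g h ⟨hg, hg'⟩ ⟨hh, hh'⟩
    refine ⟨Stab_mul (hc s) hg hh, fun m hm => ?_⟩
    rw [Bt.Gp.val_mul, Bt.ev_mul]
    exact (hg' m hm).mono fun a ha => (hh' m hm).mono fun b hb => dvd_add ha hb
  inv_mem' := by
    rintro g ⟨hg, hg'⟩
    have hinv : (g⁻¹).val * g.val = ω := by
      rw [← Bt.Gp.val_mul, inv_mul_cancel, Bt.Gp.val_one]
    refine ⟨fun P => ?_, fun m hm => ?_⟩
    · have h := ev_mul_eqv (hc s) (g⁻¹).val hg P
      rw [hinv] at h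
      exact h.symm.trans (hdist s P)
    · have h := ev_dvd_of_idem (AddMonoidHom.snd ℤ ℤ) hω.1 m hm
      rw [← hinv, Bt.ev_mul] at h
      refine h.mono fun a ha => ?_
      obtain ⟨b, hb, hb'⟩ := (ha.and (hg' m hm)).exists
      have : m ∣ a.2 + b.2 := hb
      exact (Int.dvd_iff_dvd_of_dvd_add this).2 hb'

variable (hT : IsMin T) (hx : act T u0 x = x) (hU : T_UNIQ)

include hc hdist hT hx hU in
/-- The key step: cubes in pure `T`-directions with trivial lower vertices are trivial. -/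
theorem top_mem (g : (Fin (s + 1) → ℤ) → Bt.Gp hω) (hg : g ∈ TT hω (s + 1))
    (h1 : ∀ S : Finset (Fin (s + 1)), S ≠ Finset.univ → g (ind S) = 1) :
    g (fun _ => 1) ∈ Af T hc x s hω hdist := by
  obtain ⟨w, -, -, hw⟩ := (Bt.mem_TG_iff hω).1 hg
  refine ⟨fun P => ?_, fun m hm => ?_⟩
  · -- cubes
    let wP : Bt (ℤ × (Fin (s + 1) → ℤ)) :=
      Bt.map (fun p : (ℤ × ℤ) × (Fin (s + 1) → ℤ) => (p.1.1 + P.eval p.1.2, p.2)) w
    have hev : ∀ i : Fin (s + 1) → ℤ, act T (Bt.map (arr i) wP) x = ev T (g i).val P x := by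
      intro i
      rw [← hw i]
      unfold ev
      rw [act_map, Bt.lim_map, Bt.lim_map]
      apply Bt.lim_congr_all
      rintro ⟨⟨a, n⟩, b⟩
      simp only [arr, pip, AddMonoidHom.coe_mk, ZeroHom.coe_mk]
      congr 2
      ring
    have hc1 : (fun S : Finset (Fin (s + 1)) => mk T s (ev T (g (ind S)).val P x)) ∈
        Qs T x s (s + 1) := ⟨wP, fun S => by rw [hev]⟩
    have hc2 : (fun _ : Finset (Fin (s + 1)) => mk T s ((T ^ (P.eval 0)) x)) ∈
        Qs T x s (s + 1) := by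
      refine ⟨Bt.pt (P.eval 0, fun _ => 0), fun S => ?_⟩
      rw [Bt.map_pt, act_pt]
      simp [arr]
    have h := hU X T hT x hx s _ hc1 _ hc2 (by
      intro S hS
      rw [h1 S hS, mk_eq_iff]
      exact hdist s P)
    have h2 := congrFun h Finset.univ
    rw [ind_univ] at h2
    exact mk_eq_iff.1 h2
  · have h0 : g (ind ∅) = 1 := h1 ∅ (by
      intro h
      have : (0 : Fin (s + 1)) ∈ (∅ : Finset (Fin (s + 1))) := h ▸ Finset.mem_univ _
      simp at this)
    have hidem := ev_dvd_of_idem (AddMonoidHom.snd ℤ ℤ) hω.1 m hm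
    have h2 : (Bt.map (pip (ind ∅)) w).Ev (fun γ => m ∣ γ.2) := by
      rw [hw, h0]
      exact hidem
    rw [← hw, Bt.ev_map]
    rw [Bt.ev_map] at h2
    exact h2

end Main

section Assemble

variable {X : Type} [TopologicalSpace X] [CompactSpace X] [T2Space X]

theorem core (h1 : T_CLO) (h3 : T_UNIQ) (h4 : T_DIVARR) (h5 : T_DIST) (T : X ≃ₜ X)
    (hT : IsMin T) (x : X) (hx : act T u0 x = x) (s : ℕ) (hs : 1 ≤ s) (W : Finset ℤ)
    (c0 : ℤ) (hc0 : c0 ∉ W) (q : G) (hq : q ∈ Kinf) :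
    ∃ e ∈ Stab T s x, (∀ m : ℤ, m ≠ 0 → e.Ev (fun γ => m ∣ γ.2)) ∧
      Bt.map (fun γ => γ.1 + c0 * γ.2) e = q.val ∧
      ∀ c ∈ W, Bt.map (fun γ => γ.1 + c * γ.2) e = u0 := by
  classical
  obtain ⟨ω, hω, hd1, hd2⟩ := Bt.exists_minIdem_le dd dd_idem
  have hdist : ∀ s, ω ∈ Stab T s x := fun s => h5 X T hT x hx ω hω.1 s
  have hc : ∀ s, Clo T s := h1 X T hT
  -- the index set
  let ι : Type := W ⊕ Fin (s + 1)
  have hcard : 2 ≤ Fintype.card ι := by
    simp only [ι, Fintype.card_sum, Fintype.card_fin]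
    omega
  have hqK : q ∈ KK ι := by
    rw [KK_eq_K]
    exact mem_Kinf.1 hq _
  obtain ⟨F, hF, hF1⟩ := hqK
  let m : ι → ℤ := Sum.elim (fun c : W => |c0 - c.1|) (fun _ => 1)
  have hm : ∀ l, 0 < m l := by
    rintro (c | t)
    · have : c0 - c.1 ≠ 0 := by
        intro h
        apply hc0
        have : c0 = c.1 := by linarith
        rw [this]
        exact c.2
      exact abs_pos.2 this
    · exact one_pos
  obtain ⟨F', hF', hFF'⟩ := h4 ι F hF hcard m hm
  obtain ⟨w', hw'⟩ := mem_AG.1 hF'.1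
  let A : ι → ℤ := Sum.elim (fun c : W => - ((c0 - c.1).sign * c.1)) (fun _ => 1)
  let B : ι → ℤ := Sum.elim (fun c : W => (c0 - c.1).sign) (fun _ => 0)
  let M : ℤ → ι → ℤ := fun c' l => A l + c' * B l
  let 𝔤 : (ι → ℤ) → Bt.Gp hω := fun ε => Bt.gr hω (Bt.map (pie A B ε) w')
  have hPhi : ∀ c' ε, Phi hω hd1 hd2 c' (𝔤 ε) = F' (fun l => M c' l * ε l) := by
    intro c' ε
    rw [Phi_apply]
    apply Bt.Gp.ext
    rw [gz_phi_val hω hd1 hd2, hw']
    change Bt.map (phi c') (Bt.gr hω (Bt.map (pie A B ε) w')).val = _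
    rw [Bt.gr_val, Bt.gr_val, Bt.map_mul, Bt.map_mul, phi_omega hω hd1 hd2, Bt.map_map]
    congr 3
    funext p
    exact phi_pie A B ε c' p
  let Lc : List ι := (Finset.univ : Finset W).toList.map Sum.inl
  let Lt : List (Fin (s + 1)) := (Finset.univ : Finset (Fin (s + 1))).toList
  let E : Bt.Gp hω := DL (Lc ++ Lt.map Sum.inr) 𝔤 (fun _ => 1)
  have hPhiE : ∀ c', Phi hω hd1 hd2 c' E = F' (M c') := by
    intro c'
    have e1 := DL_map (Phi hω hd1 hd2 c') (Lc ++ Lt.map Sum.inr) 𝔤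
    have e2 : (fun i => Phi hω hd1 hd2 c' (𝔤 i)) = fun ε => F' (fun l => M c' l * ε l) := by
      funext ε
      exact hPhi c' ε
    rw [e2, DL_scale, DL_of_vanish _ F' (fun i l _ hl => hF'.2 i ⟨l, hl⟩)] at e1
    have e3 := congrFun e1 (fun _ => 1)
    simp only [mul_one] at e3
    exact e3.symm
  have hmem : E ∈ Af T hc x s hω hdist := by
    change DL (Lc ++ Lt.map Sum.inr) 𝔤 (fun _ => 1) ∈ _
    rw [DL_append]
    apply DL_mem
    intro ε
    -- restrict to the `T`-directions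
    let j : (Fin (s + 1) → ℤ) → (ι → ℤ) := fun η =>
      Sum.elim (fun c => ε (Sum.inl c)) (fun t => η t * ε (Sum.inr t))
    let h : (Fin (s + 1) → ℤ) → Bt.Gp hω := fun η => 𝔤 (j η)
    have hj : ∀ (t : Fin (s + 1)) (η : Fin (s + 1) → ℤ), zc (Sum.inr t) (j η) = j (zc t η) := by
      intro t η
      funext l
      rcases l with c | t'
      · simp [zc, j]
      · by_cases ht : t' = t
        · subst ht
          simp [zc, j]
        · simp [zc, j, ht]
    have hDL : ∀ (L : List (Fin (s + 1))) (η : Fin (s + 1) → ℤ),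
        DL (L.map Sum.inr) 𝔤 (j η) = DL L h η := by
      intro L
      induction L with
      | nil => intro η; rfl
      | cons t L ih =>
        intro η
        rw [List.map_cons, DL_cons, DL_cons]
        unfold D1
        rw [hj, ih, ih]
    have hj1 : j (fun _ => 1) = ε := by
      funext l
      rcases l with c | t <;> simp [j]
    have hkey : DL (Lt.map Sum.inr) 𝔤 ε = DL Lt h (fun _ => 1) := by
      conv_lhs => rw [← hj1]
      exact hDL Lt _
    rw [hkey]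
    have hTT : h ∈ TT hω (s + 1) := by
      refine ⟨Bt.map (fun p : ℤ × (ι → ℤ) =>
        ((p.1 + ∑ c : W, ε (Sum.inl c) * A (Sum.inl c) * p.2 (Sum.inl c),
          ∑ c : W, ε (Sum.inl c) * B (Sum.inl c) * p.2 (Sum.inl c)),
          fun t => ε (Sum.inr t) * p.2 (Sum.inr t))) w', fun η => ?_⟩
      change Bt.gr hω (Bt.map (pie A B (j η)) w') = Bt.gr hω (Bt.map (pip η) (Bt.map _ w'))
      rw [Bt.map_map]
      congr 2
      funext p
      obtain ⟨a, b⟩ := p
      have hsum : ∀ f : ι → ℤ, ∑ l, f l =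
          ∑ c : W, f (Sum.inl c) + ∑ t : Fin (s + 1), f (Sum.inr t) :=
        fun f => Fintype.sum_sum_type f
      simp only [pie, pip, AddMonoidHom.coe_mk, ZeroHom.coe_mk]
      rw [hsum, hsum]
      simp only [j, Sum.elim_inl, Sum.elim_inr, A, B]
      refine Prod.ext ?_ ?_
      · simp only [mul_one, add_assoc, mul_assoc]
      · simp
    apply top_mem T hc x s hω hdist hT hx h3
    · exact TT_DL hω hTT Lt
    · intro S hS
      obtain ⟨t, ht⟩ : ∃ t, t ∉ S := by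
        by_contra hcon
        push Not at hcon
        exact hS (Finset.eq_univ_iff_forall.2 hcon)
      exact DL_vanish Lt h (ind S) t (by simp [Lt]) (by simp [ind, ht])
  refine ⟨E.val, hmem.1, hmem.2, ?_, ?_⟩
  · rw [← map_phi, ← gz_phi_val hω hd1 hd2, ← Phi_apply hω hd1 hd2, hPhiE]
    have hM : M c0 = m := by
      funext l
      rcases l with c | t
      · simp only [M, A, B, m, Sum.elim_inl]
        have := Int.sign_mul_self_eq_abs (c0 - c.1)
        linear_combination this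
      · simp [M, A, B, m]
    rw [hM]
    have := hFF' (fun _ => 1)
    simp only [mul_one] at this
    rw [← this, hF1]
  · intro c hcW
    rw [← map_phi, ← gz_phi_val hω hd1 hd2, ← Phi_apply hω hd1 hd2, hPhiE]
    have : F' (M c) = 1 := by
      apply hF'.2
      refine ⟨Sum.inl ⟨c, hcW⟩, ?_⟩
      simp only [M, A, B, Sum.elim_inl]
      ring
    rw [this, Bt.Gp.val_one]

end Assemble

end LS1

theorem p_LS1 (h1 : T_CLO) (_ : T_T2) (h3 : T_UNIQ) (h4 : T_DIVARR) (h5 : T_DIST) : T_LS1 :=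
  fun _ _ _ _ T hT x hx s hs W c0 hc0 q hq => LS1.core h1 h3 h4 h5 T hT x hx s hs W c0 hc0 q hq

end Pool.Agent.PRR
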