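import Pool.Agent.PRR.Targets

/-!
# Polynomial recurrence along residue classes: residues prime to `p` (PRR-NIL1)
-/

set_option autoImplicit false

namespace Pool.Agent.PRR

open Filter Topology Polynomial

namespace NIL1

variable {R : Type} [CommRing R] {Y : Type} [TopologicalSpace Y] [CompactSpace Y] [T2Space Y]

/-- the ultrafilters fixing the linear orbits of `ξ` -/
def LA (ξ : R → Y) : Set (Bt (R × ℤ)) :=
  {w | ∀ c0 c1 : R, Bt.lim w (fun γ => ξ (γ.1 + c0 + c1 * (γ.2 : R))) = ξ c0}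

lemma LA_closed (ξ : R → Y) : IsClosed (LA ξ) := by
  have : LA ξ = ⋂ c0 : R, ⋂ c1 : R,
      {w | Bt.lim w (fun γ => ξ (γ.1 + c0 + c1 * (γ.2 : R))) = ξ c0} := by
    ext w
    simp [LA]
  rw [this]
  exact isClosed_iInter fun c0 => isClosed_iInter fun c1 =>
    isClosed_eq (Bt.continuous_lim _) continuous_const

lemma LA_mul (ξ : R → Y) {w w' : Bt (R × ℤ)} (hw : w ∈ LA ξ) (hw' : w' ∈ LA ξ) :
    w * w' ∈ LA ξ := by
  intro c0 c1
  rw [Bt.lim_mul]
  have e1 : ∀ a : R × ℤ, Bt.lim w' (fun b => ξ ((a + b).1 + c0 + c1 * ((a + b).2 : R))) =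
      ξ (a.1 + c0 + c1 * (a.2 : R)) := by
    intro a
    have h := hw' (a.1 + c0 + c1 * (a.2 : R)) c1
    rw [← h]
    apply Bt.lim_congr_all
    intro b
    congr 1
    simp only [Prod.fst_add, Prod.snd_add, Int.cast_add]
    ring
  simp only [e1]
  exact hw c0 c1

lemma LA_dil (ξ : R → Y) (p : ℕ) {w : Bt (R × ℤ)} (hw : w ∈ LA ξ) :
    Bt.map (fun γ => (γ.1, (p : ℤ) * γ.2)) w ∈ LA ξ := by
  intro c0 c1
  rw [Bt.lim_map, ← hw c0 (c1 * (p : R))]
  apply Bt.lim_congr_all
  intro γ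
  congr 1
  push_cast
  ring

lemma LA_dil' (ξ : R → Y) (p : ℕ) (hp : IsUnit (p : R)) {w : Bt (R × ℤ)}
    (hw : Bt.map (fun γ => (γ.1, (p : ℤ) * γ.2)) w ∈ LA ξ) : w ∈ LA ξ := by
  intro c0 c1
  obtain ⟨v, hv⟩ := hp.exists_left_inv
  have h := hw c0 (c1 * v)
  rw [Bt.lim_map] at h
  rw [← h]
  apply Bt.lim_congr_all
  intro γ
  congr 1
  have : c1 * v * (((p : ℤ) * γ.2 : ℤ) : R) = c1 * (γ.2 : R) * (v * (p : R)) := by
    push_cast
    ring
  rw [this, hv, mul_one]

end NIL1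

open NIL1

theorem p_NIL1 (_h1 : T_CLO) (h2 : T_T2) (h3 : T_VD) (h4 : T_ROOT) (h5 : T_NILSTEP) : T_NIL1 := by
  intro X _ _ _ T p _ hmin hminp x hx s
  have hT2 : ∀ j, T2Space (Xs T j) := h2 X T hmin
  obtain ⟨R, _, ξ, hξ⟩ := h4 X T p hmin hminp x hx s
  -- the tower
  have key : ∀ (j : ℕ) (hj : j ≤ s), ∃ w ∈ LA ξ, ¬ w.Ev (fun γ => (p : ℤ) ∣ γ.2) ∧
      Gd (fun c => pr T hj (ξ c)) w := by
    intro j
    induction j with
    | zero =>
      intro hj
      obtain ⟨w, hw1, hw2⟩ := hξ.lin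
      refine ⟨w, hw2, ?_, ?_⟩
      · intro h
        obtain ⟨γ, h1, h2⟩ := (hw1.and h).exists
        have h3 : (p : ℤ) ∣ 1 := by
          have := dvd_sub h2 h1
          rwa [sub_sub_cancel] at this
        have h4 : (p : ℤ) ∣ ((1 : ℕ) : ℤ) := by exact_mod_cast h3
        exact (Fact.out (p := p.Prime)).one_lt.ne' (Nat.dvd_one.1 (Int.natCast_dvd_natCast.1 h4))
      · have hsub : ∀ z z' : Xs T 0, z = z' := by
          intro z z'
          obtain ⟨y, rfl⟩ := mk_surj T 0 z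
          obtain ⟨y', rfl⟩ := mk_surj T 0 z'
          rw [mk_eq_iff]
          have ha : act T u0 (act T u0 y) = act T u0 y := by rw [← act_mul, hu0.1]
          have hb : act T u0 (act T u0 y') = act T u0 y' := by rw [← act_mul, hu0.1]
          obtain ⟨g, hg⟩ := hmin.exists_G ha hb
          exact ⟨g, by rw [K_eq_top_of_le_one le_rfl]; trivial, hg.symm⟩
        intro P
        exact hsub _ _
    | succ j ih =>
      intro hj
      obtain ⟨w, hw1, hw2, hw3⟩ := ih (Nat.le_of_succ_le hj)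
      obtain ⟨V, _, _, _, _, _, _, hst⟩ := h3 X T hmin x hx j
      have hpr : ∀ z : Xs T s, pr T (Nat.le_succ j) (pr T hj z) = pr T (Nat.le_of_succ_le hj) z := by
        intro z
        obtain ⟨y, rfl⟩ := mk_surj T s z
        rfl
      refine h5 p R hξ.unit (Xs T (j + 1)) (Xs T j) V (pr T (Nat.le_succ j)) (j + 1)
        (Qs T x (j + 1) (j + 1 + 1)) hst (fun c => pr T hj (ξ c)) ?_ (LA ξ) (LA_closed ξ)
        (fun w hw w' hw' => LA_mul ξ hw hw') (fun w hw => LA_dil ξ p hw)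
        (fun w hw => LA_dil' ξ p hξ.unit hw) ?_ ⟨w, hw1, hw2, ?_⟩
      · intro c0 c
        obtain ⟨w', hw'⟩ := hξ.cube (j + 1 + 1) c0 c
        refine ⟨w', fun S => ?_⟩
        have h := hw' S
        simp only at h
        change pr T hj (ξ (c0 + ∑ l ∈ S, c l)) = _
        rw [h, pr_mk]
      · intro w hw c0 c1
        rw [Bt.lim_comp (continuous_pr T hj) w (fun γ => ξ (γ.1 + c0 + c1 * (γ.2 : R))), hw c0 c1]
      · simp only [hpr]
        exact hw3
  obtain ⟨w, -, hw2, hw3⟩ := key s le_rfl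
  have hpr : ∀ z : Xs T s, pr T (le_refl s) z = z := by
    intro z
    obtain ⟨y, rfl⟩ := mk_surj T s z
    rfl
  simp only [hpr] at hw3
  -- the values
  have hval : ∀ P : ℤ[X], Bt.lim w (fun γ => ts T s (P.eval γ.2) (ξ γ.1)) =
      mk T s ((T ^ (P.eval 0)) x) := by
    intro P
    have h := hw3 (P.map (Int.castRingHom R))
    unfold pv at h
    have e1 : ∀ n : ℤ, (P.map (Int.castRingHom R)).eval (n : R) = ((P.eval n : ℤ) : R) := by
      intro n
      rw [eval_intCast_map]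
      simp
    have e2 : (P.map (Int.castRingHom R)).eval 0 = 0 + ((P.eval 0 : ℤ) : R) := by
      have := e1 0
      rw [Int.cast_zero] at this
      rw [this, zero_add]
    simp only [e1, hξ.shift] at h
    rw [h, e2, hξ.shift, hξ.zero, ts_mk]
  -- the family
  let ι := Option {q : ℤ[X] × Set (Xs T s) // IsOpen q.2 ∧ mk T s ((T ^ (q.1.eval 0)) x) ∈ q.2}
  let A : ι → ℤ × ℤ → Prop := fun i γ => match i with
    | none => ¬ (p : ℤ) ∣ γ.2
    | some q => mk T s ((T ^ (γ.1 + q.1.1.eval γ.2)) x) ∈ q.1.2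
  let B : ι → R × ℤ → Prop := fun i γ => match i with
    | none => ¬ (p : ℤ) ∣ γ.2
    | some q => ts T s (q.1.1.eval γ.2) (ξ γ.1) ∈ q.1.2
  have hB : ∀ i, w.Ev (B i) := by
    intro i
    match i with
    | none => exact Bt.ev_not.2 hw2
    | some q =>
      apply Bt.ev_of_lim_mem (w := w) (f := fun γ => ts T s (q.1.1.eval γ.2) (ξ γ.1)) q.2.1
      rw [hval]
      exact q.2.2
  obtain ⟨w', hw'⟩ := Bt.exists_of_family A (by
    intro S
    obtain ⟨γ, hγ⟩ := (Bt.Ev.finset_all S (fun i _ => hB i)).exists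
    let O1 : ι → Set (Xs T s) := fun i => match i with
      | none => Set.univ
      | some q => {z | ts T s (q.1.1.eval γ.2) z ∈ q.1.2}
    let O : Set (Xs T s) := ⋂ i ∈ S, O1 i
    have hO : IsOpen O := by
      apply isOpen_biInter_finset
      intro i _
      match i with
      | none => exact isOpen_univ
      | some q => exact q.2.1.preimage (continuous_ts T s _)
    have hO' : IsOpen (mk T s ⁻¹' O) := hO.preimage (continuous_mk T s)
    obtain ⟨y, hy⟩ := mk_surj T s (ξ γ.1)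
    have hyO : y ∈ mk T s ⁻¹' O := by
      change mk T s y ∈ O
      rw [hy]
      simp only [O, Set.mem_iInter]
      intro i hi
      match i with
      | none => trivial
      | some q => exact hγ _ hi
    obtain ⟨z, hz1, hz2⟩ := (hmin x).inter_open_nonempty _ hO' ⟨y, hyO⟩
    obtain ⟨m, rfl⟩ := hz2
    refine ⟨(m, γ.2), ?_⟩
    intro i hi
    have hz3 : mk T s ((T ^ m) x) ∈ O := hz1
    simp only [O, Set.mem_iInter] at hz3
    match i with
    | none => exact hγ _ hi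
    | some q =>
      have h := hz3 _ hi
      change ts T s (q.1.1.eval γ.2) (mk T s ((T ^ m) x)) ∈ q.1.2 at h
      rw [ts_mk, ← zpow_add_apply, add_comm] at h
      exact h)
  refine ⟨w', ?_, Bt.ev_not.1 (hw' none)⟩
  intro P
  rw [← mk_eq_iff]
  unfold ev
  rw [← Bt.lim_comp (continuous_mk T s), Bt.lim_eq_iff, tendsto_nhds]
  intro U hU hy
  exact hw' (some ⟨(P, U), hU, hy⟩)

end Pool.Agent.PRR
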