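import Pool.Agent.PRR.Targets

set_option autoImplicit false

namespace Pool.Agent.PRR

open Filter Topology

namespace NILJ

/-- The integers which are residues modulo `k` of elements of `Stab T s x`. -/
def Rs {X : Type} [TopologicalSpace X] [CompactSpace X] [T2Space X] (T : X ≃ₜ X) (k : ℕ)
    (s : ℕ) (x : X) (n : ℤ) : Prop :=
  ∃ w ∈ Stab T s x, w.Ev (fun γ => (k : ℤ) ∣ γ.2 - n)

variable {X : Type} [TopologicalSpace X] [CompactSpace X] [T2Space X] {T : X ≃ₜ X}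

lemma rs_zero (k s : ℕ) (x : X) : Rs T k s x 0 := by
  refine ⟨Bt.pt 0, fun P => ?_, ?_⟩
  · have : ev T (Bt.pt 0) P x = (T ^ (P.eval 0)) x := by
      unfold ev
      rw [Bt.lim_pt]
      simp
    rw [this]
    exact Eqv.refl T s _
  · rw [Bt.ev_pt]
    simp

lemma rs_add {k s : ℕ} (hc : Clo T s) {x : X} {a b : ℤ} (ha : Rs T k s x a)
    (hb : Rs T k s x b) : Rs T k s x (a + b) := by
  obtain ⟨w, hw, ha⟩ := ha
  obtain ⟨w', hw', hb⟩ := hb
  refine ⟨w * w', Stab_mul hc hw hw', ?_⟩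
  rw [Bt.ev_mul]
  refine ha.mono fun γ hγ => hb.mono fun γ' hγ' => ?_
  have h := dvd_add hγ hγ'
  have e : (γ + γ').2 - (a + b) = γ.2 - a + (γ'.2 - b) := by
    rw [Prod.snd_add]; ring
  rw [e]
  exact h

lemma rs_congr {k s : ℕ} {x : X} {a b : ℤ} (ha : Rs T k s x a) (hab : (k : ℤ) ∣ a - b) :
    Rs T k s x b := by
  obtain ⟨w, hw, ha⟩ := ha
  refine ⟨w, hw, ha.mono fun γ hγ => ?_⟩
  have h := dvd_add hγ hab
  have e : γ.2 - a + (a - b) = γ.2 - b := by ring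
  rwa [e] at h

lemma rs_nsmul {k s : ℕ} (hc : Clo T s) {x : X} {a : ℤ} (ha : Rs T k s x a) (n : ℕ) :
    Rs T k s x (n * a) := by
  induction n with
  | zero => simpa using rs_zero k s x
  | succ n ih =>
    have h := rs_add hc ih ha
    have e : (n : ℤ) * a + a = ((n + 1 : ℕ) : ℤ) * a := by push_cast; ring
    rwa [e] at h

lemma rs_neg {k s : ℕ} (hk : 0 < k) (hc : Clo T s) {x : X} {a : ℤ} (ha : Rs T k s x a) :
    Rs T k s x (-a) := by
  refine rs_congr (rs_nsmul hc ha (k - 1)) ?_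
  refine ⟨a, ?_⟩
  have e : ((k - 1 : ℕ) : ℤ) = (k : ℤ) - 1 := by
    rw [Nat.cast_sub hk]; simp
  rw [e]
  ring

lemma rs_all {k s : ℕ} (hk : 0 < k) (hc : Clo T s) {x : X}
    (hp : ∀ p : ℕ, p.Prime → p ∣ k → ∃ w ∈ Stab T s x, ¬ w.Ev (fun γ => (p : ℤ) ∣ γ.2)) (j : ℤ) :
    Rs T k s x j := by
  let H : AddSubgroup ℤ :=
    { carrier := {n | Rs T k s x n}
      add_mem' := fun ha hb => rs_add hc ha hb
      zero_mem' := rs_zero k s x
      neg_mem' := fun ha => rs_neg hk hc ha }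
  have hH : ∀ n, n ∈ H ↔ Rs T k s x n := fun n => Iff.rfl
  obtain ⟨d, hd⟩ := Int.subgroup_cyclic H
  rw [← AddSubgroup.zmultiples_eq_closure] at hd
  have hdvd : ∀ n, Rs T k s x n ↔ d ∣ n := by
    intro n
    rw [← hH, hd, Int.mem_zmultiples_iff]
  rw [hdvd]
  have hdk : d ∣ (k : ℤ) := by
    rw [← hdvd]
    exact rs_congr (rs_zero k s x) (by simp)
  have hd1 : d.natAbs = 1 := by
    by_contra h1
    obtain ⟨p, hpp, hpd⟩ := Nat.exists_prime_and_dvd h1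
    have hpd' : (p : ℤ) ∣ d := Int.natCast_dvd.2 hpd
    have hpk : p ∣ k := Int.natCast_dvd_natCast.1 (hpd'.trans hdk)
    obtain ⟨w, hw, hwp⟩ := hp p hpp hpk
    apply hwp
    -- the residue of `w`
    have : NeZero k := ⟨hk.ne'⟩
    have hres := Bt.ev_res (fun γ : ℤ × ℤ => ((γ.2 : ℤ) : ZMod k)) w
    set a := Bt.res (fun γ : ℤ × ℤ => ((γ.2 : ℤ) : ZMod k)) w with ha
    have h2 : w.Ev (fun γ => (k : ℤ) ∣ γ.2 - (a.val : ℤ)) := by
      refine hres.mono fun γ hγ => ?_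
      rw [← ZMod.intCast_zmod_eq_zero_iff_dvd, Int.cast_sub, hγ]
      simp
    have h3 : Rs T k s x (a.val : ℤ) := ⟨w, hw, h2⟩
    rw [hdvd] at h3
    refine h2.mono fun γ hγ => ?_
    have h4 := dvd_add ((Int.natCast_dvd_natCast.2 hpk).trans hγ) (hpd'.trans h3)
    have e : γ.2 - (a.val : ℤ) + (a.val : ℤ) = γ.2 := by ring
    rwa [e] at h4
  exact Int.natAbs_dvd.1 (by rw [hd1]; simp)

end NILJ

theorem p_NILJ (h1 : T_CLO) (h2 : T_NIL1) : T_NILJ := by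
  intro X _ _ _ T k hk hT hp x hx j
  have hne : ∀ s, NILJ.Rs T k s x j := by
    intro s
    apply NILJ.rs_all hk (h1 X T hT s)
    intro p hpp hpk
    have : Fact p.Prime := ⟨hpp⟩
    exact h2 X T p hT (hp p hpp hpk) x hx s
  let F : ℕ → Set (Bt (ℤ × ℤ)) := fun s =>
    Stab T s x ∩ {w | w.Ev (fun γ => (k : ℤ) ∣ γ.2 - j)}
  have hFc : ∀ s, IsClosed (F s) := fun s =>
    (Stab_closed (h1 X T hT s) x).inter (Bt.isClosed_ev _)
  have hmono : ∀ s, F (s + 1) ⊆ F s := fun s w hw => ⟨Stab_mono (Nat.le_succ s) x hw.1, hw.2⟩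
  have hFne : ∀ s, (F s).Nonempty := by
    intro s
    obtain ⟨w, hw, hw'⟩ := hne s
    exact ⟨w, hw, hw'⟩
  obtain ⟨w, hw⟩ := IsCompact.nonempty_iInter_of_sequence_nonempty_isCompact_isClosed F hmono
    hFne (hFc 0).isCompact hFc
  rw [Set.mem_iInter] at hw
  exact ⟨w, fun s => (hw s).1, (hw 0).2⟩

end Pool.Agent.PRR
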