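import Pool.Agent.PRR.NilDefs

/-!
NILSTEP: one step of the tower for the residue statement (MP_17cc4e_an).
-/

set_option autoImplicit false

namespace Pool.Agent.PRR

open Filter Topology Polynomial

namespace NILSTEP

section Rho

variable (p : ℕ) [Fact p.Prime] {R : Type} [CommRing R]

/-- The `p`-adic value of the second coordinate. -/
noncomputable def rho (w : Bt (R × ℤ)) : ℤ_[p] := Bt.lim w (fun γ => ((γ.2 : ℤ) : ℤ_[p]))

theorem rho_mul (a b : Bt (R × ℤ)) : rho p (a * b) = rho p a + rho p b := by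
  have h : ∀ γ : R × ℤ, Bt.lim b (fun γ' => (((γ + γ').2 : ℤ) : ℤ_[p])) =
      ((γ.2 : ℤ) : ℤ_[p]) + rho p b := by
    intro γ
    have hc : Continuous (fun x : ℤ_[p] => ((γ.2 : ℤ) : ℤ_[p]) + x) :=
      continuous_const.add continuous_id
    have h1 := Bt.lim_comp hc b (fun γ' => ((γ'.2 : ℤ) : ℤ_[p]))
    refine Eq.trans (Bt.lim_congr_all fun γ' => ?_) h1
    simp
  have hc : Continuous (fun x : ℤ_[p] => x + rho p b) := continuous_id.add continuous_const
  calc rho p (a * b) = Bt.lim a (fun γ => Bt.lim b (fun γ' => (((γ + γ').2 : ℤ) : ℤ_[p]))) :=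
        Bt.lim_mul a b _
    _ = Bt.lim a (fun γ => ((γ.2 : ℤ) : ℤ_[p]) + rho p b) := Bt.lim_congr_all h
    _ = rho p a + rho p b := Bt.lim_comp hc a (fun γ => ((γ.2 : ℤ) : ℤ_[p]))

theorem rho_dil (w : Bt (R × ℤ)) :
    rho p (Bt.map (fun γ : R × ℤ => (γ.1, (p : ℤ) * γ.2)) w) = p * rho p w := by
  have hc : Continuous (fun x : ℤ_[p] => (p : ℤ_[p]) * x) := continuous_const.mul continuous_id
  have h1 := Bt.lim_comp hc w (fun γ => ((γ.2 : ℤ) : ℤ_[p]))
  refine Eq.trans (Bt.lim_map _ w _) (Eq.trans (Bt.lim_congr_all fun γ => ?_) h1)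
  simp

theorem isClosed_dvd : IsClosed {x : ℤ_[p] | (p : ℤ_[p]) ∣ x} := by
  have h : {x : ℤ_[p] | (p : ℤ_[p]) ∣ x} = Set.range (fun y : ℤ_[p] => (p : ℤ_[p]) * y) := by
    ext x
    constructor
    · rintro ⟨y, rfl⟩
      exact ⟨y, rfl⟩
    · rintro ⟨y, rfl⟩
      exact ⟨y, rfl⟩
  rw [h]
  exact (isCompact_range (continuous_const.mul continuous_id)).isClosed

theorem isOpen_dvd : IsOpen {x : ℤ_[p] | (p : ℤ_[p]) ∣ x} := by
  have h : {x : ℤ_[p] | (p : ℤ_[p]) ∣ x} = {x : ℤ_[p] | ‖x‖ < 1} := by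
    ext x
    exact (PadicInt.norm_lt_one_iff_dvd x).symm
  rw [h]
  exact isOpen_lt continuous_norm continuous_const

theorem int_dvd (k : ℤ) : ((p : ℤ_[p]) ∣ (k : ℤ_[p])) ↔ (p : ℤ) ∣ k := by
  rw [← PadicInt.norm_lt_one_iff_dvd, PadicInt.norm_int_lt_one_iff_dvd]

theorem ev_iff (w : Bt (R × ℤ)) :
    w.Ev (fun γ => (p : ℤ) ∣ γ.2) ↔ (p : ℤ_[p]) ∣ rho p w := by
  constructor
  · intro h
    exact Bt.lim_mem_of_ev (isClosed_dvd p) (h.mono fun γ hγ => (int_dvd p γ.2).2 hγ)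
  · intro h
    exact (Bt.ev_of_lim_mem (isOpen_dvd p) h).mono fun γ hγ => (int_dvd p γ.2).1 hγ

end Rho

end NILSTEP

open NILSTEP

theorem p_NILSTEP (h1 : T_D1) (h2 : T_D2) (h3 : T_D3) (h4 : T_D4) (h5 : T_D5) (h6 : T_D6)
    (hE : T_ERR) (hS : T_STEP) : T_NILSTEP := by
  intro p _ R _ hp Y Z V _ _ _ _ _ _ _ _ _ _ _ _ π m Q hstep ξ hcube A hA hAmul hAdil hAdil'
    hAlin hstart
  obtain ⟨hex, huniq, hcomp, hcub, hdil, hclosed⟩ := hE R Y Z V π m Q hstep ξ hcube
  -- zero and the basic properties of iterated differences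
  have hadd : ∀ (L : List R[X]) (v v' : R[X] → V) (Q : R[X]),
      difs L (fun P => v P + v' P) Q = difs L v Q + difs L v' Q := (h6 R V 0 0).2.2.1
  have hneg : ∀ (L : List R[X]) (v : R[X] → V) (Q : R[X]),
      difs L (fun P => - v P) Q = - difs L v Q := (h6 R V 0 0).2.2.2.1
  have hcont : ∀ (L : List R[X]) (Q : R[X]), Continuous (fun v : R[X] → V => difs L v Q) :=
    (h6 R V 0 0).2.2.2.2.1
  have hzero : ∀ (L : List R[X]) (Q : R[X]), difs L (fun _ => (0 : V)) Q = 0 := by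
    intro L Q
    have h := hadd L (fun _ => (0 : V)) (fun _ => (0 : V)) Q
    simpa using h
  -- the semigroups
  let S : ℕ → ℕ → Set (Bt (R × ℤ)) := fun d e =>
    {w | w ∈ A ∧ ∃ v : R[X] → V, IsErr ξ w v ∧ v ∈ {v : R[X] → V | Cd d e v}}
  have hSclosed : ∀ d e, IsClosed (S d e) := by
    intro d e
    exact hA.inter (hclosed _ (h6 R V d e).2.2.2.2.2)
  -- the second term of the composition rule
  have hsecond : ∀ (w : Bt (R × ℤ)) (v' : R[X] → V) (P : R[X]),
      Bt.lim w (fun γ => v' (P.comp (X + C (γ.2 : R)) + C γ.1)) =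
      (Bt.lim w (fun γ => (fun P : R[X] => v' (P.comp (X + C (γ.2 : R)) + C γ.1)))) P := by
    intro w v' P
    rw [Bt.lim_pi]
  have hSmul : ∀ d e, ∀ a ∈ S d e, ∀ b ∈ S d e, a * b ∈ S d e := by
    rintro d e a ⟨haA, va, hva, hva'⟩ b ⟨hbA, vb, hvb, hvb'⟩
    refine ⟨hAmul a haA b hbA, _, hcomp a b va vb hva hvb, ?_⟩
    refine (h6 R V d e).1 _ _ hva' ?_
    have h := Bt.lim_mem (w := a)
      (f := fun γ => (fun P : R[X] => vb (P.comp (X + C (γ.2 : R)) + C γ.1)))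
      (h6 R V d e).2.2.2.2.2 (fun γ => (h2 R V d e vb hvb' (γ.2 : R) γ.1).1)
    have h' : Bt.lim a (fun γ => (fun P : R[X] => vb (P.comp (X + C (γ.2 : R)) + C γ.1))) =
        fun P => Bt.lim a (fun γ => vb (P.comp (X + C (γ.2 : R)) + C γ.1)) := Bt.lim_pi _ _
    rw [h'] at h
    exact h
  -- vanishing on polynomials of degree at most one
  have hlin : ∀ w ∈ A, ∀ v : R[X] → V, IsErr ξ w v → ∀ P : R[X], P.natDegree ≤ 1 → v P = 0 := by
    intro w hw v hv P hP
    have h := hv P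
    have h0 : pv ξ w P = ξ (P.eval 0) := by
      unfold pv
      rw [Polynomial.eq_X_add_C_of_natDegree_le_one hP]
      have h1 := hAlin w hw (P.coeff 0) (P.coeff 1)
      refine Eq.trans (Bt.lim_congr_all fun γ => ?_) (h1.trans ?_)
      · congr 1
        simp
        ring
      · congr 1
        simp
    rw [h0] at h
    exact hstep.free _ _ h.symm
  -- the step e -> e + 1
  have hstepE : ∀ d e, (∃ w ∈ S d e, ¬ w.Ev (fun γ => (p : ℤ) ∣ γ.2)) →
      ∃ w ∈ S d (e + 1), ¬ w.Ev (fun γ => (p : ℤ) ∣ γ.2) := by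
    rintro d e ⟨w, hw, hwp⟩
    by_cases he : e ≤ 1
    · obtain ⟨hwA, v, hv, hv'⟩ := hw
      exact ⟨w, ⟨hwA, v, hv, (h5 R V d e v hv').2 (hlin w hwA v hv) he⟩, hwp⟩
    have he2 : 2 ≤ e := by omega
    classical
    let err : Bt (R × ℤ) → R[X] → V := fun w => if h : ∃ v : R[X] → V, IsErr ξ w v then
      Classical.choose h else fun _ => 0
    have herr : ∀ w v, IsErr ξ w v → err w = v := by
      intro w v hv
      have h : ∃ v : R[X] → V, IsErr ξ w v := ⟨v, hv⟩
      have h' : err w = Classical.choose h := dif_pos h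
      rw [h']
      exact huniq w _ _ (Classical.choose_spec h) hv
    let ι : Type := {L : List R[X] // L.length = d ∧ (L.map natDegree).sum = e}
    let ev0 : (R[X] → V) → (ι → V) := fun v L => difs L.1 v 0
    have hev0zero : ev0 (fun _ => 0) = 0 := by
      funext L
      exact hzero L.1 0
    have hCd0 : Cd d e (fun _ : R[X] => (0 : V)) :=
      ⟨fun L _ Q => hzero L Q, fun L _ _ Q => hzero L Q⟩
    let H' : AddSubgroup (ι → V) :=
      { carrier := {h | ∃ v : R[X] → V, Cd d e v ∧ ev0 v = h}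
        add_mem' := by
          rintro _ _ ⟨v, hv, rfl⟩ ⟨v', hv', rfl⟩
          refine ⟨_, (h6 R V d e).1 v v' hv hv', ?_⟩
          funext L
          exact hadd L.1 v v' 0
        zero_mem' := ⟨_, hCd0, hev0zero⟩
        neg_mem' := by
          rintro _ ⟨v, hv, rfl⟩
          refine ⟨_, (h6 R V d e).2.1 v hv, ?_⟩
          funext L
          exact hneg L.1 v 0 }
    let ψ : Bt (R × ℤ) → (ι → V) := fun w => ev0 (err w)
    let δ : Bt (R × ℤ) → Bt (R × ℤ) := Bt.map (fun γ : R × ℤ => (γ.1, (p : ℤ) * γ.2))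
    have hδS : ∀ a ∈ S d e, δ a ∈ S d e := by
      rintro a ⟨haA, va, hva, hva'⟩
      exact ⟨hAdil a haA, _, hdil p a va hva, (h3 R V d e va hva').1 _⟩
    have hδψ : ∀ a ∈ S d e, ψ (δ a) = (p ^ e) • ψ a := by
      rintro a ⟨haA, va, hva, hva'⟩
      funext L
      have h := hdil p a va hva
      have h' := (h3 R V d e va hva').2 p L.1 L.2.1 L.2.2 0
      change difs L.1 (err (δ a)) 0 = (p ^ e) • difs L.1 (err a) 0
      rw [herr _ _ h, herr _ _ hva]
      simpa using h'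
    obtain ⟨w', hw'S, hw'ψ, hw'ρ⟩ := hS p (R × ℤ) (S d e) (hSclosed d e) (hSmul d e)
      (rho p) (fun a _ b _ => rho_mul p a b) (ι → V) H' e he2 (by
        rintro _ ⟨v, hv, rfl⟩ hpv
        funext L
        refine h4 R V d e v hv (by omega) p hp (fun L hL1 hL2 => ?_) L.1 L.2.1 L.2.2
        exact congrFun hpv ⟨L, hL1, hL2⟩) ψ (by
        rintro a ⟨_, va, hva, hva'⟩
        refine ⟨va, hva', ?_⟩
        change ev0 va = ev0 (err a)
        rw [herr a va hva]) (by
        rintro a ⟨haA, va, hva, hva'⟩ b ⟨hbA, vb, hvb, hvb'⟩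
        funext L
        change difs L.1 (err (a * b)) 0 = difs L.1 (err a) 0 + difs L.1 (err b) 0
        rw [herr _ _ (hcomp a b va vb hva hvb), herr _ _ hva, herr _ _ hvb, hadd]
        congr 1
        have e1 : (fun P : R[X] => Bt.lim a (fun γ => vb (P.comp (X + C (γ.2 : R)) + C γ.1))) =
            Bt.lim a (fun γ => (fun P : R[X] => vb (P.comp (X + C (γ.2 : R)) + C γ.1))) :=
          (Bt.lim_pi _ _).symm
        rw [e1, ← Bt.lim_comp (hcont L.1 0)]
        have e2 : ∀ γ : R × ℤ,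
            difs L.1 (fun P : R[X] => vb (P.comp (X + C (γ.2 : R)) + C γ.1)) 0 =
            difs L.1 vb 0 := fun γ => (h2 R V d e vb hvb' (γ.2 : R) γ.1).2 L.1 L.2.1 L.2.2 0
        rw [Bt.lim_congr_all e2, Bt.lim_const]) δ hδS (fun a _ => rho_dil p a) hδψ (by
        rintro a ha ha0
        obtain ⟨haA, va, hva, hva'⟩ := ha
        have hEv : a.Ev (fun γ => (p : ℤ) ∣ γ.2) := by
          rw [ev_iff, ha0]
          exact dvd_zero _
        obtain ⟨c, hc⟩ := hp.exists_left_inv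
        set b : Bt (R × ℤ) := Bt.map (fun γ : R × ℤ => (γ.1, γ.2 / (p : ℤ))) a with hb
        have hδb : δ b = a := by
          have : δ b = Bt.map (fun γ : R × ℤ => (γ.1, (p : ℤ) * (γ.2 / (p : ℤ)))) a := rfl
          rw [this]
          refine Eq.trans (Bt.map_congr (hEv.mono fun γ hγ => ?_)) (Bt.map_id' a)
          rw [Int.mul_ediv_cancel' hγ]
        have hbA : b ∈ A := hAdil' b (by
          change δ b ∈ A
          rw [hδb]
          exact haA)
        have hbErr : IsErr ξ b (fun P => va (P.comp (C c * X))) := by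
          intro P
          have h := hva (P.comp (C c * X))
          have h0 : pv ξ b P = pv ξ a (P.comp (C c * X)) := by
            unfold pv
            rw [hb, Bt.lim_map]
            refine Bt.lim_congr (hEv.mono fun γ hγ => ?_)
            congr 2
            simp only [eval_comp, eval_mul, eval_C, eval_X]
            congr 1
            obtain ⟨k, hk⟩ := hγ
            have hp0 : (p : ℤ) ≠ 0 := by exact_mod_cast (Fact.out : p.Prime).ne_zero
            rw [hk, Int.mul_ediv_cancel_left _ hp0]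
            push_cast
            rw [← mul_assoc, hc, one_mul]
          rw [h0, h]
          simp
        have hbS : b ∈ S d e := ⟨hbA, _, hbErr, (h3 R V d e va hva').1 c⟩
        refine ⟨b, hbS, ?_, ?_⟩
        · have h := rho_dil p b
          change rho p (δ b) = _ at h
          rw [hδb, ha0] at h
          have hp0 : (p : ℤ_[p]) ≠ 0 := by exact_mod_cast (Fact.out : p.Prime).ne_zero
          exact (mul_eq_zero.1 h.symm).resolve_left hp0
        · have h := hδψ b hbS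
          rw [hδb] at h
          exact h) w hw (fun h => hwp ((ev_iff p w).2 h))
    obtain ⟨hw'A, v, hv, hv'⟩ := hw'S
    refine ⟨w', ⟨hw'A, v, hv, (h5 R V d e v hv').1 fun L hL1 hL2 => ?_⟩,
      fun h => hw'ρ ((ev_iff p w').1 h)⟩
    have h := congrFun hw'ψ ⟨L, hL1, hL2⟩
    change difs L (err w') 0 = 0 at h
    rwa [herr w' v hv] at h
  -- all e
  have hallE : ∀ d, (∃ w ∈ S d 0, ¬ w.Ev (fun γ => (p : ℤ) ∣ γ.2)) → ∀ e,
      ∃ w ∈ S d e, ¬ w.Ev (fun γ => (p : ℤ) ∣ γ.2) := by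
    intro d h e
    induction e with
    | zero => exact h
    | succ e ih => exact hstepE d e ih
  -- compactness in e
  have hcpt : ∀ d, (∃ w ∈ S d 0, ¬ w.Ev (fun γ => (p : ℤ) ∣ γ.2)) →
      ∃ w ∈ A, ¬ w.Ev (fun γ => (p : ℤ) ∣ γ.2) ∧ ∃ v : R[X] → V, IsErr ξ w v ∧
        ∀ L : List R[X], L.length = d → ∀ Q, difs L v Q = 0 := by
    intro d h
    have hcl : IsClosed {w : Bt (R × ℤ) | ¬ w.Ev (fun γ => (p : ℤ) ∣ γ.2)} :=
      (Bt.isClopen_ev (fun γ : R × ℤ => (p : ℤ) ∣ γ.2)).compl.1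
    have hcl' : ∀ e, IsClosed (S d e ∩ {w : Bt (R × ℤ) | ¬ w.Ev (fun γ => (p : ℤ) ∣ γ.2)}) :=
      fun e => (hSclosed d e).inter hcl
    obtain ⟨w, hw⟩ := IsCompact.nonempty_iInter_of_sequence_nonempty_isCompact_isClosed
      (fun e => S d e ∩ {w : Bt (R × ℤ) | ¬ w.Ev (fun γ => (p : ℤ) ∣ γ.2)})
      (by
        rintro e w ⟨⟨hwA, v, hv, hv'⟩, hwp⟩
        exact ⟨⟨hwA, v, hv, hv'.1, fun L hL1 hL2 => hv'.2 L hL1 (by omega)⟩, hwp⟩)
      (fun e => by
        obtain ⟨w, hw, hwp⟩ := hallE d h e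
        exact ⟨w, hw, hwp⟩)
      (hcl' 0).isCompact hcl'
    rw [Set.mem_iInter] at hw
    obtain ⟨⟨hwA, v, hv, _⟩, hwp⟩ := hw 0
    refine ⟨w, hwA, hwp, v, hv, fun L hL Q => ?_⟩
    obtain ⟨⟨_, v', hv', hv''⟩, _⟩ := hw ((L.map natDegree).sum + 1)
    have hvv : v' = v := huniq w v' v hv' hv
    rw [← hvv]
    exact hv''.2 L hL (Nat.lt_succ_self _) Q
  -- descent in d
  have hdesc : ∀ d, (∃ w ∈ S d 0, ¬ w.Ev (fun γ => (p : ℤ) ∣ γ.2)) →
      ∃ w ∈ A, ¬ w.Ev (fun γ => (p : ℤ) ∣ γ.2) ∧ Gd ξ w := by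
    intro d
    induction d with
    | zero =>
      intro h
      obtain ⟨w, hwA, hwp, v, hv, hv'⟩ := hcpt 0 h
      refine ⟨w, hwA, hwp, fun P => ?_⟩
      have h0 : v P = 0 := hv' [] rfl P
      rw [hv P, h0, zero_vadd]
    | succ d ih =>
      intro h
      obtain ⟨w, hwA, hwp, v, hv, hv'⟩ := hcpt (d + 1) h
      exact ih ⟨w, ⟨hwA, v, hv, hv', fun L _ hL => absurd hL (Nat.not_lt_zero _)⟩, hwp⟩
  -- the start
  obtain ⟨w, hwA, hwp, hw⟩ := hstart
  obtain ⟨v, hv⟩ := (hex w).1 hw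
  refine hdesc m ⟨w, ⟨hwA, v, hv, fun L hL => ?_, fun L _ hL => absurd hL (Nat.not_lt_zero _)⟩, hwp⟩
  exact h1 R V (m + 1) v (hcub w v hv) L hL

end Pool.Agent.PRR
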