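import Pool.Agent.PRR.Targets

/-!
Polynomial recurrence along residue classes: an element of the fixer of `x` with residue one.
-/

set_option autoImplicit false

namespace Pool.Agent.PRR

open Filter Topology

namespace ONE

theorem cast_eq_zero_iff (m : ℕ) (n : ℤ) : ((n : ℤ) : ZMod m) = 0 ↔ (m : ℤ) ∣ n :=
  ZMod.intCast_zmod_eq_zero_iff_dvd n m

theorem cast_eq_one_iff (m : ℕ) (n : ℤ) : ((n : ℤ) : ZMod m) = 1 ↔ (m : ℤ) ∣ n - 1 := by
  rw [← cast_eq_zero_iff, Int.cast_sub, Int.cast_one, sub_eq_zero]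

theorem u0_dvd (m : ℕ) (hm : m ≠ 0) : u0.Ev (fun n => (m : ℤ) ∣ n) := by
  haveI : NeZero m := ⟨hm⟩
  have h := Bt.res_idem (A := ZMod m) (fun n : ℤ => (n : ZMod m)) (fun a b => Int.cast_add a b)
    hu0.1
  rw [Bt.res_eq_iff] at h
  exact h.mono fun n hn => (cast_eq_zero_iff m n).1 hn

theorem gz_res (m : ℕ) (hm : m ≠ 0) {q : Bt ℤ} (hq : q.Ev (fun n => (m : ℤ) ∣ n - 1)) :
    (gz q).val.Ev (fun n => (m : ℤ) ∣ n - 1) := by
  have hu := u0_dvd m hm
  have h1 : (u0 * q).Ev (fun n => (m : ℤ) ∣ n - 1) := by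
    rw [Bt.ev_mul]
    refine hu.mono fun a ha => hq.mono fun b hb => ?_
    have : a + b - 1 = a + (b - 1) := by ring
    rw [this]
    exact dvd_add ha hb
  have h2 : (u0 * q * u0).Ev (fun n => (m : ℤ) ∣ n - 1) := by
    rw [Bt.ev_mul]
    refine h1.mono fun a ha => hu.mono fun b hb => ?_
    have : a + b - 1 = (a - 1) + b := by ring
    rw [this]
    exact dvd_add ha hb
  exact h2

theorem res_pow (m : ℕ) [NeZero m] (q : Bt ℤ) (k : ℕ) :
    Bt.res (fun n : ℤ => (n : ZMod m)) (q ^ k) = k * Bt.res (fun n : ℤ => (n : ZMod m)) q := by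
  induction k with
  | zero =>
    rw [pow_zero, Bt.one_def, Bt.res_pt]
    simp
  | succ k ih =>
    rw [pow_succ, Bt.res_mul (fun n : ℤ => (n : ZMod m)) (fun a b => Int.cast_add a b), ih]
    push_cast
    ring

end ONE

open ONE

theorem p_ONE : T_ONE := by
  intro X _ _ _ T p hp hT hTp x hx
  have hp0 : p ≠ 0 := hp.out.ne_zero
  -- an element of residue one modulo `p`
  obtain ⟨r, hr⟩ := hTp.exists_act (T x) x
  set q1 : Bt ℤ := Bt.map (fun n : ℤ => (p : ℤ) * n) r * Bt.pt 1 with hq1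
  have hq1x : act T q1 x = x := by
    rw [hq1, act_mul, act_pt, zpow_one, act_map]
    rw [act] at hr
    have : (fun γ : ℤ => (T ^ ((p : ℤ) * γ)) (T x)) = fun n : ℤ => ((T ^ p) ^ n) (T x) := by
      funext n
      rw [zpow_mul, zpow_natCast]
    rw [this]
    exact hr
  have hq1p : q1.Ev (fun n => (p : ℤ) ∣ n - 1) := by
    rw [hq1, Bt.ev_mul, Bt.ev_map]
    refine Bt.Ev.of_all fun a => ?_
    rw [Bt.ev_pt]
    exact ⟨a, by ring⟩
  have hpow : ∀ k : ℕ, act T (q1 ^ k) x = x := by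
    intro k
    induction k with
    | zero => rw [pow_zero, act_one]
    | succ k ih => rw [pow_succ, act_mul, hq1x, ih]
  -- the closed sets
  let S : ℕ → Set (Bt ℤ) := fun i => {q | act T q x = x} ∩ {q | q.Ev (fun n => (p : ℤ) ^ i ∣ n - 1)}
  have hclosed : ∀ i, IsClosed (S i) := fun i =>
    (isClosed_singleton.preimage (continuous_act T x)).inter (Bt.isClosed_ev _)
  have hne : ∀ i, (S i).Nonempty := by
    intro i
    haveI : NeZero (p ^ i) := ⟨pow_ne_zero _ hp0⟩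
    -- the residue of `q1` is a unit
    have hunit : IsUnit (Bt.res (fun n : ℤ => (n : ZMod (p ^ i))) q1) := by
      obtain ⟨n, hn1, hn2⟩ := ((Bt.ev_res (fun n : ℤ => (n : ZMod (p ^ i))) q1).and hq1p).exists
      rw [← hn1]
      have hcop : IsCoprime n ((p ^ i : ℕ) : ℤ) := by
        obtain ⟨c, hc⟩ := hn2
        have h1 : IsCoprime n (p : ℤ) := ⟨1, -c, by rw [one_mul]; linarith⟩
        rw [Nat.cast_pow]
        exact h1.pow_right
      obtain ⟨a, b, hab⟩ := hcop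
      refine IsUnit.of_mul_eq_one (a : ZMod (p ^ i)) ?_
      have h2 := congrArg (fun z : ℤ => (z : ZMod (p ^ i))) hab
      push_cast at h2
      have h3 : ((p : ZMod (p ^ i)) ^ i) = 0 := by
        rw [← Nat.cast_pow]
        exact ZMod.natCast_self _
      rw [h3, mul_zero, add_zero] at h2
      rw [mul_comm]
      exact h2
    obtain ⟨v, hv⟩ := hunit
    refine ⟨q1 ^ ((↑(v⁻¹) : ZMod (p ^ i)).val), hpow _, ?_⟩
    have h1 := res_pow (p ^ i) q1 ((↑(v⁻¹) : ZMod (p ^ i)).val)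
    rw [ZMod.natCast_val, ZMod.cast_id', id_eq, ← hv, Units.inv_mul, Bt.res_eq_iff] at h1
    refine h1.mono fun n hn => ?_
    have h2 := (cast_eq_one_iff (p ^ i) n).1 hn
    rw [Nat.cast_pow] at h2
    exact h2
  have hdec : ∀ i, S (i + 1) ⊆ S i := by
    rintro i q ⟨h1, h2⟩
    exact ⟨h1, h2.mono fun n hn => (pow_dvd_pow (p : ℤ) (Nat.le_succ i)).trans hn⟩
  obtain ⟨q, hq⟩ := IsCompact.nonempty_iInter_of_sequence_nonempty_isCompact_isClosed S hdec hne
    (hclosed 0).isCompact hclosed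
  rw [Set.mem_iInter] at hq
  refine ⟨gz q, ?_, fun i => ?_⟩
  · rw [act_gz, hx, (hq 0).1, hx]
  · have h1 := gz_res (p ^ i) (pow_ne_zero _ hp0) (q := q) (by
      rw [Nat.cast_pow]
      exact (hq i).2)
    rw [Nat.cast_pow] at h1
    exact h1

end Pool.Agent.PRR
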