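import Pool.Agent.PRR.Targets

/-!
The PET induction.
-/

set_option autoImplicit false

namespace Pool.Agent.PRR

open Filter Topology

namespace PET

theorem adm_red {P : Finset (Polynomial ℤ)} (hP : Adm P) {P1 : Polynomial ℤ} (h1 : P1 ∈ P)
    {r : ℕ} (ν : Fin r → ℤ) : Adm (red P1 P ν) := by
  classical
  intro p hp
  unfold red at hp
  rw [Finset.mem_erase, Finset.mem_image] at hp
  obtain ⟨hp0, q, hq, rfl⟩ := hp
  refine ⟨hp0, ?_⟩
  have h2 := (hP P1 h1).2
  simp [Polynomial.eval_comp, h2]

end PET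

open PET in
/-- The result of the PET induction. -/
theorem p_PET (_h1 : T_CLO) (h2 : T_B) (h3 : T_PETORD) (h4 : T_PETSTEP) : T_PET := by
  intro X _ _ _ T k hk hT hTp x hx
  obtain ⟨lt, wf, hlt⟩ := h3
  intro P
  induction P using wf.induction with
  | _ P ih =>
    intro hP
    rcases P.eq_empty_or_nonempty with rfl | hne
    · intro g _ j N Q hQ U hU hxU UP _ O hO hEO
      obtain ⟨α, hα, hB⟩ := h2 X T k hk hT hTp x hx j
      obtain ⟨w, hw, _, _, hfst, _, hres, hbig⟩ := hB ∅ (fun _ => 1) (by simp) (by simp)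
      have e1 : w.Ev (fun γ => (T ^ γ.1) x ∈ U) := by
        apply Bt.ev_of_lim_mem hU
        rw [← act_map, hfst, hα]
        exact hxU
      have e2 : w.Ev (fun γ => ∀ q ∈ Q, (T ^ (γ.1 + q.eval γ.2)) x ∈ O) := by
        apply Bt.Ev.finset_all
        intro q hq
        apply Bt.ev_of_lim_mem hO
        apply hEO
        intro s
        have := hw s q
        rw [hQ q hq, zpow_zero] at this
        exact this.symm
      obtain ⟨γ, ⟨⟨h5, h6⟩, h7⟩, h8⟩ := (((e1.and e2).and hres).and (hbig N)).exists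
      refine ⟨(T ^ γ.1) x, h5, γ.2, h8, h7, by simp, ?_⟩
      intro q hq
      have := h6 q hq
      rw [add_comm, zpow_add_apply] at this
      exact this
    · obtain ⟨P1, hP1, hmin⟩ := Finset.exists_min_image P Polynomial.natDegree hne
      exact h4 X T k hk hT hTp x hx P hP P1 hP1 hmin
        (fun r ν => ih _ (hlt P hP P1 hP1 hmin r ν) (adm_red hP hP1 ν))

end Pool.Agent.PRR
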