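import Pool.Agent.PRR.Targets

/-!
The well-founded order of the PET induction.
-/

set_option autoImplicit false

namespace Pool.Agent.PRR

namespace PETORD

open Polynomial

/-- the leading coefficients of the members of degree `d` -/
noncomputable def lcs (P : Finset (Polynomial ℤ)) (d : ℕ) : Finset ℤ :=
  (P.filter (fun p => p.natDegree = d)).image (fun p => p.leadingCoeff)

theorem mem_lcs {P : Finset (Polynomial ℤ)} {d : ℕ} {a : ℤ} :
    a ∈ lcs P d ↔ ∃ p ∈ P, p.natDegree = d ∧ p.leadingCoeff = a := by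
  unfold lcs
  simp only [Finset.mem_image, Finset.mem_filter]
  constructor
  · rintro ⟨p, ⟨h1, h2⟩, h3⟩
    exact ⟨p, h1, h2, h3⟩
  · rintro ⟨p, h1, h2, h3⟩
    exact ⟨p, ⟨h1, h2⟩, h3⟩

/-- the weight -/
noncomputable def wt (P : Finset (Polynomial ℤ)) : ℕ →₀ ℕ :=
  Finsupp.onFinset (P.image (fun p => p.natDegree)) (fun d => (lcs P d).card) (by
    intro d hd
    obtain ⟨a, ha⟩ := Finset.card_pos.mp (Nat.pos_of_ne_zero hd)
    obtain ⟨p, h1, h2, -⟩ := mem_lcs.mp ha
    exact Finset.mem_image.mpr ⟨p, h1, h2⟩)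

theorem wt_apply (P : Finset (Polynomial ℤ)) (d : ℕ) : wt P d = (lcs P d).card := rfl

/-- the order -/
def lt (P' P : Finset (Polynomial ℤ)) : Prop :=
  Finsupp.Lex (fun a b : ℕ => b < a) (fun a b : ℕ => a < b) (wt P') (wt P)

theorem wf : WellFounded lt := by
  have h : WellFounded (Finsupp.Lex (α := ℕ) (N := ℕ) (fun a b : ℕ => b < a)
      (fun a b : ℕ => a < b)) :=
    Finsupp.Lex.wellFounded (r := fun a b : ℕ => b < a) (s := fun a b : ℕ => a < b)
      (fun n => Nat.not_lt_zero n) Nat.lt_wfRel.wf (by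
        refine Subrelation.wf (r := fun a b : ℕ => a < b) ?_ Nat.lt_wfRel.wf
        intro a b hab
        have h1 : ¬ (b < a) := hab.1
        have h2 : a ≠ b := hab.2
        omega)
  exact InvImage.wf wt h

/-- degree and leading coefficient of one member of the reduced family -/
theorem deg_lc (p P1 : Polynomial ℤ) (ν : ℤ) (hp : 0 < p.natDegree)
    (hle : P1.natDegree ≤ p.natDegree) (h1 : P1.natDegree = p.natDegree →
      P1.leadingCoeff ≠ p.leadingCoeff) :
    (p.comp (X + C ν) - C (p.eval ν) - P1).natDegree = p.natDegree ∧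
    (p.comp (X + C ν) - C (p.eval ν) - P1).leadingCoeff
      = p.leadingCoeff - P1.coeff p.natDegree := by
  have e1 : (p.comp (X + C ν)).natDegree = p.natDegree := by
    rw [natDegree_comp, natDegree_X_add_C, mul_one]
  have e2 : (p.comp (X + C ν)).coeff p.natDegree = p.leadingCoeff := by
    have := leadingCoeff_comp (p := p) (q := X + C ν) (by rw [natDegree_X_add_C]; exact one_ne_zero)
    rw [leadingCoeff_X_add_C, one_pow, mul_one] at this
    rw [← this, leadingCoeff, e1]
  set r := p.comp (X + C ν) - C (p.eval ν) - P1 with hr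
  have c1 : r.coeff p.natDegree = p.leadingCoeff - P1.coeff p.natDegree := by
    rw [hr, coeff_sub, coeff_sub, e2, coeff_C, if_neg hp.ne', sub_zero]
  have c2 : r.coeff p.natDegree ≠ 0 := by
    rw [c1]
    intro h
    rcases hle.lt_or_eq with h2 | h2
    · rw [coeff_eq_zero_of_natDegree_lt h2, sub_zero] at h
      have : p = 0 := leadingCoeff_eq_zero.mp h
      rw [this, natDegree_zero] at hp
      exact lt_irrefl _ hp
    · apply h1 h2
      rw [← h2] at h
      rw [leadingCoeff]
      linarith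
  have c3 : r.natDegree ≤ p.natDegree := by
    rw [hr]
    refine (natDegree_sub_le _ _).trans (max_le ?_ hle)
    refine (natDegree_sub_le _ _).trans (max_le e1.le ?_)
    rw [natDegree_C]
    exact Nat.zero_le _
  have c4 : r.natDegree = p.natDegree := le_antisymm c3 (le_natDegree_of_ne_zero c2)
  exact ⟨c4, by rw [leadingCoeff, c4, c1]⟩

theorem deg_lt (p P1 : Polynomial ℤ) (ν : ℤ) (hp : 0 < p.natDegree)
    (h1 : P1.natDegree = p.natDegree) (h2 : P1.leadingCoeff = p.leadingCoeff) :
    (p.comp (X + C ν) - C (p.eval ν) - P1).natDegree < p.natDegree := by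
  have e1 : (p.comp (X + C ν)).natDegree = p.natDegree := by
    rw [natDegree_comp, natDegree_X_add_C, mul_one]
  have e2 : (p.comp (X + C ν)).coeff p.natDegree = p.leadingCoeff := by
    have := leadingCoeff_comp (p := p) (q := X + C ν) (by rw [natDegree_X_add_C]; exact one_ne_zero)
    rw [leadingCoeff_X_add_C, one_pow, mul_one] at this
    rw [← this, leadingCoeff, e1]
  set r := p.comp (X + C ν) - C (p.eval ν) - P1 with hr
  have c1 : r.coeff p.natDegree = 0 := by
    rw [hr, coeff_sub, coeff_sub, e2, coeff_C, if_neg hp.ne', sub_zero, ← h1]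
    rw [← h2, leadingCoeff]
    ring
  have c3 : r.natDegree ≤ p.natDegree := by
    rw [hr]
    refine (natDegree_sub_le _ _).trans (max_le ?_ h1.le)
    refine (natDegree_sub_le _ _).trans (max_le e1.le ?_)
    rw [natDegree_C]
    exact Nat.zero_le _
  rcases c3.lt_or_eq with h | h
  · exact h
  · exfalso
    have : r = 0 := by
      rw [← leadingCoeff_eq_zero, leadingCoeff, h, c1]
    rw [this, natDegree_zero] at h
    omega

theorem mem_red {P1 : Polynomial ℤ} {P : Finset (Polynomial ℤ)} {r : ℕ} {ν : Fin r → ℤ}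
    {f : Polynomial ℤ} : f ∈ red P1 P ν ↔ f ≠ 0 ∧ ∃ p ∈ P, ∃ i : Fin r,
      p.comp (X + C (ν i)) - C (p.eval (ν i)) - P1 = f := by
  unfold red
  rw [Finset.mem_erase, Finset.mem_image]
  constructor
  · rintro ⟨h1, ⟨q, hq, h2⟩⟩
    rw [Finset.mem_product] at hq
    exact ⟨h1, q.1, hq.1, q.2, h2⟩
  · rintro ⟨h1, p, hp, i, h2⟩
    refine ⟨h1, (p, i), ?_, h2⟩
    rw [Finset.mem_product]
    exact ⟨hp, Finset.mem_univ _⟩

end PETORD

open PETORD in
/-- the PET order -/
theorem p_PETORD : T_PETORD := by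
  classical
  refine ⟨lt, wf, ?_⟩
  intro P hP P1 hP1 hmin r ν
  have hpos : ∀ p ∈ P, 0 < p.natDegree := by
    intro p hp
    obtain ⟨h1, h2⟩ := hP p hp
    rw [Nat.pos_iff_ne_zero]
    intro h3
    apply h1
    rw [Polynomial.eq_C_of_natDegree_eq_zero h3] at h2 ⊢
    rw [Polynomial.eval_C] at h2
    rw [h2, Polynomial.C_0]
  set D := P1.natDegree with hD
  -- in degrees above `D` the leading coefficients come from `P`
  have key1 : ∀ d, D < d → lcs (red P1 P ν) d ⊆ lcs P d := by
    intro d hd a ha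
    obtain ⟨f, hf, hfd, hfa⟩ := mem_lcs.mp ha
    obtain ⟨hf0, p, hp, i, rfl⟩ := mem_red.mp hf
    rcases (hmin p hp).lt_or_eq with h | h
    · obtain ⟨e1, e2⟩ := deg_lc p P1 (ν i) (hpos p hp) (hmin p hp) (fun h' => absurd h' h.ne)
      rw [e1] at hfd
      rw [e2, Polynomial.coeff_eq_zero_of_natDegree_lt h, sub_zero] at hfa
      exact mem_lcs.mpr ⟨p, hp, hfd, hfa⟩
    · exfalso
      by_cases h2 : P1.leadingCoeff = p.leadingCoeff
      · have := deg_lt p P1 (ν i) (hpos p hp) h h2
        omega
      · obtain ⟨e1, -⟩ := deg_lc p P1 (ν i) (hpos p hp) (hmin p hp) (fun _ => h2)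
        omega
  have key2 : ∃ s : Finset ℤ, lcs (red P1 P ν) D ⊆ s ∧ s.card < (lcs P D).card := by
    refine ⟨((lcs P D).erase P1.leadingCoeff).image (fun a => a - P1.leadingCoeff), ?_, ?_⟩
    · intro a ha
      obtain ⟨f, hf, hfd, hfa⟩ := mem_lcs.mp ha
      obtain ⟨hf0, p, hp, i, rfl⟩ := mem_red.mp hf
      rcases (hmin p hp).lt_or_eq with h | h
      · exfalso
        obtain ⟨e1, -⟩ := deg_lc p P1 (ν i) (hpos p hp) (hmin p hp) (fun h' => absurd h' h.ne)
        omega
      · by_cases h2 : P1.leadingCoeff = p.leadingCoeff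
        · exfalso
          have := deg_lt p P1 (ν i) (hpos p hp) h h2
          omega
        · obtain ⟨e1, e2⟩ := deg_lc p P1 (ν i) (hpos p hp) (hmin p hp) (fun _ => h2)
          rw [Finset.mem_image]
          refine ⟨p.leadingCoeff, ?_, ?_⟩
          · rw [Finset.mem_erase]
            exact ⟨fun h3 => h2 h3.symm, mem_lcs.mpr ⟨p, hp, h.symm, rfl⟩⟩
          · rw [← hfa, e2, ← h]
            rfl
    · refine Finset.card_image_le.trans_lt ?_
      exact Finset.card_erase_lt_of_mem (mem_lcs.mpr ⟨P1, hP1, rfl, rfl⟩)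
  obtain ⟨s, hs1, hs2⟩ := key2
  have hlt : wt (red P1 P ν) D < wt P D := by
    rw [wt_apply, wt_apply]
    exact (Finset.card_le_card hs1).trans_lt hs2
  -- the highest degree where the weights differ
  set S : Finset ℕ := ((wt P).support ∪ (wt (red P1 P ν)).support).filter
    (fun d => wt P d ≠ wt (red P1 P ν) d) with hS
  have hDS : D ∈ S := by
    rw [hS, Finset.mem_filter, Finset.mem_union, Finsupp.mem_support_iff]
    exact ⟨Or.inl (by omega), by omega⟩
  set m := S.max' ⟨D, hDS⟩ with hm
  have hmS : m ∈ S := Finset.max'_mem _ _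
  have hDm : D ≤ m := Finset.le_max' _ _ hDS
  have hmne : wt P m ≠ wt (red P1 P ν) m := by
    rw [hS, Finset.mem_filter] at hmS
    exact hmS.2
  refine ⟨m, ?_, ?_⟩
  · intro d hd
    by_contra hne
    have hdS : d ∈ S := by
      rw [hS, Finset.mem_filter, Finset.mem_union, Finsupp.mem_support_iff,
        Finsupp.mem_support_iff]
      refine ⟨?_, fun h => hne h.symm⟩
      by_contra hc
      push Not at hc
      exact hne (hc.2.trans hc.1.symm)
    have := Finset.le_max' _ _ hdS
    have hd' : m < d := hd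
    omega
  · have h1 : wt (red P1 P ν) m ≤ wt P m := by
      rcases hDm.lt_or_eq with h | h
      · rw [wt_apply, wt_apply]
        exact Finset.card_le_card (key1 m h)
      · rw [← h]
        exact hlt.le
    have h2 : wt (red P1 P ν) m < wt P m := by omega
    exact h2

end Pool.Agent.PRR
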