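import Pool.Agent.PRR.Targets2

/-!
The inductive step of the PET induction.
-/

set_option autoImplicit false

namespace Pool.Agent.PRR

open Filter Topology

namespace PETSTEP

section Basics

variable {X : Type} [TopologicalSpace X] [CompactSpace X] [T2Space X] {T : X ≃ₜ X}

theorem inf_refl (y : X) : EqvInf T y y := fun s => Eqv.refl T s y

theorem inf_symm {y y' : X} (h : EqvInf T y y') : EqvInf T y' y := fun s => (h s).symm

theorem inf_trans {y y' y'' : X} (h : EqvInf T y y') (h' : EqvInf T y' y'') :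
    EqvInf T y y'' := fun s => (h s).trans (h' s)

theorem inf_zpow {y y' : X} (h : EqvInf T y y') (n : ℤ) :
    EqvInf T ((T ^ n) y) ((T ^ n) y') := fun s => (h s).zpow n

theorem inf_K {κ : G} (hκ : κ ∈ Kinf) (y : X) : EqvInf T y (act T κ.val y) :=
  fun s => eqv_K (mem_Kinf.1 hκ (s + 1)) y

theorem isClosed_inf (hc : ∀ s, Clo T s) : IsClosed {p : X × X | EqvInf T p.1 p.2} := by
  have : {p : X × X | EqvInf T p.1 p.2} = ⋂ s, {p : X × X | Eqv T s p.1 p.2} := by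
    ext p
    simp [EqvInf]
  rw [this]
  exact isClosed_iInter hc

/-- The saturated interior part of a set. -/
def sat (T : X ≃ₜ X) (O : Set X) : Set X := {y | ∀ y', EqvInf T y y' → y' ∈ O}

theorem isOpen_sat (hc : ∀ s, Clo T s) {O : Set X} (hO : IsOpen O) : IsOpen (sat T O) := by
  have h : (sat T O)ᶜ = Prod.fst '' ({p : X × X | EqvInf T p.1 p.2} ∩ {p | p.2 ∈ Oᶜ}) := by
    ext y
    constructor
    · intro hy
      have hy' : ¬ ∀ y', EqvInf T y y' → y' ∈ O := hy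
      push Not at hy'
      obtain ⟨y', h1, h2⟩ := hy'
      exact ⟨(y, y'), ⟨h1, h2⟩, rfl⟩
    · rintro ⟨⟨a, b⟩, ⟨h1, h2⟩, rfl⟩ h3
      exact h2 (h3 b h1)
  rw [← isClosed_compl_iff, h]
  have hcl : IsClosed ({p : X × X | EqvInf T p.1 p.2} ∩ {p | p.2 ∈ Oᶜ}) :=
    (isClosed_inf hc).inter (hO.isClosed_compl.preimage continuous_snd)
  exact (hcl.isCompact.image continuous_fst).isClosed

theorem mem_sat_of_inf {O : Set X} {y y' : X} (h : y ∈ sat T O) (h' : EqvInf T y y') :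
    y' ∈ O := h y' h'

theorem sat_congr {O : Set X} {y y' : X} (h : y ∈ sat T O) (h' : EqvInf T y y') :
    y' ∈ sat T O := fun z hz => h z (inf_trans h' hz)

theorem isCompact_cls (hc : ∀ s, Clo T s) (x : X) : IsCompact {y | EqvInf T x y} := by
  have : IsClosed {y | EqvInf T x y} :=
    (isClosed_inf hc).preimage (Continuous.prodMk_right x)
  exact this.isCompact

/-- The points of the class of `x` can be brought back. -/
theorem bring (hc : ∀ s, Clo T s) {x : X} (hx : act T u0 x = x)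
    (hInf : ∀ y, EqvInf T x y → ∃ κ ∈ Kinf, act T u0 y = act T κ.val x)
    {P : Finset (Polynomial ℤ)} (g : Polynomial ℤ → G)
    {U : Set X} (hU : IsOpen U) (hxU : x ∈ U) {UP : Polynomial ℤ → Set X}
    (hUP : ∀ p ∈ P, IsOpen (UP p) ∧ act T (g p).val x ∈ UP p)
    {O : Set X} (hO : IsOpen O) (hCO : ∀ y, EqvInf T x y → y ∈ O) {y : X}
    (hy : EqvInf T x y) :
    ∃ κ ∈ Kinf, ∃ m : ℤ, (T ^ m) y ∈ U ∧ (∀ p ∈ P, (T ^ m) (act T (κ * g p).val x) ∈ UP p) ∧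
      (T ^ m) x ∈ sat T O := by
  obtain ⟨κ, hκ, hy2⟩ := hInf y hy
  refine ⟨κ, hκ, ?_⟩
  have e1 : act T (κ⁻¹).val y = x := by
    rw [← act_val_u0, hy2, act_inv_val, hx]
  have h1 : (κ⁻¹).val.Ev (fun n => (T ^ n) y ∈ U) :=
    Bt.ev_of_lim_mem hU (by rw [show Bt.lim (κ⁻¹).val (fun n => (T ^ n) y) =
      act T (κ⁻¹).val y from rfl, e1]; exact hxU)
  have h2 : (κ⁻¹).val.Ev (fun n => ∀ p ∈ P, (T ^ n) (act T (κ * g p).val x) ∈ UP p) := by
    refine Bt.Ev.finset_all P fun p hp => ?_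
    refine Bt.ev_of_lim_mem (hUP p hp).1 ?_
    have : act T (κ⁻¹).val (act T (κ * g p).val x) = act T (g p).val x := by
      rw [← act_val_mul, inv_mul_cancel_left]
    rw [show Bt.lim (κ⁻¹).val (fun n => (T ^ n) (act T (κ * g p).val x)) =
      act T (κ⁻¹).val (act T (κ * g p).val x) from rfl, this]
    exact (hUP p hp).2
  have h3 : (κ⁻¹).val.Ev (fun n => (T ^ n) x ∈ sat T O) := by
    refine Bt.ev_of_lim_mem (isOpen_sat hc hO) ?_
    have h4 : EqvInf T x (act T (κ⁻¹).val x) := inf_K (Kinf.inv_mem hκ) x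
    exact sat_congr (show x ∈ sat T O from hCO) h4
  obtain ⟨m, hm1, hm2, hm3⟩ := (h1.and (h2.and h3)).exists
  exact ⟨m, hm1, hm2, hm3⟩

/-- Step 1: finitely many translates cover the class of `x`. -/
theorem cover (hc : ∀ s, Clo T s) {x : X} (hx : act T u0 x = x)
    (hInf : ∀ y, EqvInf T x y → ∃ κ ∈ Kinf, act T u0 y = act T κ.val x)
    {P : Finset (Polynomial ℤ)} (g : Polynomial ℤ → G)
    {U : Set X} (hU : IsOpen U) (hxU : x ∈ U) {UP : Polynomial ℤ → Set X}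
    (hUP : ∀ p ∈ P, IsOpen (UP p) ∧ act T (g p).val x ∈ UP p)
    {O : Set X} (hO : IsOpen O) (hCO : ∀ y, EqvInf T x y → y ∈ O) :
    ∃ (r : ℕ) (m : Fin r → ℤ) (κ : Fin r → G), (∀ i, κ i ∈ Kinf) ∧
      (∀ i, ∀ p ∈ P, (T ^ (m i)) (act T (κ i * g p).val x) ∈ UP p) ∧
      (∀ i, (T ^ (m i)) x ∈ sat T O) ∧ ∀ y, EqvInf T x y → ∃ i, (T ^ (m i)) y ∈ U := by
  have hb : ∀ y : {y // EqvInf T x y}, ∃ κ ∈ Kinf, ∃ m : ℤ, (T ^ m) y.1 ∈ U ∧
      (∀ p ∈ P, (T ^ m) (act T (κ * g p).val x) ∈ UP p) ∧ (T ^ m) x ∈ sat T O :=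
    fun y => bring hc hx hInf g hU hxU hUP hO hCO y.2
  choose κ hκ m hm1 hm2 hm3 using hb
  obtain ⟨t, ht⟩ := (isCompact_cls hc x).elim_finite_subcover
    (fun y : {y // EqvInf T x y} => (fun z => (T ^ (m y)) z) ⁻¹' U)
    (fun y => hU.preimage (T ^ (m y)).continuous)
    (fun y hy => Set.mem_iUnion.2 ⟨⟨y, hy⟩, hm1 ⟨y, hy⟩⟩)
  refine ⟨t.card, fun i => m (t.equivFin.symm i).1, fun i => κ (t.equivFin.symm i).1,
    fun i => hκ _, fun i => hm2 _, fun i => hm3 _, fun y hy => ?_⟩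
  have := ht hy
  simp only [Set.mem_iUnion, Set.mem_preimage] at this
  obtain ⟨z, hz, h⟩ := this
  refine ⟨t.equivFin ⟨z, hz⟩, ?_⟩
  simpa using h

end Basics

theorem lin_eq {p : Polynomial ℤ} (h : p.natDegree ≤ 1) (h0 : p.eval 0 = 0) :
    p = Polynomial.C (p.coeff 1) * Polynomial.X := by
  have h1 := Polynomial.eq_X_add_C_of_natDegree_le_one h
  have h2 : p.coeff 0 = 0 := by rw [Polynomial.coeff_zero_eq_eval_zero, h0]
  rw [h2] at h1
  simpa using h1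

theorem natDegree_sh (p : Polynomial ℤ) (ν : ℤ) : (sh p ν).natDegree = p.natDegree := by
  unfold sh
  rw [Polynomial.natDegree_sub_C, Polynomial.natDegree_comp, Polynomial.natDegree_X_add_C, mul_one]

theorem eval_sh (p : Polynomial ℤ) (ν n : ℤ) :
    (sh p ν).eval n = p.eval (n + ν) - p.eval ν := by
  simp [sh]

theorem mem_red {P1 : Polynomial ℤ} {P : Finset (Polynomial ℤ)} {r : ℕ} {ν : Fin r → ℤ}
    {q : Polynomial ℤ} :
    q ∈ red P1 P ν ↔ q ≠ 0 ∧ ∃ p ∈ P, ∃ i, sh p (ν i) - P1 = q := by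
  unfold red sh
  simp [Finset.mem_erase, Finset.mem_image]

section Steps

variable {X : Type} [TopologicalSpace X] [CompactSpace X] [T2Space X] {T : X ≃ₜ X}

/-- Step 2: choice of the translation and of the shifts. -/
theorem shifts (hc : ∀ s, Clo T s) {x : X} {k : ℕ} {j : ℤ}
    {P : Finset (Polynomial ℤ)} (hP : Adm P) (g : Polynomial ℤ → G) (hg : ∀ p ∈ P, g p ∈ Kinf)
    {U : Set X} (hU : IsOpen U) {UP : Polynomial ℤ → Set X}
    (hUP : ∀ p ∈ P, IsOpen (UP p))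
    {O : Set X} (hO : IsOpen O) {Q : Finset (Polynomial ℤ)} (hQ : ∀ q ∈ Q, q.eval 0 = 0)
    {r : ℕ} {m : Fin r → ℤ} {κ : Fin r → G} (hκ : ∀ i, κ i ∈ Kinf)
    (h1 : ∀ i, ∀ p ∈ P, (T ^ (m i)) (act T (κ i * g p).val x) ∈ UP p)
    (h2 : ∀ i, (T ^ (m i)) x ∈ sat T O) (h3 : ∀ y, EqvInf T x y → ∃ i, (T ^ (m i)) y ∈ U)
    (hJ : ∀ (W : Finset ℤ) (κ : Fin r → ℤ → G),
      (0 : ℤ) ∉ W → (∀ i, ∀ c ∈ W, κ i c ∈ Kinf) →
      ∃ w : Bt (ℤ × (Fin r → ℤ)),
      act T (Bt.map (fun γ => γ.1) w) x = x ∧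
      (∀ i, ∀ c ∈ W, act T (Bt.map (fun γ => γ.1 + c * γ.2 i) w) x = act T (κ i c).val x) ∧
      (∀ i, ∀ P : Polynomial ℤ, P.eval 0 = 0 → ∃ κ' ∈ Kinf, ∃ α : G, act T α.val x = x ∧
        Bt.map (fun γ => γ.1 + P.eval (γ.2 i)) w = (κ' * α).val) ∧
      (∀ i, w.Ev (fun γ => (k : ℤ) ∣ γ.2 i - j)) ∧
      (∀ N : ℤ, w.Ev (fun γ => ∀ i, N < γ.2 i)) ∧
      ∀ F : ℤ → ℤ, ∀ i i' : Fin r, i < i' → w.Ev (fun γ => F (γ.2 i) < γ.2 i'))
    (N0 : ℤ) (F : ℤ → ℤ) :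
    ∃ (a : ℤ) (ν : Fin r → ℤ) (h : Polynomial ℤ → Fin r → G),
      (T ^ a) x ∈ sat T {y | ∃ i, (T ^ (m i)) y ∈ U} ∧
      (∀ i, ∀ p ∈ P, p.natDegree ≤ 1 → (T ^ (m i)) ((T ^ (a + p.eval (ν i))) x) ∈ UP p) ∧
      (∀ i, ∀ p ∈ P, h p i ∈ Kinf ∧
        (T ^ (m i)) ((T ^ (a + p.eval (ν i))) (act T (h p i).val x)) ∈ UP p) ∧
      (∀ i, ∀ q ∈ Q, (T ^ (m i)) ((T ^ (a + q.eval (ν i))) x) ∈ sat T O) ∧
      (∀ i, (k : ℤ) ∣ ν i - j) ∧ (∀ i, N0 < ν i) ∧ ∀ i i', i < i' → F (ν i) < ν i' := by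
  classical
  let W : Finset ℤ := (P.filter (fun p => p.natDegree ≤ 1)).image (fun p => p.coeff 1)
  have hW : ∀ c ∈ W, c ≠ 0 ∧ Polynomial.C c * Polynomial.X ∈ P := by
    intro c hc
    obtain ⟨p, hp, rfl⟩ := Finset.mem_image.1 hc
    obtain ⟨hp1, hp2⟩ := Finset.mem_filter.1 hp
    have h := lin_eq hp2 (hP p hp1).2
    rw [← h]
    refine ⟨fun h0 => (hP p hp1).1 ?_, hp1⟩
    rw [h, h0]
    simp
  have hW2 : ∀ p ∈ P, p.natDegree ≤ 1 → p.coeff 1 ∈ W := fun p hp hd =>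
    Finset.mem_image.2 ⟨p, Finset.mem_filter.2 ⟨hp, hd⟩, rfl⟩
  obtain ⟨w, w1, w2, w3, w4, w5, w6⟩ := hJ W (fun i c => κ i * g (Polynomial.C c * Polynomial.X))
    (fun h0 => (hW 0 h0).1 rfl)
    (fun i c hc => Kinf.mul_mem (hκ i) (hg _ (hW c hc).2))
  -- the group elements
  have hex : ∀ (p : Polynomial ℤ) (i : Fin r), p ∈ P → ∃ h : G, h ∈ Kinf ∧
      act T (Bt.map (fun γ => γ.1 + p.eval (γ.2 i)) w) (act T h.val x) =
        act T (κ i * g p).val x := by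
    intro p i hp
    obtain ⟨κ', hκ', α, hα, hw⟩ := w3 i p (hP p hp).2
    refine ⟨α⁻¹ * (κ'⁻¹ * (κ i * g p)) * α, ?_, ?_⟩
    · have h := Kinf_normal.conj_mem _ (Kinf.mul_mem (Kinf.inv_mem hκ')
        (Kinf.mul_mem (hκ i) (hg p hp))) α⁻¹
      simpa using h
    · rw [hw, ← act_val_mul]
      have : κ' * α * (α⁻¹ * (κ'⁻¹ * (κ i * g p)) * α) = κ i * g p * α := by group
      rw [this, act_val_mul, hα]
  have hex2 : ∃ h : Polynomial ℤ → Fin r → G, ∀ p i, p ∈ P → h p i ∈ Kinf ∧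
      act T (Bt.map (fun γ => γ.1 + p.eval (γ.2 i)) w) (act T (h p i).val x) =
        act T (κ i * g p).val x := by
    choose! h hh using hex
    exact ⟨h, hh⟩
  obtain ⟨h, hh⟩ := hex2
  -- the almost sure properties
  have e1 : w.Ev (fun γ => (T ^ γ.1) x ∈ sat T {y | ∃ i, (T ^ (m i)) y ∈ U}) := by
    have hV : IsOpen {y | ∃ i, (T ^ (m i)) y ∈ U} := by
      have : {y | ∃ i, (T ^ (m i)) y ∈ U} = ⋃ i, (fun z => (T ^ (m i)) z) ⁻¹' U := by
        ext y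
        simp
      rw [this]
      exact isOpen_iUnion fun i => hU.preimage (T ^ (m i)).continuous
    refine Bt.ev_of_lim_mem (isOpen_sat hc hV) ?_
    rw [← act_map T (fun γ : ℤ × (Fin r → ℤ) => γ.1), w1]
    exact h3
  have e2 : w.Ev (fun γ => ∀ i, ∀ p ∈ P, p.natDegree ≤ 1 →
      (T ^ (m i)) ((T ^ (γ.1 + p.eval (γ.2 i))) x) ∈ UP p) := by
    refine Bt.Ev.finite_all fun i => Bt.Ev.finset_all P fun p hp => ?_
    by_cases hd : p.natDegree ≤ 1
    · have hp1 := lin_eq hd (hP p hp).2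
      have h5 := w2 i _ (hW2 p hp hd)
      rw [← hp1] at h5
      have h6 : w.Ev (fun γ => (T ^ (m i)) ((T ^ (γ.1 + p.eval (γ.2 i))) x) ∈ UP p) := by
        refine Bt.ev_of_lim_mem (hUP p hp) ?_
        rw [Bt.lim_comp (T ^ (m i)).continuous w
          (fun γ : ℤ × (Fin r → ℤ) => (T ^ (γ.1 + p.eval (γ.2 i))) x),
          ← act_map T (fun γ : ℤ × (Fin r → ℤ) => γ.1 + p.eval (γ.2 i))]
        have h7 : (fun γ : ℤ × (Fin r → ℤ) => γ.1 + p.eval (γ.2 i)) =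
            fun γ => γ.1 + p.coeff 1 * γ.2 i := by
          funext γ
          conv_lhs => rw [hp1]
          simp
        rw [h7, h5]
        exact h1 i p hp
      exact h6.mono fun _ h _ => h
    · exact Bt.Ev.of_all fun _ h => absurd h hd
  have e3 : w.Ev (fun γ => ∀ i, ∀ p ∈ P,
      (T ^ (m i)) ((T ^ (γ.1 + p.eval (γ.2 i))) (act T (h p i).val x)) ∈ UP p) := by
    refine Bt.Ev.finite_all fun i => Bt.Ev.finset_all P fun p hp => ?_
    refine Bt.ev_of_lim_mem (hUP p hp) ?_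
    rw [Bt.lim_comp (T ^ (m i)).continuous w
      (fun γ : ℤ × (Fin r → ℤ) => (T ^ (γ.1 + p.eval (γ.2 i))) (act T (h p i).val x)),
      ← act_map T (fun γ : ℤ × (Fin r → ℤ) => γ.1 + p.eval (γ.2 i)), (hh p i hp).2]
    exact h1 i p hp
  have e4 : w.Ev (fun γ => ∀ i, ∀ q ∈ Q,
      (T ^ (m i)) ((T ^ (γ.1 + q.eval (γ.2 i))) x) ∈ sat T O) := by
    refine Bt.Ev.finite_all fun i => Bt.Ev.finset_all Q fun q hq => ?_
    obtain ⟨κ', hκ', α, hα, hw⟩ := w3 i q (hQ q hq)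
    refine Bt.ev_of_lim_mem (isOpen_sat hc hO) ?_
    rw [Bt.lim_comp (T ^ (m i)).continuous w
      (fun γ : ℤ × (Fin r → ℤ) => (T ^ (γ.1 + q.eval (γ.2 i))) x),
      ← act_map T (fun γ : ℤ × (Fin r → ℤ) => γ.1 + q.eval (γ.2 i)), hw, act_val_mul, hα]
    exact sat_congr (h2 i) (inf_zpow (inf_K hκ' x) _)
  have e5 : w.Ev (fun γ => ∀ i, (k : ℤ) ∣ γ.2 i - j) := Bt.Ev.finite_all w4
  have e6 : w.Ev (fun γ => ∀ i i', i < i' → F (γ.2 i) < γ.2 i') := by
    refine Bt.Ev.finite_all fun i => Bt.Ev.finite_all fun i' => ?_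
    by_cases hi : i < i'
    · exact (w6 F i i' hi).mono fun _ h _ => h
    · exact Bt.Ev.of_all fun _ h => absurd h hi
  obtain ⟨γ, f1, f2, f3, f4, f5, f6, f7⟩ :=
    (e1.and (e2.and (e3.and (e4.and (e5.and ((w5 N0).and e6)))))).exists
  exact ⟨γ.1, γ.2, h, f1, f2, fun i p hp => ⟨(hh p i hp).1, f3 i p hp⟩, f4, f5, f6, f7⟩

end Steps

end PETSTEP

open PETSTEP in
theorem p_PETSTEP (h1 : T_CLO) (h2 : T_INF) (h3 : T_JOINT) (h4 : T_GEN) : T_PETSTEP := by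
  classical
  intro X _ _ _ T k hk hT hTp x hx P hP P1 hP1 hmin hred g hg j N Q hQ U hU hxU UP hUP O hO hCO
  have hc : ∀ s, Clo T s := h1 X T hT
  obtain ⟨r, m, κ, c1, c2, c3, c4⟩ := cover hc hx (h2 X T hT x hx) g hU hxU hUP hO hCO
  obtain ⟨N0, F, g1, g2, g3, g4⟩ := h4 P P1 hP hP1
  obtain ⟨a, ν, h, d1, d2, d3, d4, d5, d6, d7⟩ := shifts hc (x := x) (k := k) (j := j) hP g hg hU
    (fun p hp => (hUP p hp).1) hO hQ c1 c2 c3 c4 (h3 X T k hk hT hTp x hx j r) (max N N0) F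
  have d6N : ∀ i, N < ν i := fun i => lt_of_le_of_lt (le_max_left _ _) (d6 i)
  have d6M : ∀ i, N0 < ν i := fun i => lt_of_le_of_lt (le_max_right _ _) (d6 i)
  -- uniqueness of the representation
  have huniq : ∀ p ∈ P, ∀ p' ∈ P, ∀ i i', 2 ≤ p.natDegree →
      sh p (ν i) = sh p' (ν i') → p = p' ∧ i = i' := by
    intro p hp p' hp' i i' hd he
    have hd' : p'.natDegree = p.natDegree := by
      rw [← natDegree_sh p (ν i), ← natDegree_sh p' (ν i'), he]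
    rcases lt_trichotomy i i' with hi | hi | hi
    · exact absurd he (g2 p hp p' hp' hd (hd'.symm ▸ hd) _ _ (d7 i i' hi))
    · subst hi
      exact ⟨g3 p hp p' hp' _ he, rfl⟩
    · exact absurd he.symm (g2 p' hp' p hp (hd'.symm ▸ hd) hd _ _ (d7 i' i hi))
  -- the targets
  let cond : Polynomial ℤ → Polynomial ℤ × Fin r → Prop := fun q t =>
    t.1 ∈ P ∧ 2 ≤ t.1.natDegree ∧ sh t.1 (ν t.2) - P1 = q
  let g' : Polynomial ℤ → G := fun q =>
    if H : ∃ t, cond q t then h H.choose.1 H.choose.2 else 1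
  have hg'1 : ∀ p i, p ∈ P → 2 ≤ p.natDegree → g' (sh p (ν i) - P1) = h p i := by
    intro p i hp hd
    have H : ∃ t, cond (sh p (ν i) - P1) t := ⟨(p, i), hp, hd, rfl⟩
    have h5 : g' (sh p (ν i) - P1) = h H.choose.1 H.choose.2 := dif_pos H
    obtain ⟨h6, h7, h8⟩ := H.choose_spec
    have h9 := huniq p hp _ h6 i _ hd (sub_left_inj.1 h8).symm
    rw [h5, ← h9.1, ← h9.2]
  have hg'2 : ∀ p i, p ∈ P → p.natDegree ≤ 1 → g' (sh p (ν i) - P1) = 1 := by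
    intro p i hp hd
    refine dif_neg ?_
    rintro ⟨⟨p', i'⟩, hp', hd', he⟩
    have h5 := sub_left_inj.1 he
    have h6 : p'.natDegree = p.natDegree := by
      rw [← natDegree_sh p' (ν i'), ← natDegree_sh p (ν i), h5]
    have h7 : 2 ≤ p'.natDegree := hd'
    omega
  have hg'K : ∀ q ∈ red P1 P ν, g' q ∈ Kinf := by
    intro q hq
    obtain ⟨-, p, hp, i, rfl⟩ := mem_red.1 hq
    rcases le_or_gt p.natDegree 1 with hd | hd
    · rw [hg'2 p i hp hd]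
      exact Kinf.one_mem
    · rw [hg'1 p i hp hd]
      exact (d3 i p hp).1
  let UP' : Polynomial ℤ → Set X := fun q =>
    ⋂ i : Fin r, ⋂ p ∈ P.filter (fun p => sh p (ν i) - P1 = q),
      (fun y => (T ^ (m i + (a + p.eval (ν i)))) y) ⁻¹' (UP p)
  have hUP' : ∀ q ∈ red P1 P ν, IsOpen (UP' q) ∧ act T (g' q).val x ∈ UP' q := by
    intro q hq
    constructor
    · refine isOpen_iInter_of_finite fun i => isOpen_biInter_finset fun p hp => ?_
      exact (hUP p (Finset.mem_filter.1 hp).1).1.preimage (T ^ _).continuous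
    · refine Set.mem_iInter.2 fun i => Set.mem_iInter₂.2 fun p hp => ?_
      obtain ⟨hp1, rfl⟩ := Finset.mem_filter.1 hp
      change (T ^ (m i + (a + p.eval (ν i)))) (act T (g' _).val x) ∈ UP p
      rw [zpow_add_apply]
      rcases le_or_gt p.natDegree 1 with hd | hd
      · rw [hg'2 p i hp1 hd, act_val_one, hx]
        exact d2 i p hp1 hd
      · rw [hg'1 p i hp1 hd]
        exact (d3 i p hp1).2
  let Q' : Finset (Polynomial ℤ) :=
    insert (-P1) ((Q ×ˢ (Finset.univ : Finset (Fin r))).image (fun q => sh q.1 (ν q.2) - P1))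
  have hQ' : ∀ q ∈ Q', q.eval 0 = 0 := by
    intro q hq
    rcases Finset.mem_insert.1 hq with rfl | hq
    · simp [(hP P1 hP1).2]
    · obtain ⟨⟨q, i⟩, -, rfl⟩ := Finset.mem_image.1 hq
      simp [eval_sh, (hP P1 hP1).2]
  let U' : Set X := ⋂ i : Fin r, ⋂ p ∈ P.filter (fun p => p.natDegree ≤ 1),
    (fun y => (T ^ (m i + (a + p.eval (ν i)))) y) ⁻¹' (UP p)
  have hU' : IsOpen U' := by
    refine isOpen_iInter_of_finite fun i => isOpen_biInter_finset fun p hp => ?_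
    exact (hUP p (Finset.mem_filter.1 hp).1).1.preimage (T ^ _).continuous
  have hxU' : x ∈ U' := by
    refine Set.mem_iInter.2 fun i => Set.mem_iInter₂.2 fun p hp => ?_
    obtain ⟨hp1, hd⟩ := Finset.mem_filter.1 hp
    change (T ^ (m i + (a + p.eval (ν i)))) x ∈ UP p
    rw [zpow_add_apply]
    exact d2 i p hp1 hd
  let O' : Set X := (⋂ i : Fin r, ⋂ q ∈ Q,
    (fun y => (T ^ (m i + (a + q.eval (ν i)))) y) ⁻¹' O) ∩
    (fun y => (T ^ a) y) ⁻¹' (⋃ i : Fin r, (fun z => (T ^ (m i)) z) ⁻¹' U)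
  have hO' : IsOpen O' := by
    refine IsOpen.inter ?_ ?_
    · refine isOpen_iInter_of_finite fun i => isOpen_biInter_finset fun q hq => ?_
      exact hO.preimage (T ^ _).continuous
    · exact (isOpen_iUnion fun i => hU.preimage (T ^ (m i)).continuous).preimage
        (T ^ a).continuous
  have hCO' : ∀ y, EqvInf T x y → y ∈ O' := by
    intro y hy
    constructor
    · refine Set.mem_iInter.2 fun i => Set.mem_iInter₂.2 fun q hq => ?_
      change (T ^ (m i + (a + q.eval (ν i)))) y ∈ O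
      rw [zpow_add_apply]
      exact d4 i q hq _ (inf_zpow (inf_zpow hy _) _)
    · have := d1 _ (inf_zpow hy a)
      obtain ⟨i, hi⟩ := this
      exact Set.mem_iUnion.2 ⟨i, hi⟩
  obtain ⟨z', hz', n', hn', hk', e1, e2⟩ := hred r ν g' hg'K 0 0 Q' hQ' U' hU' hxU' UP' hUP'
    O' hO' hCO'
  -- conclusion
  have e3 := (e2 (-P1) (Finset.mem_insert_self _ _)).2
  obtain ⟨i, hi⟩ := Set.mem_iUnion.1 e3
  have hi' : (T ^ (m i)) ((T ^ a) ((T ^ ((-P1).eval n')) z')) ∈ U := hi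
  have key : ∀ q : Polynomial ℤ, (T ^ (q.eval (n' + ν i)))
      ((T ^ (m i)) ((T ^ a) ((T ^ ((-P1).eval n')) z'))) =
      (T ^ (m i + (a + q.eval (ν i)))) ((T ^ ((sh q (ν i) - P1).eval n')) z') := by
    intro q
    rw [← zpow_add_apply, ← zpow_add_apply, ← zpow_add_apply, ← zpow_add_apply]
    congr 2
    rw [Polynomial.eval_sub, eval_sh, Polynomial.eval_neg]
    ring
  refine ⟨_, hi', n' + ν i, ?_, ?_, ?_, ?_⟩
  · have := d6N i
    omega
  · have h5 := dvd_add hk' (d5 i)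
    have h6 : n' - 0 + (ν i - j) = n' + ν i - j := by ring
    rwa [h6] at h5
  · intro p hp
    rw [key]
    by_cases hz : sh p (ν i) - P1 = 0
    · have h5 : sh p (ν i) = P1 := sub_eq_zero.1 hz
      rcases le_or_gt p.natDegree 1 with hd | hd
      · rw [hz]
        have h6 := Set.mem_iInter₂.1 (Set.mem_iInter.1 hz' i) p (Finset.mem_filter.2 ⟨hp, hd⟩)
        simpa using h6
      · exact absurd h5 (g1 p hp hd _ (d6M i))
    · have h5 := e1 _ (mem_red.2 ⟨hz, p, hp, i, rfl⟩)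
      exact Set.mem_iInter₂.1 (Set.mem_iInter.1 h5 i) p (Finset.mem_filter.2 ⟨hp, rfl⟩)
  · intro q hq
    rw [key]
    have h5 := (e2 (sh q (ν i) - P1) (Finset.mem_insert_of_mem
      (Finset.mem_image.2 ⟨(q, i), Finset.mem_product.2 ⟨hq, Finset.mem_univ _⟩, rfl⟩))).1
    exact Set.mem_iInter₂.1 (Set.mem_iInter.1 h5 i) q hq

end Pool.Agent.PRR
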