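import Pool.Agent.PRR.Targets

/-!
Job PLUS: an idempotent going to infinity, compatible with `u0`.
-/

set_option autoImplicit false

namespace Pool.Agent.PRR

open Filter Topology

namespace PLUS

/-- The diagonal embedding. -/
noncomputable def dl (w : Bt ℤ) : Bt (ℤ × ℤ) := Bt.map (fun a : ℤ => (a, (0 : ℤ))) w

theorem dl_mul (w w' : Bt ℤ) : dl (w * w') = dl w * dl w' :=
  Bt.map_mul (AddMonoidHom.inl ℤ ℤ) w w'

theorem dl_idem : dl u0 * dl u0 = dl u0 := by
  rw [← dl_mul, hu0.1]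

/-- The homomorphism with slope `c`. -/
def ph (c : ℤ) : ℤ × ℤ →+ ℤ where
  toFun γ := γ.1 + c * γ.2
  map_zero' := by simp
  map_add' a b := by
    simp only [Prod.fst_add, Prod.snd_add]
    ring

theorem ph_dl (c : ℤ) (w : Bt ℤ) : Bt.map (ph c) (dl w) = w := by
  unfold dl
  rw [Bt.map_map]
  have : (fun a : ℤ => ph c (a, (0 : ℤ))) = fun a => a := by
    funext a
    simp [ph]
  rw [this, Bt.map_id']

/-- The ultrafilters going to infinity. -/
def LL : Set (Bt (ℤ × ℤ)) := {w | ∀ N : ℤ, w.Ev (fun γ => N < γ.2)}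

theorem LL_closed : IsClosed LL := by
  have : LL = ⋂ N : ℤ, {w : Bt (ℤ × ℤ) | w.Ev (fun γ => N < γ.2)} := by
    ext w
    simp [LL]
  rw [this]
  exact isClosed_iInter fun N => Bt.isClosed_ev _

theorem LL_nonempty : LL.Nonempty := by
  obtain ⟨w, hw⟩ := Bt.exists_of_family (Γ := ℤ × ℤ) (fun (N : ℤ) γ => N < γ.2) (by
    intro s
    obtain ⟨M, hM⟩ := s.bddAbove
    refine ⟨(0, M + 1), fun N hN => ?_⟩
    have := hM hN
    change N < M + 1
    omega)
  exact ⟨w, hw⟩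

theorem LL_left (w : Bt (ℤ × ℤ)) {w' : Bt (ℤ × ℤ)} (hw' : w' ∈ LL) : w * w' ∈ LL := by
  intro N
  rw [Bt.ev_mul]
  refine Bt.Ev.of_all fun a => ?_
  refine (hw' (N - a.2)).mono fun b hb => ?_
  simp only [Prod.snd_add]
  omega

theorem LL_dl {w : Bt (ℤ × ℤ)} (hw : w ∈ LL) : w * dl u0 ∈ LL := by
  intro N
  rw [Bt.ev_mul]
  refine (hw N).mono fun a ha => ?_
  unfold dl
  rw [Bt.ev_map]
  refine Bt.Ev.of_all fun b => ?_
  simpa using ha

end PLUS

open PLUS in
theorem p_PLUS : T_PLUS := by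
  obtain ⟨e1, ⟨q, hq, rfl⟩, he⟩ := Bt.exists_idem ((fun q => q * dl u0) '' LL)
    (LL_nonempty.image _) (Bt.isClosed_mul_right LL LL_closed _) (by
      rintro _ ⟨a, ha, rfl⟩ _ ⟨b, hb, rfl⟩
      exact ⟨a * dl u0 * b, LL_left _ hb, by simp only [mul_assoc]⟩)
  simp only at he
  have h1 : q * dl u0 * dl u0 = q * dl u0 := by rw [mul_assoc, dl_idem]
  refine ⟨dl u0 * (q * dl u0), ?_, ?_, ?_, ?_, ?_⟩
  · calc dl u0 * (q * dl u0) * (dl u0 * (q * dl u0))
        = dl u0 * ((q * dl u0 * dl u0) * (q * dl u0)) := by simp only [mul_assoc]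
      _ = dl u0 * (q * dl u0) := by rw [h1, he]
  · exact LL_left _ (LL_dl hq)
  · change dl u0 * (dl u0 * (q * dl u0)) = _
    rw [← mul_assoc, dl_idem]
  · change dl u0 * (q * dl u0) * dl u0 = _
    rw [mul_assoc, h1]
  · intro c
    change Bt.map (ph c) (dl u0 * (q * dl u0)) = u0
    have hee : (dl u0 * (q * dl u0)) * (dl u0 * (q * dl u0)) = dl u0 * (q * dl u0) := by
      calc dl u0 * (q * dl u0) * (dl u0 * (q * dl u0))
          = dl u0 * ((q * dl u0 * dl u0) * (q * dl u0)) := by simp only [mul_assoc]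
        _ = dl u0 * (q * dl u0) := by rw [h1, he]
    have hl : dl u0 * (dl u0 * (q * dl u0)) = dl u0 * (q * dl u0) := by
      rw [← mul_assoc, dl_idem]
    have hr : dl u0 * (q * dl u0) * dl u0 = dl u0 * (q * dl u0) := by
      rw [mul_assoc, h1]
    refine Bt.eq_u_of_idem hu0 ?_ ?_ ?_
    · rw [← Bt.map_mul, hee]
    · calc u0 * Bt.map (ph c) (dl u0 * (q * dl u0))
          = Bt.map (ph c) (dl u0) * Bt.map (ph c) (dl u0 * (q * dl u0)) := by rw [ph_dl]
        _ = Bt.map (ph c) (dl u0 * (dl u0 * (q * dl u0))) := (Bt.map_mul _ _ _).symm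
        _ = Bt.map (ph c) (dl u0 * (q * dl u0)) := by rw [hl]
    · calc Bt.map (ph c) (dl u0 * (q * dl u0)) * u0
          = Bt.map (ph c) (dl u0 * (q * dl u0)) * Bt.map (ph c) (dl u0) := by rw [ph_dl]
        _ = Bt.map (ph c) (dl u0 * (q * dl u0) * dl u0) := (Bt.map_mul _ _ _).symm
        _ = Bt.map (ph c) (dl u0 * (q * dl u0)) := by rw [hr]

end Pool.Agent.PRR
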