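import Pool.Agent.PRR.Targets

/-!
The cube relation is given by the group `K s`.
-/

set_option autoImplicit false

namespace Pool.Agent.PRR

open Filter Topology

namespace REL

section

variable {X : Type} [TopologicalSpace X] [CompactSpace X] [T2Space X] {T : X ≃ₜ X}

/-- Every point of a minimal system is fixed by an idempotent of the left ideal of `u0`. -/
theorem exists_idem_fix (hT : IsMin T) (y : X) :
    ∃ v : Bt ℤ, v * v = v ∧ v * u0 = v ∧ act T v y = y := by
  -- the left ideal of `u0`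
  have hcl : IsClosed {q : Bt ℤ | q * u0 = q ∧ act T q y = y} := by
    apply IsClosed.inter
    · exact isClosed_eq (Bt.continuous_mul_right u0) continuous_id
    · exact isClosed_eq (continuous_act T y) continuous_const
  have hne : {q : Bt ℤ | q * u0 = q ∧ act T q y = y}.Nonempty := by
    obtain ⟨q, hq⟩ := hT.exists_act (act T u0 y) y
    refine ⟨q * u0, ?_, ?_⟩
    · rw [mul_assoc, hu0.1]
    · rw [act_mul, hq]
  obtain ⟨v, ⟨hv1, hv2⟩, hv⟩ := Bt.exists_idem _ hne hcl (by
    rintro a ⟨ha1, ha2⟩ b ⟨hb1, hb2⟩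
    refine ⟨?_, ?_⟩
    · rw [mul_assoc, hb1]
    · rw [act_mul, hb2, ha2])
  exact ⟨v, hv, hv1, hv2⟩

theorem act_val_val (g : G) (y : X) : act T g.val (act T u0 y) = act T g.val y := act_val_u0 T g y

end

/-- The homomorphism `n ↦ (n, -n e_l)`. -/
def jl {s : ℕ} (l : Fin s) : ℤ →+ ℤ × (Fin s → ℤ) where
  toFun n := (n, fun l' => if l' = l then -n else 0)
  map_zero' := by
    simp only [neg_zero, ite_self]
    rfl
  map_add' a b := by
    refine Prod.ext rfl ?_
    funext l'
    by_cases h : l' = l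
    · simp [h]; ring
    · simp [h]

theorem arr_jl {s : ℕ} (l : Fin s) (S : Finset (Fin s)) (n : ℤ) :
    arr (ind S) (jl l n) = if l ∈ S then 0 else n := by
  simp only [arr, jl, AddMonoidHom.coe_mk, ZeroHom.coe_mk, ind]
  by_cases h : l ∈ S
  · simp [h]
  · simp [h]

/-- The product of the `jl`-images over a list of directions. -/
noncomputable def jprod {s : ℕ} (v : Bt ℤ) (L : List (Fin s)) : Bt (ℤ × (Fin s → ℤ)) :=
  (L.map (fun l => Bt.map (jl l) v)).prod

theorem map_jl {s : ℕ} (v : Bt ℤ) (l : Fin s) (S : Finset (Fin s)) :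
    Bt.map (arr (ind S)) (Bt.map (jl l) v) = if l ∈ S then 1 else v := by
  rw [Bt.map_map]
  by_cases h : l ∈ S
  · have : (fun n : ℤ => arr (ind S) (jl l n)) = fun _ => 0 := by
      funext n
      rw [arr_jl, if_pos h]
    rw [this, if_pos h, Bt.map_const, Bt.one_def]
  · have : (fun n : ℤ => arr (ind S) (jl l n)) = fun n => n := by
      funext n
      rw [arr_jl, if_neg h]
    rw [this, if_neg h, Bt.map_id']

theorem map_jprod {s : ℕ} (v : Bt ℤ) (hv : v * v = v) (L : List (Fin s)) (S : Finset (Fin s)) :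
    Bt.map (arr (ind S)) (jprod v L) = if ∀ l ∈ L, l ∈ S then 1 else v := by
  induction L with
  | nil => simp [jprod, Bt.map_one]
  | cons l L ih =>
    unfold jprod at ih ⊢
    rw [List.map_cons, List.prod_cons, Bt.map_mul, map_jl, ih]
    by_cases h : l ∈ S
    · by_cases h' : ∀ l' ∈ L, l' ∈ S
      · rw [if_pos h, if_pos h', if_pos, one_mul]
        intro l' hl'
        rcases List.mem_cons.1 hl' with rfl | hl'
        · exact h
        · exact h' l' hl'
      · rw [if_pos h, if_neg h', if_neg, one_mul]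
        intro h2
        exact h' (fun l' hl' => h2 l' (List.mem_cons_of_mem _ hl'))
    · have h3 : ¬ ∀ l' ∈ l :: L, l' ∈ S := fun h2 => h (h2 l List.mem_cons_self)
      rw [if_neg h, if_neg h3]
      by_cases h' : ∀ l' ∈ L, l' ∈ S
      · rw [if_pos h', mul_one]
      · rw [if_neg h', hv]

end REL

theorem p_REL : T_REL := by
  intro X _ _ _ T hT x hx s y y'
  have hyx : ∃ g : G, act T g.val x = act T u0 y :=
    hT.exists_G hx (by rw [← act_mul, hu0.1])
  constructor
  · rintro ⟨w, hw, hw'⟩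
    let c : (Fin s → ℤ) → G := fun i => gz (Bt.map (arr i) w)
    have hc : c ∈ AG (Fin s) := ⟨w, fun i => rfl⟩
    have hcS : ∀ S : Finset (Fin s), S ≠ Finset.univ → act T (c (ind S)).val x = act T u0 y := by
      intro S hS
      rw [act_gz, hx, hw S hS]
    have hc1 : act T (c (fun _ => 1)).val x = act T u0 y' := by
      rw [act_gz, hx, hw']
    obtain ⟨g, hg⟩ := hyx
    -- normalise
    let e : (Fin s → ℤ) → G := fun i => g⁻¹ * c i
    have he : e ∈ AG (Fin s) := (AG (Fin s)).mul_mem (AG_const g⁻¹) hc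
    have heS : ∀ S : Finset (Fin s), S ≠ Finset.univ → e (ind S) ∈ StG T x hx := by
      intro S hS
      rw [mem_StG, act_val_mul, hcS S hS, ← hg, act_inv_val, hx]
    let F := DL (Finset.univ : Finset (Fin s)).toList e
    have hF : HV F := by
      refine ⟨AG_DL he _, ?_⟩
      rintro i ⟨l, hl⟩
      exact DL_vanish _ _ _ l (by simp) hl
    have hF1 : (e (fun _ => 1))⁻¹ * F (fun _ => 1) ∈ StG T x hx :=
      (DL_top _ e (StG T x hx) heS).2
    have hFK : F (fun _ => 1) ∈ K s := ⟨F, hF, rfl⟩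
    have h1 : act T (e (fun _ => 1)).val x = act T (F (fun _ => 1)).val x := by
      have h2 : F (fun _ => 1) = e (fun _ => 1) * ((e (fun _ => 1))⁻¹ * F (fun _ => 1)) := by
        group
      conv_rhs => rw [h2, act_val_mul, (mem_StG T).1 hF1]
    refine ⟨g * F (fun _ => 1) * g⁻¹, (K_normal s).conj_mem _ hFK g, ?_⟩
    rw [act_val_mul, act_val_mul, ← hg, act_inv_val, hx, ← h1, ← act_val_mul]
    have h3 : g * e (fun _ => 1) = c (fun _ => 1) := by
      simp only [e]
      group
    rw [h3, hc1]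
  · rintro ⟨κ, hκ, hy⟩
    obtain ⟨F, hF, rfl⟩ := hκ
    obtain ⟨wF, hwF⟩ := mem_AG_iff.1 hF.1
    obtain ⟨g, hg⟩ := hyx
    obtain ⟨v1, hv1, hv1u, hv1y⟩ := REL.exists_idem_fix hT y
    obtain ⟨v2, hv2, hv2u, hv2y⟩ := REL.exists_idem_fix hT y'
    have huv2 : u0 * v2 = u0 := hu0.2 v2 hv2 hv2u
    have hv12 : v1 * v2 = v1 := by
      conv_lhs => rw [← hv1u, mul_assoc, huv2, hv1u]
    refine ⟨REL.jprod v1 (Finset.univ : Finset (Fin s)).toList *
      Bt.map (AddMonoidHom.inl ℤ (Fin s → ℤ)) v2 * wF *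
      Bt.map (AddMonoidHom.inl ℤ (Fin s → ℤ)) g.val, ?_, ?_⟩
    · intro S hS
      have hS' : ¬ ∀ l ∈ (Finset.univ : Finset (Fin s)).toList, l ∈ S := by
        intro h
        exact hS (Finset.eq_univ_iff_forall.2 (fun l => h l (by simp)))
      have hFS : F (ind S) = 1 := by
        apply hF.2
        obtain ⟨l, hl⟩ : ∃ l, l ∉ S := by
          by_contra hcon
          push Not at hcon
          exact hS (Finset.eq_univ_iff_forall.2 hcon)
        exact ⟨l, by simp [ind, hl]⟩
      rw [Bt.map_mul, Bt.map_mul, Bt.map_mul, REL.map_jprod v1 hv1, if_neg hS', hwF, hFS,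
        Bt.map_map, Bt.map_map]
      simp only [arr_inl, Bt.map_id']
      rw [hv12, act_mul, act_mul, hg, Bt.Gp.val_one, ← act_mul T u0 u0, hu0.1, ← act_mul,
        hv1u, hv1y]
    · have hS' : ∀ l ∈ (Finset.univ : Finset (Fin s)).toList,
          l ∈ (Finset.univ : Finset (Fin s)) := fun l _ => Finset.mem_univ l
      rw [← ind_univ, Bt.map_mul, Bt.map_mul, Bt.map_mul, REL.map_jprod v1 hv1, if_pos hS', hwF,
        Bt.map_map, Bt.map_map, ind_univ]
      simp only [arr_inl, Bt.map_id']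
      rw [one_mul, act_mul, act_mul, hg, ← hy, ← act_mul, hv2u, hv2y]

end Pool.Agent.PRR
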