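import Pool.Agent.PRR.Targets2

/-!
Job ROOTA: systems of `p`-power roots.
-/

set_option autoImplicit false

namespace Pool.Agent.PRR

open Filter Topology

namespace ROOTA

/-- residue zero modulo `m` is cancellable on the left factor -/
theorem ev_cancel {q r : Bt ℤ} {m b c : ℤ} (h : (q * r).Ev (fun n => m ∣ n - b))
    (hr : r.Ev (fun n => m ∣ n - c)) : q.Ev (fun n => m ∣ n - (b - c)) := by
  rw [Bt.ev_mul] at h
  refine h.mono fun a ha => ?_
  obtain ⟨d, h1, h2⟩ := (ha.and hr).exists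
  have : a - (b - c) = (a + d - b) - (d - c) := by ring
  rw [this]
  exact dvd_sub h1 h2

theorem u0_dvd (m : ℕ) (hm : 0 < m) : u0.Ev (fun n => (m : ℤ) ∣ n) := by
  have : NeZero m := ⟨hm.ne'⟩
  have h := Bt.res_idem (fun n : ℤ => (n : ZMod m)) (fun a b => by push_cast; rfl) hu0.1
  rw [Bt.res_eq_iff] at h
  refine h.mono fun n hn => ?_
  exact (ZMod.intCast_zmod_eq_zero_iff_dvd n m).1 hn

variable {X : Type} [TopologicalSpace X] [CompactSpace X] [T2Space X] {T : X ≃ₜ X} {s : ℕ}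

/-- the action of `G` on the factor -/
noncomputable def ga (hc : Clo T s) (g : G) : Xs T s → Xs T s :=
  Quotient.lift (s := st T s) (fun y => mk T s (act T g.val y))
    (fun _ _ hab => mk_eq_iff.2 (hc.act hab g.val))

theorem ga_mk (hc : Clo T s) (g : G) (y : X) : ga hc g (mk T s y) = mk T s (act T g.val y) := rfl

theorem ga_one (hc : Clo T s) (z : Xs T s) : ga hc 1 z = z := by
  obtain ⟨y, rfl⟩ := mk_surj T s z
  rw [ga_mk, act_val_one]
  exact (mk_eq_iff.2 (eqv_u0 s y)).symm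

theorem ga_mul (hc : Clo T s) (g h : G) (z : Xs T s) : ga hc (g * h) z = ga hc g (ga hc h z) := by
  obtain ⟨y, rfl⟩ := mk_surj T s z
  rw [ga_mk, ga_mk, ga_mk, act_val_mul]

/-- the permutation representation of `G` on the factor -/
noncomputable def Th (hc : Clo T s) : G →* Equiv.Perm (Xs T s) where
  toFun g := ⟨ga hc g, ga hc g⁻¹, fun z => by rw [← ga_mul, inv_mul_cancel, ga_one],
    fun z => by rw [← ga_mul, mul_inv_cancel, ga_one]⟩
  map_one' := by
    ext z
    exact ga_one hc z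
  map_mul' g h := by
    ext z
    exact ga_mul hc g h z

theorem Th_mk (hc : Clo T s) (g : G) (y : X) : Th hc g (mk T s y) = mk T s (act T g.val y) := rfl

theorem Th_K (hc : Clo T s) {κ : G} (hκ : κ ∈ K (s + 1)) : Th hc κ = 1 := by
  ext z
  obtain ⟨y, rfl⟩ := mk_surj T s z
  rw [Th_mk]
  exact (mk_eq_iff.2 (eqv_K hκ y)).symm

theorem ts_zero (z : Xs T s) : ts T s 0 z = z := by
  obtain ⟨y, rfl⟩ := mk_surj T s z
  rw [ts_mk]
  simp

theorem ts_add (m n : ℤ) (z : Xs T s) : ts T s (m + n) z = ts T s m (ts T s n z) := by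
  obtain ⟨y, rfl⟩ := mk_surj T s z
  rw [ts_mk, ts_mk, ts_mk, zpow_add_apply]

/-- the permutations `ts` -/
def tsP (T : X ≃ₜ X) (s : ℕ) : Multiplicative ℤ →* Equiv.Perm (Xs T s) where
  toFun n := ⟨ts T s n.toAdd, ts T s (-n.toAdd),
    fun z => by rw [← ts_add, neg_add_cancel, ts_zero],
    fun z => by rw [← ts_add, add_neg_cancel, ts_zero]⟩
  map_one' := by
    ext z
    exact ts_zero z
  map_mul' m n := by
    ext z
    exact ts_add _ _ z

theorem tsP_apply (n : ℤ) (z : Xs T s) : tsP T s (Multiplicative.ofAdd n) z = ts T s n z := rfl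

theorem tsP_zpow (n : ℤ) : tsP T s (Multiplicative.ofAdd n) = tsP T s (Multiplicative.ofAdd 1) ^ n := by
  rw [← map_zpow, ← ofAdd_zsmul]
  simp

theorem Th_pt (hc : Clo T s) : Th hc (gz (Bt.pt 1)) = tsP T s (Multiplicative.ofAdd 1) := by
  ext z
  obtain ⟨y, rfl⟩ := mk_surj T s z
  rw [Th_mk, tsP_apply, ts_mk, Bt.gr_pt_val, act_mul, act_pt]
  exact (mk_eq_iff.2 ((eqv_u0 s y).zpow 1)).symm

/-- powers over a list -/
theorem list_zpow {H ι : Type} [Group H] (t : H) (m : ι → ℤ) (L : List ι) :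
    (L.map (fun l => t ^ m l)).prod = t ^ (L.map m).sum := by
  induction L with
  | nil => simp
  | cons l L ih => rw [List.map_cons, List.prod_cons, ih, List.map_cons, List.sum_cons, zpow_add]

/-- the powers of an element over a cube form an array -/
theorem pow_array (t : G) (r : ℕ) (m0 : ℤ) (m : Fin r → ℤ) :
    ∃ g ∈ AG (Fin r), ∀ S : Finset (Fin r), g (ind S) = t ^ (m0 + ∑ l ∈ S, m l) := by
  let f : Fin r → (Fin r → ℤ) → G := fun l j => gz (Bt.map (fun n => j l * n) (t ^ m l).val)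
  refine ⟨(fun _ => t ^ m0) * ((List.finRange r).map f).prod, ?_, fun S => ?_⟩
  · refine (AG _).mul_mem (AG_const _) ((AG _).list_prod_mem ?_)
    intro g hg
    rw [List.mem_map] at hg
    obtain ⟨l, -, rfl⟩ := hg
    exact AG_pow _ l
  · rw [Pi.mul_apply, Pi.list_prod_apply, List.map_map, zpow_add]
    congr 1
    have h1 : ∀ l, ((fun g : (Fin r → ℤ) → G => g (ind S)) ∘ f) l =
        t ^ (if l ∈ S then m l else 0) := by
      intro l
      simp only [Function.comp_apply, f, ind]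
      by_cases hl : l ∈ S
      · simp only [hl, if_true, one_mul, Bt.map_id']
        exact Bt.gr_val_self hu0 _
      · simp only [hl, if_false, zero_mul, Bt.map_const, zpow_zero]
        exact Bt.gr_one hu0
    rw [funext h1, list_zpow]
    congr 1
    rw [← List.ofFn_eq_map, List.sum_ofFn, Finset.sum_ite_mem, Finset.univ_inter]

end ROOTA

open ROOTA in
theorem p_ROOTA (h1 : T_CLO) (_h2 : T_T2) (h3 : T_GROOT) (h4 : T_ONE) : T_ROOTA := by
  intro X _ _ _ T p _ hT hTp x hx s
  have hp : 0 < p := (Fact.out : p.Prime).pos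
  have hc : Clo T s := h1 X T hT s
  obtain ⟨a, ha, hra⟩ := h4 X T p hT hTp x hx
  -- the element `t0`
  set t0 : G := gz (Bt.pt 1) * a⁻¹ with ht0
  have hu : ∀ i : ℕ, u0.Ev (fun n => (p : ℤ) ^ i ∣ n) := by
    intro i
    have := u0_dvd (p ^ i) (pow_pos hp i)
    push_cast at this
    exact this
  have hr0 : ∀ i : ℕ, t0.val.Ev (fun n => (p : ℤ) ^ i ∣ n) := by
    intro i
    have e1 : t0.val * a.val = Bt.pt 1 * u0 := by
      rw [← Bt.gr_pt_val hu0, ← Bt.Gp.val_mul, ht0, inv_mul_cancel_right]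
    have e2 : (t0.val * a.val).Ev (fun n => (p : ℤ) ^ i ∣ n - 1) := by
      rw [e1, Bt.ev_mul, Bt.ev_pt]
      refine (hu i).mono fun n hn => ?_
      simpa using hn
    have e3 := ev_cancel e2 (hra i)
    refine e3.mono fun n hn => ?_
    simpa using hn
  -- the roots
  let P : Type := {g : G // ∀ i : ℕ, g.val.Ev (fun n => (p : ℤ) ^ i ∣ n)}
  have hroot : ∀ g : P, ∃ h : P, h.1 ^ p * (g.1)⁻¹ ∈ K (s + 1) := by
    rintro ⟨g, hg⟩
    obtain ⟨h, hh1, hh2⟩ := h3 p s g hg
    exact ⟨⟨h, hh1⟩, hh2⟩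
  choose rt hrt using hroot
  let t : ℕ → P := fun i => rt^[i] ⟨t0, hr0⟩
  have ht_zero : (t 0).1 = t0 := rfl
  have ht_succ : ∀ i, Th hc (t (i + 1)).1 ^ p = Th hc (t i).1 := by
    intro i
    have e1 : t (i + 1) = rt (t i) := Function.iterate_succ_apply' rt i _
    have e2 := Th_K hc (hrt (t i))
    rw [map_mul, map_pow, map_inv, mul_inv_eq_one] at e2
    rw [e1, e2]
  set τ : ℕ → Equiv.Perm (Xs T s) := fun i => Th hc (t i).1 with hτ
  have hτ_add : ∀ i j : ℕ, τ (i + j) ^ (p ^ j : ℕ) = τ i := by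
    intro i j
    induction j with
    | zero => simp
    | succ j ih =>
      rw [pow_succ', pow_mul, ← ih]
      congr 1
      exact ht_succ (i + j)
  -- the ring
  let R : Type := Localization.Away (p : ℤ)
  have hpR : IsUnit ((p : ℕ) : R) := by
    have := IsLocalization.Away.algebraMap_isUnit (S := R) (p : ℤ)
    simpa using this
  have hinj : Function.Injective (Int.cast : ℤ → R) := by
    have h5 : Function.Injective (algebraMap ℤ R) := by
      apply IsLocalization.injective R (M := Submonoid.powers (p : ℤ))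
      apply powers_le_nonZeroDivisors_of_noZeroDivisors
      exact_mod_cast hp.ne'
    intro m n hmn
    apply h5
    simpa using hmn
  have hdens : ∀ c : R, ∃ (i : ℕ) (m : ℤ), c * ((p : ℕ) : R) ^ i = (m : R) := by
    intro c
    obtain ⟨i, m, h⟩ := IsLocalization.Away.surj (p : ℤ) c
    refine ⟨i, m, ?_⟩
    simpa using h
  choose den num hdn using hdens
  have hcast : ∀ (b : ℤ) (k : ℕ), ((b * (p : ℤ) ^ k : ℤ) : R) = (b : R) * ((p : ℕ) : R) ^ k := by
    intro b k
    rw [Int.cast_mul, Int.cast_pow, Int.cast_natCast]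
  let θ : R → Equiv.Perm (Xs T s) := fun c => τ (den c) ^ (num c)
  have hθ : ∀ (c : R) (i : ℕ) (m : ℤ), c * ((p : ℕ) : R) ^ i = (m : R) → θ c = τ i ^ m := by
    intro c i m h
    have e1 := hdn c
    have e2 : num c * (p : ℤ) ^ i = m * (p : ℤ) ^ (den c) := by
      apply hinj
      rw [hcast, hcast, ← e1, ← h]
      ring
    have e3 : τ (den c) = τ (den c + i) ^ ((p : ℤ) ^ i) := by
      have := hτ_add (den c) i
      rw [← this, ← zpow_natCast]
      push_cast
      rfl
    have e4 : τ i = τ (den c + i) ^ ((p : ℤ) ^ (den c)) := by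
      have := hτ_add i (den c)
      rw [add_comm, ← this, ← zpow_natCast]
      push_cast
      rfl
    change τ (den c) ^ (num c) = τ i ^ m
    rw [e3, e4, ← zpow_mul, ← zpow_mul, mul_comm, e2, mul_comm]
  have hθ_add : ∀ c c' : R, θ (c + c') = θ c * θ c' := by
    intro c c'
    have e1 := hdn c
    have e2 := hdn c'
    have e3 : (c + c') * ((p : ℕ) : R) ^ (den c + den c') =
        ((num c * (p : ℤ) ^ (den c') + num c' * (p : ℤ) ^ (den c) : ℤ) : R) := by
      rw [Int.cast_add, hcast, hcast, ← e1, ← e2]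
      ring
    have e4 : c * ((p : ℕ) : R) ^ (den c + den c') = ((num c * (p : ℤ) ^ (den c') : ℤ) : R) := by
      rw [hcast, ← e1]
      ring
    have e5 : c' * ((p : ℕ) : R) ^ (den c + den c') = ((num c' * (p : ℤ) ^ (den c) : ℤ) : R) := by
      rw [hcast, ← e2]
      ring
    rw [hθ _ _ _ e3, hθ _ _ _ e4, hθ _ _ _ e5, zpow_add]
  have hθ_int : ∀ n : ℤ, θ (n : R) = τ 0 ^ n := by
    intro n
    exact hθ _ 0 n (by simp)
  have hA : Th hc a (mk T s x) = mk T s x := by rw [Th_mk, ha]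
  have hcomm : ∀ g : G, Commute (tsP T s (Multiplicative.ofAdd 1)) (Th hc g) := by
    intro g
    rw [← Th_pt hc]
    have := Bt.gr_pt_central hu0 1 g
    change _ * _ = _ * _
    rw [← map_mul, this, map_mul]
  have hτ0 : τ 0 = tsP T s (Multiplicative.ofAdd 1) * (Th hc a)⁻¹ := by
    change Th hc t0 = _
    rw [ht0, map_mul, map_inv, Th_pt]
  have hτ0n : ∀ n : ℤ, (τ 0 ^ n) (mk T s x) = ts T s n (mk T s x) := by
    intro n
    rw [hτ0, ((hcomm a).inv_right).mul_zpow, ← tsP_zpow, Equiv.Perm.mul_apply, tsP_apply]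
    congr 1
    have h6 : (Th hc a)⁻¹ (mk T s x) = mk T s x := by
      rw [Equiv.Perm.inv_eq_iff_eq]
      exact hA.symm
    exact Equiv.Perm.zpow_apply_eq_self_of_apply_eq_self h6 n
  have hθc : ∀ (c : R) (n : ℤ) (z : Xs T s), θ c (ts T s n z) = ts T s n (θ c z) := by
    intro c n z
    have e1 : Commute (tsP T s (Multiplicative.ofAdd n)) (θ c) := by
      rw [tsP_zpow]
      exact ((hcomm _).zpow_right _).zpow_left _
    have e2 := congrArg (fun f : Equiv.Perm (Xs T s) => f z) e1.eq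
    exact e2.symm
  refine ⟨R, inferInstance, fun c => θ c (mk T s x), ⟨hpR, ?_, ?_, ?_, ?_, ?_⟩⟩
  · exact fun c => ⟨den c, num c, hdn c⟩
  · have := hθ_int 0
    simp only [Int.cast_zero, zpow_zero] at this
    change θ 0 (mk T s x) = _
    rw [this]
    rfl
  · intro c n
    change θ (c + n) (mk T s x) = ts T s n (θ c (mk T s x))
    rw [hθ_add, hθ_int, Equiv.Perm.mul_apply, hτ0n, hθc]
  · intro r c0 c
    -- common denominator
    let D : ℕ := den c0 + ∑ l, den (c l)
    have hD : ∀ c' : R, den c' ≤ D → ∃ m : ℤ, c' * ((p : ℕ) : R) ^ D = (m : R) := by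
      intro c' hle
      refine ⟨num c' * (p : ℤ) ^ (D - den c'), ?_⟩
      rw [hcast, ← hdn c', mul_assoc, ← pow_add]
      congr 2
      omega
    obtain ⟨m0, hm0⟩ := hD c0 (Nat.le_add_right _ _)
    have hDl : ∀ l, ∃ m : ℤ, c l * ((p : ℕ) : R) ^ D = (m : R) := fun l =>
      hD (c l) ((Finset.single_le_sum (f := fun l => den (c l)) (fun _ _ => Nat.zero_le _)
        (Finset.mem_univ l)).trans (Nat.le_add_left _ _))
    choose m hm using hDl
    obtain ⟨g, hg, hgS⟩ := pow_array (t D).1 r m0 m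
    obtain ⟨w, hw⟩ := mem_AG_iff.1 hg
    refine ⟨w, fun S => ?_⟩
    have e1 : (c0 + ∑ l ∈ S, c l) * ((p : ℕ) : R) ^ D = ((m0 + ∑ l ∈ S, m l : ℤ) : R) := by
      rw [Int.cast_add, Int.cast_sum, add_mul, Finset.sum_mul, hm0]
      congr 1
      exact Finset.sum_congr rfl fun l _ => hm l
    change θ (c0 + ∑ l ∈ S, c l) (mk T s x) = _
    rw [hθ _ _ _ e1, hw, hgS, ← Th_mk hc, map_zpow]
  · intro i ε hε
    refine ⟨(t i).1, (t i).2, fun c y hy => ?_⟩
    have e1 : θ ε = τ i := by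
      have := hθ ε i 1 (by simpa using hε)
      rwa [zpow_one] at this
    rw [← Th_mk hc, hy]
    change (τ i) (θ c (mk T s x)) = θ (c + ε) (mk T s x)
    rw [add_comm, hθ_add, e1]
    rfl

end Pool.Agent.PRR
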