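import Pool.Agent.PRR.Targets2

/-!
The linear statement for systems of roots.
-/

set_option autoImplicit false

namespace Pool.Agent.PRR

open Filter Topology

namespace ROOTB

/-- The shift homeomorphism on functions. -/
def shiftH {R Y : Type} [AddCommGroup R] [TopologicalSpace Y] (ε : R) : (R → Y) ≃ₜ (R → Y) where
  toFun f := fun c => f (c + ε)
  invFun f := fun c => f (c - ε)
  left_inv f := by
    funext c
    simp
  right_inv f := by
    funext c
    simp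
  continuous_toFun := continuous_pi fun c => continuous_apply (c + ε)
  continuous_invFun := continuous_pi fun c => continuous_apply (c - ε)

theorem shiftH_apply {R Y : Type} [AddCommGroup R] [TopologicalSpace Y] (ε : R) (f : R → Y)
    (c : R) : shiftH ε f c = f (c + ε) := rfl

theorem shiftH_inv_apply {R Y : Type} [AddCommGroup R] [TopologicalSpace Y] (ε : R) (f : R → Y)
    (c : R) : (shiftH (Y := Y) ε)⁻¹ f c = f (c - ε) := rfl

theorem shiftH_zpow {R Y : Type} [AddCommGroup R] [TopologicalSpace Y] (ε : R) (n : ℤ) :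
    ∀ (f : R → Y) (c : R), ((shiftH (Y := Y) ε) ^ n) f c = f (c + n • ε) := by
  induction n using Int.induction_on with
  | zero =>
    intro f c
    simp
  | succ n ih =>
    intro f c
    rw [zpow_add_one]
    change ((shiftH (Y := Y) ε) ^ (n : ℤ)) (shiftH ε f) c = _
    rw [ih, shiftH_apply, add_smul, one_smul, add_assoc]
  | pred n ih =>
    intro f c
    rw [zpow_sub_one]
    change ((shiftH (Y := Y) ε) ^ (-(n : ℤ))) ((shiftH (Y := Y) ε)⁻¹ f) c = _
    rw [ih, shiftH_inv_apply, sub_smul, one_smul]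
    congr 1
    abel

section

variable {X : Type} [TopologicalSpace X] [CompactSpace X] [T2Space X] {T : X ≃ₜ X}

/-- The action of `Bt ℤ` on the factors. -/
theorem lim_ts {s : ℕ} [T2Space (Xs T s)] (q : Bt ℤ) (y : X) :
    Bt.lim q (fun n => ts T s n (mk T s y)) = mk T s (act T q y) := by
  unfold act
  rw [← Bt.lim_comp (continuous_mk T s)]
  rfl

/-- Elements of `G` act injectively on the factors. -/
theorem eqv_of_act {s : ℕ} (hc : Clo T s) (g : G) {y y' : X}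
    (h : Eqv T s (act T g.val y) (act T g.val y')) : Eqv T s y y' := by
  have h2 := hc.act h (g⁻¹).val
  rw [act_inv_val, act_inv_val] at h2
  exact ((eqv_u0 s y).trans h2).trans (eqv_u0 s y').symm

/-- Idempotents act trivially on the factors. -/
theorem eqv_idem {s : ℕ} (hc : Clo T s) {e : Bt ℤ} (he : e * e = e) (y : X) :
    Eqv T s (act T e y) y := by
  have h1 : act T e (act T e y) = act T e y := by rw [← act_mul, he]
  have h2 : Eqv T s (act T e (act T e y)) (act T e y) := by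
    rw [h1]
    exact Eqv.refl T s _
  exact eqv_of_act hc (gz e) (((hc.gz e (act T e y)).symm.trans h2).trans (hc.gz e y))

theorem lim_ts_idem {s : ℕ} [T2Space (Xs T s)] (hc : Clo T s) {e : Bt ℤ} (he : e * e = e)
    (z : Xs T s) : Bt.lim e (fun n => ts T s n z) = z := by
  obtain ⟨y, rfl⟩ := mk_surj T s z
  rw [lim_ts, mk_eq_iff]
  exact eqv_idem hc he y

end

/-- Division of an idempotent. -/
theorem exists_div_idem (m : ℕ) [NeZero m] :
    ∃ u' : Bt ℤ, u' * u' = u' ∧ Bt.map (fun n => (m : ℤ) * n) u' = u0 := by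
  have hm : (m : ℤ) ≠ 0 := by exact_mod_cast NeZero.ne m
  have h0 : u0.Ev (fun n => (m : ℤ) ∣ n) := by
    have h := Bt.res_idem (fun n : ℤ => (n : ZMod m)) (fun a b => by push_cast; rfl) hu0.1
    rw [Bt.res_eq_iff] at h
    exact h.mono fun n hn => (ZMod.intCast_zmod_eq_zero_iff_dvd n m).1 hn
  have h1 : Bt.map (fun n => (m : ℤ) * n) (Bt.map (fun n => n / (m : ℤ)) u0) = u0 := by
    rw [Bt.map_map]
    conv_rhs => rw [← Bt.map_id' u0]
    exact Bt.map_congr (h0.mono fun n hn => Int.mul_ediv_cancel' hn)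
  have hinj : ∀ v v' : Bt ℤ, Bt.map (fun n => (m : ℤ) * n) v = Bt.map (fun n => (m : ℤ) * n) v' →
      v = v' := by
    intro v v' h
    have h2 := congrArg (Bt.map (fun n => n / (m : ℤ))) h
    rw [Bt.map_map, Bt.map_map] at h2
    have h3 : (fun a : ℤ => (m : ℤ) * a / (m : ℤ)) = fun a => a := by
      funext a
      exact Int.mul_ediv_cancel_left a hm
    rw [h3, Bt.map_id', Bt.map_id'] at h2
    exact h2
  refine ⟨Bt.map (fun n => n / (m : ℤ)) u0, ?_, h1⟩
  apply hinj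
  have h4 := Bt.map_mul (AddMonoidHom.mulLeft (m : ℤ)) (Bt.map (fun n => n / (m : ℤ)) u0)
    (Bt.map (fun n => n / (m : ℤ)) u0)
  have h5 : (⇑(AddMonoidHom.mulLeft (m : ℤ)) : ℤ → ℤ) = fun n => (m : ℤ) * n := rfl
  rw [h5, h1, hu0.1] at h4
  rw [h4, h1]

/-- Residues of `u0`. -/
theorem u0_dvd (m : ℕ) [NeZero m] : u0.Ev (fun n => (m : ℤ) ∣ n) := by
  have h := Bt.res_idem (fun n : ℤ => (n : ZMod m)) (fun a b => by push_cast; rfl) hu0.1
  rw [Bt.res_eq_iff] at h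
  exact h.mono fun n hn => (ZMod.intCast_zmod_eq_zero_iff_dvd n m).1 hn

/-- Residues of inverses. -/
theorem inv_dvd (m : ℕ) [NeZero m] (τ : G) (h : τ.val.Ev (fun n => (m : ℤ) ∣ n)) :
    (τ⁻¹).val.Ev (fun n => (m : ℤ) ∣ n) := by
  have h1 := Bt.res_mul (fun n : ℤ => (n : ZMod m)) (fun a b => by push_cast; rfl)
    τ.val (τ⁻¹).val
  rw [← Bt.Gp.val_mul, mul_inv_cancel, Bt.Gp.val_one,
    Bt.res_idem (fun n : ℤ => (n : ZMod m)) (fun a b => by push_cast; rfl) hu0.1] at h1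
  have h2 : Bt.res (fun n : ℤ => (n : ZMod m)) τ.val = 0 := by
    rw [Bt.res_eq_iff]
    exact h.mono fun n hn => (ZMod.intCast_zmod_eq_zero_iff_dvd n m).2 hn
  rw [h2, zero_add] at h1
  have h3 := h1.symm
  rw [Bt.res_eq_iff] at h3
  exact h3.mono fun n hn => (ZMod.intCast_zmod_eq_zero_iff_dvd n m).1 hn

theorem level {X : Type} [TopologicalSpace X] [CompactSpace X] [T2Space X] {T : X ≃ₜ X}
    {x : X} {s p : ℕ} [Fact p.Prime] {R : Type} [CommRing R] {ξ : R → Xs T s}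
    [T2Space (Xs T s)] (hc : Clo T s) (h3 : T_LIN) (hR : RootPre T x s p ξ) (i : ℕ) (ε : R)
    (hε : ε * (p : R) ^ i = 1) :
    ∃ w : Bt (R × ℤ), w.Ev (fun γ => (p : ℤ) ∣ γ.2 - 1) ∧
      ∀ (c0 : R) (m : ℤ), Bt.lim w (fun γ => ξ (γ.1 + c0 + (m : R) * ε * (γ.2 : R))) = ξ c0 := by
  have : NeZero p := ⟨(Fact.out : p.Prime).ne_zero⟩
  have : NeZero (p ^ i) := ⟨pow_ne_zero i (Fact.out : p.Prime).ne_zero⟩
  obtain ⟨τ, hτ1, hτ2⟩ := hR.root i ε hε
  have hact : ∀ (q : Bt ℤ) (c : R), act (shiftH (Y := Xs T s) ε) q ξ c =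
      Bt.lim q (fun n => ξ (c + n • ε)) := by
    intro q c
    unfold act
    rw [Bt.lim_pi]
    simp only [shiftH_zpow]
  have hmul : ∀ n : ℤ, ((p ^ i : ℕ) : ℤ) • ((n : ℤ) • ε) = (n : R) := by
    intro n
    rw [zsmul_eq_mul, zsmul_eq_mul]
    push_cast
    calc (p : R) ^ i * ((n : R) * ε) = (n : R) * (ε * (p : R) ^ i) := by ring
      _ = (n : R) := by rw [hε, mul_one]
  -- (a)
  have ha : act (shiftH (Y := Xs T s) ε) u0 ξ = ξ := by
    funext c
    rw [hact]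
    obtain ⟨u', hu', hu''⟩ := exists_div_idem (p ^ i)
    rw [← hu'', Bt.lim_map]
    have h5 : (fun a : ℤ => ξ (c + (((p ^ i : ℕ) : ℤ) * a) • ε)) = fun a => ts T s a (ξ c) := by
      funext a
      rw [mul_smul, hmul, hR.shift]
    rw [h5]
    exact lim_ts_idem hc hu' (ξ c)
  -- (b)
  let q : Bt ℤ := Bt.map (fun n => 1 + ((p ^ i : ℕ) : ℤ) * n) (τ⁻¹).val
  have hb : act (shiftH (Y := Xs T s) ε) q ξ = ξ := by
    funext c
    rw [hact, Bt.lim_map]
    have h5 : (fun a : ℤ => ξ (c + (1 + ((p ^ i : ℕ) : ℤ) * a) • ε)) =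
        fun a => ts T s a (ξ (c + ε)) := by
      funext a
      rw [add_smul, one_smul, mul_smul, hmul, ← add_assoc, hR.shift]
    rw [h5]
    obtain ⟨y, hy⟩ := mk_surj T s (ξ c)
    rw [← hτ2 c y hy, lim_ts, act_inv_val, ← hy]
    exact mk_eq_iff.2 (eqv_u0 s y).symm
  -- (c)
  have hg : act (shiftH (Y := Xs T s) ε) (gz q).val ξ = ξ := by
    rw [act_gz, ha, hb, ha]
  have hgm : ∀ m : ℤ, act (shiftH (Y := Xs T s) ε) ((gz q) ^ m).val ξ = ξ := by
    intro m
    have h6 : gz q ∈ StG (shiftH (Y := Xs T s) ε) ξ ha := hg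
    exact (StG (shiftH (Y := Xs T s) ε) ξ ha).zpow_mem h6 m
  obtain ⟨w, hw⟩ := h3 (gz q)
  have hres0 : w.Ev (fun γ => (p : ℤ) ∣ γ.1) := by
    have h7 := hw 0
    rw [zpow_zero, Bt.Gp.val_one] at h7
    have h8 := u0_dvd p
    rw [← h7, Bt.ev_map] at h8
    exact h8.mono fun γ hγ => by simpa using hγ
  have hres1 : w.Ev (fun γ => (p : ℤ) ∣ γ.1 + γ.2 - 1) := by
    have h7 := hw 1
    rw [zpow_one] at h7
    have hq : q.Ev (fun n => (p : ℤ) ∣ n - 1) := by
      rw [Bt.ev_map]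
      have h9 := inv_dvd p τ (by
        have := hτ1 1
        simpa using this)
      refine h9.mono fun n hn => ?_
      have : 1 + ((p ^ i : ℕ) : ℤ) * n - 1 = ((p ^ i : ℕ) : ℤ) * n := by ring
      rw [this]
      exact Dvd.dvd.mul_left hn _
    have h8 : (gz q).val.Ev (fun n => (p : ℤ) ∣ n - 1) := by
      rw [Bt.gr_val, Bt.ev_mul, Bt.ev_mul]
      refine (u0_dvd p).mono fun a ha' => hq.mono fun b hb' => (u0_dvd p).mono fun c hc' => ?_
      have : a + b + c - 1 = a + (b - 1) + c := by ring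
      rw [this]
      exact dvd_add (dvd_add ha' hb') hc'
    rw [← h7, Bt.ev_map] at h8
    exact h8.mono fun γ hγ => by simpa using hγ
  refine ⟨Bt.map (fun γ : ℤ × ℤ => ((γ.1 : ℤ) • ε, γ.2)) w, ?_, ?_⟩
  · rw [Bt.ev_map]
    refine (hres0.and hres1).mono fun γ hγ => ?_
    have : γ.2 - 1 = (γ.1 + γ.2 - 1) - γ.1 := by ring
    change (p : ℤ) ∣ γ.2 - 1
    rw [this]
    exact dvd_sub hγ.2 hγ.1
  · intro c0 m
    rw [Bt.lim_map]
    have h10 := congrFun (hgm m) c0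
    rw [hact, ← hw m, Bt.lim_map] at h10
    rw [← h10]
    congr 1
    funext γ
    congr 1
    simp only [zsmul_eq_mul]
    push_cast
    ring

theorem main (h1 : T_CLO) (h2 : T_T2) (h3 : T_LIN) : T_ROOTB := by
  intro X _ _ _ T p _ hT _ x hx s R _ ξ hR
  have : T2Space (Xs T s) := h2 X T hT s
  have hc : Clo T s := h1 X T hT s
  obtain ⟨η, hη⟩ := hR.unit
  -- the inverse of p
  obtain ⟨δ, hδ⟩ : ∃ δ : R, δ * (p : R) = 1 := ⟨↑(η⁻¹), by rw [← hη]; exact η.inv_mul⟩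
  let ε : ℕ → R := fun i => δ ^ i
  have hε : ∀ i, ε i * (p : R) ^ i = 1 := by
    intro i
    change δ ^ i * (p : R) ^ i = 1
    rw [← mul_pow, hδ, one_pow]
  let C : ℕ → Set (Bt (R × ℤ)) := fun i => {w | w.Ev (fun γ => (p : ℤ) ∣ γ.2 - 1)} ∩
    ⋂ (c0 : R), ⋂ (m : ℤ), {w | Bt.lim w (fun γ => ξ (γ.1 + c0 + (m : R) * ε i * (γ.2 : R))) = ξ c0}
  have hCc : ∀ i, IsClosed (C i) := by
    intro i
    refine (Bt.isClosed_ev _).inter (isClosed_iInter fun c0 => isClosed_iInter fun m => ?_)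
    exact isClosed_eq (Bt.continuous_lim _) continuous_const
  have hCn : ∀ i, (C i).Nonempty := by
    intro i
    obtain ⟨w, hw1, hw2⟩ := level hc h3 hR i (ε i) (hε i)
    exact ⟨w, hw1, Set.mem_iInter.2 fun c0 => Set.mem_iInter.2 fun m => hw2 c0 m⟩
  have hCm : ∀ i, C (i + 1) ⊆ C i := by
    rintro i w ⟨hw1, hw2⟩
    refine ⟨hw1, Set.mem_iInter.2 fun c0 => Set.mem_iInter.2 fun m => ?_⟩
    have h := Set.mem_iInter.1 (Set.mem_iInter.1 hw2 c0) (m * (p : ℤ))
    have h4 : ((m * (p : ℤ) : ℤ) : R) * ε (i + 1) = (m : R) * ε i := by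
      change ((m * (p : ℤ) : ℤ) : R) * δ ^ (i + 1) = (m : R) * δ ^ i
      push_cast
      calc (m : R) * (p : R) * δ ^ (i + 1) = (m : R) * δ ^ i * (δ * (p : R)) := by ring
        _ = (m : R) * δ ^ i := by rw [hδ, mul_one]
    have h' : Bt.lim w (fun γ => ξ (γ.1 + c0 + ((m * (p : ℤ) : ℤ) : R) * ε (i + 1) * (γ.2 : R))) =
        ξ c0 := h
    rw [h4] at h'
    exact h'
  obtain ⟨w, hw⟩ := IsCompact.nonempty_iInter_of_sequence_nonempty_isCompact_isClosed C hCm hCn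
    (hCc 0).isCompact hCc
  have hw' := Set.mem_iInter.1 hw
  refine ⟨w, (hw' 0).1, fun c0 c1 => ?_⟩
  obtain ⟨i, m, him⟩ := hR.dens c1
  have h := Set.mem_iInter.1 (Set.mem_iInter.1 (hw' i).2 c0) m
  have h' : Bt.lim w (fun γ => ξ (γ.1 + c0 + (m : R) * ε i * (γ.2 : R))) = ξ c0 := h
  have h5 : (m : R) * ε i = c1 := by
    rw [← him, mul_assoc, mul_comm ((p : R) ^ i), hε, mul_one]
  rw [h5] at h'
  exact h'

end ROOTB

/-- The linear statement for systems of roots. -/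
theorem p_ROOTB (h1 : T_CLO) (h2 : T_T2) (h3 : T_LIN) : T_ROOTB := ROOTB.main h1 h2 h3

/-- Existence of systems of roots. -/
theorem p_ROOT (hA : T_ROOTA) (hB : T_ROOTB) : T_ROOT := by
  intro X _ _ _ T p _ hT hTp x hx s
  obtain ⟨R, iR, ξ, hξ⟩ := hA X T p hT hTp x hx s
  exact ⟨R, iR, ξ, hξ.unit, hξ.zero, hξ.shift, hξ.cube, hB X T p hT hTp x hx s R ξ hξ⟩

end Pool.Agent.PRR
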