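import Pool.Agent.PRR.NilDefs

/-!
PRR-STEP: killing an error of weight `e ≥ 2` (abstract semigroup lemma).
-/

set_option autoImplicit false

namespace Pool.Agent.PRR

open Filter Topology

namespace STEP

variable {Γ : Type} [AddCommGroup Γ] {S : Set (Bt Γ)} {A : Type} [AddCommGroup A]

theorem pow_val (hmul : ∀ a ∈ S, ∀ b ∈ S, a * b ∈ S) {B : Type} [AddCommGroup B]
    {f : Bt Γ → A} {g : Bt Γ → B} (hf : ∀ a ∈ S, ∀ b ∈ S, f (a * b) = f a + f b)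
    (hg : ∀ a ∈ S, ∀ b ∈ S, g (a * b) = g a + g b) {a : Bt Γ} (ha : a ∈ S) (n : ℕ) :
    ∃ b ∈ S, f b = (n + 1) • f a ∧ g b = (n + 1) • g a := by
  induction n with
  | zero => exact ⟨a, ha, by simp, by simp⟩
  | succ n ih =>
    obtain ⟨b, hb, h1, h2⟩ := ih
    refine ⟨b * a, hmul b hb a ha, ?_, ?_⟩
    · rw [hf b hb a ha, h1, succ_nsmul (f a) (n + 1)]
    · rw [hg b hb a ha, h2, succ_nsmul (g a) (n + 1)]

theorem inv_val (hc : IsClosed S) (hmul : ∀ a ∈ S, ∀ b ∈ S, a * b ∈ S) {B : Type}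
    [AddCommGroup B] {f : Bt Γ → A} {g : Bt Γ → B}
    (hf : ∀ a ∈ S, ∀ b ∈ S, f (a * b) = f a + f b)
    (hg : ∀ a ∈ S, ∀ b ∈ S, g (a * b) = g a + g b) {a : Bt Γ} (ha : a ∈ S) :
    ∃ b ∈ S, f b = - f a ∧ g b = - g a := by
  obtain ⟨q, hq, hqa⟩ := Bt.exists_idem_mul S hc hmul ha
  have hqaS : q * a ∈ S := hmul q hq a ha
  refine ⟨q, hq, ?_, ?_⟩
  · have h1 := hf (q * a) hqaS (q * a) hqaS
    rw [hqa] at h1
    have h2 : f (q * a) = 0 := by simpa using h1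
    rw [hf q hq a ha] at h2
    exact eq_neg_of_add_eq_zero_left h2
  · have h1 := hg (q * a) hqaS (q * a) hqaS
    rw [hqa] at h1
    have h2 : g (q * a) = 0 := by simpa using h1
    rw [hg q hq a ha] at h2
    exact eq_neg_of_add_eq_zero_left h2

end STEP

open STEP in
theorem p_STEP : T_STEP := by
  intro p hp Γ _ S hc hmul ρ hρ H _ H' e he htor ψ hψ' hψ δ hδ hρδ hψδ hdiv w hw hpw
  have hp2 : 2 ≤ p := hp.out.two_le
  obtain ⟨k, rfl⟩ : ∃ k, e = k + 2 := ⟨e - 2, by omega⟩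
  -- the power `w ^ p`
  obtain ⟨n, hn⟩ : ∃ n, p = n + 1 := ⟨p - 1, by omega⟩
  obtain ⟨a, ha, ha1, ha2⟩ := pow_val hmul hρ hψ hw n
  rw [← hn] at ha1 ha2
  obtain ⟨s, hs, hs1, hs2⟩ := inv_val hc hmul hρ hψ ha
  have hw0 : s * δ w ∈ S := hmul s hs _ (hδ w hw)
  have hw0ρ : ρ (s * δ w) = 0 := by
    rw [hρ s hs _ (hδ w hw), hs1, ha1, hρδ w hw, nsmul_eq_mul]
    ring
  obtain ⟨b, hb, hb1, hb2⟩ := hdiv _ hw0 hw0ρ
  rw [hψ s hs _ (hδ w hw), hs2, ha2, hψδ w hw] at hb2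
  -- torsion freeness
  have key : (p ^ (k + 1) - 1 : ℕ) • ψ w = (p ^ (k + 1)) • ψ b := by
    have h1 : (p ^ (k + 1) - 1 : ℕ) • ψ w - (p ^ (k + 1)) • ψ b ∈ H' :=
      H'.sub_mem (H'.nsmul_mem (hψ' w hw) _) (H'.nsmul_mem (hψ' b hb) _)
    have h3 : 1 ≤ p ^ (k + 1) := Nat.one_le_pow _ _ (by omega)
    have h4 : (p ^ (k + 1) - 1 : ℕ) • ψ w = (p ^ (k + 1)) • ψ w - ψ w := by
      rw [eq_sub_iff_add_eq, ← succ_nsmul]
      congr 1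
      omega
    have h2 : p • ((p ^ (k + 1) - 1 : ℕ) • ψ w - (p ^ (k + 1)) • ψ b) = 0 := by
      rw [h4, smul_sub, smul_sub, ← mul_smul, ← mul_smul]
      have h5 : p * p ^ (k + 1) = p ^ (k + 2) := by ring
      rw [h5, ← hb2]
      abel
    exact sub_eq_zero.mp (htor _ h1 h2)
  -- the new element
  have hbig : 2 ≤ p ^ (k + 1) := by
    calc 2 ≤ p := hp2
      _ = p ^ 1 := (pow_one p).symm
      _ ≤ p ^ (k + 1) := Nat.pow_le_pow_right (by omega) (by omega)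
  obtain ⟨n1, hn1⟩ : ∃ n1, p ^ (k + 1) - 1 = n1 + 1 := ⟨p ^ (k + 1) - 2, by omega⟩
  obtain ⟨n2, hn2⟩ : ∃ n2, p ^ (k + 1) = n2 + 1 := ⟨p ^ (k + 1) - 1, by omega⟩
  obtain ⟨c, hc', hc1, hc2⟩ := pow_val hmul hρ hψ hw n1
  obtain ⟨f, hf, hf1, hf2⟩ := pow_val hmul hρ hψ hb n2
  obtain ⟨t, ht, ht1, ht2⟩ := inv_val hc hmul hρ hψ hf
  refine ⟨c * t, hmul c hc' t ht, ?_, ?_⟩
  · rw [hψ c hc' t ht, hc2, ht2, hf2, ← hn1, ← hn2, key, add_neg_cancel]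
  · rw [hρ c hc' t ht, hc1, ht1, hf1, hb1, smul_zero, neg_zero, add_zero, ← hn1]
    intro hdvd
    apply hpw
    have h3 : 1 ≤ p ^ (k + 1) := Nat.one_le_pow _ _ (by omega)
    have h4 : ((p ^ (k + 1) - 1 : ℕ) • ρ w : ℤ_[p]) = (p : ℤ_[p]) ^ (k + 1) * ρ w - ρ w := by
      rw [nsmul_eq_mul, Nat.cast_sub h3]
      push_cast
      ring
    rw [h4] at hdvd
    have h5 : (p : ℤ_[p]) ∣ (p : ℤ_[p]) ^ (k + 1) * ρ w :=
      Dvd.dvd.mul_right (dvd_pow_self _ (by omega)) _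
    have h6 := dvd_sub h5 hdvd
    rwa [sub_sub_cancel] at h6

end Pool.Agent.PRR
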