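import Pool.Agent.PRR.Targets

/-!
The factors `Xs T s` are Hausdorff: quotient of a compact Hausdorff space by a closed
equivalence relation.
-/

set_option autoImplicit false

namespace Pool.Agent.PRR

open Filter Topology

namespace TT

/-- The saturation of a closed set is closed. -/
theorem isClosed_sat {X : Type} [TopologicalSpace X] [CompactSpace X] [T2Space X] (T : X ≃ₜ X)
    (s : ℕ) (hc : Clo T s) (C : Set X) (hC : IsClosed C) :
    IsClosed {y : X | ∃ x ∈ C, Eqv T s x y} := by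
  have h1 : {y : X | ∃ x ∈ C, Eqv T s x y} =
      Prod.snd '' ({p : X × X | Eqv T s p.1 p.2} ∩ Prod.fst ⁻¹' C) := by
    ext y
    constructor
    · rintro ⟨x, hx, hxy⟩
      exact ⟨(x, y), ⟨hxy, hx⟩, rfl⟩
    · rintro ⟨p, ⟨hp1, hp2⟩, rfl⟩
      exact ⟨p.1, hp2, hp1⟩
  rw [h1]
  have h2 : IsClosed ({p : X × X | Eqv T s p.1 p.2} ∩ Prod.fst ⁻¹' C) :=
    IsClosed.inter hc (hC.preimage continuous_fst)
  exact (h2.isCompact.image continuous_snd).isClosed

/-- The set of points whose whole class lies in `U` is open in the quotient. -/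
theorem isOpen_core {X : Type} [TopologicalSpace X] [CompactSpace X] [T2Space X] (T : X ≃ₜ X)
    (s : ℕ) (hc : Clo T s) (U : Set X) (hU : IsOpen U) :
    IsOpen {z : Xs T s | ∀ y, mk T s y = z → y ∈ U} := by
  have h1 : IsOpen (mk T s ⁻¹' {z : Xs T s | ∀ y, mk T s y = z → y ∈ U}) := by
    have h2 : mk T s ⁻¹' {z : Xs T s | ∀ y, mk T s y = z → y ∈ U} =
        {y : X | ∃ x ∈ Uᶜ, Eqv T s x y}ᶜ := by
      ext y
      simp only [Set.mem_preimage, Set.mem_setOf_eq, Set.mem_compl_iff, mk_eq_iff]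
      constructor
      · rintro h ⟨x, hx, hxy⟩
        exact hx (h x hxy)
      · intro h x hxy
        by_contra hx
        exact h ⟨x, hx, hxy⟩
    rw [h2]
    exact (isClosed_sat T s hc Uᶜ hU.isClosed_compl).isOpen_compl
  exact (isQuotientMap_quotient_mk' (s := st T s)).isOpen_preimage.1 h1

end TT

/-- The factors are Hausdorff. -/
theorem p_T2 (h : T_CLO) : T_T2 := by
  intro X _ _ _ T hT s
  have hc : Clo T s := h X T hT s
  refine ⟨fun z1 z2 hne => ?_⟩
  obtain ⟨x1, rfl⟩ := mk_surj T s z1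
  obtain ⟨x2, rfl⟩ := mk_surj T s z2
  have hcl : ∀ x : X, IsClosed {y : X | Eqv T s x y} := by
    intro x
    exact IsClosed.preimage (f := fun y : X => (x, y)) (by fun_prop) hc
  have hdisj : Disjoint {y : X | Eqv T s x1 y} {y : X | Eqv T s x2 y} := by
    rw [Set.disjoint_left]
    intro y hy1 hy2
    exact hne (mk_eq_iff.2 (Eqv.trans hy1 (Eqv.symm hy2)))
  obtain ⟨U1, U2, hU1, hU2, h1, h2, hd⟩ := normal_separation (hcl x1) (hcl x2) hdisj
  refine ⟨_, _, TT.isOpen_core T s hc U1 hU1, TT.isOpen_core T s hc U2 hU2, ?_, ?_, ?_⟩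
  · intro y hy
    exact h1 (Eqv.symm (mk_eq_iff.1 hy))
  · intro y hy
    exact h2 (Eqv.symm (mk_eq_iff.1 hy))
  · rw [Set.disjoint_left]
    intro z hz1 hz2
    obtain ⟨y, rfl⟩ := mk_surj T s z
    exact Set.disjoint_left.1 hd (hz1 y rfl) (hz2 y rfl)

end Pool.Agent.PRR
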