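import Pool.Agent.PRR.Targets2

/-!
The compact abelian group acting on the `(s+1)`-st factor.
-/

set_option autoImplicit false

namespace Pool.Agent.PRR

open Filter Topology

namespace VDA

/-- A map with closed graph into a compact space is continuous. -/
theorem continuous_of_graph {A B : Type} [TopologicalSpace A] [TopologicalSpace B]
    [CompactSpace B] {f : A → B} (h : IsClosed {p : A × B | p.2 = f p.1}) : Continuous f := by
  rw [continuous_iff_isClosed]
  intro C hC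
  have h1 : IsClosed (Prod.fst '' ({p : A × B | p.2 = f p.1} ∩ {p : A × B | p.2 ∈ C})) :=
    isClosedMap_fst_of_compactSpace _ (h.inter (hC.preimage continuous_snd))
  have h2 : f ⁻¹' C = Prod.fst '' ({p : A × B | p.2 = f p.1} ∩ {p : A × B | p.2 ∈ C}) := by
    ext a
    constructor
    · intro ha
      exact ⟨(a, f a), ⟨rfl, ha⟩, rfl⟩
    · rintro ⟨⟨a', b⟩, ⟨h1, h2⟩, rfl⟩
      have h1' : b = f a' := h1
      have h2' : b ∈ C := h2
      rw [h1'] at h2'
      exact h2'
  rw [h2]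
  exact h1

/-- The abstract construction of the compact group. -/
theorem abstract_group {Y : Type} [TopologicalSpace Y] [CompactSpace Y] [T2Space Y]
    (A : Subgroup (Equiv.Perm Y)) (hcomm : ∀ a ∈ A, ∀ b ∈ A, a * b = b * a) (y0 : Y)
    (hfree : ∀ a ∈ A, ∀ y, a y = y → a = 1)
    (hcl : IsClosed {z : Y | ∃ a ∈ A, z = a y0})
    (hgraph : IsClosed {p : Y × Y × Y | ∃ a ∈ A, p.1 = a y0 ∧ p.2.2 = a p.2.1}) :
    ∃ (V : Type) (_ : AddCommGroup V) (_ : TopologicalSpace V) (_ : CompactSpace V)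
      (_ : T2Space V) (_ : IsTopologicalAddGroup V) (_ : AddAction V Y),
      Continuous (fun p : V × Y => p.1 +ᵥ p.2) ∧
      (∀ (v : V) (y : Y), v +ᵥ y = y → v = 0) ∧
      (∀ a ∈ A, ∃ v : V, ∀ y, v +ᵥ y = a y) ∧
      ∀ v : V, ∃ a ∈ A, ∀ y, v +ᵥ y = a y := by
  let iC : CommGroup A := { (inferInstance : Group A) with
    mul_comm := fun a b => Subtype.ext (hcomm a.1 a.2 b.1 b.2) }
  let V : Type := Additive A
  let iV : AddCommGroup V := Additive.addCommGroup
  let iAct : AddAction V Y :=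
    { vadd := fun v y => (v.toMul : A).1 y
      zero_vadd := fun y => rfl
      add_vadd := fun v w y => rfl }
  have hv : ∀ (v : V) (y : Y), v +ᵥ y = (v.toMul : A).1 y := fun _ _ => rfl
  have hfreeV : ∀ (v : V) (y : Y), v +ᵥ y = y → v = 0 := by
    intro v y h
    have h1 : (v.toMul : A).1 = 1 := hfree _ (v.toMul : A).2 y h
    have h2 : (v.toMul : A) = 1 := Subtype.ext h1
    exact h2
  have hinj : Function.Injective (fun v : V => v +ᵥ y0) := by
    intro v w h
    have h' : v +ᵥ y0 = w +ᵥ y0 := h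
    have h1 : (-w + v) +ᵥ y0 = y0 := by rw [add_vadd, h', neg_vadd_vadd]
    have h2 := hfreeV _ _ h1
    have h3 : -w + v = 0 := h2
    rw [neg_add_eq_zero] at h3
    exact h3.symm
  let tV : TopologicalSpace V := TopologicalSpace.induced (fun v : V => v +ᵥ y0) inferInstance
  have hind : IsInducing (fun v : V => v +ᵥ y0) := ⟨rfl⟩
  have hrange : Set.range (fun v : V => v +ᵥ y0) = {z : Y | ∃ a ∈ A, z = a y0} := by
    ext z
    constructor
    · rintro ⟨v, rfl⟩
      exact ⟨(v.toMul : A).1, (v.toMul : A).2, rfl⟩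
    · rintro ⟨a, ha, rfl⟩
      exact ⟨Additive.ofMul (⟨a, ha⟩ : A), rfl⟩
  have hce : IsClosedEmbedding (fun v : V => v +ᵥ y0) :=
    ⟨⟨hind, hinj⟩, by rw [hrange]; exact hcl⟩
  have cV : CompactSpace V := hce.compactSpace
  have t2V : T2Space V := hce.isEmbedding.t2Space
  have hact : Continuous (fun p : V × Y => p.1 +ᵥ p.2) := by
    apply continuous_of_graph
    have h1 : {p : (V × Y) × Y | p.2 = p.1.1 +ᵥ p.1.2} =
        (fun p : (V × Y) × Y => ((p.1.1 +ᵥ y0, p.1.2, p.2) : Y × Y × Y)) ⁻¹'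
          {p : Y × Y × Y | ∃ a ∈ A, p.1 = a y0 ∧ p.2.2 = a p.2.1} := by
      ext p
      obtain ⟨⟨v, y⟩, y'⟩ := p
      constructor
      · intro h
        exact ⟨(v.toMul : A).1, (v.toMul : A).2, rfl, h⟩
      · rintro ⟨a, ha, h2, h3⟩
        have h4 : v = (Additive.ofMul (⟨a, ha⟩ : A) : V) := hinj h2
        change y' = v +ᵥ y
        rw [h4]
        exact h3
    rw [h1]
    apply hgraph.preimage
    exact (hce.continuous.comp (continuous_fst.comp continuous_fst)).prodMk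
      ((continuous_snd.comp continuous_fst).prodMk continuous_snd)
  have hadd : Continuous (fun p : V × V => p.1 + p.2) := by
    rw [hind.continuous_iff]
    have h1 : ((fun v : V => v +ᵥ y0) ∘ fun p : V × V => p.1 + p.2) =
        fun p : V × V => p.1 +ᵥ (p.2 +ᵥ y0) := by
      funext p
      exact add_vadd p.1 p.2 y0
    rw [h1]
    exact hact.comp (continuous_fst.prodMk (hce.continuous.comp continuous_snd))
  have hneg : Continuous (fun v : V => -v) := by
    rw [hind.continuous_iff]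
    apply continuous_of_graph
    have h1 : {p : V × Y | p.2 = ((fun v : V => v +ᵥ y0) ∘ fun v : V => -v) p.1} =
        (fun p : V × Y => p.1 +ᵥ p.2) ⁻¹' {y0} := by
      ext p
      obtain ⟨v, y⟩ := p
      change y = -v +ᵥ y0 ↔ v +ᵥ y = y0
      constructor
      · rintro rfl
        rw [vadd_neg_vadd]
      · rintro rfl
        rw [neg_vadd_vadd]
    rw [h1]
    exact isClosed_singleton.preimage hact
  have gV : IsTopologicalAddGroup V := { continuous_add := hadd, continuous_neg := hneg }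
  exact ⟨V, iV, tV, cV, t2V, gV, iAct, hact, hfreeV,
    fun a ha => ⟨Additive.ofMul (⟨a, ha⟩ : A), fun _ => rfl⟩,
    fun v => ⟨(v.toMul : A).1, (v.toMul : A).2, fun _ => rfl⟩⟩

section Dyn

variable {X : Type} [TopologicalSpace X] [CompactSpace X] [T2Space X] {T : X ≃ₜ X}

/-- The action of an element of `G` on the `s`-th factor. -/
noncomputable def ga {s : ℕ} (hc : Clo T s) (g : G) : Xs T s → Xs T s :=
  Quotient.lift (s := st T s) (fun y => mk T s (act T g.val y))
    (fun _ _ hab => mk_eq_iff.2 (hc.act hab g.val))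

theorem ga_mk {s : ℕ} (hc : Clo T s) (g : G) (y : X) :
    ga hc g (mk T s y) = mk T s (act T g.val y) := rfl

theorem ga_one {s : ℕ} (hc : Clo T s) (y : Xs T s) : ga hc 1 y = y := by
  obtain ⟨y, rfl⟩ := mk_surj T s y
  rw [ga_mk, act_val_one]
  exact (mk_eq_iff.2 (eqv_u0 s y)).symm

theorem ga_mul {s : ℕ} (hc : Clo T s) (g h : G) (y : Xs T s) :
    ga hc (g * h) y = ga hc g (ga hc h y) := by
  obtain ⟨y, rfl⟩ := mk_surj T s y
  rw [ga_mk, ga_mk, ga_mk, act_val_mul]

/-- The action of `G` on the `s`-th factor. -/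
noncomputable def gp {s : ℕ} (hc : Clo T s) : G →* Equiv.Perm (Xs T s) where
  toFun g :=
    { toFun := ga hc g
      invFun := ga hc g⁻¹
      left_inv := fun y => by rw [← ga_mul, inv_mul_cancel, ga_one]
      right_inv := fun y => by rw [← ga_mul, mul_inv_cancel, ga_one] }
  map_one' := Equiv.ext fun y => ga_one hc y
  map_mul' g h := Equiv.ext fun y => ga_mul hc g h y

theorem gp_mk {s : ℕ} (hc : Clo T s) (g : G) (y : X) :
    gp hc g (mk T s y) = mk T s (act T g.val y) := rfl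

theorem gp_K {s : ℕ} (hc : Clo T s) {κ : G} (hκ : κ ∈ K (s + 1)) : gp hc κ = 1 := by
  ext y
  obtain ⟨y, rfl⟩ := mk_surj T s y
  rw [gp_mk]
  exact (mk_eq_iff.2 (eqv_K hκ y)).symm

theorem gp_comm {s : ℕ} (hc : Clo T s) (g : G) {κ : G} (hκ : κ ∈ K s) :
    gp hc g * gp hc κ = gp hc κ * gp hc g := by
  have h := gp_K hc (commutator_mem s g hκ)
  rw [map_mul, map_mul, map_mul, map_inv, map_inv, mul_inv_eq_one, mul_inv_eq_iff_eq_mul] at h
  exact h

theorem gp_trans {s : ℕ} (hT : IsMin T) (hc : Clo T s) (y y' : Xs T s) :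
    ∃ g : G, gp hc g y = y' := by
  obtain ⟨a, rfl⟩ := mk_surj T s y
  obtain ⟨b, rfl⟩ := mk_surj T s y'
  obtain ⟨g, hg⟩ := hT.exists_G (x := act T u0 a) (y := act T u0 b)
    (by rw [← act_mul, hu0.1]) (by rw [← act_mul, hu0.1])
  refine ⟨g, ?_⟩
  rw [gp_mk, mk_eq_iff.2 (eqv_u0 s b), ← hg, act_val_u0]

theorem gp_free {s : ℕ} (hT : IsMin T) (hc : Clo T s) {κ : G} (hκ : κ ∈ K s) (y : Xs T s)
    (h : gp hc κ y = y) : gp hc κ = 1 := by
  ext y'
  obtain ⟨g, rfl⟩ := gp_trans hT hc y y'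
  have h1 := congrArg (fun e : Equiv.Perm (Xs T s) => e y) (gp_comm hc g hκ)
  simp only [Equiv.Perm.mul_apply, h] at h1
  rw [← h1]
  rfl

theorem pr_eq_iff {s : ℕ} (hc : Clo T (s + 1)) (y y' : Xs T (s + 1)) :
    pr T (Nat.le_succ s) y = pr T (Nat.le_succ s) y' ↔ ∃ κ ∈ K (s + 1), y' = gp hc κ y := by
  obtain ⟨a, rfl⟩ := mk_surj T (s + 1) y
  obtain ⟨b, rfl⟩ := mk_surj T (s + 1) y'
  rw [pr_mk, pr_mk, mk_eq_iff]
  constructor
  · rintro ⟨κ, hκ, h⟩
    refine ⟨κ, hκ, ?_⟩
    rw [gp_mk, mk_eq_iff.2 (eqv_u0 (s + 1) b), h, act_val_u0]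
  · rintro ⟨κ, hκ, h⟩
    rw [gp_mk, mk_eq_iff] at h
    exact (eqv_K hκ a).trans (h.mono (Nat.le_succ s)).symm

theorem isClosed_Qs {s : ℕ} [T2Space (Xs T s)] (x : X) (r : ℕ) : IsClosed (Qs T x s r) := by
  have h : Qs T x s r = Set.range (fun (w : Bt (ℤ × (Fin r → ℤ))) (S : Finset (Fin r)) =>
      mk T s (act T (Bt.map (arr (ind S)) w) x)) := by
    ext c
    constructor
    · rintro ⟨w, hw⟩
      exact ⟨w, funext fun S => (hw S).symm⟩
    · rintro ⟨w, rfl⟩
      exact ⟨w, fun S => rfl⟩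
  rw [h]
  apply IsCompact.isClosed
  apply isCompact_range
  apply continuous_pi
  intro S
  exact (continuous_mk T s).comp ((continuous_act T x).comp (Bt.continuous_map _))

theorem mem_Qs {s r : ℕ} (hc : Clo T s) (x : X) {F : (Fin r → ℤ) → G} (hF : F ∈ AG (Fin r)) :
    (fun S => gp hc (F (ind S)) (mk T s x)) ∈ Qs T x s r := by
  obtain ⟨w, hw⟩ := mem_AG_iff.1 hF
  refine ⟨w, fun S => ?_⟩
  change gp hc (F (ind S)) (mk T s x) = _
  rw [gp_mk, hw]

open Classical in
/-- The tuple which characterises parallelograms. -/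
noncomputable def tup {Y : Type} (s : ℕ) (y0 z y y' : Y) (S : Finset (Fin (s + 1 + 1))) : Y :=
  if Fin.last (s + 1) ∈ S then (if ∀ l : Fin (s + 1), l.castSucc ∈ S then y' else y)
  else (if ∀ l : Fin (s + 1), l.castSucc ∈ S then z else y0)

theorem tup_univ {Y : Type} (s : ℕ) (y0 z y y' : Y) : tup s y0 z y y' Finset.univ = y' := by
  simp [tup]

theorem tup_ne {Y : Type} (s : ℕ) (y0 z y y' y'' : Y) (S : Finset (Fin (s + 1 + 1)))
    (hS : S ≠ Finset.univ) : tup s y0 z y y' S = tup s y0 z y y'' S := by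
  unfold tup
  split_ifs with h1 h2
  · exfalso
    apply hS
    rw [Finset.eq_univ_iff_forall]
    intro l
    refine Fin.lastCases h1 (fun l => h2 l) l
  · rfl
  · rfl
  · rfl

theorem continuous_tup {Y : Type} [TopologicalSpace Y] (s : ℕ) (y0 : Y) :
    Continuous (fun p : Y × Y × Y => tup s y0 p.1 p.2.1 p.2.2) := by
  apply continuous_pi
  intro S
  unfold tup
  split_ifs
  · exact continuous_snd.comp continuous_snd
  · exact continuous_fst.comp continuous_snd
  · exact continuous_fst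
  · exact continuous_const

theorem tup_mem {s : ℕ} (hT : IsMin T) (hc : Clo T (s + 1)) (x : X) {κ : G}
    (hκ : κ ∈ K (s + 1)) (y : Xs T (s + 1)) :
    tup s (mk T (s + 1) x) (gp hc κ (mk T (s + 1) x)) y (gp hc κ y) ∈
      Qs T x (s + 1) (s + 1 + 1) := by
  obtain ⟨g, rfl⟩ := gp_trans hT hc (mk T (s + 1) x) y
  obtain ⟨F, hF, rfl⟩ := hκ
  let F1 : (Fin (s + 1 + 1) → ℤ) → G := fun i => F (fun l => i l.castSucc)
  let F2 : (Fin (s + 1 + 1) → ℤ) → G := fun i =>
    gz (Bt.map (fun n => i (Fin.last (s + 1)) * n) g.val)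
  have h1 : F1 ∈ AG (Fin (s + 1 + 1)) := by
    refine AG_comp hF.1 (fun i l => i l.castSucc) (fun _ => 0)
      (fun l l' => if l' = l.castSucc then 1 else 0) ?_
    intro i l
    simp
  have h2 : F2 ∈ AG (Fin (s + 1 + 1)) := AG_pow g.val _
  have h3 := mem_Qs hc x ((AG _).mul_mem h1 h2)
  have h4 : tup s (mk T (s + 1) x) (gp hc (F fun _ => 1) (mk T (s + 1) x))
      (gp hc g (mk T (s + 1) x)) (gp hc (F fun _ => 1) (gp hc g (mk T (s + 1) x))) =
      fun S => gp hc ((F1 * F2) (ind S)) (mk T (s + 1) x) := by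
    funext S
    have hF2a : Fin.last (s + 1) ∈ S → F2 (ind S) = g := by
      intro h
      simp only [F2, ind, h, if_true, one_mul, Bt.map_id']
      exact Bt.gr_val_self hu0 g
    have hF2b : Fin.last (s + 1) ∉ S → F2 (ind S) = 1 := by
      intro h
      simp only [F2, ind, h, if_false, zero_mul, Bt.map_const]
      exact Bt.gr_one hu0
    have hF1a : (∀ l : Fin (s + 1), l.castSucc ∈ S) → F1 (ind S) = F fun _ => 1 := by
      intro h
      simp only [F1, ind, h, if_true]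
    have hF1b : (¬ ∀ l : Fin (s + 1), l.castSucc ∈ S) → F1 (ind S) = 1 := by
      intro h
      push Not at h
      obtain ⟨l, hl⟩ := h
      exact hF.2 _ ⟨l, by simp [ind, hl]⟩
    rw [Pi.mul_apply, map_mul, Equiv.Perm.mul_apply]
    unfold tup
    split_ifs with h5 h6 h6
    · rw [hF2a h5, hF1a h6]
    · rw [hF2a h5, hF1b h6, map_one]
      rfl
    · rw [hF2b h5, hF1a h6, map_one]
      rfl
    · rw [hF2b h5, hF1b h6, map_one]
      rfl
  rw [h4]
  exact h3

end Dyn

end VDA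

/-- The compact abelian group acting on the `(s+1)`-st factor. -/
theorem p_VDA (h1 : T_CLO) (h2 : T_T2) (h3 : T_UNIQ) : T_VDA := by
  intro X _ _ _ T hT x hx s
  have hc : Clo T (s + 1) := h1 X T hT (s + 1)
  have iT : T2Space (Xs T (s + 1)) := h2 X T hT (s + 1)
  have iT' : T2Space (Xs T s) := h2 X T hT s
  let y0 : Xs T (s + 1) := mk T (s + 1) x
  obtain ⟨V, iV, tV, cV, t2V, gV, iAct, ha, hb, hc1, hd⟩ := VDA.abstract_group
    ((K (s + 1)).map (VDA.gp hc)) (by
      rintro _ ⟨a, ha, rfl⟩ _ ⟨b, hb, rfl⟩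
      exact VDA.gp_comm hc a hb) y0 (by
      rintro _ ⟨a, ha, rfl⟩ y hy
      exact VDA.gp_free hT hc ha y hy) (by
      have h4 : {z : Xs T (s + 1) | ∃ a ∈ (K (s + 1)).map (VDA.gp hc), z = a y0} =
          {z : Xs T (s + 1) | pr T (Nat.le_succ s) y0 = pr T (Nat.le_succ s) z} := by
        ext z
        rw [Set.mem_ofPred_eq, Set.mem_ofPred_eq, VDA.pr_eq_iff hc]
        constructor
        · rintro ⟨_, ⟨κ, hκ, rfl⟩, h⟩
          exact ⟨κ, hκ, h⟩
        · rintro ⟨κ, hκ, h⟩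
          exact ⟨_, ⟨κ, hκ, rfl⟩, h⟩
      rw [h4]
      exact isClosed_eq continuous_const (continuous_pr T _)) (by
      have h4 : {p : Xs T (s + 1) × Xs T (s + 1) × Xs T (s + 1) |
          ∃ a ∈ (K (s + 1)).map (VDA.gp hc), p.1 = a y0 ∧ p.2.2 = a p.2.1} =
          {p | pr T (Nat.le_succ s) y0 = pr T (Nat.le_succ s) p.1} ∩
            (fun p : Xs T (s + 1) × Xs T (s + 1) × Xs T (s + 1) =>
              VDA.tup s y0 p.1 p.2.1 p.2.2) ⁻¹' (Qs T x (s + 1) (s + 1 + 1)) := by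
        ext p
        obtain ⟨z, y, y'⟩ := p
        rw [Set.mem_inter_iff, Set.mem_ofPred_eq, Set.mem_ofPred_eq, VDA.pr_eq_iff hc,
          Set.mem_preimage]
        constructor
        · rintro ⟨_, ⟨κ, hκ, rfl⟩, h, h'⟩
          refine ⟨⟨κ, hκ, h⟩, ?_⟩
          have h5 := VDA.tup_mem hT hc x hκ y
          change z = VDA.gp hc κ y0 at h
          change y' = VDA.gp hc κ y at h'
          rw [h, h']
          exact h5
        · rintro ⟨⟨κ, hκ, h⟩, h'⟩
          refine ⟨_, ⟨κ, hκ, rfl⟩, h, ?_⟩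
          change z = VDA.gp hc κ y0 at h
          change y' = VDA.gp hc κ y
          subst h
          have h5 := VDA.tup_mem hT hc x hκ y
          have h6 := h3 X T hT x hx (s + 1) _ h' _ h5
            (fun S hS => VDA.tup_ne s _ _ _ _ _ S hS)
          have h7 := congrFun h6 Finset.univ
          rw [VDA.tup_univ, VDA.tup_univ] at h7
          exact h7
      rw [h4]
      exact (isClosed_eq continuous_const ((continuous_pr T _).comp continuous_fst)).inter
        ((VDA.isClosed_Qs x _).preimage (VDA.continuous_tup s y0)))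
  refine ⟨V, iV, tV, cV, t2V, gV, iAct, ha, hb, ?_, ?_⟩
  · intro y y'
    rw [VDA.pr_eq_iff hc]
    constructor
    · rintro ⟨κ, hκ, rfl⟩
      obtain ⟨v, hv⟩ := hc1 _ ⟨κ, hκ, rfl⟩
      exact ⟨v, (hv y).symm⟩
    · rintro ⟨v, rfl⟩
      obtain ⟨_, ⟨κ, hκ, rfl⟩, hv⟩ := hd v
      exact ⟨κ, hκ, hv y⟩
  · intro v
    obtain ⟨_, ⟨κ, hκ, rfl⟩, hv⟩ := hd v
    refine ⟨κ, hκ, fun y => ?_⟩
    rw [hv]
    exact VDA.gp_mk hc κ y

end Pool.Agent.PRR
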