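import Pool.Agent.PRR.Targets2

/-!
The alternating sum property of cubes; the structure of one step of the tower.
-/

set_option autoImplicit false

namespace Pool.Agent.PRR

open Filter Topology

namespace VDB

section

variable {n : ℕ} (l : Fin n)

/-- The restriction of a set of directions. -/
def rs (S : Finset (Fin n)) : Finset {j : Fin n // j ≠ l} :=
  Finset.univ.filter fun j => (j : Fin n) ∈ S

theorem mem_rs {S : Finset (Fin n)} {j : {j : Fin n // j ≠ l}} : j ∈ rs l S ↔ (j : Fin n) ∈ S := by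
  simp [rs]

theorem rs_map (S : Finset (Fin n)) :
    (rs l S).map (Function.Embedding.subtype _) = S.erase l := by
  ext j
  simp only [Finset.mem_map, mem_rs, Finset.mem_erase, Function.Embedding.coe_subtype]
  constructor
  · rintro ⟨a, ha, rfl⟩
    exact ⟨a.2, ha⟩
  · rintro ⟨h1, h2⟩
    exact ⟨⟨j, h1⟩, h2, rfl⟩

/-- One reflected array. -/
theorem one_array (R : Finset {j : Fin n // j ≠ l}) (κ : G)
    (hκ : κ ∈ KK {j : Fin n // j ≠ l}) :
    ∃ E ∈ AG (Fin n), ∀ S : Finset (Fin n), E (ind S) = if rs l S = R then κ else 1 := by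
  classical
  obtain ⟨F, hF, hF1⟩ := hκ
  let f : (Fin n → ℤ) → ({j : Fin n // j ≠ l} → ℤ) :=
    fun i j => if j ∈ R then i j else 1 - i j
  refine ⟨fun i => F (f i), ?_, ?_⟩
  · refine AG_comp hF.1 f (fun j => if j ∈ R then 0 else 1)
      (fun j l' => if l' = (j : Fin n) then (if j ∈ R then 1 else -1) else 0) ?_
    intro i j
    by_cases hj : j ∈ R
    · simp [f, hj]
    · simp [f, hj, sub_eq_add_neg]
  · intro S
    by_cases hS : rs l S = R
    · rw [if_pos hS, ← hF1]
      change F (f (ind S)) = F (fun _ => 1)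
      congr 1
      funext j
      have h1 : j ∈ R ↔ (j : Fin n) ∈ S := by rw [← hS, mem_rs]
      by_cases hj : j ∈ R
      · simp [f, hj, ind, h1.1 hj]
      · have h2 : (j : Fin n) ∉ S := fun h => hj (h1.2 h)
        simp [f, hj, ind, h2]
    · rw [if_neg hS]
      apply hF.2
      by_contra hc
      push Not at hc
      apply hS
      ext j
      rw [mem_rs]
      have h1 := hc j
      by_cases hj : j ∈ R
      · simp only [f, hj, if_true, ind] at h1
        by_cases h2 : (j : Fin n) ∈ S
        · exact ⟨fun _ => hj, fun _ => h2⟩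
        · simp [h2] at h1
      · simp only [f, hj, if_false, ind] at h1
        by_cases h2 : (j : Fin n) ∈ S
        · simp [h2] at h1
        · exact ⟨fun h => absurd h h2, fun h => absurd h hj⟩

theorem arrays (κ : Finset {j : Fin n // j ≠ l} → G)
    (hκ : ∀ R, κ R ∈ KK {j : Fin n // j ≠ l}) (D : Finset (Finset {j : Fin n // j ≠ l})) :
    ∃ E ∈ AG (Fin n), ∀ S : Finset (Fin n),
      E (ind S) = if rs l S ∈ D then κ (rs l S) else 1 := by
  classical
  induction D using Finset.induction_on with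
  | empty => exact ⟨1, (AG _).one_mem, fun S => by simp⟩
  | insert R D hR ih =>
    obtain ⟨E, hE, hES⟩ := ih
    obtain ⟨E', hE', hES'⟩ := one_array l R (κ R) (hκ R)
    refine ⟨E' * E, (AG _).mul_mem hE' hE, fun S => ?_⟩
    rw [Pi.mul_apply, hES, hES']
    by_cases h1 : rs l S = R
    · rw [if_pos h1, h1, if_neg hR, if_pos (Finset.mem_insert_self _ _), mul_one]
    · rw [if_neg h1, one_mul]
      by_cases h2 : rs l S ∈ D
      · rw [if_pos h2, if_pos (Finset.mem_insert_of_mem h2)]
      · rw [if_neg h2, if_neg (fun h => (Finset.mem_insert.1 h).elim h1 h2)]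

/-- Every function on the faces with values in the filtration extends to an array. -/
theorem exists_array {s : ℕ} (hn : n = s + 1) (κ : Finset (Fin n) → G)
    (hκ : ∀ S, κ S ∈ K s) :
    ∃ E ∈ AG (Fin n), ∀ S : Finset (Fin n), E (ind S) = κ (S.erase l) := by
  classical
  have hcard : Fintype.card {j : Fin n // j ≠ l} = s := by
    rw [Fintype.card_subtype_compl]
    simp [hn]
  obtain ⟨E, hE, hES⟩ := arrays l (fun R => κ (R.map (Function.Embedding.subtype _)))
    (fun R => by rw [KK_eq_K, hcard]; exact hκ _) Finset.univ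
  refine ⟨E, hE, fun S => ?_⟩
  rw [hES, if_pos (Finset.mem_univ _), rs_map]

end

section

variable {X : Type} [TopologicalSpace X] [CompactSpace X] [T2Space X] {T : X ≃ₜ X}

/-- Cubes in terms of arrays. -/
theorem mem_Qs (hc : ∀ s, Clo T s) {x : X} {s r : ℕ} {c : Finset (Fin r) → Xs T s} :
    c ∈ Qs T x s r ↔ ∃ g ∈ AG (Fin r), ∀ S, c S = mk T s (act T (g (ind S)).val x) := by
  constructor
  · rintro ⟨w, hw⟩
    refine ⟨fun i => gz (Bt.map (arr i) w), ⟨w, fun i => rfl⟩, fun S => ?_⟩
    rw [hw S, mk_eq_iff]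
    exact (hc s).gz _ _
  · rintro ⟨g, hg, hc⟩
    obtain ⟨w, hw⟩ := mem_AG_iff.1 hg
    exact ⟨w, fun S => by rw [hc S, hw]⟩

variable {s : ℕ} {V : Type} [AddCommGroup V] [AddAction V (Xs T (s + 1))]

theorem step (hc : ∀ s, Clo T s) {x : X}
    (hV : ∀ v : V, ∃ κ ∈ K (s + 1), ∀ y : X,
      v +ᵥ (mk T (s + 1) y) = mk T (s + 1) (act T κ.val y))
    (l : Fin (s + 1 + 1)) {c : Finset (Fin (s + 1 + 1)) → Xs T (s + 1)}
    (hcQ : c ∈ Qs T x (s + 1) (s + 1 + 1)) (v : Finset (Fin (s + 1 + 1)) → V) :
    (fun S => v (S.erase l) +ᵥ c S) ∈ Qs T x (s + 1) (s + 1 + 1) := by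
  rw [mem_Qs hc] at hcQ ⊢
  obtain ⟨g, hg, hgc⟩ := hcQ
  choose κ hκ hκv using hV
  obtain ⟨E, hE, hES⟩ := exists_array l rfl (fun S => κ (v S)) (fun S => hκ (v S))
  refine ⟨E * g, (AG _).mul_mem hE hg, fun S => ?_⟩
  rw [hgc S, hκv, Pi.mul_apply, hES, act_val_mul]

/-- The alternating sum. -/
def alt {r : ℕ} {V : Type} [AddCommGroup V] (v : Finset (Fin r) → V) : V :=
  ∑ S : Finset (Fin r), (-1 : ℤ) ^ S.card • v S

omit [AddAction V (Xs T (s + 1))] in
theorem alt_erase {r : ℕ} (v : Finset (Fin r) → V) (l : Fin r) :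
    alt (fun S => v (S.erase l)) = 0 := by
  classical
  unfold alt
  apply Finset.sum_involution (fun S _ => if l ∈ S then S.erase l else insert l S)
  · intro S _
    beta_reduce
    by_cases h : l ∈ S
    · rw [if_pos h]
      have h1 : (S.erase l).erase l = S.erase l := Finset.erase_eq_of_notMem (Finset.notMem_erase l S)
      have h2 : S.card = (S.erase l).card + 1 := (Finset.card_erase_add_one h).symm
      rw [h1, h2, pow_succ, mul_neg_one, neg_smul, neg_add_cancel]
    · rw [if_neg h, Finset.erase_insert h, Finset.erase_eq_of_notMem h,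
        Finset.card_insert_of_notMem h, pow_succ, mul_neg_one, neg_smul, add_neg_cancel]
  · intro S _ _
    by_cases h : l ∈ S
    · rw [if_pos h]
      intro he
      exact (Finset.notMem_erase l S) (by rw [he]; exact h)
    · rw [if_neg h]
      intro he
      exact h (by rw [← he]; exact Finset.mem_insert_self l S)
  · intro S _
    by_cases h : l ∈ S
    · simp only [if_pos h, if_neg (Finset.notMem_erase l S)]
      exact Finset.insert_erase h
    · simp only [if_neg h, if_pos (Finset.mem_insert_self l S)]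
      exact Finset.erase_insert h
  · intro S _
    exact Finset.mem_univ _

theorem all (hc : ∀ s, Clo T s) {x : X}
    (hV : ∀ v : V, ∃ κ ∈ K (s + 1), ∀ y : X,
      v +ᵥ (mk T (s + 1) y) = mk T (s + 1) (act T κ.val y))
    {c : Finset (Fin (s + 1 + 1)) → Xs T (s + 1)} (v : Finset (Fin (s + 1 + 1)) → V)
    (hvQ : (fun S => v S +ᵥ c S) ∈ Qs T x (s + 1) (s + 1 + 1))
    (D : Finset (Fin (s + 1 + 1))) :
    ∃ v' : Finset (Fin (s + 1 + 1)) → V,
      (fun S => v' S +ᵥ c S) ∈ Qs T x (s + 1) (s + 1 + 1) ∧ alt v' = alt v ∧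
      ∀ S, ¬ D ⊆ S → v' S = 0 := by
  classical
  induction D using Finset.induction_on with
  | empty => exact ⟨v, hvQ, rfl, fun S h => absurd (Finset.empty_subset S) h⟩
  | insert l D hl ih =>
    obtain ⟨v', hv', ha, h0⟩ := ih
    refine ⟨fun S => v' S - v' (S.erase l), ?_, ?_, ?_⟩
    · have h1 := step hc hV l hv' (fun S => - v' S)
      have h2 : (fun S => (v' S - v' (S.erase l)) +ᵥ c S) =
          fun S => (fun S => - v' S) (S.erase l) +ᵥ (v' S +ᵥ c S) := by
        funext S
        rw [vadd_vadd, sub_eq_neg_add]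
      rw [h2]
      exact h1
    · have h1 := alt_erase v' l
      unfold alt at h1 ha ⊢
      rw [← ha]
      simp only [smul_sub, Finset.sum_sub_distrib]
      rw [h1, sub_zero]
    · intro S hS
      beta_reduce
      by_cases h1 : l ∈ S
      · have h2 : ¬ D ⊆ S := fun h => hS (Finset.insert_subset h1 h)
        have h3 : ¬ D ⊆ S.erase l := fun h => h2 (h.trans (Finset.erase_subset _ _))
        rw [h0 S h2, h0 _ h3, sub_zero]
      · rw [Finset.erase_eq_of_notMem h1, sub_self]

end

end VDB

open VDB in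
theorem p_VDB (h1 : T_CLO) (h3 : T_UNIQ) : T_VDB := by
  intro X _ _ _ T hT x hx s V _ _ hfree hV c hc v hv
  obtain ⟨v', hv', ha, h0⟩ := all (h1 X T hT) hV v hv Finset.univ
  have h4 : ∀ S, S ≠ Finset.univ → v' S = 0 := fun S hS =>
    h0 S (fun h => hS (Finset.univ_subset_iff.1 h))
  have h5 := h3 X T hT x hx (s + 1) _ hv' c hc (fun S hS => by
    change v' S +ᵥ c S = c S
    rw [h4 S hS, zero_vadd])
  have h6 : v' Finset.univ = 0 := hfree _ _ (congrFun h5 Finset.univ)
  have h7 : ∀ S, v' S = 0 := by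
    intro S
    by_cases hS : S = Finset.univ
    · rw [hS, h6]
    · exact h4 S hS
  change alt v = 0
  rw [← ha]
  unfold alt
  apply Finset.sum_eq_zero
  intro S _
  rw [h7 S, smul_zero]

theorem p_VD (_h1 : T_CLO) (h2 : T_T2) (hA : T_VDA) (hB : T_VDB) : T_VD := by
  intro X _ _ _ T hT x hx s
  obtain ⟨V, i1, i2, i3, i4, i5, i6, hcont, hfree, hfib, hK⟩ := hA X T hT x hx s
  refine ⟨V, i1, i2, i3, i4, i5, i6, ?_⟩
  have := h2 X T hT (s + 1)
  exact
    { cont_pi := continuous_pr T _
      cont_act := hcont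
      free := hfree
      fib := hfib
      closedQ := by
        have hr : Qs T x (s + 1) (s + 1 + 1) = Set.range
            (fun (w : Bt (ℤ × (Fin (s + 1 + 1) → ℤ))) (S : Finset (Fin (s + 1 + 1))) =>
              mk T (s + 1) (act T (Bt.map (arr (ind S)) w) x)) := by
          ext c
          constructor
          · rintro ⟨w, hw⟩
            exact ⟨w, funext fun S => (hw S).symm⟩
          · rintro ⟨w, rfl⟩
            exact ⟨w, fun S => rfl⟩
        rw [hr]
        apply IsCompact.isClosed
        apply isCompact_range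
        apply continuous_pi
        intro S
        exact (continuous_mk T _).comp ((continuous_act T x).comp (Bt.continuous_map _))
      cube := hB X T hT x hx s V hfree hK }

end Pool.Agent.PRR
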