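import Pool.Agent.PRR.DIFA
import Pool.Agent.PRR.DIFB
import Pool.Agent.PRR.DIFC
import Pool.Agent.PRR.ERR
import Pool.Agent.PRR.STEP
import Pool.Agent.PRR.NILSTEP
import Pool.Agent.PRR.DISTSTEP
import Pool.Agent.PRR.DIVARR
import Pool.Agent.PRR.DIV
import Pool.Agent.PRR.GROOT
import Pool.Agent.PRR.ONE
import Pool.Agent.PRR.LIN
import Pool.Agent.PRR.REL
import Pool.Agent.PRR.CLO
import Pool.Agent.PRR.INF
import Pool.Agent.PRR.TT
import Pool.Agent.PRR.UNIQ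
import Pool.Agent.PRR.VDA
import Pool.Agent.PRR.VDB
import Pool.Agent.PRR.ROOTA
import Pool.Agent.PRR.ROOTB
import Pool.Agent.PRR.NIL1
import Pool.Agent.PRR.DIST
import Pool.Agent.PRR.NILJ
import Pool.Agent.PRR.LS
import Pool.Agent.PRR.LS1
import Pool.Agent.PRR.PLUS
import Pool.Agent.PRR.BB
import Pool.Agent.PRR.JOINT
import Pool.Agent.PRR.GEN
import Pool.Agent.PRR.PETORD
import Pool.Agent.PRR.PETSTEP
import Pool.Agent.PRR.PET
import Pool.Agent.PRR.FINAL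

/-!
Assembly of the proof.
-/

set_option autoImplicit false

namespace Pool.Agent.PRR

theorem p_MAIN : T_MAIN := by
  have hCLO : T_CLO := p_CLO p_REL
  have hINF : T_INF := p_INF p_REL
  have hT2 : T_T2 := p_T2 hCLO
  have hUNIQ : T_UNIQ := p_UNIQ hCLO
  have hVD : T_VD := p_VD hCLO hT2 (p_VDA hCLO hT2 hUNIQ) (p_VDB hCLO hUNIQ)
  have hNS : T_NILSTEP := p_NILSTEP p_D1 p_D2 p_D3 p_D4 p_D5 p_D6 p_ERR p_STEP
  have hDS : T_DISTSTEP := p_DISTSTEP p_D1 p_D2 p_D5 p_D6 p_ERR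
  have hGROOT : T_GROOT := p_GROOT (p_DIV p_DIVARR) p_DIV1 p_KRES
  have hROOT : T_ROOT := p_ROOT (p_ROOTA hCLO hT2 hGROOT p_ONE) (p_ROOTB hCLO hT2 p_LIN)
  have hNIL1 : T_NIL1 := p_NIL1 hCLO hT2 hVD hROOT hNS
  have hDIST : T_DIST := p_DIST hCLO hT2 hVD hDS
  have hNILJ : T_NILJ := p_NILJ hCLO hNIL1
  have hLS : T_LS := p_LS hCLO (p_LS1 hCLO hT2 hUNIQ p_DIVARR hDIST)
  have hB : T_B := p_B hCLO hINF hNILJ hLS p_PLUS hDIST
  have hJ : T_JOINT := p_JOINT hCLO hINF hB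
  have hPS : T_PETSTEP := p_PETSTEP hCLO hINF hJ p_GEN
  exact p_FINAL (p_PET hCLO hB p_PETORD hPS)

end Pool.Agent.PRR
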