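import Pool.Agent.PRR.Basic

/-!
The Ellis group `G` of the integers, arrays, and the filtration `K s`.
-/

set_option autoImplicit false

namespace Pool.Agent.PRR

open Filter Topology

/-- A fixed minimal idempotent of `Bt ℤ`. -/
noncomputable def u0 : Bt ℤ := Classical.choose (Bt.exists_minIdem (Γ := ℤ))

theorem hu0 : Bt.IsMinIdem u0 := Classical.choose_spec (Bt.exists_minIdem (Γ := ℤ))

/-- The Ellis group of `ℤ`. -/
abbrev G : Type := Bt.Gp hu0

/-- The compression `u0 * q * u0` as an element of `G`. -/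
noncomputable abbrev gz (q : Bt ℤ) : G := Bt.gr hu0 q

section Arrays

variable {ι ι' : Type} [Fintype ι] [Fintype ι']

/-- The homomorphism `(a, b) ↦ a + Σ i_l b_l`. -/
def arr (i : ι → ℤ) : ℤ × (ι → ℤ) →+ ℤ where
  toFun p := p.1 + ∑ l, i l * p.2 l
  map_zero' := by simp
  map_add' p q := by
    simp only [Prod.fst_add, Prod.snd_add, Pi.add_apply, mul_add, Finset.sum_add_distrib]
    ring

theorem arr_apply (i : ι → ℤ) (a : ℤ) (b : ι → ℤ) : arr i (a, b) = a + ∑ l, i l * b l := rfl

theorem arr_inl (i : ι → ℤ) (a : ℤ) : arr i (AddMonoidHom.inl ℤ (ι → ℤ) a) = a := by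
  simp [arr]

/-- Arrays `(u φ_i(w) u)_i`, `φ_i (a, b) = a + Σ i_l b_l`. -/
noncomputable def AG (ι : Type) [Fintype ι] : Subgroup ((ι → ℤ) → G) :=
  Bt.TG hu0 (fun i : ι → ℤ => arr i) (AddMonoidHom.inl ℤ (ι → ℤ)) (fun i a => arr_inl i a)

theorem mem_AG {g : (ι → ℤ) → G} :
    g ∈ AG ι ↔ ∃ w : Bt (ℤ × (ι → ℤ)), ∀ i, g i = gz (Bt.map (arr i) w) := Iff.rfl

theorem mem_AG_iff {g : (ι → ℤ) → G} :
    g ∈ AG ι ↔ ∃ w : Bt (ℤ × (ι → ℤ)), ∀ i, Bt.map (arr i) w = (g i).val := by
  constructor
  · intro h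
    obtain ⟨w, -, -, hw⟩ := (Bt.mem_TG_iff hu0).1 h
    exact ⟨w, hw⟩
  · rintro ⟨w, hw⟩
    exact ⟨w, fun i => by rw [hw, Bt.gr_val_self]⟩

/-- Affine reindexing of arrays. -/
theorem AG_reindex {g : (ι → ℤ) → G} (hg : g ∈ AG ι) (i0 : ι → ℤ) (M : ι → ι' → ℤ) :
    (fun i' : ι' → ℤ => g (fun l => i0 l + ∑ l', M l l' * i' l')) ∈ AG ι' := by
  obtain ⟨w, hw⟩ := hg
  refine ⟨Bt.map (fun p : ℤ × (ι → ℤ) => (p.1 + ∑ l, i0 l * p.2 l,
    fun l' => ∑ l, M l l' * p.2 l)) w, fun i' => ?_⟩
  change g (fun l => i0 l + ∑ l', M l l' * i' l') = _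
  rw [hw, Bt.map_map]
  congr 2
  funext p
  obtain ⟨a, b⟩ := p
  simp only [arr, AddMonoidHom.coe_mk, ZeroHom.coe_mk, add_mul, Finset.sum_add_distrib,
    Finset.sum_mul, Finset.mul_sum]
  rw [Finset.sum_comm]
  have h : ∀ l l', M l l' * i' l' * b l = i' l' * (M l l' * b l) := fun l l' => by ring
  simp only [h]
  ring

/-- Reindexing along a map of the index set which is affine. -/
theorem AG_comp {g : (ι → ℤ) → G} (hg : g ∈ AG ι) (f : (ι' → ℤ) → (ι → ℤ)) (i0 : ι → ℤ)
    (M : ι → ι' → ℤ) (hf : ∀ i' l, f i' l = i0 l + ∑ l', M l l' * i' l') :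
    (fun i' => g (f i')) ∈ AG ι' := by
  have h := AG_reindex hg i0 M
  have h2 : (fun i' => g (f i')) = fun i' : ι' → ℤ => g (fun l => i0 l + ∑ l', M l l' * i' l') := by
    funext i'
    congr 1
    funext l
    exact hf i' l
  rw [h2]
  exact h

theorem AG_const (g : G) : (fun _ : ι → ℤ => g) ∈ AG ι := by
  refine ⟨Bt.map (AddMonoidHom.inl ℤ (ι → ℤ)) g.val, fun i => ?_⟩
  rw [Bt.map_map]
  have : (fun a => arr i (AddMonoidHom.inl ℤ (ι → ℤ) a)) = fun a => a := by
    funext a
    exact arr_inl i a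
  rw [this, Bt.map_id', Bt.gr_val_self]

variable {H : Type} [Group H]

/-- Setting the coordinate `l` to zero. -/
def zc [DecidableEq ι] (l : ι) (i : ι → ℤ) : ι → ℤ := Function.update i l 0

/-- Difference in direction `l`. -/
def D1 [DecidableEq ι] (l : ι) (h : (ι → ℤ) → H) : (ι → ℤ) → H := fun i => h i * (h (zc l i))⁻¹

/-- Iterated difference (the last element of the list is applied first). -/
def DL [DecidableEq ι] (L : List ι) (h : (ι → ℤ) → H) : (ι → ℤ) → H :=
  L.foldr (fun l h' => D1 l h') h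

/-- Indicator of a finite set as an integer vector. -/
def ind [DecidableEq ι] (S : Finset ι) : ι → ℤ := fun l => if l ∈ S then 1 else 0

variable [DecidableEq ι]

omit [Fintype ι] in
theorem DL_nil (h : (ι → ℤ) → H) : DL [] h = h := rfl

omit [Fintype ι] in
theorem DL_cons (l : ι) (L : List ι) (h : (ι → ℤ) → H) : DL (l :: L) h = D1 l (DL L h) := rfl

omit [Fintype ι] in
theorem DL_append (L L' : List ι) (h : (ι → ℤ) → H) : DL (L ++ L') h = DL L (DL L' h) := by
  unfold DL
  rw [List.foldr_append]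

omit [Fintype ι] in
theorem zc_self (l : ι) (i : ι → ℤ) (h : i l = 0) : zc l i = i := by
  unfold zc
  rw [← h, Function.update_eq_self]

omit [Fintype ι] in
theorem zc_eq_zero (l l' : ι) (i : ι → ℤ) (h : i l = 0) : zc l' i l = 0 := by
  unfold zc
  by_cases hl : l = l'
  · subst hl; simp
  · simp [Function.update_of_ne hl, h]

omit [Fintype ι] in
theorem D1_vanish (l : ι) (h : (ι → ℤ) → H) (i : ι → ℤ) (hi : i l = 0) : D1 l h i = 1 := by
  unfold D1
  rw [zc_self l i hi, mul_inv_cancel]

omit [Fintype ι] in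
/-- The iterated difference vanishes on the coordinate hyperplanes. -/
theorem DL_vanish (L : List ι) (h : (ι → ℤ) → H) (i : ι → ℤ) (l : ι) (hl : l ∈ L)
    (hi : i l = 0) : DL L h i = 1 := by
  induction L generalizing i with
  | nil => simp at hl
  | cons l' L ih =>
    rw [DL_cons]
    by_cases hll : l = l'
    · subst hll
      exact D1_vanish l _ i hi
    · have hl' : l ∈ L := by simpa [hll] using hl
      unfold D1
      rw [ih i hl' hi, ih _ hl' (zc_eq_zero l l' i hi)]
      simp

omit [Fintype ι] in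
/-- Arrays vanishing on the hyperplanes are not changed. -/
theorem DL_of_vanish (L : List ι) (h : (ι → ℤ) → H)
    (hv : ∀ i, ∀ l ∈ L, i l = 0 → h i = 1) : DL L h = h := by
  induction L with
  | nil => rfl
  | cons l L ih =>
    rw [DL_cons, ih (fun i l' hl' => hv i l' (List.mem_cons_of_mem _ hl'))]
    funext i
    unfold D1
    rw [hv (zc l i) l List.mem_cons_self (by simp [zc])]
    simp

omit [Fintype ι] in
theorem DL_map {H' : Type} [Group H'] (φ : H →* H') (L : List ι) (h : (ι → ℤ) → H) :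
    DL L (fun i => φ (h i)) = fun i => φ (DL L h i) := by
  induction L with
  | nil => rfl
  | cons l L ih =>
    rw [DL_cons, DL_cons, ih]
    funext i
    simp [D1]

omit [Fintype ι] in
/-- The iterated difference commutes with coordinatewise scaling. -/
theorem DL_scale (m : ι → ℤ) (L : List ι) (h : (ι → ℤ) → H) :
    DL L (fun i => h (fun l => m l * i l)) = fun i => DL L h (fun l => m l * i l) := by
  induction L with
  | nil => rfl
  | cons l L ih =>
    rw [DL_cons, DL_cons, ih]
    funext i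
    have : (fun l' => m l' * zc l i l') = zc l (fun l' => m l' * i l') := by
      funext l'
      unfold zc
      by_cases hl : l' = l
      · subst hl; simp
      · simp [Function.update_of_ne hl]
    simp only [D1, this]

omit [Fintype ι] in
/-- If `h` does not depend on the coordinate `l`, the iterated difference is trivial. -/
theorem DL_indep (L : List ι) (h : (ι → ℤ) → H) (l : ι) (hl : l ∈ L)
    (hh : ∀ i, h (zc l i) = h i) : DL L h = fun _ => 1 := by
  have key : ∀ L : List ι, ∀ i, DL L h (zc l i) = DL L h i := by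
    intro L
    induction L with
    | nil => exact hh
    | cons l' L ih =>
      intro i
      rw [DL_cons]
      unfold D1
      have : zc l' (zc l i) = zc l (zc l' i) := by
        unfold zc
        by_cases hl : l = l'
        · subst hl; simp
        · rw [Function.update_comm hl]
      rw [ih, this, ih]
  funext i
  rw [← key L i]
  exact DL_vanish L h _ l hl (by simp [zc])

omit [Fintype ι] in
theorem zc_ind (l : ι) (S : Finset ι) : zc l (ind S) = ind (S.erase l) := by
  funext l'
  unfold zc ind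
  by_cases hl : l' = l
  · subst hl; simp
  · simp [hl]

theorem ind_univ : ind (Finset.univ : Finset ι) = fun _ => 1 := by
  funext l
  simp [ind]

/-- The top value of the iterated difference, modulo the lower values. -/
theorem DL_top (L : List ι) (h : (ι → ℤ) → H) (A : Subgroup H)
    (hA : ∀ S : Finset ι, S ≠ Finset.univ → h (ind S) ∈ A) :
    (∀ S : Finset ι, S ≠ Finset.univ → DL L h (ind S) ∈ A) ∧
      (h (fun _ => 1))⁻¹ * DL L h (fun _ => 1) ∈ A := by
  induction L with
  | nil => exact ⟨hA, by simp [DL_nil, A.one_mem]⟩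
  | cons l L ih =>
    obtain ⟨ih1, ih2⟩ := ih
    have herase : ∀ S : Finset ι, S.erase l ≠ Finset.univ := by
      intro S hS
      have := Finset.notMem_erase l S
      rw [hS] at this
      exact this (Finset.mem_univ l)
    constructor
    · intro S hS
      rw [DL_cons]
      unfold D1
      rw [zc_ind]
      exact A.mul_mem (ih1 S hS) (A.inv_mem (ih1 _ (herase S)))
    · rw [DL_cons]
      unfold D1
      rw [← ind_univ, zc_ind, ind_univ, ← mul_assoc]
      exact A.mul_mem ih2 (A.inv_mem (ih1 _ (herase _)))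

omit [Fintype ι] in
/-- Affinity of `zc`. -/
theorem AG_zc [Fintype ι] {g : (ι → ℤ) → G} (hg : g ∈ AG ι) (l : ι) :
    (fun i => g (zc l i)) ∈ AG ι := by
  refine AG_comp hg (fun i => zc l i) (fun _ => 0)
    (fun a b => if a = l then 0 else if a = b then 1 else 0) ?_
  intro i a
  by_cases ha : a = l
  · subst ha; simp [zc]
  · simp [zc, ha]

theorem AG_DL {g : (ι → ℤ) → G} (hg : g ∈ AG ι) (L : List ι) : DL L g ∈ AG ι := by
  induction L with
  | nil => exact hg
  | cons l L ih =>
    rw [DL_cons]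
    exact (AG ι).mul_mem ih ((AG ι).inv_mem (AG_zc ih l))

/-- Arrays vanishing on the coordinate hyperplanes. -/
def HV (F : (ι → ℤ) → G) : Prop := F ∈ AG ι ∧ ∀ i, (∃ l, i l = 0) → F i = 1

/-- The group of the values at `(1, ..., 1)` of the arrays vanishing on the coordinate
hyperplanes. -/
noncomputable def KK (ι : Type) [Fintype ι] : Subgroup G where
  carrier := {g | ∃ F : (ι → ℤ) → G, HV F ∧ F (fun _ => 1) = g}
  mul_mem' := by
    rintro _ _ ⟨F, hF, rfl⟩ ⟨F', hF', rfl⟩
    refine ⟨F * F', ⟨(AG ι).mul_mem hF.1 hF'.1, fun i hi => ?_⟩, rfl⟩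
    rw [Pi.mul_apply, hF.2 i hi, hF'.2 i hi, one_mul]
  one_mem' := ⟨1, ⟨(AG ι).one_mem, fun _ _ => rfl⟩, rfl⟩
  inv_mem' := by
    rintro _ ⟨F, hF, rfl⟩
    refine ⟨F⁻¹, ⟨(AG ι).inv_mem hF.1, fun i hi => ?_⟩, rfl⟩
    rw [Pi.inv_apply, hF.2 i hi, inv_one]

omit [DecidableEq ι] in
theorem mem_KK {g : G} : g ∈ KK ι ↔ ∃ F : (ι → ℤ) → G, HV F ∧ F (fun _ => 1) = g := Iff.rfl

end Arrays

/-- The filtration `K s` of `G`. -/
noncomputable def K (s : ℕ) : Subgroup G := KK (Fin s)

/-- The intersection of the filtration. -/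
noncomputable def Kinf : Subgroup G := ⨅ s, K s

end Pool.Agent.PRR
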