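import Mathlib

/-!
Polynomial recurrence along residue classes: basic tools.

`Bt Γ` is the Stone-Cech compactification of the discrete set `Γ` (the set of ultrafilters on
`Γ`), `lim w f` is the limit of `f` along `w` in a compact Hausdorff space, and for an additive
monoid `Γ` the product `w * w'` on `Bt Γ` is the convolution
`lim (w * w') f = lim w (fun a => lim w' (fun b => f (a + b)))` (continuous in `w`).
-/

set_option autoImplicit false

namespace Pool.Agent.PRR

open Filter Topology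

/-- The Stone-Cech compactification of the discrete set `Γ`. -/
def Bt (Γ : Type) : Type := Ultrafilter Γ

namespace Bt

variable {Γ Γ' Γ'' : Type}

/-- The underlying ultrafilter. -/
def uf (w : Bt Γ) : Ultrafilter Γ := w

/-- An ultrafilter as a point of `Bt Γ`. -/
def of (w : Ultrafilter Γ) : Bt Γ := w

instance : TopologicalSpace (Bt Γ) := inferInstanceAs (TopologicalSpace (Ultrafilter Γ))
instance : CompactSpace (Bt Γ) := inferInstanceAs (CompactSpace (Ultrafilter Γ))
instance : T2Space (Bt Γ) := inferInstanceAs (T2Space (Ultrafilter Γ))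

/-- The property `p` holds at almost all points of `Γ` (for `w`). -/
def Ev (w : Bt Γ) (p : Γ → Prop) : Prop := ∀ᶠ a in (w.uf : Filter Γ), p a

/-- The principal ultrafilter at `a`. -/
def pt (a : Γ) : Bt Γ := (pure a : Ultrafilter Γ)

/-- Push-forward. -/
def map (φ : Γ → Γ') (w : Bt Γ) : Bt Γ' := Ultrafilter.map φ w

/-- The limit of `f` along `w`. -/
noncomputable def lim {Y : Type} [TopologicalSpace Y] (w : Bt Γ) (f : Γ → Y) : Y :=
  Ultrafilter.extend f w

theorem Ev.mono {w : Bt Γ} {p q : Γ → Prop} (h : w.Ev p) (hpq : ∀ a, p a → q a) : w.Ev q :=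
  Filter.Eventually.mono h hpq

theorem Ev.and {w : Bt Γ} {p q : Γ → Prop} (h : w.Ev p) (h' : w.Ev q) :
    w.Ev (fun a => p a ∧ q a) := Filter.Eventually.and h h'

theorem Ev.mp {w : Bt Γ} {p q : Γ → Prop} (h : w.Ev p) (hpq : w.Ev (fun a => p a → q a)) :
    w.Ev q := Filter.Eventually.mp h hpq

theorem Ev.of_all {w : Bt Γ} {p : Γ → Prop} (h : ∀ a, p a) : w.Ev p :=
  Filter.Eventually.of_forall h

theorem Ev.exists {w : Bt Γ} {p : Γ → Prop} (h : w.Ev p) : ∃ a, p a :=
  Filter.Eventually.exists h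

theorem Ev.finite_all {w : Bt Γ} {ι : Type} [Finite ι] {p : ι → Γ → Prop}
    (h : ∀ i, w.Ev (p i)) : w.Ev (fun a => ∀ i, p i a) :=
  Filter.eventually_all.2 h

theorem Ev.finset_all {w : Bt Γ} {ι : Type} (s : Finset ι) {p : ι → Γ → Prop}
    (h : ∀ i ∈ s, w.Ev (p i)) : w.Ev (fun a => ∀ i ∈ s, p i a) :=
  (Filter.eventually_all_finset s).2 h

theorem ev_and {w : Bt Γ} {p q : Γ → Prop} :
    w.Ev (fun a => p a ∧ q a) ↔ w.Ev p ∧ w.Ev q := Filter.eventually_and

theorem ev_not {w : Bt Γ} {p : Γ → Prop} : w.Ev (fun a => ¬ p a) ↔ ¬ w.Ev p :=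
  Ultrafilter.eventually_not

theorem ev_or {w : Bt Γ} {p q : Γ → Prop} :
    w.Ev (fun a => p a ∨ q a) ↔ w.Ev p ∨ w.Ev q := Ultrafilter.eventually_or

theorem ev_const {w : Bt Γ} {p : Prop} : w.Ev (fun _ => p) ↔ p := by
  constructor
  · intro h
    obtain ⟨_, h⟩ := h.exists
    exact h
  · intro h
    exact Ev.of_all (fun _ => h)

theorem ext {w w' : Bt Γ} (h : ∀ p : Γ → Prop, w.Ev p → w'.Ev p) : w = w' := by
  have : (w'.uf : Filter Γ) ≤ (w.uf : Filter Γ) := fun s hs => h (fun a => a ∈ s) hs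
  exact (Ultrafilter.coe_le_coe.1 this).symm

theorem ev_pt {a : Γ} {p : Γ → Prop} : (pt a).Ev p ↔ p a := by
  change (∀ᶠ x in ((pure a : Ultrafilter Γ) : Filter Γ), p x) ↔ p a
  simp

theorem ev_map {φ : Γ → Γ'} {w : Bt Γ} {p : Γ' → Prop} :
    (map φ w).Ev p ↔ w.Ev (fun a => p (φ a)) := Iff.rfl

theorem map_pt (φ : Γ → Γ') (a : Γ) : map φ (pt a) = pt (φ a) := by
  apply ext
  intro p hp
  rw [ev_map, ev_pt] at hp
  rwa [ev_pt]

theorem map_map (φ : Γ → Γ') (ψ : Γ' → Γ'') (w : Bt Γ) :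
    map ψ (map φ w) = map (fun a => ψ (φ a)) w := rfl

theorem map_id' (w : Bt Γ) : map (fun a => a) w = w := by
  apply ext
  intro p hp
  exact hp

theorem map_congr {φ ψ : Γ → Γ'} {w : Bt Γ} (h : w.Ev (fun a => φ a = ψ a)) :
    map φ w = map ψ w := by
  apply ext
  intro p hp
  rw [ev_map] at hp ⊢
  exact (hp.and h).mono (fun a ha => ha.2 ▸ ha.1)

/-- A family of sets with the finite intersection property is contained in an ultrafilter. -/
theorem exists_of_family {ι : Type} (A : ι → Γ → Prop)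
    (h : ∀ s : Finset ι, ∃ a, ∀ i ∈ s, A i a) : ∃ w : Bt Γ, ∀ i, w.Ev (A i) := by
  obtain ⟨w, hw⟩ : ∃ w : Ultrafilter Γ, ∀ i, {a | A i a} ∈ w := by
    have key : ∀ s : Finset (Set Γ), (↑s : Set (Set Γ)) ⊆ Set.range (fun i => {a | A i a}) →
        (⋂₀ (↑s : Set (Set Γ))).Nonempty := by
      classical
      intro s hs
      choose f hf using fun t : s => hs t.2
      obtain ⟨a, ha⟩ := h (Finset.univ.image f)
      refine ⟨a, ?_⟩
      rintro t ht
      have := ha (f ⟨t, ht⟩) (Finset.mem_image_of_mem _ (Finset.mem_univ _))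
      have h2 : {a | A (f ⟨t, ht⟩) a} = t := hf ⟨t, ht⟩
      have h3 : a ∈ {a | A (f ⟨t, ht⟩) a} := this
      rw [h2] at h3
      exact h3
    obtain ⟨w, hw⟩ := Ultrafilter.exists_ultrafilter_of_finite_inter_nonempty _ key
    exact ⟨w, fun i => hw ⟨i, rfl⟩⟩
  exact ⟨of w, fun i => hw i⟩

theorem isClopen_ev (p : Γ → Prop) : IsClopen {w : Bt Γ | w.Ev p} :=
  ⟨ultrafilter_isClosed_basic {a | p a}, ultrafilter_isOpen_basic {a | p a}⟩

theorem isClosed_ev (p : Γ → Prop) : IsClosed {w : Bt Γ | w.Ev p} := (isClopen_ev p).1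

section Lim

variable {Y Z : Type} [TopologicalSpace Y] [CompactSpace Y] [T2Space Y]
  [TopologicalSpace Z] [CompactSpace Z] [T2Space Z]

theorem lim_eq_iff {w : Bt Γ} {f : Γ → Y} {y : Y} :
    lim w f = y ↔ Tendsto f (w.uf : Filter Γ) (𝓝 y) :=
  ultrafilter_extend_eq_iff

theorem tendsto_lim (w : Bt Γ) (f : Γ → Y) : Tendsto f (w.uf : Filter Γ) (𝓝 (lim w f)) :=
  lim_eq_iff.1 rfl

theorem continuous_lim (f : Γ → Y) : Continuous (fun w : Bt Γ => lim w f) :=
  continuous_ultrafilter_extend f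

theorem lim_pt (a : Γ) (f : Γ → Y) : lim (pt a) f = f a :=
  ultrafilter_extend_pure f a

theorem lim_map (φ : Γ → Γ') (w : Bt Γ) (f : Γ' → Y) :
    lim (map φ w) f = lim w (fun a => f (φ a)) := by
  rw [lim_eq_iff]
  exact tendsto_lim w (fun a => f (φ a))

theorem ev_of_lim_mem {w : Bt Γ} {f : Γ → Y} {U : Set Y} (hU : IsOpen U) (h : lim w f ∈ U) :
    w.Ev (fun a => f a ∈ U) :=
  (tendsto_lim w f).eventually (hU.mem_nhds h)

theorem lim_mem_of_ev {w : Bt Γ} {f : Γ → Y} {C : Set Y} (hC : IsClosed C)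
    (h : w.Ev (fun a => f a ∈ C)) : lim w f ∈ C :=
  hC.mem_of_tendsto (tendsto_lim w f) h

theorem lim_mem {w : Bt Γ} {f : Γ → Y} {C : Set Y} (hC : IsClosed C)
    (h : ∀ a, f a ∈ C) : lim w f ∈ C := lim_mem_of_ev hC (Ev.of_all h)

theorem ev_mem_iff_of_isClopen {w : Bt Γ} {f : Γ → Y} {U : Set Y} (hU : IsClopen U) :
    w.Ev (fun a => f a ∈ U) ↔ lim w f ∈ U :=
  ⟨lim_mem_of_ev hU.1, ev_of_lim_mem hU.2⟩

theorem lim_congr {w : Bt Γ} {f g : Γ → Y} (h : w.Ev (fun a => f a = g a)) :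
    lim w f = lim w g := by
  rw [lim_eq_iff]
  exact (tendsto_lim w g).congr' (h.mono fun a ha => ha.symm)

theorem lim_congr_all {w : Bt Γ} {f g : Γ → Y} (h : ∀ a, f a = g a) :
    lim w f = lim w g := lim_congr (Ev.of_all h)

theorem lim_const (w : Bt Γ) (y : Y) : lim w (fun _ => y) = y :=
  lim_eq_iff.2 tendsto_const_nhds

theorem lim_comp {g : Y → Z} (hg : Continuous g) (w : Bt Γ) (f : Γ → Y) :
    lim w (fun a => g (f a)) = g (lim w f) :=
  lim_eq_iff.2 ((hg.tendsto _).comp (tendsto_lim w f))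

theorem lim_prodMk (w : Bt Γ) (f : Γ → Y) (g : Γ → Z) :
    lim w (fun a => (f a, g a)) = (lim w f, lim w g) :=
  lim_eq_iff.2 ((tendsto_lim w f).prodMk_nhds (tendsto_lim w g))

theorem lim_comp₂ {W : Type} [TopologicalSpace W] [CompactSpace W] [T2Space W]
    {F : Y × Z → W} (hF : Continuous F) (w : Bt Γ) (f : Γ → Y) (g : Γ → Z) :
    lim w (fun a => F (f a, g a)) = F (lim w f, lim w g) := by
  rw [← lim_prodMk]
  exact lim_comp hF w (fun a => (f a, g a))

theorem lim_pi {ι : Type} (w : Bt Γ) (f : Γ → ι → Y) :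
    lim w f = fun i => lim w (fun a => f a i) := by
  funext i
  exact (lim_comp (continuous_apply i) w f).symm

theorem continuous_map (φ : Γ → Γ') : Continuous (map φ) := by
  have : (map φ : Bt Γ → Bt Γ') = fun w => lim w (fun a => pt (φ a)) := by
    funext w
    symm
    rw [lim_eq_iff]
    have h := Ultrafilter.tendsto_pure_self (map φ w).uf
    exact h.comp (f := φ) (x := (w.uf : Filter Γ)) tendsto_map
  rw [this]
  exact continuous_lim _

/-- Every point is the limit of the principal ultrafilters. -/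
theorem lim_pt_self (w : Bt Γ) : lim w (fun a => pt a) = w := by
  rw [lim_eq_iff]
  exact Ultrafilter.tendsto_pure_self w.uf

theorem map_lim (φ : Γ' → Γ'') (w : Bt Γ) (f : Γ → Bt Γ') :
    map φ (lim w f) = lim w (fun a => map φ (f a)) :=
  (lim_comp (continuous_map φ) w f).symm

/-- A continuous image description of the closure of the range. -/
theorem range_lim (f : Γ → Y) : Set.range (fun w : Bt Γ => lim w f) = closure (Set.range f) := by
  apply Set.Subset.antisymm
  · rintro _ ⟨w, rfl⟩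
    exact lim_mem isClosed_closure (fun a => subset_closure ⟨a, rfl⟩)
  · apply closure_minimal
    · rintro _ ⟨a, rfl⟩
      exact ⟨pt a, lim_pt a f⟩
    · have : IsCompact (Set.range (fun w : Bt Γ => lim w f)) :=
        isCompact_range (continuous_lim f)
      exact this.isClosed

end Lim

/-! ### The product -/

section Mul

variable [AddMonoid Γ]

noncomputable instance : Mul (Bt Γ) := ⟨fun w w' => lim w (fun a => map (fun b => a + b) w')⟩

theorem mul_def (w w' : Bt Γ) : w * w' = lim w (fun a => map (fun b => a + b) w') := rfl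

theorem ev_mul {w w' : Bt Γ} {p : Γ → Prop} :
    (w * w').Ev p ↔ w.Ev (fun a => w'.Ev (fun b => p (a + b))) := by
  have h := ev_mem_iff_of_isClopen (w := w) (f := fun a => map (fun b => a + b) w')
    (isClopen_ev p)
  exact h.symm

theorem lim_mul {Y : Type} [TopologicalSpace Y] [CompactSpace Y] [T2Space Y] (w w' : Bt Γ)
    (f : Γ → Y) : lim (w * w') f = lim w (fun a => lim w' (fun b => f (a + b))) := by
  rw [mul_def, ← lim_comp (continuous_lim f)]
  simp only [lim_map]

noncomputable instance : Monoid (Bt Γ) where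
  mul_assoc a b c := by
    apply ext
    intro p hp
    rw [ev_mul] at hp ⊢
    rw [ev_mul] at hp
    refine hp.mono fun x hx => ?_
    rw [ev_mul]
    refine hx.mono fun y hy => hy.mono fun z hz => ?_
    rwa [add_assoc] at hz
  one := pt 0
  one_mul a := by
    apply ext
    intro p hp
    have h : ((pt 0 : Bt Γ) * a).Ev p := hp
    rw [ev_mul, ev_pt] at h
    simpa using h
  mul_one a := by
    apply ext
    intro p hp
    have h : (a * (pt 0 : Bt Γ)).Ev p := hp
    rw [ev_mul] at h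
    simpa only [ev_pt, add_zero] using h

theorem one_def : (1 : Bt Γ) = pt 0 := rfl

theorem continuous_mul_right (w' : Bt Γ) : Continuous (fun w => w * w') :=
  continuous_lim _

theorem pt_mul (a : Γ) (w : Bt Γ) : pt a * w = map (fun b => a + b) w := by
  rw [mul_def, lim_pt]

theorem continuous_pt_mul (a : Γ) : Continuous (fun w : Bt Γ => pt a * w) := by
  simp only [pt_mul]
  exact continuous_map _

theorem pt_mul_pt (a b : Γ) : (pt a : Bt Γ) * pt b = pt (a + b) := by
  rw [pt_mul, map_pt]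

theorem map_mul {Γ' : Type} [AddMonoid Γ'] (φ : Γ →+ Γ') (w w' : Bt Γ) :
    map φ (w * w') = map φ w * map φ w' := by
  apply ext
  intro p hp
  rw [ev_map, ev_mul] at hp
  rw [ev_mul, ev_map]
  refine hp.mono fun a ha => ?_
  rw [ev_map]
  refine ha.mono fun b hb => ?_
  rwa [map_add] at hb

theorem map_one {Γ' : Type} [AddMonoid Γ'] (φ : Γ →+ Γ') : map φ (1 : Bt Γ) = 1 := by
  rw [one_def, map_pt, map_zero, one_def]

end Mul

section Comm

variable [AddCommMonoid Γ]

theorem pt_comm (a : Γ) (w : Bt Γ) : pt a * w = w * pt a := by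
  apply ext
  intro p hp
  rw [ev_mul, ev_pt] at hp
  rw [ev_mul]
  simp only [ev_pt]
  refine hp.mono fun b hb => ?_
  rwa [add_comm] at hb

end Comm

/-! ### Idempotents -/

section Idem

variable [AddMonoid Γ]

theorem exists_idem (S : Set (Bt Γ)) (hne : S.Nonempty) (hc : IsClosed S)
    (hmul : ∀ a ∈ S, ∀ b ∈ S, a * b ∈ S) : ∃ e ∈ S, e * e = e :=
  exists_idempotent_in_compact_subsemigroup continuous_mul_right S hne hc.isCompact hmul

theorem isClosed_mul_right (S : Set (Bt Γ)) (hS : IsClosed S) (w : Bt Γ) :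
    IsClosed ((fun q => q * w) '' S) :=
  (hS.isCompact.image (continuous_mul_right w)).isClosed

/-- In a closed subsemigroup `S`, every left ideal `S * w` contains an idempotent. -/
theorem exists_idem_mul (S : Set (Bt Γ)) (hc : IsClosed S)
    (hmul : ∀ a ∈ S, ∀ b ∈ S, a * b ∈ S) {w : Bt Γ} (hw : w ∈ S) :
    ∃ q ∈ S, (q * w) * (q * w) = q * w := by
  obtain ⟨e, ⟨q, hq, rfl⟩, he⟩ := exists_idem ((fun q => q * w) '' S) ⟨_, w, hw, rfl⟩
    (isClosed_mul_right S hc w) (by
      rintro _ ⟨a, ha, rfl⟩ _ ⟨b, hb, rfl⟩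
      exact ⟨a * w * b, hmul _ (hmul _ ha _ hw) _ hb, by simp only [mul_assoc]⟩)
  exact ⟨q, hq, he⟩

/-- Minimal idempotents (idempotents of minimal left ideals). -/
def IsMinIdem (u : Bt Γ) : Prop := u * u = u ∧ ∀ e : Bt Γ, e * e = e → e * u = e → u * e = u

/-- Below every idempotent there is a minimal one. -/
theorem exists_minIdem_le (e : Bt Γ) (he : e * e = e) :
    ∃ u : Bt Γ, IsMinIdem u ∧ e * u = u ∧ u * e = u := by
  classical
  -- closed left ideals contained in `Bt Γ * e`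
  let S : Set (Set (Bt Γ)) :=
    {L | IsClosed L ∧ L.Nonempty ∧ (∀ q : Bt Γ, ∀ a ∈ L, q * a ∈ L) ∧ ∀ a ∈ L, a * e = a}
  have hne : {a : Bt Γ | ∃ q, a = q * e} ∈ S := by
    refine ⟨?_, ⟨e, e, he.symm⟩, ?_, ?_⟩
    · have h := isClosed_mul_right (Set.univ : Set (Bt Γ)) isClosed_univ e
      convert h using 1
      ext a
      simp [eq_comm]
    · rintro q a ⟨r, rfl⟩
      exact ⟨q * r, by rw [mul_assoc]⟩
    · rintro a ⟨r, rfl⟩
      rw [mul_assoc, he]
  obtain ⟨L, -, hL⟩ := zorn_superset_nonempty S (by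
    intro c hc hchain hcne
    refine ⟨⋂₀ c, ⟨isClosed_sInter fun t ht => (hc ht).1, ?_, ?_, ?_⟩, fun s hs =>
      Set.sInter_subset_of_mem hs⟩
    · rw [Set.sInter_eq_iInter]
      have : Nonempty c := hcne.to_subtype
      apply IsCompact.nonempty_iInter_of_directed_nonempty_isCompact_isClosed
      · intro a b
        rcases hchain.total a.2 b.2 with h | h
        · exact ⟨a, subset_rfl, h⟩
        · exact ⟨b, h, subset_rfl⟩
      · exact fun i => (hc i.2).2.1
      · exact fun i => (hc i.2).1.isCompact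
      · exact fun i => (hc i.2).1
    · intro q a ha t ht
      exact (hc ht).2.2.1 q a (ha t ht)
    · intro a ha
      obtain ⟨t, ht⟩ := hcne
      exact (hc ht).2.2.2 a (ha t ht)) _ hne
  obtain ⟨hLc, hLne, hLi, hLe⟩ := hL.prop
  obtain ⟨v, hv, hvv⟩ := exists_idem L hLne hLc (fun a _ b hb => hLi a b hb)
  -- every element of `L` generates `L`
  have hgen : ∀ a ∈ L, ∀ b ∈ L, ∃ q, b = q * a := by
    intro a ha b hb
    have hS : (fun q : Bt Γ => q * a) '' Set.univ ∈ S := by
      refine ⟨isClosed_mul_right _ isClosed_univ a, ⟨a, 1, trivial, one_mul a⟩, ?_, ?_⟩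
      · rintro q _ ⟨r, -, rfl⟩
        exact ⟨q * r, trivial, by simp only [mul_assoc]⟩
      · rintro _ ⟨r, -, rfl⟩
        simp only [mul_assoc, hLe a ha]
    have hsub : (fun q : Bt Γ => q * a) '' Set.univ ⊆ L := by
      rintro _ ⟨r, -, rfl⟩
      exact hLi r a ha
    have := hL.le_of_le hS hsub hb
    obtain ⟨q, -, hq⟩ := this
    exact ⟨q, hq.symm⟩
  refine ⟨e * v, ⟨?_, ?_⟩, ?_, ?_⟩
  · rw [mul_assoc, ← mul_assoc v e v, hLe v hv, hvv]
  · intro f hf hfu
    have hevL : e * v ∈ L := hLi e v hv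
    have hfL : f ∈ L := by
      rw [← hfu]
      exact hLi f _ hevL
    obtain ⟨q, hq⟩ := hgen f hfL _ hevL
    rw [hq, mul_assoc, hf]
  · rw [← mul_assoc, he]
  · rw [mul_assoc, hLe v hv]

theorem exists_minIdem : ∃ u : Bt Γ, IsMinIdem u := by
  obtain ⟨u, hu, -, -⟩ := exists_minIdem_le (1 : Bt Γ) (one_mul 1)
  exact ⟨u, hu⟩

end Idem

/-! ### The group `u * Bt Γ * u` of a minimal idempotent -/

section Grp

variable [AddCommGroup Γ]

/-- The group `u * Bt Γ * u` of a minimal idempotent `u`. -/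
def Gp {u : Bt Γ} (_ : IsMinIdem u) : Type := {g : Bt Γ // u * g = g ∧ g * u = g}

variable {u : Bt Γ} (hu : IsMinIdem u)

/-- The underlying point of `Bt Γ`. -/
def Gp.val {hu : IsMinIdem u} (g : Gp hu) : Bt Γ := Subtype.val g

theorem Gp.u_mul {hu : IsMinIdem u} (g : Gp hu) : u * g.val = g.val := (Subtype.property g).1

theorem Gp.mul_u {hu : IsMinIdem u} (g : Gp hu) : g.val * u = g.val := (Subtype.property g).2

@[ext] theorem Gp.ext {hu : IsMinIdem u} {g h : Gp hu} (H : g.val = h.val) : g = h :=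
  Subtype.ext H

/-- The compression `u * q * u`. -/
noncomputable def gr (q : Bt Γ) : Gp hu :=
  ⟨u * q * u, by rw [← mul_assoc, ← mul_assoc, hu.1], by rw [mul_assoc, hu.1]⟩

theorem gr_val (q : Bt Γ) : (gr hu q).val = u * q * u := rfl

/-- Left inverses in `u * Bt Γ * u`, in a form which works for many coordinates. -/
theorem min_key {e : Bt Γ} (hu : IsMinIdem u) (he : e * e = e) (heu : e * u = e) : u * e = u :=
  hu.2 e he heu

theorem exists_left_inv (g : Gp hu) : ∃ h : Gp hu, h.val * g.val = u := by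
  obtain ⟨q, -, hq⟩ := exists_idem_mul (Set.univ : Set (Bt Γ)) isClosed_univ
    (fun _ _ _ _ => trivial) (w := g.val) trivial
  have h1 : q * g.val * u = q * g.val := by rw [mul_assoc, g.mul_u]
  have h2 := hu.2 _ hq h1
  refine ⟨gr hu q, ?_⟩
  rw [gr_val, mul_assoc, mul_assoc, g.u_mul]
  exact h2

noncomputable instance : Mul (Gp hu) :=
  ⟨fun g h => ⟨g.val * h.val, by rw [← mul_assoc, g.u_mul], by rw [mul_assoc, h.mul_u]⟩⟩

noncomputable instance : One (Gp hu) := ⟨⟨u, hu.1, hu.1⟩⟩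

noncomputable instance : Inv (Gp hu) := ⟨fun g => Classical.choose (exists_left_inv hu g)⟩

theorem Gp.val_mul {hu : IsMinIdem u} (g h : Gp hu) : (g * h).val = g.val * h.val := rfl

theorem Gp.val_one {hu : IsMinIdem u} : (1 : Gp hu).val = u := rfl

noncomputable instance : Group (Gp hu) :=
  Group.ofLeftAxioms
    (fun a b c => Gp.ext (mul_assoc a.val b.val c.val)) (fun a => Gp.ext a.u_mul)
    (fun a => Gp.ext (Classical.choose_spec (exists_left_inv hu a)))

theorem gr_val_self (g : Gp hu) : gr hu g.val = g := by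
  apply Gp.ext
  rw [gr_val, g.u_mul, g.mul_u]

theorem gr_mul (q r : Bt Γ) : gr hu q * gr hu r = gr hu (q * u * r) := by
  apply Gp.ext
  rw [Gp.val_mul, gr_val, gr_val, gr_val]
  simp only [mul_assoc]
  rw [← mul_assoc u u (r * u), hu.1]

theorem gr_u : gr hu u = 1 := by
  apply Gp.ext
  rw [gr_val, hu.1, hu.1, Gp.val_one]

theorem gr_one : gr hu 1 = 1 := by
  apply Gp.ext
  rw [gr_val, mul_one, hu.1, Gp.val_one]

theorem gr_u_mul (q : Bt Γ) : gr hu (u * q) = gr hu q := by
  apply Gp.ext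
  rw [gr_val, gr_val, ← mul_assoc, hu.1]

theorem gr_mul_u (q : Bt Γ) : gr hu (q * u) = gr hu q := by
  apply Gp.ext
  rw [gr_val, gr_val, mul_assoc, mul_assoc, hu.1, ← mul_assoc]

theorem gr_pt_mul (a : Γ) (q : Bt Γ) : gr hu (pt a * q) = gr hu (pt a) * gr hu q := by
  rw [gr_mul, pt_comm a u, mul_assoc, gr_u_mul]

theorem gr_pt_val (a : Γ) : (gr hu (pt a)).val = pt a * u := by
  rw [gr_val, ← pt_comm a u, mul_assoc, hu.1]

/-- The image of `Γ` in the group is central. -/
theorem gr_pt_central (a : Γ) (g : Gp hu) : gr hu (pt a) * g = g * gr hu (pt a) := by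
  apply Gp.ext
  rw [Gp.val_mul, Gp.val_mul, gr_pt_val, mul_assoc, g.u_mul, ← mul_assoc, ← pt_comm a g.val,
    mul_assoc, g.mul_u]

theorem gr_eq_one_of_idem {e : Bt Γ} (he : e * e = e) (heu : e * u = e) : gr hu e = 1 := by
  apply Gp.ext
  rw [gr_val, mul_assoc, heu, hu.2 e he heu, Gp.val_one]

include hu in
theorem eq_u_of_idem {e : Bt Γ} (he : e * e = e) (h1 : u * e = e) (h2 : e * u = e) :
    e = u := by
  rw [← h1]
  exact hu.2 e he h2

end Grp

/-! ### Residues -/

section Res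

variable {Γ A : Type} [Finite A]

theorem exists_res (χ : Γ → A) (w : Bt Γ) : ∃ a, w.Ev (fun γ => χ γ = a) := by
  by_contra h
  push Not at h
  have h2 : w.Ev (fun γ => ∀ a, ¬ χ γ = a) := Ev.finite_all (fun a => ev_not.2 (h a))
  obtain ⟨γ, hγ⟩ := h2.exists
  exact hγ _ rfl

/-- The almost sure value of a function with values in a finite set. -/
noncomputable def res (χ : Γ → A) (w : Bt Γ) : A := Classical.choose (exists_res χ w)

theorem ev_res (χ : Γ → A) (w : Bt Γ) : w.Ev (fun γ => χ γ = res χ w) :=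
  Classical.choose_spec (exists_res χ w)

theorem res_eq_iff {χ : Γ → A} {w : Bt Γ} {a : A} : res χ w = a ↔ w.Ev (fun γ => χ γ = a) := by
  constructor
  · rintro rfl
    exact ev_res χ w
  · intro h
    obtain ⟨γ, h1, h2⟩ := (h.and (ev_res χ w)).exists
    rw [← h2, h1]

theorem res_pt (χ : Γ → A) (γ : Γ) : res χ (pt γ) = χ γ := res_eq_iff.2 (ev_pt.2 rfl)

theorem res_map {Γ' : Type} (φ : Γ → Γ') (χ : Γ' → A) (w : Bt Γ) :
    res χ (map φ w) = res (fun γ => χ (φ γ)) w :=
  res_eq_iff.2 (ev_map.2 (ev_res (fun γ => χ (φ γ)) w))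

theorem isClosed_res (χ : Γ → A) (a : A) : IsClosed {w : Bt Γ | res χ w = a} := by
  simp only [res_eq_iff]
  exact isClosed_ev _

theorem res_mul [AddMonoid Γ] [Add A] (χ : Γ → A) (hχ : ∀ a b, χ (a + b) = χ a + χ b)
    (w w' : Bt Γ) : res χ (w * w') = res χ w + res χ w' := by
  rw [res_eq_iff, ev_mul]
  refine (ev_res χ w).mono fun a ha => (ev_res χ w').mono fun b hb => ?_
  rw [hχ, ha, hb]

theorem res_idem [AddMonoid Γ] [AddGroup A] (χ : Γ → A) (hχ : ∀ a b, χ (a + b) = χ a + χ b)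
    {e : Bt Γ} (he : e * e = e) : res χ e = 0 := by
  have h := res_mul χ hχ e e
  rw [he] at h
  simpa using h

end Res

/-! ### Groups of tuples -/

section Tuples

variable {Γ₁ Γ : Type} [AddCommGroup Γ₁] [AddCommGroup Γ] {u : Bt Γ} (hu : IsMinIdem u)

/-- The tuples `(u φ_i(w) u)_i`, `w ∈ Bt Γ₁`, form a subgroup of `I → Gp hu` as soon as the
homomorphisms `φ_i : Γ₁ → Γ` have a common section `δ`. -/
noncomputable def TG {I : Type} (φ : I → Γ₁ →+ Γ) (δ : Γ →+ Γ₁) (hδ : ∀ i a, φ i (δ a) = a) :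
    Subgroup (I → Gp hu) where
  carrier := {g | ∃ w : Bt Γ₁, ∀ i, g i = gr hu (map (φ i) w)}
  mul_mem' := by
    rintro g h ⟨w, hw⟩ ⟨w', hw'⟩
    refine ⟨w * map δ u * w', fun i => ?_⟩
    have hδu : map (φ i) (map δ u) = u := by
      rw [map_map]
      simp only [hδ]
      exact map_id' u
    rw [Pi.mul_apply, hw, hw', gr_mul, map_mul, map_mul, hδu]
  one_mem' := ⟨1, fun i => by rw [map_one, gr_one]; rfl⟩
  inv_mem' := by
    rintro g ⟨w, hw⟩
    have hδu : ∀ i, map (φ i) (map δ u) = u := by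
      intro i
      rw [map_map]
      simp only [hδ]
      exact map_id' u
    obtain ⟨q, -, hq⟩ := exists_idem_mul (Set.univ : Set (Bt Γ₁)) isClosed_univ
      (fun _ _ _ _ => trivial) (w := map δ u * w * map δ u) trivial
    refine ⟨q, fun i => ?_⟩
    have h1 : map (φ i) (q * (map δ u * w * map δ u)) =
        map (φ i) q * (u * map (φ i) w * u) := by
      rw [map_mul, map_mul, map_mul, hδu]
    have h2 := congrArg (map (φ i)) hq
    rw [map_mul, h1] at h2
    have h3 := hu.2 _ h2 (by simp only [mul_assoc, hu.1])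
    rw [Pi.inv_apply, hw i, eq_comm, eq_inv_iff_mul_eq_one, gr_mul]
    apply Gp.ext
    rw [gr_val, Gp.val_one]
    simpa only [mul_assoc] using h3

theorem mem_TG {I : Type} {φ : I → Γ₁ →+ Γ} {δ : Γ →+ Γ₁} {hδ : ∀ i a, φ i (δ a) = a}
    {g : I → Gp hu} : g ∈ TG hu φ δ hδ ↔ ∃ w : Bt Γ₁, ∀ i, g i = gr hu (map (φ i) w) := Iff.rfl

/-- Normalised representatives. -/
theorem mem_TG_iff {I : Type} {φ : I → Γ₁ →+ Γ} {δ : Γ →+ Γ₁} {hδ : ∀ i a, φ i (δ a) = a}
    {g : I → Gp hu} : g ∈ TG hu φ δ hδ ↔ ∃ w : Bt Γ₁, map δ u * w = w ∧ w * map δ u = w ∧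
      ∀ i, map (φ i) w = (g i).val := by
  have hδu : ∀ i, map (φ i) (map δ u) = u := by
    intro i
    rw [map_map]
    simp only [hδ]
    exact map_id' u
  have hdd : map δ u * map δ u = map δ u := by rw [← map_mul, hu.1]
  constructor
  · rintro ⟨w, hw⟩
    refine ⟨map δ u * w * map δ u, ?_, ?_, fun i => ?_⟩
    · rw [← mul_assoc, ← mul_assoc, hdd]
    · rw [mul_assoc, hdd]
    · rw [map_mul, map_mul, hδu, hw, gr_val]
  · rintro ⟨w, -, -, hw⟩
    exact ⟨w, fun i => by rw [hw, gr_val_self]⟩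

end Tuples

end Bt

end Pool.Agent.PRR
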