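import Pool.Agent.PRR.NilDefs

/-!
Job DIFA: iterated differences and alternating sums over cubes (`T_D1`), additivity and
closedness of `Cd` (`T_D6`).
-/

set_option autoImplicit false

namespace Pool.Agent.PRR

open Filter Topology Polynomial

namespace DIFA

/-- A sum over the subsets of `Fin (n + 1)`, split by membership of `0`. -/
theorem sum_succ {M : Type*} [AddCommMonoid M] (n : ℕ) (f : Finset (Fin (n + 1)) → M) :
    ∑ S : Finset (Fin (n + 1)), f S =
      ∑ S : Finset (Fin n), f (S.map (Fin.succEmb n)) +
        ∑ S : Finset (Fin n), f (insert 0 (S.map (Fin.succEmb n))) := by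
  have h0 : (0 : Fin (n + 1)) ∉ (Finset.univ : Finset (Fin n)).map (Fin.succEmb n) := by
    simp [Fin.succ_ne_zero]
  have huniv : (Finset.univ : Finset (Fin (n + 1))) =
      insert 0 ((Finset.univ : Finset (Fin n)).map (Fin.succEmb n)) := by
    ext i
    refine Fin.cases ?_ ?_ i
    · simp
    · intro j
      simp
  have key : ∀ g : Finset (Fin (n + 1)) → M,
      ∑ t ∈ ((Finset.univ : Finset (Fin n)).map (Fin.succEmb n)).powerset, g t =
        ∑ S : Finset (Fin n), g (S.map (Fin.succEmb n)) := by
    intro g
    symm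
    refine Finset.sum_bij (fun S _ => S.map (Fin.succEmb n)) ?_ ?_ ?_ ?_
    · intro S _
      rw [Finset.mem_powerset]
      exact Finset.map_subset_map.2 (Finset.subset_univ S)
    · intro S _ S' _ h
      exact Finset.map_injective _ h
    · intro t ht
      rw [Finset.mem_powerset] at ht
      obtain ⟨S, _, hS⟩ := Finset.subset_map_iff.1 ht
      exact ⟨S, Finset.mem_univ S, hS.symm⟩
    · intro S _
      rfl
  have h1 : (Finset.univ : Finset (Finset (Fin (n + 1)))) =
      (insert 0 ((Finset.univ : Finset (Fin n)).map (Fin.succEmb n))).powerset := by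
    rw [← huniv, Finset.powerset_univ]
  rw [h1, Finset.sum_powerset_insert h0, key, key]

section

variable {R : Type} [CommRing R] {V : Type} [AddCommGroup V]

theorem difs_nil (v : R[X] → V) (Q : R[X]) : difs [] v Q = v Q := rfl

theorem difs_cons (P : R[X]) (L : List R[X]) (v : R[X] → V) (Q : R[X]) :
    difs (P :: L) v Q = difs L v (Q + P) - difs L v Q := rfl

/-- Iterated differences as alternating sums. -/
theorem difs_ofFn (v : R[X] → V) : ∀ (n : ℕ) (P : Fin n → R[X]) (Q : R[X]),
    difs (List.ofFn P) v Q = (-1 : ℤ) ^ n •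
      ∑ S : Finset (Fin n), (-1 : ℤ) ^ S.card • v (Q + ∑ l ∈ S, P l) := by
  intro n
  induction n with
  | zero =>
    intro P Q
    rw [show (Finset.univ : Finset (Finset (Fin 0))) = {∅} from rfl, Finset.sum_singleton]
    simp [difs_nil]
  | succ n ih =>
    intro P Q
    rw [List.ofFn_succ, difs_cons, ih, ih, sum_succ]
    have e1 : ∀ S : Finset (Fin n), (-1 : ℤ) ^ (S.map (Fin.succEmb n)).card •
        v (Q + ∑ l ∈ S.map (Fin.succEmb n), P l) =
        (-1 : ℤ) ^ S.card • v (Q + ∑ l ∈ S, P l.succ) := by
      intro S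
      rw [Finset.card_map, Finset.sum_map]
      rfl
    have e2 : ∀ S : Finset (Fin n), (-1 : ℤ) ^ (insert 0 (S.map (Fin.succEmb n))).card •
        v (Q + ∑ l ∈ insert 0 (S.map (Fin.succEmb n)), P l) =
        - ((-1 : ℤ) ^ S.card • v (Q + P 0 + ∑ l ∈ S, P l.succ)) := by
      intro S
      have h0 : (0 : Fin (n + 1)) ∉ S.map (Fin.succEmb n) := by
        simp [Fin.succ_ne_zero]
      rw [Finset.card_insert_of_notMem h0, Finset.sum_insert h0, Finset.card_map, Finset.sum_map,
        pow_succ, ← add_assoc]
      simp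
    rw [Finset.sum_congr rfl (fun S _ => e1 S), Finset.sum_congr rfl (fun S _ => e2 S),
      Finset.sum_neg_distrib, pow_succ, smul_add, smul_neg, mul_neg_one, neg_smul, neg_smul,
      neg_neg]
    abel

theorem difs_add (L : List R[X]) (v v' : R[X] → V) : ∀ Q : R[X],
    difs L (fun P => v P + v' P) Q = difs L v Q + difs L v' Q := by
  induction L with
  | nil => intro Q; rfl
  | cons P L ih =>
    intro Q
    rw [difs_cons, difs_cons, difs_cons, ih, ih]
    abel

theorem difs_neg (L : List R[X]) (v : R[X] → V) : ∀ Q : R[X],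
    difs L (fun P => - v P) Q = - difs L v Q := by
  induction L with
  | nil => intro Q; rfl
  | cons P L ih =>
    intro Q
    rw [difs_cons, difs_cons, ih, ih]
    abel

theorem difs_cont [TopologicalSpace V] [IsTopologicalAddGroup V] (L : List R[X]) : ∀ Q : R[X],
    Continuous (fun v : R[X] → V => difs L v Q) := by
  induction L with
  | nil => intro Q; exact continuous_apply Q
  | cons P L ih =>
    intro Q
    have : (fun v : R[X] → V => difs (P :: L) v Q) =
        fun v => difs L v (Q + P) - difs L v Q := by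
      funext v
      exact difs_cons P L v Q
    rw [this]
    exact (ih (Q + P)).sub (ih Q)

end

end DIFA

open DIFA in
theorem p_D1 : T_D1 := by
  intro R _ V _ n v h L hL Q
  subst hL
  have := difs_ofFn v L.length (fun i => L.get i) Q
  rw [List.ofFn_get] at this
  rw [this, h, smul_zero]

open DIFA in
theorem p_D6 : T_D6 := by
  intro R _ V _ _ _ _ d e
  refine ⟨?_, ?_, difs_add, difs_neg, difs_cont, ?_⟩
  · intro v v' h h'
    refine ⟨fun L hL Q => ?_, fun L hL hw Q => ?_⟩
    · rw [difs_add, h.1 L hL, h'.1 L hL, add_zero]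
    · rw [difs_add, h.2 L hL hw, h'.2 L hL hw, add_zero]
  · intro v h
    refine ⟨fun L hL Q => ?_, fun L hL hw Q => ?_⟩
    · rw [difs_neg, h.1 L hL, neg_zero]
    · rw [difs_neg, h.2 L hL hw, neg_zero]
  · have : {v : R[X] → V | Cd d e v} =
        (⋂ (L : List R[X]), ⋂ (_ : L.length = d + 1), ⋂ (Q : R[X]), {v | difs L v Q = 0}) ∩
        (⋂ (L : List R[X]), ⋂ (_ : L.length = d), ⋂ (_ : (L.map natDegree).sum < e),
          ⋂ (Q : R[X]), {v | difs L v Q = 0}) := by
      ext v
      simp only [Cd, Set.mem_ofPred_eq, Set.mem_inter_iff, Set.mem_iInter]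
    rw [this]
    refine IsClosed.inter ?_ ?_
    · refine isClosed_iInter fun L => isClosed_iInter fun _ => isClosed_iInter fun Q => ?_
      exact isClosed_eq (difs_cont L Q) continuous_const
    · refine isClosed_iInter fun L => isClosed_iInter fun _ => isClosed_iInter fun _ =>
        isClosed_iInter fun Q => ?_
      exact isClosed_eq (difs_cont L Q) continuous_const

end Pool.Agent.PRR
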