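import Pool.Agent.PRR.Targets

/-!
Job FINAL: the frozen statement from the result of the PET induction.
-/

set_option autoImplicit false

namespace Pool.Agent.PRR

open Filter Topology

namespace FINAL

variable {X : Type}

theorem iter_eq [TopologicalSpace X] (T : X ≃ₜ X) (n : ℕ) (x : X) :
    (⇑T)^[n] x = (T ^ n) x := by
  induction n generalizing x with
  | zero => rfl
  | succ n ih =>
    rw [Function.iterate_succ_apply, ih, pow_succ]
    rfl

/-- The underlying permutation, as a homomorphism. -/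
def teHom (X : Type) [TopologicalSpace X] : (X ≃ₜ X) →* Equiv.Perm X where
  toFun T := T.toEquiv
  map_one' := rfl
  map_mul' _ _ := rfl

theorem te_zpow [TopologicalSpace X] (T : X ≃ₜ X) (n : ℤ) (x : X) :
    ((T.toEquiv : Equiv.Perm X) ^ n) x = (T ^ n) x := by
  have := (teHom X).map_zpow T n
  change (T ^ n).toEquiv = (T.toEquiv : Equiv.Perm X) ^ n at this
  rw [← this]
  rfl

variable [MetricSpace X] [CompactSpace X] {T : X ≃ₜ X} {k : ℕ}

omit [CompactSpace X] in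
theorem min_T (hd : ∀ x : X, Dense {y : X | ∃ n : ℕ, (⇑T)^[k * n] x = y}) : IsMin T := by
  intro x
  refine (hd x).mono ?_
  rintro y ⟨n, rfl⟩
  refine ⟨((k * n : ℕ) : ℤ), ?_⟩
  change (T ^ ((k * n : ℕ) : ℤ)) x = _
  rw [iter_eq, zpow_natCast]

omit [CompactSpace X] in
theorem min_Tp (hd : ∀ x : X, Dense {y : X | ∃ n : ℕ, (⇑T)^[k * n] x = y}) {p : ℕ}
    (hp : p ∣ k) : IsMin (T ^ p) := by
  intro x
  refine (hd x).mono ?_
  rintro y ⟨n, rfl⟩
  obtain ⟨r, rfl⟩ := hp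
  refine ⟨((r * n : ℕ) : ℤ), ?_⟩
  change ((T ^ p) ^ ((r * n : ℕ) : ℤ)) x = _
  rw [iter_eq, zpow_natCast, ← pow_mul, mul_assoc]

theorem exists_near (h : T_PET) (hk : 2 ≤ k)
    (hd : ∀ x : X, Dense {y : X | ∃ n : ℕ, (⇑T)^[k * n] x = y})
    {d : ℕ} (P : Fin d → Polynomial ℤ) (hdeg : ∀ m, 0 < (P m).natDegree)
    (h0 : ∀ m, (P m).eval 0 = 0) {j : ℕ} (hj : j < k) (N : ℕ) {ε : ℝ} (hε : 0 < ε)
    {U : Set X} (hU : IsOpen U) (hne : U.Nonempty) :
    ∃ z ∈ U, ∃ n : ℕ, N ≤ n ∧ n % k = j ∧ ∀ m, dist ((T ^ ((P m).eval (n : ℤ))) z) z < ε := by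
  classical
  obtain ⟨y, hy⟩ := hne
  have hmin := min_T hd
  have hfix : act T u0 (act T u0 y) = act T u0 y := by
    rw [← act_mul, hu0.1]
  obtain ⟨x, ⟨n0, hn0⟩, hxU⟩ := (hmin (act T u0 y)).exists_mem_open hU ⟨y, hy⟩
  have hx : act T u0 x = x := by
    rw [← hn0]
    change act T u0 ((T ^ n0) (act T u0 y)) = (T ^ n0) (act T u0 y)
    rw [← zpow_act, hfix]
  obtain ⟨z, hz, n, hn, hkn, hP, -⟩ := h X T k (by omega) hmin (fun p _ hp => min_Tp hd hp) x hx
    (Finset.univ.image P) (by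
      intro p hp
      obtain ⟨m, -, rfl⟩ := Finset.mem_image.1 hp
      refine ⟨?_, h0 m⟩
      intro h
      have := hdeg m
      rw [h] at this
      simp at this) (fun _ => 1) (fun _ _ => Subgroup.one_mem _) (j : ℤ) (N : ℤ) ∅ (by simp)
    (U ∩ Metric.ball x (ε / 2)) (hU.inter Metric.isOpen_ball)
    ⟨hxU, Metric.mem_ball_self (by positivity)⟩ (fun _ => U ∩ Metric.ball x (ε / 2))
    (fun p _ => ⟨hU.inter Metric.isOpen_ball, by
      rw [act_val_one, hx]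
      exact ⟨hxU, Metric.mem_ball_self (by positivity)⟩⟩) Set.univ isOpen_univ
    (fun _ _ => Set.mem_univ _)
  obtain ⟨n, rfl⟩ : ∃ n' : ℕ, n = (n' : ℤ) := ⟨n.toNat, by omega⟩
  refine ⟨z, hz.1, n, by omega, ?_, fun m => ?_⟩
  · have h1 : ((n : ℤ) % (k : ℤ)) = (j : ℤ) % (k : ℤ) :=
      (Int.emod_eq_emod_iff_emod_sub_eq_zero).2 (Int.emod_eq_zero_of_dvd hkn)
    have h2 : n % k = j % k := by exact_mod_cast h1
    rw [h2, Nat.mod_eq_of_lt hj]
  · have h1 := (hP (P m) (Finset.mem_image_of_mem _ (Finset.mem_univ m))).2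
    have h2 := hz.2
    rw [Metric.mem_ball] at h1 h2
    calc dist ((T ^ ((P m).eval (n : ℤ))) z) z
        ≤ dist ((T ^ ((P m).eval (n : ℤ))) z) x + dist z x := dist_triangle_right _ _ _
      _ < ε / 2 + ε / 2 := add_lt_add h1 h2
      _ = ε := by ring

end FINAL

open FINAL in
theorem p_FINAL (h : T_PET) : T_MAIN := by
  intro X _ _ T k hk hd d P hdeg h0 j hj
  let O : ℕ → Set X := fun N => {x | ∃ n : ℕ, N ≤ n ∧ n % k = j ∧
    ∀ m, dist ((T ^ ((P m).eval (n : ℤ))) x) x < 1 / ((N : ℝ) + 1)}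
  have hO : ∀ N, IsOpen (O N) := by
    intro N
    have : O N = ⋃ n : {n : ℕ // N ≤ n ∧ n % k = j},
        ⋂ m, {x : X | dist ((T ^ ((P m).eval ((n : ℕ) : ℤ))) x) x < 1 / ((N : ℝ) + 1)} := by
      ext x
      simp only [O, Set.mem_ofPred_eq, Set.mem_iUnion, Set.mem_iInter, Subtype.exists]
      constructor
      · rintro ⟨n, h1, h2, h3⟩
        exact ⟨n, ⟨h1, h2⟩, h3⟩
      · rintro ⟨n, ⟨h1, h2⟩, h3⟩
        exact ⟨n, h1, h2, h3⟩
    rw [this]
    refine isOpen_iUnion fun n => isOpen_iInter_of_finite fun m => ?_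
    exact isOpen_lt ((T ^ _).continuous.dist continuous_id) continuous_const
  have hOd : ∀ N, Dense (O N) := by
    intro N
    rw [dense_iff_inter_open]
    intro U hU hne
    obtain ⟨z, hz, n, h1, h2, h3⟩ := exists_near h hk hd P hdeg h0 hj N
      (by positivity : (0 : ℝ) < 1 / ((N : ℝ) + 1)) hU hne
    exact ⟨z, hz, n, h1, h2, h3⟩
  refine ⟨⋂ N, O N, IsGδ.iInter_of_isOpen hO, dense_iInter_of_isOpen hO hOd, ?_⟩
  intro x hx
  rw [Set.mem_iInter] at hx
  choose n hn1 hn2 hn3 using hx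
  refine ⟨n, tendsto_atTop_mono hn1 tendsto_id, hn2, fun m => ?_⟩
  rw [tendsto_iff_dist_tendsto_zero]
  refine squeeze_zero (fun _ => dist_nonneg) (fun i => ?_)
    tendsto_one_div_add_atTop_nhds_zero_nat
  rw [te_zpow]
  exact (hn3 i m).le

end Pool.Agent.PRR
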