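import Pool.Agent.PRR.Arr

/-!
First properties of the filtration `K s`.
-/

set_option autoImplicit false

namespace Pool.Agent.PRR

open Filter Topology

theorem Bt.map_const {Γ Γ' : Type} (a : Γ') (w : Bt Γ) : Bt.map (fun _ => a) w = Bt.pt a := by
  apply Bt.ext
  intro p hp
  rw [Bt.ev_map, Bt.ev_const] at hp
  rwa [Bt.ev_pt]

section

variable {ι ι' : Type} [Fintype ι] [Fintype ι']

theorem KK_equiv_le [DecidableEq ι'] (e : ι ≃ ι') : KK ι ≤ KK ι' := by
  rintro _ ⟨F, hF, rfl⟩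
  refine ⟨fun i' => F (fun l => i' (e l)), ⟨?_, ?_⟩, rfl⟩
  · refine AG_comp hF.1 (fun i' l => i' (e l)) (fun _ => 0) (fun l l' => if l' = e l then 1 else 0)
      ?_
    intro i' l
    simp
  · rintro i' ⟨l', hl'⟩
    exact hF.2 _ ⟨e.symm l', by simpa using hl'⟩

theorem KK_congr (e : ι ≃ ι') : KK ι = KK ι' := by
  classical
  exact le_antisymm (KK_equiv_le e) (KK_equiv_le e.symm)

theorem KK_eq_K : KK ι = K (Fintype.card ι) := KK_congr (Fintype.equivFin ι)

theorem KK_normal : (KK ι).Normal := by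
  constructor
  rintro _ ⟨F, hF, rfl⟩ g
  refine ⟨(fun _ => g) * F * (fun _ => g)⁻¹, ⟨?_, ?_⟩, rfl⟩
  · exact (AG ι).mul_mem ((AG ι).mul_mem (AG_const g) hF.1) ((AG ι).inv_mem (AG_const g))
  · intro i hi
    simp [hF.2 i hi]

/-- The array `i ↦ gz (i_l * q)`. -/
theorem AG_pow [DecidableEq ι] (q : Bt ℤ) (l : ι) :
    (fun i : ι → ℤ => gz (Bt.map (fun n => i l * n) q)) ∈ AG ι := by
  refine ⟨Bt.map (fun n : ℤ => ((0 : ℤ), fun l' => if l' = l then n else 0)) q, fun i => ?_⟩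
  have h : (fun n : ℤ => arr i ((0 : ℤ), fun l' => if l' = l then n else 0)) =
      fun n => i l * n := by
    funext n
    simp [arr]
  change gz (Bt.map (fun n => i l * n) q) = gz (Bt.map (arr i) (Bt.map _ q))
  rw [Bt.map_map, h]

end

theorem K_eq_top_of_le_one {s : ℕ} (hs : s ≤ 1) : K s = ⊤ := by
  rw [eq_top_iff]
  intro g _
  rcases Nat.le_one_iff_eq_zero_or_eq_one.1 hs with rfl | rfl
  · exact ⟨fun _ => g, ⟨AG_const g, fun i ⟨l, _⟩ => l.elim0⟩, rfl⟩
  · refine ⟨fun i : Fin 1 → ℤ => gz (Bt.map (fun n => i 0 * n) g.val), ⟨AG_pow g.val 0, ?_⟩, ?_⟩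
    · rintro i ⟨l, hl⟩
      have : l = 0 := Subsingleton.elim _ _
      subst this
      simp only [hl, zero_mul, Bt.map_const]
      exact Bt.gr_one hu0
    · simp only [one_mul, Bt.map_id']
      exact Bt.gr_val_self hu0 g

theorem K_normal (s : ℕ) : (K s).Normal := KK_normal

theorem K_succ_le (s : ℕ) : K (s + 1) ≤ K s := by
  rintro _ ⟨F, hF, rfl⟩
  refine ⟨fun i => F (Fin.cons 1 i), ⟨?_, ?_⟩, ?_⟩
  · refine AG_comp hF.1 (fun i => Fin.cons 1 i) (Fin.cons 1 (fun _ => 0))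
      (Fin.cons (fun _ => 0) (fun l l' => if l' = l then 1 else 0)) ?_
    intro i l
    refine Fin.cases ?_ (fun l => ?_) l
    · simp
    · simp
  · rintro i ⟨l, hl⟩
    exact hF.2 _ ⟨l.succ, by simpa using hl⟩
  · change F (Fin.cons 1 (fun _ => 1)) = F (fun _ => 1)
    congr 1
    funext l
    refine Fin.cases ?_ (fun l => ?_) l <;> simp

theorem K_antitone : Antitone K := antitone_nat_of_succ_le K_succ_le

theorem Kinf_le (s : ℕ) : Kinf ≤ K s := iInf_le _ s

theorem mem_Kinf {g : G} : g ∈ Kinf ↔ ∀ s, g ∈ K s := by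
  unfold Kinf
  rw [Subgroup.mem_iInf]

theorem Kinf_normal : Kinf.Normal := by
  constructor
  intro n hn g
  rw [mem_Kinf] at hn ⊢
  intro s
  exact (K_normal s).conj_mem n (hn s) g

/-- `[G, K s] ≤ K (s + 1)`. -/
theorem commutator_mem (s : ℕ) (g : G) {κ : G} (hκ : κ ∈ K s) :
    g * κ * g⁻¹ * κ⁻¹ ∈ K (s + 1) := by
  obtain ⟨F, hF, rfl⟩ := hκ
  let F' : (Fin (s + 1) → ℤ) → G := fun i => F (fun l => i l.succ)
  let P : (Fin (s + 1) → ℤ) → G := fun i => gz (Bt.map (fun n => i 0 * n) g.val)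
  have hF' : F' ∈ AG (Fin (s + 1)) := by
    refine AG_comp hF.1 (fun i l => i l.succ) (fun _ => 0)
      (fun l l' => if l' = l.succ then 1 else 0) ?_
    intro i l
    simp
  have hP : P ∈ AG (Fin (s + 1)) := AG_pow g.val 0
  have hP1 : P (fun _ => 1) = g := by
    simp only [P, one_mul, Bt.map_id']
    exact Bt.gr_val_self hu0 g
  refine ⟨P * F' * P⁻¹ * F'⁻¹, ⟨?_, ?_⟩, ?_⟩
  · exact (AG _).mul_mem ((AG _).mul_mem ((AG _).mul_mem hP hF') ((AG _).inv_mem hP))
      ((AG _).inv_mem hF')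
  · rintro i ⟨l, hl⟩
    simp only [Pi.mul_apply, Pi.inv_apply]
    refine Fin.cases (fun h0 => ?_) (fun l hl => ?_) l hl
    · have : P i = 1 := by
        simp only [P, h0, zero_mul, Bt.map_const]
        exact Bt.gr_one hu0
      rw [this]
      group
    · have : F' i = 1 := hF.2 _ ⟨l, hl⟩
      rw [this]
      group
  · simp only [Pi.mul_apply, Pi.inv_apply, hP1, F']

theorem commutator_mem' (s : ℕ) (g : G) {κ : G} (hκ : κ ∈ K s) :
    g⁻¹ * κ⁻¹ * g * κ ∈ K (s + 1) := by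
  have h := commutator_mem s g⁻¹ ((K s).inv_mem hκ)
  simpa using h

end Pool.Agent.PRR
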