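import Pool.Agent.PRR.Basic

/-!
Definitions and exact targets for the algebraic part (weights, dilations): one step of the tower.
This part does not use the Ellis group of `ℤ`.
-/

set_option autoImplicit false

namespace Pool.Agent.PRR

open Filter Topology Polynomial

/-- Data of one step `π : Y → Z` of the tower: a compact abelian group `V` acts freely on `Y`
with orbits the fibres of `π`, and `Q` is a closed set of `(m+1)`-dimensional cubes of `Y` such
that a change of a cube by elements of `V` has zero alternating sum. -/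
structure StepData {Y Z : Type} (V : Type) [TopologicalSpace Y] [TopologicalSpace Z]
    [AddCommGroup V] [TopologicalSpace V] [AddAction V Y] (π : Y → Z) (m : ℕ)
    (Q : Set (Finset (Fin (m + 1)) → Y)) : Prop where
  cont_pi : Continuous π
  cont_act : Continuous (fun p : V × Y => p.1 +ᵥ p.2)
  free : ∀ (v : V) (y : Y), v +ᵥ y = y → v = 0
  fib : ∀ y y' : Y, π y = π y' ↔ ∃ v : V, y' = v +ᵥ y
  closedQ : IsClosed Q
  cube : ∀ c ∈ Q, ∀ v : Finset (Fin (m + 1)) → V, (fun S => v S +ᵥ c S) ∈ Q →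
    ∑ S : Finset (Fin (m + 1)), (-1 : ℤ) ^ S.card • v S = 0

section

variable {R : Type} [CommRing R] {V : Type} [AddCommGroup V]

/-- Iterated differences (the last element of the list is applied first). -/
noncomputable def difs (L : List R[X]) (v : R[X] → V) : R[X] → V :=
  L.foldr (fun P v' Q => v' (Q + P) - v' Q) v

/-- All `(d+1)`-fold differences of `v` vanish, and all `d`-fold differences of weight `< e`. -/
def Cd (d e : ℕ) (v : R[X] → V) : Prop :=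
  (∀ L : List R[X], L.length = d + 1 → ∀ Q, difs L v Q = 0) ∧
    ∀ L : List R[X], L.length = d → (L.map natDegree).sum < e → ∀ Q, difs L v Q = 0

variable {Y : Type} [TopologicalSpace Y]

/-- The value of a polynomial along `w`: `lim_{(a,n) → w} ξ (a + P(n))`. -/
noncomputable def pv (ξ : R → Y) (w : Bt (R × ℤ)) (P : R[X]) : Y :=
  Bt.lim w (fun γ => ξ (γ.1 + P.eval (γ.2 : R)))

/-- `w` fixes all polynomial orbits of `ξ`. -/
def Gd (ξ : R → Y) (w : Bt (R × ℤ)) : Prop := ∀ P : R[X], pv ξ w P = ξ (P.eval 0)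

/-- `v` is the error function of `w`. -/
def IsErr [AddAction V Y] (ξ : R → Y) (w : Bt (R × ℤ)) (v : R[X] → V) : Prop :=
  ∀ P : R[X], pv ξ w P = v P +ᵥ ξ (P.eval 0)

end

/-! ### Difference calculus (pure algebra) -/

/-- Vanishing alternating sums over cubes give vanishing iterated differences. -/
def T_D1 : Prop := ∀ (R : Type) [CommRing R] (V : Type) [AddCommGroup V] (n : ℕ) (v : R[X] → V),
  (∀ (P0 : R[X]) (P : Fin n → R[X]),
    ∑ S : Finset (Fin n), (-1 : ℤ) ^ S.card • v (P0 + ∑ l ∈ S, P l) = 0) →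
  ∀ L : List R[X], L.length = n → ∀ Q, difs L v Q = 0

/-- Invariance of `Cd` under the affine substitutions `P ↦ P(X + c) + a`, and triviality of the
action on the lowest weight part. -/
def T_D2 : Prop := ∀ (R : Type) [CommRing R] (V : Type) [AddCommGroup V] (d e : ℕ)
  (v : R[X] → V), Cd d e v → ∀ c a : R,
  Cd d e (fun P => v (P.comp (X + C c) + C a)) ∧
  ∀ L : List R[X], L.length = d → (L.map natDegree).sum = e →
    ∀ Q, difs L (fun P => v (P.comp (X + C c) + C a)) Q = difs L v 0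

/-- Dilations act on the lowest weight part by powers. -/
def T_D3 : Prop := ∀ (R : Type) [CommRing R] (V : Type) [AddCommGroup V] (d e : ℕ)
  (v : R[X] → V), Cd d e v →
  (∀ c : R, Cd d e (fun P => v (P.comp (C c * X)))) ∧
  ∀ (p : ℕ) (L : List R[X]), L.length = d → (L.map natDegree).sum = e →
    ∀ Q, difs L (fun P => v (P.comp (C (p : R) * X))) Q = (p ^ e) • difs L v 0

/-- The lowest weight part has no `p`-torsion if `p` is invertible in `R`. -/
def T_D4 : Prop := ∀ (R : Type) [CommRing R] (V : Type) [AddCommGroup V] (d e : ℕ)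
  (v : R[X] → V), Cd d e v → 1 ≤ e → ∀ p : ℕ, IsUnit (p : R) →
  (∀ L : List R[X], L.length = d → (L.map natDegree).sum = e → p • difs L v 0 = 0) →
  ∀ L : List R[X], L.length = d → (L.map natDegree).sum = e → difs L v 0 = 0

/-- One step of the filtration. -/
def T_D5 : Prop := ∀ (R : Type) [CommRing R] (V : Type) [AddCommGroup V] (d e : ℕ)
  (v : R[X] → V), Cd d e v →
  (((∀ L : List R[X], L.length = d → (L.map natDegree).sum = e → difs L v 0 = 0) →
    Cd d (e + 1) v) ∧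
  ((∀ P : R[X], P.natDegree ≤ 1 → v P = 0) → e ≤ 1 → Cd d (e + 1) v))

/-- Additivity and closedness of `Cd`. -/
def T_D6 : Prop := ∀ (R : Type) [CommRing R] (V : Type) [AddCommGroup V] [TopologicalSpace V]
  [T2Space V] [IsTopologicalAddGroup V] (d e : ℕ),
  (∀ v v' : R[X] → V, Cd d e v → Cd d e v' → Cd d e (fun P => v P + v' P)) ∧
  (∀ v : R[X] → V, Cd d e v → Cd d e (fun P => - v P)) ∧
  (∀ (L : List R[X]) (v v' : R[X] → V) (Q : R[X]),
    difs L (fun P => v P + v' P) Q = difs L v Q + difs L v' Q) ∧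
  (∀ (L : List R[X]) (v : R[X] → V) (Q : R[X]), difs L (fun P => - v P) Q = - difs L v Q) ∧
  (∀ (L : List R[X]) (Q : R[X]), Continuous (fun v : R[X] → V => difs L v Q)) ∧
  IsClosed {v : R[X] → V | Cd d e v}

/-! ### The error function -/

/-- Existence, composition rule, cubes, dilation and continuity of the error function. -/
def T_ERR : Prop := ∀ (R : Type) [CommRing R] (Y Z V : Type)
  [TopologicalSpace Y] [CompactSpace Y] [T2Space Y]
  [TopologicalSpace Z] [CompactSpace Z] [T2Space Z]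
  [AddCommGroup V] [TopologicalSpace V] [CompactSpace V] [T2Space V] [IsTopologicalAddGroup V]
  [AddAction V Y] (π : Y → Z) (m : ℕ) (Q : Set (Finset (Fin (m + 1)) → Y)),
  StepData V π m Q → ∀ ξ : R → Y,
  (∀ (c0 : R) (c : Fin (m + 1) → R), (fun S => ξ (c0 + ∑ l ∈ S, c l)) ∈ Q) →
  -- existence
  (∀ w, Gd (fun c => π (ξ c)) w ↔ ∃ v : R[X] → V, IsErr ξ w v) ∧
  -- uniqueness
  (∀ w (v v' : R[X] → V), IsErr ξ w v → IsErr ξ w v' → v = v') ∧
  -- composition
  (∀ w w' (v v' : R[X] → V), IsErr ξ w v → IsErr ξ w' v' →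
    IsErr ξ (w * w') (fun P => v P + Bt.lim w (fun γ => v' (P.comp (X + C (γ.2 : R)) + C γ.1)))) ∧
  -- cubes
  (∀ w (v : R[X] → V), IsErr ξ w v → ∀ (P0 : R[X]) (P : Fin (m + 1) → R[X]),
    ∑ S : Finset (Fin (m + 1)), (-1 : ℤ) ^ S.card • v (P0 + ∑ l ∈ S, P l) = 0) ∧
  -- dilation
  (∀ (c : ℤ) w (v : R[X] → V), IsErr ξ w v →
    IsErr ξ (Bt.map (fun γ => (γ.1, c * γ.2)) w) (fun P => v (P.comp (C (c : R) * X)))) ∧
  -- closedness
  (∀ F : Set (R[X] → V), IsClosed F → IsClosed {w | ∃ v : R[X] → V, IsErr ξ w v ∧ v ∈ F})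

/-! ### The abstract semigroup lemma -/

/-- Killing an error of weight `e ≥ 2`. -/
def T_STEP : Prop := ∀ (p : ℕ) [Fact p.Prime] (Γ : Type) [AddCommGroup Γ] (S : Set (Bt Γ)),
  IsClosed S → (∀ a ∈ S, ∀ b ∈ S, a * b ∈ S) →
  ∀ ρ : Bt Γ → ℤ_[p], (∀ a ∈ S, ∀ b ∈ S, ρ (a * b) = ρ a + ρ b) →
  ∀ (H : Type) [AddCommGroup H] (H' : AddSubgroup H) (e : ℕ), 2 ≤ e →
  (∀ h ∈ H', p • h = 0 → h = 0) →
  ∀ ψ : Bt Γ → H, (∀ a ∈ S, ψ a ∈ H') → (∀ a ∈ S, ∀ b ∈ S, ψ (a * b) = ψ a + ψ b) →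
  ∀ δ : Bt Γ → Bt Γ, (∀ a ∈ S, δ a ∈ S) → (∀ a ∈ S, ρ (δ a) = p * ρ a) →
  (∀ a ∈ S, ψ (δ a) = (p ^ e) • ψ a) →
  (∀ a ∈ S, ρ a = 0 → ∃ b ∈ S, ρ b = 0 ∧ ψ a = (p ^ e) • ψ b) →
  ∀ w ∈ S, ¬ (p : ℤ_[p]) ∣ ρ w → ∃ w' ∈ S, ψ w' = 0 ∧ ¬ (p : ℤ_[p]) ∣ ρ w'

/-! ### The two step theorems -/

/-- One step of the tower for the residue statement. -/
def T_NILSTEP : Prop := ∀ (p : ℕ) [Fact p.Prime] (R : Type) [CommRing R], IsUnit (p : R) →
  ∀ (Y Z V : Type)
  [TopologicalSpace Y] [CompactSpace Y] [T2Space Y]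
  [TopologicalSpace Z] [CompactSpace Z] [T2Space Z]
  [AddCommGroup V] [TopologicalSpace V] [CompactSpace V] [T2Space V] [IsTopologicalAddGroup V]
  [AddAction V Y] (π : Y → Z) (m : ℕ) (Q : Set (Finset (Fin (m + 1)) → Y)),
  StepData V π m Q → ∀ ξ : R → Y,
  (∀ (c0 : R) (c : Fin (m + 1) → R), (fun S => ξ (c0 + ∑ l ∈ S, c l)) ∈ Q) →
  ∀ A : Set (Bt (R × ℤ)), IsClosed A → (∀ w ∈ A, ∀ w' ∈ A, w * w' ∈ A) →
  (∀ w ∈ A, Bt.map (fun γ => (γ.1, (p : ℤ) * γ.2)) w ∈ A) →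
  (∀ w, Bt.map (fun γ => (γ.1, (p : ℤ) * γ.2)) w ∈ A → w ∈ A) →
  (∀ w ∈ A, ∀ c0 c1 : R, Bt.lim w (fun γ => ξ (γ.1 + c0 + c1 * (γ.2 : R))) = ξ c0) →
  (∃ w ∈ A, ¬ w.Ev (fun γ => (p : ℤ) ∣ γ.2) ∧ Gd (fun c => π (ξ c)) w) →
  ∃ w ∈ A, ¬ w.Ev (fun γ => (p : ℤ) ∣ γ.2) ∧ Gd ξ w

/-- One step of the tower for the statement that idempotents act trivially. -/
def T_DISTSTEP : Prop := ∀ (R : Type) [CommRing R] (Y Z V : Type)
  [TopologicalSpace Y] [CompactSpace Y] [T2Space Y]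
  [TopologicalSpace Z] [CompactSpace Z] [T2Space Z]
  [AddCommGroup V] [TopologicalSpace V] [CompactSpace V] [T2Space V] [IsTopologicalAddGroup V]
  [AddAction V Y] (π : Y → Z) (m : ℕ) (Q : Set (Finset (Fin (m + 1)) → Y)),
  StepData V π m Q → ∀ ξ : R → Y,
  (∀ (c0 : R) (c : Fin (m + 1) → R), (fun S => ξ (c0 + ∑ l ∈ S, c l)) ∈ Q) →
  ∀ w : Bt (R × ℤ), w * w = w → Gd (fun c => π (ξ c)) w → Gd ξ w

end Pool.Agent.PRR
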