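import Pool.Agent.PRR.Kfil

/-!
Dynamical systems: the action of `Bt ℤ`, the relations `Eqv T s`, the factors `Xs T s`.
-/

set_option autoImplicit false

namespace Pool.Agent.PRR

open Filter Topology

section Dyn

variable {X : Type} [TopologicalSpace X] [CompactSpace X] [T2Space X] (T : X ≃ₜ X)

/-- The action of `Bt ℤ` on `X`: `act T q x = lim_{n → q} T^n x`. -/
noncomputable def act (q : Bt ℤ) (x : X) : X := Bt.lim q (fun n : ℤ => (T ^ n) x)

/-- Minimality: every (two-sided) orbit is dense. -/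
def IsMin : Prop := ∀ x : X, Dense (Set.range fun n : ℤ => (T ^ n) x)

omit [CompactSpace X] [T2Space X] in
theorem zpow_add_apply (m n : ℤ) (x : X) : (T ^ (m + n)) x = (T ^ m) ((T ^ n) x) := by
  rw [zpow_add]
  rfl

theorem act_pt (n : ℤ) (x : X) : act T (Bt.pt n) x = (T ^ n) x := Bt.lim_pt n _

theorem act_one (x : X) : act T 1 x = x := by
  rw [Bt.one_def, act_pt]
  simp

theorem act_mul (q r : Bt ℤ) (x : X) : act T (q * r) x = act T q (act T r x) := by
  unfold act
  rw [Bt.lim_mul]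
  congr 1
  funext a
  simp only [zpow_add_apply]
  exact Bt.lim_comp (T ^ a).continuous r _

theorem continuous_act (x : X) : Continuous (fun q : Bt ℤ => act T q x) :=
  Bt.continuous_lim _

theorem zpow_act (n : ℤ) (q : Bt ℤ) (x : X) : (T ^ n) (act T q x) = act T q ((T ^ n) x) := by
  rw [← act_pt, ← act_pt, ← act_mul, ← act_mul, Bt.pt_comm]

theorem act_map {Γ : Type} (φ : Γ → ℤ) (w : Bt Γ) (x : X) :
    act T (Bt.map φ w) x = Bt.lim w (fun γ => (T ^ (φ γ)) x) := by
  unfold act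
  rw [Bt.lim_map]

theorem act_gz (q : Bt ℤ) (x : X) : act T (gz q).val x = act T u0 (act T q (act T u0 x)) := by
  rw [Bt.gr_val, act_mul, act_mul]

theorem act_u0_val (g : G) (x : X) : act T u0 (act T g.val x) = act T g.val x := by
  rw [← act_mul, g.u_mul]

theorem act_val_u0 (g : G) (x : X) : act T g.val (act T u0 x) = act T g.val x := by
  rw [← act_mul, g.mul_u]

theorem act_val_mul (g h : G) (x : X) : act T (g * h).val x = act T g.val (act T h.val x) := by
  rw [Bt.Gp.val_mul, act_mul]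

theorem act_val_one (x : X) : act T (1 : G).val x = act T u0 x := rfl

theorem act_inv_val (g : G) (x : X) : act T (g⁻¹).val (act T g.val x) = act T u0 x := by
  rw [← act_val_mul, inv_mul_cancel, act_val_one]

theorem act_val_inv (g : G) (x : X) : act T g.val (act T (g⁻¹).val x) = act T u0 x := by
  rw [← act_val_mul, mul_inv_cancel, act_val_one]

variable {T} in
theorem IsMin.exists_act (hT : IsMin T) (x y : X) : ∃ q : Bt ℤ, act T q x = y := by
  have h : y ∈ Set.range (fun w : Bt ℤ => Bt.lim w (fun n : ℤ => (T ^ n) x)) := by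
    rw [Bt.range_lim, (hT x).closure_eq]
    trivial
  exact h

/-- The fixer of a point `x` with `act T u0 x = x`. -/
noncomputable def StG (x : X) (hx : act T u0 x = x) : Subgroup G where
  carrier := {g | act T g.val x = x}
  mul_mem' := by
    intro g h hg hh
    change act T (g * h).val x = x
    rw [act_val_mul, hh, hg]
  one_mem' := hx
  inv_mem' := by
    intro g hg
    have hg' : act T g.val x = x := hg
    change act T (g⁻¹).val x = x
    have := act_inv_val T g x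
    rwa [hg', hx] at this

theorem mem_StG {x : X} {hx : act T u0 x = x} {g : G} : g ∈ StG T x hx ↔ act T g.val x = x :=
  Iff.rfl

variable {T} in
theorem IsMin.exists_G (hT : IsMin T) {x y : X} (hx : act T u0 x = x) (hy : act T u0 y = y) :
    ∃ g : G, act T g.val x = y := by
  obtain ⟨q, hq⟩ := hT.exists_act x y
  refine ⟨gz q, ?_⟩
  rw [act_gz, hx, hq, hy]

/-- The relation `y ~ y'` of having the same image in the `s`-th factor: `u0 y' ∈ K (s+1) u0 y`. -/
def Eqv (s : ℕ) (y y' : X) : Prop :=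
  ∃ κ ∈ K (s + 1), act T u0 y' = act T κ.val (act T u0 y)

theorem Eqv.refl (s : ℕ) (y : X) : Eqv T s y y :=
  ⟨1, (K (s + 1)).one_mem, by rw [act_val_one, ← act_mul, hu0.1]⟩

variable {T}

theorem Eqv.symm {s : ℕ} {y y' : X} (h : Eqv T s y y') : Eqv T s y' y := by
  obtain ⟨κ, hκ, h⟩ := h
  refine ⟨κ⁻¹, (K (s + 1)).inv_mem hκ, ?_⟩
  rw [h, act_inv_val, ← act_mul, hu0.1]

theorem Eqv.trans {s : ℕ} {y y' y'' : X} (h : Eqv T s y y') (h' : Eqv T s y' y'') :
    Eqv T s y y'' := by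
  obtain ⟨κ, hκ, h⟩ := h
  obtain ⟨κ', hκ', h'⟩ := h'
  refine ⟨κ' * κ, (K (s + 1)).mul_mem hκ' hκ, ?_⟩
  rw [act_val_mul, ← h, h']

theorem Eqv.mono {s t : ℕ} (hst : s ≤ t) {y y' : X} (h : Eqv T t y y') : Eqv T s y y' := by
  obtain ⟨κ, hκ, h⟩ := h
  exact ⟨κ, K_antitone (Nat.succ_le_succ hst) hκ, h⟩

theorem Eqv.zpow {s : ℕ} {y y' : X} (h : Eqv T s y y') (n : ℤ) :
    Eqv T s ((T ^ n) y) ((T ^ n) y') := by
  obtain ⟨κ, hκ, h⟩ := h
  exact ⟨κ, hκ, by rw [← zpow_act, ← zpow_act, h, zpow_act]⟩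

/-- `u0` acts trivially on the factors. -/
theorem eqv_u0 (s : ℕ) (y : X) : Eqv T s y (PRR.act T u0 y) :=
  ⟨1, (K (s + 1)).one_mem, by rw [act_val_one]⟩

/-- Closedness of the relation `Eqv T s`. -/
def Clo (T : X ≃ₜ X) (s : ℕ) : Prop := IsClosed {p : X × X | Eqv T s p.1 p.2}

/-- The relations are invariant under limits, if they are closed. -/
theorem Clo.lim {s : ℕ} (hc : Clo T s) {Γ : Type} {w : Bt Γ} {f g : Γ → X}
    (h : w.Ev (fun γ => Eqv T s (f γ) (g γ))) : Eqv T s (Bt.lim w f) (Bt.lim w g) := by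
  have h1 : Bt.lim w (fun γ => (f γ, g γ)) ∈ {p : X × X | Eqv T s p.1 p.2} :=
    Bt.lim_mem_of_ev hc h
  rw [Bt.lim_prodMk] at h1
  exact h1

theorem Clo.act {s : ℕ} (hc : Clo T s) {y y' : X} (h : Eqv T s y y') (q : Bt ℤ) :
    Eqv T s (PRR.act T q y) (PRR.act T q y') :=
  hc.lim (Bt.Ev.of_all fun n => h.zpow n)

theorem Clo.gz {s : ℕ} (hc : Clo T s) (q : Bt ℤ) (y : X) :
    Eqv T s (PRR.act T q y) (PRR.act T (gz q).val y) := by
  rw [act_gz]
  exact (hc.act (eqv_u0 s y) q).trans (eqv_u0 s _)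

/-- Elements of `K (s+1)` act trivially on the `s`-th factor. -/
theorem eqv_K {s : ℕ} {κ : G} (hκ : κ ∈ K (s + 1)) (y : X) : Eqv T s y (PRR.act T κ.val y) :=
  ⟨κ, hκ, by rw [act_u0_val, act_val_u0]⟩

/-- The common refinement of all the `Eqv T s`. -/
def EqvInf (T : X ≃ₜ X) (y y' : X) : Prop := ∀ s, Eqv T s y y'

/-- The setoid of `Eqv T s`. -/
def st (T : X ≃ₜ X) (s : ℕ) : Setoid X where
  r := Eqv T s
  iseqv := ⟨Eqv.refl T s, Eqv.symm, Eqv.trans⟩

/-- The `s`-th factor of `X`. -/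
def Xs (T : X ≃ₜ X) (s : ℕ) : Type := Quotient (st T s)

/-- The factor map. -/
def mk (T : X ≃ₜ X) (s : ℕ) (y : X) : Xs T s := Quotient.mk (st T s) y

instance (T : X ≃ₜ X) (s : ℕ) : TopologicalSpace (Xs T s) :=
  inferInstanceAs (TopologicalSpace (Quotient (st T s)))

instance (T : X ≃ₜ X) (s : ℕ) : CompactSpace (Xs T s) :=
  inferInstanceAs (CompactSpace (Quotient (st T s)))

theorem continuous_mk (T : X ≃ₜ X) (s : ℕ) : Continuous (mk T s) := continuous_quotient_mk'

theorem mk_surj (T : X ≃ₜ X) (s : ℕ) : Function.Surjective (mk T s) := Quotient.mk_surjective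

theorem mk_eq_iff {T : X ≃ₜ X} {s : ℕ} {y y' : X} : mk T s y = mk T s y' ↔ Eqv T s y y' :=
  Quotient.eq (r := st T s)

/-- The projection between consecutive factors. -/
def pr (T : X ≃ₜ X) {s t : ℕ} (h : s ≤ t) : Xs T t → Xs T s :=
  Quotient.lift (s := st T t) (mk T s) (fun _ _ hab => mk_eq_iff.2 (Eqv.mono h hab))

theorem pr_mk (T : X ≃ₜ X) {s t : ℕ} (h : s ≤ t) (y : X) : pr T h (mk T t y) = mk T s y := rfl

theorem continuous_pr (T : X ≃ₜ X) {s t : ℕ} (h : s ≤ t) : Continuous (pr T h) :=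
  Continuous.quotient_lift (continuous_mk T s) _

/-- The maps induced by the powers of `T`. -/
def ts (T : X ≃ₜ X) (s : ℕ) (n : ℤ) : Xs T s → Xs T s :=
  Quotient.lift (s := st T s) (fun y => mk T s ((T ^ n) y))
    (fun _ _ hab => mk_eq_iff.2 (Eqv.zpow hab n))

theorem ts_mk (T : X ≃ₜ X) (s : ℕ) (n : ℤ) (y : X) : ts T s n (mk T s y) = mk T s ((T ^ n) y) :=
  rfl

theorem continuous_ts (T : X ≃ₜ X) (s : ℕ) (n : ℤ) : Continuous (ts T s n) :=
  Continuous.quotient_lift ((continuous_mk T s).comp (T ^ n).continuous) _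

/-- Evaluation of a polynomial along an ultrafilter: `lim_{(a, n) → w} T^{a + P(n)} x`. -/
noncomputable def ev (T : X ≃ₜ X) (w : Bt (ℤ × ℤ)) (P : Polynomial ℤ) (x : X) : X :=
  Bt.lim w (fun γ => (T ^ (γ.1 + P.eval γ.2)) x)

/-- The ultrafilters which act trivially on all polynomial orbits of the image of `x` in the
`s`-th factor. -/
def Stab (T : X ≃ₜ X) (s : ℕ) (x : X) : Set (Bt (ℤ × ℤ)) :=
  {w | ∀ P : Polynomial ℤ, Eqv T s (ev T w P x) ((T ^ (P.eval 0)) x)}

theorem continuous_ev (T : X ≃ₜ X) (P : Polynomial ℤ) (x : X) :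
    Continuous (fun w => ev T w P x) := Bt.continuous_lim _

theorem Stab_mono {s t : ℕ} (h : s ≤ t) (x : X) : Stab T t x ⊆ Stab T s x :=
  fun _ hw P => (hw P).mono h

theorem Stab_closed {s : ℕ} (hc : Clo T s) (x : X) : IsClosed (Stab T s x) := by
  have : Stab T s x = ⋂ P : Polynomial ℤ,
      {w | Eqv T s (ev T w P x) ((T ^ (P.eval 0)) x)} := by
    ext w
    simp [Stab]
  rw [this]
  exact isClosed_iInter fun P =>
    hc.preimage ((continuous_ev T P x).prodMk continuous_const)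

theorem ev_mul (w w' : Bt (ℤ × ℤ)) (P : Polynomial ℤ) (x : X) :
    ev T (w * w') P x = Bt.lim w (fun γ => ev T w'
      (P.comp (Polynomial.X + Polynomial.C γ.2) + Polynomial.C γ.1) x) := by
  unfold ev
  rw [Bt.lim_mul]
  congr 1
  funext γ
  congr 1
  funext γ'
  have : γ.1 + γ'.1 + P.eval (γ.2 + γ'.2) = γ'.1 +
      (P.comp (Polynomial.X + Polynomial.C γ.2) + Polynomial.C γ.1).eval γ'.2 := by
    simp only [Polynomial.eval_add, Polynomial.eval_comp, Polynomial.eval_X, Polynomial.eval_C]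
    rw [add_comm γ.2 γ'.2]
    ring
  rw [← this]
  rfl

/-- If `w'` fixes the orbits of `x`, then `w * w'` and `w` act in the same way. -/
theorem ev_mul_eqv {s : ℕ} (hc : Clo T s) {x : X} (w : Bt (ℤ × ℤ)) {w' : Bt (ℤ × ℤ)}
    (hw' : w' ∈ Stab T s x) (P : Polynomial ℤ) :
    Eqv T s (ev T (w * w') P x) (ev T w P x) := by
  rw [ev_mul]
  refine hc.lim (Bt.Ev.of_all fun γ => ?_)
  have h := hw' (P.comp (Polynomial.X + Polynomial.C γ.2) + Polynomial.C γ.1)
  have h2 : (P.comp (Polynomial.X + Polynomial.C γ.2) + Polynomial.C γ.1).eval 0 =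
      γ.1 + P.eval γ.2 := by
    simp only [Polynomial.eval_add, Polynomial.eval_comp, Polynomial.eval_X, Polynomial.eval_C,
      zero_add]
    ring
  rw [h2] at h
  exact h

theorem Stab_mul {s : ℕ} (hc : Clo T s) {x : X} {w w' : Bt (ℤ × ℤ)} (hw : w ∈ Stab T s x)
    (hw' : w' ∈ Stab T s x) : w * w' ∈ Stab T s x :=
  fun P => (ev_mul_eqv hc w hw' P).trans (hw P)

/-- The `r`-dimensional cubes of the `s`-th factor. -/
def Qs (T : X ≃ₜ X) (x : X) (s r : ℕ) : Set (Finset (Fin r) → Xs T s) :=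
  {c | ∃ w : Bt (ℤ × (Fin r → ℤ)), ∀ S, c S = mk T s (PRR.act T (Bt.map (arr (ind S)) w) x)}

end Dyn

end Pool.Agent.PRR
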