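import Pool.Agent.PRR.Sys
import Pool.Agent.PRR.NilDefs

/-!
Exact targets for the dynamical part.
-/

set_option autoImplicit false

namespace Pool.Agent.PRR

open Filter Topology

/-! ### The relations and the factors -/

/-- The cube relation: `(y, ..., y, y')` is an `s`-dimensional cube. -/
def Rel {X : Type} [TopologicalSpace X] (T : X ≃ₜ X) (x : X) (s : ℕ) (y y' : X) : Prop :=
  ∃ w : Bt (ℤ × (Fin s → ℤ)),
    (∀ S : Finset (Fin s), S ≠ Finset.univ → act T (Bt.map (arr (ind S)) w) x = y) ∧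
    act T (Bt.map (arr (fun _ => 1)) w) x = y'

/-- The cube relation is given by the group `K s`. -/
def T_REL : Prop := ∀ (X : Type) [TopologicalSpace X] [CompactSpace X] [T2Space X]
  (T : X ≃ₜ X), IsMin T → ∀ x : X, act T u0 x = x → ∀ (s : ℕ) (y y' : X),
  Rel T x s y y' ↔ ∃ κ ∈ K s, act T u0 y' = act T κ.val (act T u0 y)

/-- The relations `Eqv T s` are closed. -/
def T_CLO : Prop := ∀ (X : Type) [TopologicalSpace X] [CompactSpace X] [T2Space X]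
  (T : X ≃ₜ X), IsMin T → ∀ s, Clo T s

/-- The class of `x` for the intersection of the relations is given by `Kinf`. -/
def T_INF : Prop := ∀ (X : Type) [TopologicalSpace X] [CompactSpace X] [T2Space X]
  (T : X ≃ₜ X), IsMin T → ∀ x : X, act T u0 x = x → ∀ y, EqvInf T x y →
  ∃ κ ∈ Kinf, act T u0 y = act T κ.val x

/-- The factors are Hausdorff. -/
def T_T2 : Prop := ∀ (X : Type) [TopologicalSpace X] [CompactSpace X] [T2Space X]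
  (T : X ≃ₜ X), IsMin T → ∀ s, T2Space (Xs T s)

/-- Cubes of dimension `s + 1` in the `s`-th factor are determined by all but one vertex. -/
def T_UNIQ : Prop := ∀ (X : Type) [TopologicalSpace X] [CompactSpace X] [T2Space X]
  (T : X ≃ₜ X), IsMin T → ∀ x : X, act T u0 x = x → ∀ s, ∀ c ∈ Qs T x s (s + 1),
  ∀ c' ∈ Qs T x s (s + 1), (∀ S, S ≠ Finset.univ → c S = c' S) → c = c'

/-- The structure of one step of the tower of factors. -/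
def T_VD : Prop := ∀ (X : Type) [TopologicalSpace X] [CompactSpace X] [T2Space X]
  (T : X ≃ₜ X), IsMin T → ∀ x : X, act T u0 x = x → ∀ s : ℕ,
  ∃ (V : Type) (_ : AddCommGroup V) (_ : TopologicalSpace V) (_ : CompactSpace V)
    (_ : T2Space V) (_ : IsTopologicalAddGroup V) (_ : AddAction V (Xs T (s + 1))),
    StepData V (pr T (Nat.le_succ s)) (s + 1) (Qs T x (s + 1) (s + 1 + 1))

/-! ### Division -/

/-- Hyperplane-vanishing arrays in at least two directions can be divided. -/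
def T_DIVARR : Prop := ∀ (ι : Type) [Fintype ι] [DecidableEq ι] (F : (ι → ℤ) → G), HV F →
  2 ≤ Fintype.card ι → ∀ m : ι → ℤ, (∀ l, 0 < m l) →
  ∃ F' : (ι → ℤ) → G, HV F' ∧ ∀ i, F i = F' (fun l => m l * i l)

/-- `K s / K (s+1)` is divisible for `s ≥ 2`. -/
def T_DIV : Prop := ∀ (s : ℕ), 2 ≤ s → ∀ κ ∈ K s, ∀ m : ℕ, 0 < m →
  ∃ κ' ∈ K s, κ' ^ m * κ⁻¹ ∈ K (s + 1)

/-- Multiples and powers agree modulo `K 2`. -/
def T_DIV1 : Prop := ∀ (q : Bt ℤ) (m : ℕ),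
  gz (Bt.map (fun n => (m : ℤ) * n) q) * ((gz q) ^ m)⁻¹ ∈ K 2

/-- Elements of `K 2` have residue zero. -/
def T_KRES : Prop := ∀ κ ∈ K 2, ∀ m : ℤ, m ≠ 0 → κ.val.Ev (fun n => m ∣ n)

/-- `p`-th roots of elements with residue zero modulo all powers of `p`, modulo `K (s+1)`. -/
def T_GROOT : Prop := ∀ (p : ℕ) [Fact p.Prime] (s : ℕ) (g : G),
  (∀ i : ℕ, g.val.Ev (fun n => (p : ℤ) ^ i ∣ n)) →
  ∃ h : G, (∀ i : ℕ, h.val.Ev (fun n => (p : ℤ) ^ i ∣ n)) ∧ h ^ p * g⁻¹ ∈ K (s + 1)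

/-- An element of the fixer of `x` with residue one. -/
def T_ONE : Prop := ∀ (X : Type) [TopologicalSpace X] [CompactSpace X] [T2Space X]
  (T : X ≃ₜ X), ∀ (p : ℕ) [Fact p.Prime], IsMin T → IsMin (T ^ p) →
  ∀ x : X, act T u0 x = x →
  ∃ a : G, act T a.val x = x ∧ ∀ i : ℕ, a.val.Ev (fun n => (p : ℤ) ^ i ∣ n - 1)

/-- The linear theorem: `(g^m)_m` is an arithmetic progression. -/
def T_LIN : Prop := ∀ g : G, ∃ w : Bt (ℤ × ℤ), ∀ m : ℤ,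
  Bt.map (fun γ => γ.1 + m * γ.2) w = (g ^ m).val

/-- Systems of `p`-power roots on the `s`-th factor. -/
structure RootData {X : Type} [TopologicalSpace X] [CompactSpace X] [T2Space X] (T : X ≃ₜ X)
    (x : X) (s p : ℕ) {R : Type} [CommRing R] (ξ : R → Xs T s) : Prop where
  unit : IsUnit (p : R)
  zero : ξ 0 = mk T s x
  shift : ∀ (c : R) (n : ℤ), ξ (c + (n : R)) = ts T s n (ξ c)
  cube : ∀ (r : ℕ) (c0 : R) (c : Fin r → R), (fun S => ξ (c0 + ∑ l ∈ S, c l)) ∈ Qs T x s r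
  lin : ∃ w : Bt (R × ℤ), w.Ev (fun γ => (p : ℤ) ∣ γ.2 - 1) ∧
    ∀ c0 c1 : R, Bt.lim w (fun γ => ξ (γ.1 + c0 + c1 * (γ.2 : R))) = ξ c0

/-- Existence of systems of roots. -/
def T_ROOT : Prop := ∀ (X : Type) [TopologicalSpace X] [CompactSpace X] [T2Space X]
  (T : X ≃ₜ X), ∀ (p : ℕ) [Fact p.Prime], IsMin T → IsMin (T ^ p) →
  ∀ x : X, act T u0 x = x → ∀ s : ℕ,
  ∃ (R : Type) (_ : CommRing R) (ξ : R → Xs T s), RootData T x s p ξ

/-! ### Finite order factors: residues, idempotents -/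

/-- Residue prime to `p`. -/
def T_NIL1 : Prop := ∀ (X : Type) [TopologicalSpace X] [CompactSpace X] [T2Space X]
  (T : X ≃ₜ X), ∀ (p : ℕ) [Fact p.Prime], IsMin T → IsMin (T ^ p) →
  ∀ x : X, act T u0 x = x → ∀ s : ℕ,
  ∃ w ∈ Stab T s x, ¬ w.Ev (fun γ => (p : ℤ) ∣ γ.2)

/-- All residues modulo `k`, for all factors at once. -/
def T_NILJ : Prop := ∀ (X : Type) [TopologicalSpace X] [CompactSpace X] [T2Space X]
  (T : X ≃ₜ X), ∀ k : ℕ, 0 < k → IsMin T → (∀ p : ℕ, p.Prime → p ∣ k → IsMin (T ^ p)) →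
  ∀ x : X, act T u0 x = x → ∀ j : ℤ,
  ∃ w : Bt (ℤ × ℤ), (∀ s, w ∈ Stab T s x) ∧ w.Ev (fun γ => (k : ℤ) ∣ γ.2 - j)

/-- Idempotents act trivially on the polynomial orbits of the factors. -/
def T_DIST : Prop := ∀ (X : Type) [TopologicalSpace X] [CompactSpace X] [T2Space X]
  (T : X ≃ₜ X), IsMin T → ∀ x : X, act T u0 x = x → ∀ e : Bt (ℤ × ℤ), e * e = e →
  ∀ s : ℕ, e ∈ Stab T s x

/-! ### Linear saturation and the base statement -/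

/-- Linear saturation. -/
def T_LS : Prop := ∀ (X : Type) [TopologicalSpace X] [CompactSpace X] [T2Space X]
  (T : X ≃ₜ X), IsMin T → ∀ x : X, act T u0 x = x →
  ∀ (W : Finset ℤ) (κ : ℤ → G), (∀ c ∈ W, κ c ∈ Kinf) →
  ∃ e : Bt (ℤ × ℤ), (∀ s, e ∈ Stab T s x) ∧ (∀ m : ℤ, m ≠ 0 → e.Ev (fun γ => m ∣ γ.2)) ∧
    ∀ c ∈ W, Bt.map (fun γ => γ.1 + c * γ.2) e = (κ c).val

/-- An idempotent going to `+∞`, compatible with `u0`. -/
def T_PLUS : Prop := ∃ e : Bt (ℤ × ℤ), e * e = e ∧ (∀ N : ℤ, e.Ev (fun γ => N < γ.2)) ∧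
  Bt.map (fun a : ℤ => (a, (0 : ℤ))) u0 * e = e ∧ e * Bt.map (fun a : ℤ => (a, (0 : ℤ))) u0 = e ∧
  ∀ c : ℤ, Bt.map (fun γ => γ.1 + c * γ.2) e = u0

/-- The base statement in one variable. -/
def T_B : Prop := ∀ (X : Type) [TopologicalSpace X] [CompactSpace X] [T2Space X]
  (T : X ≃ₜ X), ∀ k : ℕ, 0 < k → IsMin T → (∀ p : ℕ, p.Prime → p ∣ k → IsMin (T ^ p)) →
  ∀ x : X, act T u0 x = x → ∀ j : ℤ,
  ∃ α : G, act T α.val x = x ∧ ∀ (W : Finset ℤ) (κ : ℤ → G), (0 : ℤ) ∉ W →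
    (∀ c ∈ W, κ c ∈ Kinf) → ∃ w : Bt (ℤ × ℤ), (∀ s, w ∈ Stab T s x) ∧
    Bt.map (fun a : ℤ => (a, (0 : ℤ))) u0 * w = w ∧
    w * Bt.map (fun a : ℤ => (a, (0 : ℤ))) u0 = w ∧
    Bt.map (fun γ => γ.1) w = α.val ∧
    (∀ c ∈ W, act T (Bt.map (fun γ => γ.1 + c * γ.2) w) x = act T (κ c).val x) ∧
    w.Ev (fun γ => (k : ℤ) ∣ γ.2 - j) ∧ ∀ N : ℤ, w.Ev (fun γ => N < γ.2)

/-- The base statement in several variables. -/
def T_JOINT : Prop := ∀ (X : Type) [TopologicalSpace X] [CompactSpace X] [T2Space X]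
  (T : X ≃ₜ X), ∀ k : ℕ, 0 < k → IsMin T → (∀ p : ℕ, p.Prime → p ∣ k → IsMin (T ^ p)) →
  ∀ x : X, act T u0 x = x → ∀ (j : ℤ) (r : ℕ) (W : Finset ℤ) (κ : Fin r → ℤ → G),
  (0 : ℤ) ∉ W → (∀ i, ∀ c ∈ W, κ i c ∈ Kinf) →
  ∃ w : Bt (ℤ × (Fin r → ℤ)),
    act T (Bt.map (fun γ => γ.1) w) x = x ∧
    (∀ i, ∀ c ∈ W, act T (Bt.map (fun γ => γ.1 + c * γ.2 i) w) x = act T (κ i c).val x) ∧
    (∀ i, ∀ P : Polynomial ℤ, P.eval 0 = 0 → ∃ κ' ∈ Kinf, ∃ α : G, act T α.val x = x ∧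
      Bt.map (fun γ => γ.1 + P.eval (γ.2 i)) w = (κ' * α).val) ∧
    (∀ i, w.Ev (fun γ => (k : ℤ) ∣ γ.2 i - j)) ∧
    (∀ N : ℤ, w.Ev (fun γ => ∀ i, N < γ.2 i)) ∧
    ∀ F : ℤ → ℤ, ∀ i i' : Fin r, i < i' → w.Ev (fun γ => F (γ.2 i) < γ.2 i')

/-! ### The PET induction -/

/-- The statement proved by PET induction. -/
def Hit {X : Type} [TopologicalSpace X] (T : X ≃ₜ X) (x : X) (k : ℕ)
    (P : Finset (Polynomial ℤ)) : Prop :=
  ∀ (g : Polynomial ℤ → G), (∀ p ∈ P, g p ∈ Kinf) → ∀ (j N : ℤ) (Q : Finset (Polynomial ℤ)),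
  (∀ q ∈ Q, q.eval 0 = 0) → ∀ U : Set X, IsOpen U → x ∈ U →
  ∀ UP : Polynomial ℤ → Set X, (∀ p ∈ P, IsOpen (UP p) ∧ act T (g p).val x ∈ UP p) →
  ∀ O : Set X, IsOpen O → (∀ y, EqvInf T x y → y ∈ O) →
  ∃ z ∈ U, ∃ n : ℤ, N < n ∧ (k : ℤ) ∣ n - j ∧ (∀ p ∈ P, (T ^ (p.eval n)) z ∈ UP p) ∧
    ∀ q ∈ Q, (T ^ (q.eval n)) z ∈ O

/-- The reduced family. -/
noncomputable def red (P1 : Polynomial ℤ) (P : Finset (Polynomial ℤ)) {r : ℕ} (ν : Fin r → ℤ) :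
    Finset (Polynomial ℤ) := by
  classical
  exact ((P ×ˢ (Finset.univ : Finset (Fin r))).image
    (fun q => q.1.comp (Polynomial.X + Polynomial.C (ν q.2)) -
      Polynomial.C (q.1.eval (ν q.2)) - P1)).erase 0

/-- Admissible families: nonzero polynomials vanishing at zero. -/
def Adm (P : Finset (Polynomial ℤ)) : Prop := ∀ p ∈ P, p ≠ 0 ∧ p.eval 0 = 0

/-- The well-founded order of the PET induction. -/
def T_PETORD : Prop := ∃ lt : Finset (Polynomial ℤ) → Finset (Polynomial ℤ) → Prop,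
  WellFounded lt ∧ ∀ (P : Finset (Polynomial ℤ)), Adm P → ∀ P1 ∈ P,
  (∀ p ∈ P, P1.natDegree ≤ p.natDegree) → ∀ (r : ℕ) (ν : Fin r → ℤ), lt (red P1 P ν) P

/-- The inductive step. -/
def T_PETSTEP : Prop := ∀ (X : Type) [TopologicalSpace X] [CompactSpace X] [T2Space X]
  (T : X ≃ₜ X), ∀ k : ℕ, 0 < k → IsMin T → (∀ p : ℕ, p.Prime → p ∣ k → IsMin (T ^ p)) →
  ∀ x : X, act T u0 x = x → ∀ (P : Finset (Polynomial ℤ)), Adm P → ∀ P1 ∈ P,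
  (∀ p ∈ P, P1.natDegree ≤ p.natDegree) →
  (∀ (r : ℕ) (ν : Fin r → ℤ), Hit T x k (red P1 P ν)) → Hit T x k P

/-- The result of the PET induction. -/
def T_PET : Prop := ∀ (X : Type) [TopologicalSpace X] [CompactSpace X] [T2Space X]
  (T : X ≃ₜ X), ∀ k : ℕ, 0 < k → IsMin T → (∀ p : ℕ, p.Prime → p ∣ k → IsMin (T ^ p)) →
  ∀ x : X, act T u0 x = x → ∀ (P : Finset (Polynomial ℤ)), Adm P → Hit T x k P

/-- The frozen statement. -/
def T_MAIN : Prop := ∀ (X : Type) [MetricSpace X] [CompactSpace X] (T : X ≃ₜ X) (k : ℕ), 2 ≤ k →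
  (∀ x : X, Dense {y : X | ∃ n : ℕ, (⇑T)^[k * n] x = y}) →
  ∀ (d : ℕ) (P : Fin d → Polynomial ℤ),
    (∀ m, 0 < (P m).natDegree) → (∀ m, (P m).eval 0 = 0) →
    ∀ j : ℕ, j < k →
      ∃ G : Set X, IsGδ G ∧ Dense G ∧ ∀ x ∈ G, ∃ n : ℕ → ℕ,
        Filter.Tendsto n Filter.atTop Filter.atTop ∧ (∀ i, n i % k = j) ∧
        ∀ m, Filter.Tendsto
          (fun i => ((T.toEquiv : Equiv.Perm X) ^ ((P m).eval ((n i : ℕ) : ℤ))) x)
          Filter.atTop (nhds x)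

end Pool.Agent.PRR
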