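import Pool.Agent.PRR.Targets

/-!
Intermediate targets (splitting of larger jobs).
-/

set_option autoImplicit false

namespace Pool.Agent.PRR

open Filter Topology

/-- Systems of `p`-power roots, before the linear statement. -/
structure RootPre {X : Type} [TopologicalSpace X] [CompactSpace X] [T2Space X] (T : X ≃ₜ X)
    (x : X) (s p : ℕ) {R : Type} [CommRing R] (ξ : R → Xs T s) : Prop where
  unit : IsUnit (p : R)
  dens : ∀ c : R, ∃ (i : ℕ) (m : ℤ), c * (p : R) ^ i = (m : R)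
  zero : ξ 0 = mk T s x
  shift : ∀ (c : R) (n : ℤ), ξ (c + (n : R)) = ts T s n (ξ c)
  cube : ∀ (r : ℕ) (c0 : R) (c : Fin r → R), (fun S => ξ (c0 + ∑ l ∈ S, c l)) ∈ Qs T x s r
  root : ∀ (i : ℕ) (ε : R), ε * (p : R) ^ i = 1 → ∃ τ : G,
    (∀ k : ℕ, τ.val.Ev (fun n => (p : ℤ) ^ k ∣ n)) ∧
    ∀ (c : R) (y : X), mk T s y = ξ c → mk T s (act T τ.val y) = ξ (c + ε)

/-- Existence of systems of roots. -/
def T_ROOTA : Prop := ∀ (X : Type) [TopologicalSpace X] [CompactSpace X] [T2Space X]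
  (T : X ≃ₜ X), ∀ (p : ℕ) [Fact p.Prime], IsMin T → IsMin (T ^ p) →
  ∀ x : X, act T u0 x = x → ∀ s : ℕ,
  ∃ (R : Type) (_ : CommRing R) (ξ : R → Xs T s), RootPre T x s p ξ

/-- The linear statement for systems of roots. -/
def T_ROOTB : Prop := ∀ (X : Type) [TopologicalSpace X] [CompactSpace X] [T2Space X]
  (T : X ≃ₜ X), ∀ (p : ℕ) [Fact p.Prime], IsMin T → IsMin (T ^ p) →
  ∀ x : X, act T u0 x = x → ∀ (s : ℕ) (R : Type) [CommRing R] (ξ : R → Xs T s),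
  RootPre T x s p ξ →
  ∃ w : Bt (R × ℤ), w.Ev (fun γ => (p : ℤ) ∣ γ.2 - 1) ∧
    ∀ c0 c1 : R, Bt.lim w (fun γ => ξ (γ.1 + c0 + c1 * (γ.2 : R))) = ξ c0

/-- The compact group acting on the `(s+1)`-st factor. -/
def T_VDA : Prop := ∀ (X : Type) [TopologicalSpace X] [CompactSpace X] [T2Space X]
  (T : X ≃ₜ X), IsMin T → ∀ x : X, act T u0 x = x → ∀ s : ℕ,
  ∃ (V : Type) (_ : AddCommGroup V) (_ : TopologicalSpace V) (_ : CompactSpace V)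
    (_ : T2Space V) (_ : IsTopologicalAddGroup V) (_ : AddAction V (Xs T (s + 1))),
    Continuous (fun p : V × Xs T (s + 1) => p.1 +ᵥ p.2) ∧
    (∀ (v : V) (y : Xs T (s + 1)), v +ᵥ y = y → v = 0) ∧
    (∀ y y' : Xs T (s + 1), pr T (Nat.le_succ s) y = pr T (Nat.le_succ s) y' ↔
      ∃ v : V, y' = v +ᵥ y) ∧
    ∀ v : V, ∃ κ ∈ K (s + 1), ∀ y : X,
      v +ᵥ (mk T (s + 1) y) = mk T (s + 1) (act T κ.val y)

/-- The alternating sum property of cubes. -/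
def T_VDB : Prop := ∀ (X : Type) [TopologicalSpace X] [CompactSpace X] [T2Space X]
  (T : X ≃ₜ X), IsMin T → ∀ x : X, act T u0 x = x → ∀ (s : ℕ) (V : Type) [AddCommGroup V]
  [AddAction V (Xs T (s + 1))],
  (∀ (v : V) (y : Xs T (s + 1)), v +ᵥ y = y → v = 0) →
  (∀ v : V, ∃ κ ∈ K (s + 1), ∀ y : X,
    v +ᵥ (mk T (s + 1) y) = mk T (s + 1) (act T κ.val y)) →
  ∀ c ∈ Qs T x (s + 1) (s + 1 + 1), ∀ v : Finset (Fin (s + 1 + 1)) → V,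
    (fun S => v S +ᵥ c S) ∈ Qs T x (s + 1) (s + 1 + 1) →
    ∑ S : Finset (Fin (s + 1 + 1)), (-1 : ℤ) ^ S.card • v S = 0

/-- Linear saturation, one level and one slope. -/
def T_LS1 : Prop := ∀ (X : Type) [TopologicalSpace X] [CompactSpace X] [T2Space X]
  (T : X ≃ₜ X), IsMin T → ∀ x : X, act T u0 x = x → ∀ (s : ℕ), 1 ≤ s → ∀ (W : Finset ℤ)
  (c0 : ℤ), c0 ∉ W → ∀ q ∈ Kinf,
  ∃ e ∈ Stab T s x, (∀ m : ℤ, m ≠ 0 → e.Ev (fun γ => m ∣ γ.2)) ∧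
    Bt.map (fun γ => γ.1 + c0 * γ.2) e = q.val ∧
    ∀ c ∈ W, Bt.map (fun γ => γ.1 + c * γ.2) e = u0

/-- Recentred shift of a polynomial. -/
noncomputable def sh (p : Polynomial ℤ) (ν : ℤ) : Polynomial ℤ :=
  p.comp (Polynomial.X + Polynomial.C ν) - Polynomial.C (p.eval ν)

/-- Genericity of the shifts. -/
def T_GEN : Prop := ∀ (P : Finset (Polynomial ℤ)) (P1 : Polynomial ℤ), Adm P → P1 ∈ P →
  ∃ (N0 : ℤ) (F : ℤ → ℤ),
    (∀ p ∈ P, 2 ≤ p.natDegree → ∀ ν, N0 < ν → sh p ν ≠ P1) ∧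
    (∀ p ∈ P, ∀ p' ∈ P, 2 ≤ p.natDegree → 2 ≤ p'.natDegree → ∀ ν ν', F ν < ν' →
      sh p ν ≠ sh p' ν') ∧
    (∀ p ∈ P, ∀ p' ∈ P, ∀ ν, sh p ν = sh p' ν → p = p') ∧
    ∀ p ∈ P, p.natDegree ≤ 1 → ∀ ν, sh p ν = p

end Pool.Agent.PRR
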