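import Pool.Agent.PRR.Targets

/-!
Cubes of dimension `s + 1` in the `s`-th factor are determined by all but one vertex.
-/

set_option autoImplicit false

namespace Pool.Agent.PRR

open Filter Topology

namespace UNIQ

variable {X : Type} [TopologicalSpace X] [CompactSpace X] [T2Space X] {T : X ≃ₜ X}

/-- Fixer of the image of `x` in the `s`-th factor. -/
noncomputable def As (T : X ≃ₜ X) (s : ℕ) (hc : Clo T s) (x : X) : Subgroup G where
  carrier := {g | Eqv T s x (act T g.val x)}
  one_mem' := eqv_u0 s x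
  mul_mem' := by
    intro g h hg hh
    change Eqv T s x (act T (g * h).val x)
    rw [act_val_mul]
    have hg' : Eqv T s x (act T g.val x) := hg
    exact hg'.trans (hc.act hh g.val)
  inv_mem' := by
    intro g hg
    change Eqv T s x (act T (g⁻¹).val x)
    have h := hc.act (q := (g⁻¹).val) (hg : Eqv T s x (act T g.val x))
    rw [act_inv_val] at h
    exact ((eqv_u0 s x).trans h.symm)

/-- Representation of the cubes by arrays of the group. -/
theorem exists_AG {s r : ℕ} (hc : Clo T s) (x : X) {c : Finset (Fin r) → Xs T s}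
    (h : c ∈ Qs T x s r) : ∃ g ∈ AG (Fin r), ∀ S, c S = mk T s (act T (g (ind S)).val x) := by
  obtain ⟨w, hw⟩ := h
  refine ⟨fun i => gz (Bt.map (arr i) w), ⟨w, fun i => rfl⟩, fun S => ?_⟩
  rw [hw, mk_eq_iff]
  exact hc.gz _ _

end UNIQ

theorem p_UNIQ (h : T_CLO) : T_UNIQ := by
  intro X _ _ _ T hT x _ s c hcQ c' hcQ' hcc
  have hc : Clo T s := h X T hT s
  obtain ⟨g, hg, hcg⟩ := UNIQ.exists_AG hc x hcQ
  obtain ⟨g', hg', hcg'⟩ := UNIQ.exists_AG hc x hcQ'
  -- action of the group on classes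
  have hinv : ∀ (a b : G), Eqv T s (act T a.val x) (act T b.val x) →
      Eqv T s x (act T (a⁻¹ * b).val x) := by
    intro a b hab
    have h1 := hc.act hab (a⁻¹).val
    rw [act_inv_val, ← act_val_mul] at h1
    exact (eqv_u0 s x).trans h1
  let e : (Fin (s + 1) → ℤ) → G := fun i => (g i)⁻¹ * g' i
  have he : e ∈ AG (Fin (s + 1)) := (AG _).mul_mem ((AG _).inv_mem hg) hg'
  let A := UNIQ.As T s hc x
  have heS : ∀ S : Finset (Fin (s + 1)), S ≠ Finset.univ → e (ind S) ∈ A := by
    intro S hS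
    apply hinv
    rw [← mk_eq_iff, ← hcg, ← hcg', hcc S hS]
  let F := DL (Finset.univ : Finset (Fin (s + 1))).toList e
  have hF : HV F := by
    refine ⟨AG_DL he _, ?_⟩
    rintro i ⟨l, hl⟩
    exact DL_vanish _ _ _ l (by simp) hl
  have hF1 : (e (fun _ => 1))⁻¹ * F (fun _ => 1) ∈ A := (DL_top _ e A heS).2
  have hFK : F (fun _ => 1) ∈ K (s + 1) := ⟨F, hF, rfl⟩
  have hFA : F (fun _ => 1) ∈ A := eqv_K hFK x
  have he1 : e (fun _ => 1) ∈ A := by
    have h2 : e (fun _ => 1) = F (fun _ => 1) * ((e (fun _ => 1))⁻¹ * F (fun _ => 1))⁻¹ := by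
      group
    rw [h2]
    exact A.mul_mem hFA (A.inv_mem hF1)
  funext S
  by_cases hS : S = Finset.univ
  · subst hS
    rw [hcg, hcg', ind_univ, mk_eq_iff]
    have h3 := hc.act (q := (g (fun _ => 1)).val) (he1 : Eqv T s x (act T (e (fun _ => 1)).val x))
    rw [← act_val_mul] at h3
    have h4 : g (fun _ => 1) * e (fun _ => 1) = g' (fun _ => 1) := by
      simp only [e]
      group
    rwa [h4] at h3
  · exact hcc S hS

end Pool.Agent.PRR
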